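import Pool.Agent.SOM.Words

/-! Project SOH (MP_66ba69_lc), module A1D: the word 201 in the context 012 gives 012, definitions. -/

set_option autoImplicit false

namespace Pool.Agent.SOH

open Pool.Agent.SOC Pool.Agent.SOD Pool.Agent.RUP Pool.Agent.SOF

/-- the data: `X` is the order `x a b Y`, `XX` the order `a b x Y` -/
structure ASy (V : Type) where
  G : SimpleGraph V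
  X : V → V → V → V → Prop
  XX : V → V → V → V → Prop
  T : V → V → V → V → Prop
  x : V
  a : V
  b : V
  hX : Sym4 X
  hXX : Sym4 XX
  hT : Sym4 T

variable {V : Type}

/-- the new relation, one of the points is `x` -/
def ASy.RR (Y : ASy V) (p u v w : V) : Prop :=
  ((Y.G.Adj p v ∧ Y.G.Adj p w) ∧ Y.G.Adj u v ∧ Y.G.Adj u w) ∧ (p ≠ u ∧ v ≠ w) ∧
    ((¬ Y.G.Adj p u ∧ Y.T p u v w) ∨ (Y.G.Adj p u ∧ (u = Y.b ∨ (u = Y.a ∧ v ≠ Y.b ∧ w ≠ Y.b) ∨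
      ((u ≠ Y.a ∧ u ≠ Y.b) ∧ (v ≠ Y.a ∧ v ≠ Y.b) ∧ (w ≠ Y.a ∧ w ≠ Y.b) ∧
        ((Y.G.Adj Y.b v ∧ Y.G.Adj Y.b w ∧ Y.T Y.b u v w) ∨ (¬ Y.G.Adj Y.b v ∧ ¬ Y.G.Adj Y.b w ∧ Y.T p u v w))))))

/-- the new relation -/
def ASy.TT (Y : ASy V) (p q r s : V) : Prop :=
  (p = Y.x ∧ Y.RR p q r s) ∨ (q = Y.x ∧ Y.RR q p r s) ∨ (r = Y.x ∧ Y.RR r s p q) ∨ (s = Y.x ∧ Y.RR s r p q) ∨
    ((p ≠ Y.x ∧ q ≠ Y.x ∧ r ≠ Y.x ∧ s ≠ Y.x) ∧ Y.T p q r s)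

variable {Y : ASy V}

theorem rr_sym {p u v w : V} (h : Y.RR p u v w) : Y.RR p u w v := by
  have sw : ∀ {a b c d}, Y.T a b c d → Y.T a b d c := fun h => Y.hT.2 _ _ _ _ (Y.hT.1 _ _ _ _ (Y.hT.2 _ _ _ _ h))
  obtain ⟨⟨⟨h1, h2⟩, h3, h4⟩, ⟨h5, h6⟩, h7⟩ := h
  refine ⟨⟨⟨h2, h1⟩, h4, h3⟩, ⟨h5, h6.symm⟩, ?_⟩
  rcases h7 with ⟨k1, k2⟩ | ⟨k1, k2 | ⟨k2, k3, k4⟩ | ⟨k2, k3, k4, k5⟩⟩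
  · exact Or.inl ⟨k1, sw k2⟩
  · exact Or.inr ⟨k1, Or.inl k2⟩
  · exact Or.inr ⟨k1, Or.inr (Or.inl ⟨k2, k4, k3⟩)⟩
  · refine Or.inr ⟨k1, Or.inr (Or.inr ⟨k2, k4, k3, ?_⟩)⟩
    rcases k5 with ⟨l1, l2, l3⟩ | ⟨l1, l2, l3⟩
    · exact Or.inl ⟨l2, l1, sw l3⟩
    · exact Or.inr ⟨l2, l1, sw l3⟩

theorem tt_sym : Sym4 Y.TT := by
  constructor
  · rintro p q r s (⟨e, h⟩ | ⟨e, h⟩ | ⟨e, h⟩ | ⟨e, h⟩ | ⟨⟨e1, e2, e3, e4⟩, h⟩)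
    · exact Or.inr (Or.inl ⟨e, h⟩)
    · exact Or.inl ⟨e, h⟩
    · exact Or.inr (Or.inr (Or.inl ⟨e, rr_sym h⟩))
    · exact Or.inr (Or.inr (Or.inr (Or.inl ⟨e, rr_sym h⟩)))
    · exact Or.inr (Or.inr (Or.inr (Or.inr ⟨⟨e2, e1, e3, e4⟩, Y.hT.1 _ _ _ _ h⟩)))
  · rintro p q r s (⟨e, h⟩ | ⟨e, h⟩ | ⟨e, h⟩ | ⟨e, h⟩ | ⟨⟨e1, e2, e3, e4⟩, h⟩)
    · exact Or.inr (Or.inr (Or.inl ⟨e, h⟩))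
    · exact Or.inr (Or.inr (Or.inr (Or.inl ⟨e, h⟩)))
    · exact Or.inl ⟨e, h⟩
    · exact Or.inr (Or.inl ⟨e, h⟩)
    · exact Or.inr (Or.inr (Or.inr (Or.inr ⟨⟨e3, e4, e1, e2⟩, Y.hT.2 _ _ _ _ h⟩)))

theorem tt_n {p q r s : V} (h1 : p ≠ Y.x) (h2 : q ≠ Y.x) (h3 : r ≠ Y.x) (h4 : s ≠ Y.x) : Y.TT p q r s ↔ Y.T p q r s := by
  constructor
  · rintro (⟨e, _⟩ | ⟨e, _⟩ | ⟨e, _⟩ | ⟨e, _⟩ | ⟨_, h⟩)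
    · exact absurd e h1
    · exact absurd e h2
    · exact absurd e h3
    · exact absurd e h4
    · exact h
  · exact fun h => Or.inr (Or.inr (Or.inr (Or.inr ⟨⟨h1, h2, h3, h4⟩, h⟩)))

/-- the first point is `x` -/
theorem tt_x {p q r s : V} (h1 : p = Y.x) (h2 : p ≠ q) (h3 : p ≠ r) (h4 : p ≠ s) : Y.TT p q r s ↔ Y.RR p q r s := by
  constructor
  · rintro (⟨_, h⟩ | ⟨e, _⟩ | ⟨e, _⟩ | ⟨e, _⟩ | ⟨⟨e, _⟩, _⟩)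
    · exact h
    · exact absurd (h1.trans e.symm) h2
    · exact absurd (h1.trans e.symm) h3
    · exact absurd (h1.trans e.symm) h4
    · exact absurd h1 e
  · exact fun h => Or.inl ⟨h1, h⟩

section
variable {p u v w q : V}

theorem rr_na (hn : ¬ Y.G.Adj p u) (n1 : p ≠ u) (n2 : v ≠ w) (ad : ∀ {a b c d}, Y.T a b c d → Y.G.Adj a c) : Y.RR p u v w ↔ Y.T p u v w := by
  constructor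
  · rintro ⟨_, _, ⟨_, h⟩ | ⟨h, _⟩⟩
    · exact h
    · exact absurd h hn
  · intro h
    have h1 := Y.hT.1 _ _ _ _ h
    have sw : ∀ {a b c d}, Y.T a b c d → Y.T a b d c := fun h => Y.hT.2 _ _ _ _ (Y.hT.1 _ _ _ _ (Y.hT.2 _ _ _ _ h))
    exact ⟨⟨⟨ad h, ad (sw h)⟩, ad h1, ad (sw h1)⟩, ⟨n1, n2⟩, Or.inl ⟨hn, h⟩⟩

theorem rr_b (e0 : Y.G.Adj p u) (e1 : Y.G.Adj p v) (e2 : Y.G.Adj p w) (e3 : Y.G.Adj u v) (e4 : Y.G.Adj u w) (n2 : v ≠ w)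
    (hu : u = Y.b) : Y.RR p u v w :=
  ⟨⟨⟨e1, e2⟩, e3, e4⟩, ⟨e0.ne, n2⟩, Or.inr ⟨e0, Or.inl hu⟩⟩

theorem rr_a (e0 : Y.G.Adj p u) (e1 : Y.G.Adj p v) (e2 : Y.G.Adj p w) (e3 : Y.G.Adj u v) (e4 : Y.G.Adj u w) (n2 : v ≠ w)
    (hu : u = Y.a) (hv : ¬ v = Y.b) (hw : ¬ w = Y.b) : Y.RR p u v w :=
  ⟨⟨⟨e1, e2⟩, e3, e4⟩, ⟨e0.ne, n2⟩, Or.inr ⟨e0, Or.inr (Or.inl ⟨hu, hv, hw⟩)⟩⟩

theorem rr_ab (h : Y.RR p u v w) (hu : u = Y.a) (nb : u ≠ v) (e0 : Y.G.Adj p u) : ¬ v = Y.b := by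
  intro hv
  obtain ⟨_, _, ⟨k, _⟩ | ⟨_, k | ⟨_, k, _⟩ | ⟨⟨k, _⟩, _⟩⟩⟩ := h
  · exact k e0
  · exact nb (k.trans hv.symm)
  · exact k hv
  · exact k hu

theorem rr_ya (h : Y.RR p u v w) (e0 : Y.G.Adj p u) (h1 : ¬ u = Y.a) (h2 : ¬ u = Y.b) : ¬ v = Y.a ∧ ¬ v = Y.b := by
  obtain ⟨_, _, ⟨k, _⟩ | ⟨_, k | ⟨k, _⟩ | ⟨_, k, _⟩⟩⟩ := h
  · exact absurd e0 k
  · exact absurd k h2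
  · exact absurd k h1
  · exact k

theorem rr_y1 (e0 : Y.G.Adj p u) (h1 : ¬ u = Y.a) (h2 : ¬ u = Y.b) (h3 : ¬ v = Y.a) (h4 : ¬ v = Y.b) (h5 : ¬ w = Y.a) (h6 : ¬ w = Y.b)
    (hq : q = Y.b) (k1 : Y.G.Adj q v) (k2 : Y.G.Adj q w) (e1 : Y.G.Adj p v) (e2 : Y.G.Adj p w) (n2 : v ≠ w)
    (ad : ∀ {a b c d}, Y.T a b c d → Y.G.Adj a c) : Y.RR p u v w ↔ Y.T q u v w := by
  subst hq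
  constructor
  · rintro ⟨_, _, ⟨k, _⟩ | ⟨_, k | ⟨k, _⟩ | ⟨_, _, _, ⟨_, _, k⟩ | ⟨k, _⟩⟩⟩⟩
    · exact absurd e0 k
    · exact absurd k h2
    · exact absurd k h1
    · exact k
    · exact absurd k1 k
  · intro h
    have h7 := Y.hT.1 _ _ _ _ h
    have sw : ∀ {a b c d}, Y.T a b c d → Y.T a b d c := fun h => Y.hT.2 _ _ _ _ (Y.hT.1 _ _ _ _ (Y.hT.2 _ _ _ _ h))
    exact ⟨⟨⟨e1, e2⟩, ad h7, ad (sw h7)⟩, ⟨e0.ne, n2⟩, Or.inr ⟨e0, Or.inr (Or.inr ⟨⟨h1, h2⟩, ⟨h3, h4⟩, ⟨h5, h6⟩, Or.inl ⟨k1, k2, h⟩⟩)⟩⟩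

theorem rr_y0 (e0 : Y.G.Adj p u) (h1 : ¬ u = Y.a) (h2 : ¬ u = Y.b) (h3 : ¬ v = Y.a) (h4 : ¬ v = Y.b) (h5 : ¬ w = Y.a) (h6 : ¬ w = Y.b)
    (hq : q = Y.b) (k1 : ¬ Y.G.Adj q v) (k2 : ¬ Y.G.Adj q w) (n2 : v ≠ w)
    (ad : ∀ {a b c d}, Y.T a b c d → Y.G.Adj a c) : Y.RR p u v w ↔ Y.T p u v w := by
  subst hq
  constructor
  · rintro ⟨_, _, ⟨k, _⟩ | ⟨_, k | ⟨k, _⟩ | ⟨_, _, _, ⟨k, _⟩ | ⟨_, _, k⟩⟩⟩⟩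
    · exact absurd e0 k
    · exact absurd k h2
    · exact absurd k h1
    · exact absurd k k1
    · exact k
  · intro h
    have h7 := Y.hT.1 _ _ _ _ h
    have sw : ∀ {a b c d}, Y.T a b c d → Y.T a b d c := fun h => Y.hT.2 _ _ _ _ (Y.hT.1 _ _ _ _ (Y.hT.2 _ _ _ _ h))
    exact ⟨⟨⟨ad h, ad (sw h)⟩, ad h7, ad (sw h7)⟩, ⟨e0.ne, n2⟩,
      Or.inr ⟨e0, Or.inr (Or.inr ⟨⟨h1, h2⟩, ⟨h3, h4⟩, ⟨h5, h6⟩, Or.inr ⟨k1, k2, h⟩⟩)⟩⟩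

theorem rr_y2 (h : Y.RR p u v w) (e0 : Y.G.Adj p u) (h1 : ¬ u = Y.a) (h2 : ¬ u = Y.b) (hq : q = Y.b) (k1 : Y.G.Adj q v) (k2 : ¬ Y.G.Adj q w) :
    False := by
  subst hq
  obtain ⟨_, _, ⟨k, _⟩ | ⟨_, k | ⟨k, _⟩ | ⟨_, _, _, ⟨_, k, _⟩ | ⟨k, _⟩⟩⟩⟩ := h
  · exact k e0
  · exact h2 k
  · exact h1 k
  · exact k2 k
  · exact k k1

end

/-- quaternary relations -/
def ASy.fam (Y : ASy V) : Nat → V → V → V → V → Prop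
  | 0 => Y.X
  | 1 => Y.T
  | 2 => Y.XX
  | 3 => Y.TT
  | _ => fun _ _ _ _ => False

/-- binary relations -/
def ASy.fam2 (Y : ASy V) : Nat → V → V → Prop
  | 0 => Y.G.Adj
  | 1 => fun a b => a = b ∧ a = Y.x
  | 2 => fun a b => a = b ∧ a = Y.a
  | 3 => fun a b => a = b ∧ a = Y.b
  | _ => fun _ _ => False

theorem ASy.sym (Y : ASy V) (r : Nat) : Sym4 (Y.fam r) := by
  unfold ASy.fam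
  split
  · exact Y.hX
  · exact Y.hT
  · exact Y.hXX
  · exact tt_sym
  · exact ⟨fun _ _ _ _ h => h, fun _ _ _ _ h => h⟩

/-- the relations -/
def ASy.rel (Y : ASy V) : SRel V where
  r2 := Y.fam2
  r3 := fun _ _ _ _ => False
  r4 := Y.fam
  s2 := by
    intro r a b h
    unfold ASy.fam2 at h ⊢
    split at h
    · exact SimpleGraph.Adj.symm h
    · exact ⟨h.1.symm, h.1 ▸ h.2⟩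
    · exact ⟨h.1.symm, h.1 ▸ h.2⟩
    · exact ⟨h.1.symm, h.1 ▸ h.2⟩
    · exact h
  s3 := fun h => h
  s3' := fun h => h
  s4 := fun {r} {_} {_} {_} {_} h => (Y.sym r).1 _ _ _ _ h
  s4' := fun {r} {_} {_} {_} {_} h => (Y.sym r).2 _ _ _ _ h

/-- the conditions -/
structure A1C (Y : ASy V) : Prop where
  sepr : Sepr Y.X
  sepr' : Sepr Y.XX
  qt : QT Y.G Y.X Y.T
  xa : Y.G.Adj Y.x Y.a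
  xb : Y.G.Adj Y.x Y.b
  ab : Y.G.Adj Y.a Y.b
  s1 : ∀ {z}, z ≠ Y.b → Y.G.Adj Y.a z → Y.G.Adj Y.b z
  s2 : ∀ {z}, z ≠ Y.x → Y.G.Adj Y.b z → Y.G.Adj Y.x z
  c1 : ∀ {z w}, z ≠ Y.a → z ≠ Y.b → w ≠ Y.x → w ≠ Y.a → Y.G.Adj Y.x z → ¬ Y.G.Adj Y.b z → Y.G.Adj Y.b w → Y.G.Adj z w
  c2 : ∀ {z w}, z ≠ Y.a → z ≠ Y.b → w ≠ Y.x → w ≠ Y.b → Y.G.Adj Y.x z → ¬ Y.G.Adj Y.a z → Y.G.Adj Y.a w → Y.G.Adj z w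
  o1 : ∀ {z}, z ≠ Y.x → z ≠ Y.a → z ≠ Y.b → Y.X Y.x Y.b Y.a z
  o2 : ∀ {z w}, ¬ Y.X Y.x Y.a z w
  o3 : ∀ {z w}, ¬ Y.X Y.a Y.b z w
  o4 : ∀ {z w}, z ≠ Y.a → w ≠ Y.a → ¬ Y.X Y.x Y.b z w
  r1 : ∀ {z w}, z ≠ Y.a → z ≠ Y.b → w ≠ Y.x → w ≠ Y.b → Y.G.Adj Y.x z → ¬ Y.G.Adj Y.a z → Y.G.Adj Y.a w → Y.X Y.x z Y.a w
  r2 : ∀ {z w}, z ≠ Y.a → z ≠ Y.b → w ≠ Y.x → w ≠ Y.a → Y.G.Adj Y.x z → ¬ Y.G.Adj Y.b z → Y.G.Adj Y.b w → Y.X Y.x z Y.a w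
  y0 : ∃ y, y ≠ Y.a ∧ y ≠ Y.b ∧ Y.G.Adj Y.x y ∧ ¬ Y.G.Adj Y.b y
  e0 : ∀ {u v w z}, u ≠ Y.x → v ≠ Y.x → w ≠ Y.x → z ≠ Y.x → (Y.XX u v w z ↔ Y.X u v w z)
  e1 : ∀ {u v w}, u ≠ Y.a → u ≠ Y.b → v ≠ Y.a → v ≠ Y.b → w ≠ Y.a → w ≠ Y.b → Y.XX Y.x u v w → Y.X Y.x u v w
  ea1 : ∀ {v w}, v ≠ Y.b → w ≠ Y.b → ¬ Y.XX Y.x Y.a v w
  ea2 : ∀ {u w}, u ≠ Y.b → w ≠ Y.b → u ≠ Y.a → w ≠ Y.a → u ≠ Y.x → w ≠ Y.x → (Y.XX Y.x u Y.a w ↔ Y.X Y.x w Y.a u)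
  eb1 : ∀ {v w}, v ≠ Y.a → w ≠ Y.a → ¬ Y.XX Y.x Y.b v w
  eb2 : ∀ {u w}, u ≠ Y.b → w ≠ Y.b → u ≠ Y.a → w ≠ Y.a → u ≠ Y.x → w ≠ Y.x → (Y.XX Y.x u Y.b w ↔ Y.X Y.x w Y.b u)
  e3 : ∀ {z}, z ≠ Y.x → z ≠ Y.a → z ≠ Y.b → Y.XX Y.x Y.a Y.b z
  e4 : ∀ {z}, ¬ Y.XX Y.x Y.b Y.a z
  e5 : ∀ {z}, ¬ Y.XX Y.x z Y.a Y.b

/-- the forced quartets -/
structure A1F (Y : ASy V) : Prop where
  fa : ∀ {z}, z ≠ Y.x → z ≠ Y.b → Y.G.Adj Y.a z → Y.T Y.x z Y.a Y.b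
  fb : ∀ {z w}, z ≠ Y.x → z ≠ Y.b → w ≠ Y.x → w ≠ Y.b → Y.G.Adj Y.a z → Y.G.Adj Y.a w → Y.G.Adj z w → Y.T Y.a Y.b z w

end Pool.Agent.SOH
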