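import Pool.Agent.SOM.Words

/-! Project SOH (MP_66ba69_lc), module Arr3: three rows, the word 210 in the context 102 gives 201, 2010, 2101, 21010. -/

set_option autoImplicit false

namespace Pool.Agent.SOH

open Pool.Agent.SOC Pool.Agent.SOD Pool.Agent.RUP Pool.Agent.SOF Pool.Agent.SOG Pool.Agent.SOJ Pool.Agent.SOV Pool.Agent.SOK Pool.Agent.SOS
open Pool.Agent.SOM

variable {V : Type} [DecidableEq V] {G : SimpleGraph V} {R1 R2 : List V}

/-- equal rows -/
def Tw (G : SimpleGraph V) (R : List V) (x y : V) : Prop := ∀ z ∈ R, (G.Adj x z ↔ G.Adj y z)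

/-- three vertices with the rows of `x`, `b`, `a` -/
structure Tri (G : SimpleGraph V) (R : List V) (x b a x' b' a' : V) : Prop where
  nd : (x' :: b' :: a' :: R).Nodup
  tx : Tw G R x' x
  tb : Tw G R b' b
  ta : Tw G R a' a
  xb : G.Adj x' b'
  xa : G.Adj x' a'
  ba : G.Adj b' a'

omit [DecidableEq V] in
theorem Tri.xR {R : List V} {x b a x' b' a' : V} (h : Tri G R x b a x' b' a') {z : V} (hz : z ∈ R) : z ≠ x' ∧ z ≠ b' ∧ z ≠ a' := by
  have := h.nd
  simp only [List.nodup_cons, List.mem_cons, not_or] at this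
  obtain ⟨⟨_, _, h1⟩, ⟨_, h2⟩, h3, _⟩ := this
  exact ⟨by rintro rfl; exact h1 hz, by rintro rfl; exact h2 hz, by rintro rfl; exact h3 hz⟩

/-- rename three vertices -/
theorem val_ren3 {R : List V} {x b a x1 b1 a1 x2 b2 a2 : V} (h1 : Tri G R x b a x1 b1 a1) (h2 : Tri G R x b a x2 b2 a2) (W : List (Fin 3))
    (v : Val G (W.map (fun i => if i = 2 then x1 else if i = 1 then b1 else a1) ++ R)) :
    Val G (W.map (fun i => if i = 2 then x2 else if i = 1 then b2 else a2) ++ R) := by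
  have n1 := h1.nd
  have n2 := h2.nd
  simp only [List.nodup_cons, List.mem_cons, not_or] at n1 n2
  obtain ⟨⟨p1, p2, p3⟩, ⟨p4, p5⟩, p6, p7⟩ := n1
  obtain ⟨⟨q1, q2, q3⟩, ⟨q4, q5⟩, q6, q7⟩ := n2
  have fx : (fun v => if v = x1 then x2 else if v = b1 then b2 else if v = a1 then a2 else v) x1 = x2 := if_pos rfl
  have fb : (fun v => if v = x1 then x2 else if v = b1 then b2 else if v = a1 then a2 else v) b1 = b2 := by
    show (if b1 = x1 then x2 else if b1 = b1 then b2 else if b1 = a1 then a2 else b1) = b2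
    rw [if_neg (Ne.symm p1), if_pos rfl]
  have fa : (fun v => if v = x1 then x2 else if v = b1 then b2 else if v = a1 then a2 else v) a1 = a2 := by
    show (if a1 = x1 then x2 else if a1 = b1 then b2 else if a1 = a1 then a2 else a1) = a2
    rw [if_neg (Ne.symm p2), if_neg (Ne.symm p4), if_pos rfl]
  have fr : ∀ r ∈ R, (fun v => if v = x1 then x2 else if v = b1 then b2 else if v = a1 then a2 else v) r = r := by
    intro r hr
    obtain ⟨r1, r2, r3⟩ := h1.xR hr
    show (if r = x1 then x2 else if r = b1 then b2 else if r = a1 then a2 else r) = r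
    rw [if_neg r1, if_neg r2, if_neg r3]
  generalize (fun v => if v = x1 then x2 else if v = b1 then b2 else if v = a1 then a2 else v) = f at fx fb fa fr
  have eW : (W.map (fun i => if i = 2 then x1 else if i = 1 then b1 else a1)).map f =
      W.map (fun i => if i = 2 then x2 else if i = 1 then b2 else a2) := by
    rw [List.map_map]
    refine List.map_congr_left fun i _ => ?_
    show f (if i = 2 then x1 else if i = 1 then b1 else a1) = _
    by_cases e2 : i = 2
    · rw [if_pos e2, if_pos e2, fx]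
    · by_cases e1 : i = 1
      · rw [if_neg e2, if_neg e2, if_pos e1, if_pos e1, fb]
      · rw [if_neg e2, if_neg e2, if_neg e1, if_neg e1, fa]
  have hc : ∀ v ∈ W.map (fun i => if i = 2 then x1 else if i = 1 then b1 else a1) ++ R, v = x1 ∨ v = b1 ∨ v = a1 ∨ v ∈ R := by
    intro v hv
    rcases List.mem_append.1 hv with hv | hv
    · obtain ⟨i, _, rfl⟩ := List.mem_map.1 hv
      by_cases e2 : i = 2
      · rw [if_pos e2]
        exact Or.inl rfl
      · by_cases e1 : i = 1
        · rw [if_neg e2, if_pos e1]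
          exact Or.inr (Or.inl rfl)
        · rw [if_neg e2, if_neg e1]
          exact Or.inr (Or.inr (Or.inl rfl))
    · exact Or.inr (Or.inr (Or.inr hv))
  have irr : ∀ {a b : V}, G.Adj a a ↔ G.Adj b b := ⟨fun h => absurd h G.irrefl, fun h => absurd h G.irrefl⟩
  have m1 : Tw G R x1 x2 := fun z hz => (h1.tx z hz).trans (h2.tx z hz).symm
  have m2 : Tw G R b1 b2 := fun z hz => (h1.tb z hz).trans (h2.tb z hz).symm
  have m3 : Tw G R a1 a2 := fun z hz => (h1.ta z hz).trans (h2.ta z hz).symm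
  have h := (Val_map (G' := G) (G := G) (f := f) (l := W.map (fun i => if i = 2 then x1 else if i = 1 then b1 else a1) ++ R) (by
      intro u hu w hw
      rcases hc u hu with rfl | rfl | rfl | hu' <;> rcases hc w hw with rfl | rfl | rfl | hw'
      · exact fun _ => rfl
      · rw [fx, fb]
        exact fun e => absurd e q1
      · rw [fx, fa]
        exact fun e => absurd e q2
      · rw [fx, fr w hw']
        exact fun e => absurd (by rw [e]; exact hw') q3
      · rw [fx, fb]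
        exact fun e => absurd e.symm q1
      · exact fun _ => rfl
      · rw [fb, fa]
        exact fun e => absurd e q4
      · rw [fb, fr w hw']
        exact fun e => absurd (by rw [e]; exact hw') q5
      · rw [fx, fa]
        exact fun e => absurd e.symm q2
      · rw [fb, fa]
        exact fun e => absurd e.symm q4
      · exact fun _ => rfl
      · rw [fa, fr w hw']
        exact fun e => absurd (by rw [e]; exact hw') q6
      · rw [fx, fr u hu']
        exact fun e => absurd (by rw [← e]; exact hu') q3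
      · rw [fb, fr u hu']
        exact fun e => absurd (by rw [← e]; exact hu') q5
      · rw [fa, fr u hu']
        exact fun e => absurd (by rw [← e]; exact hu') q6
      · rw [fr u hu', fr w hw']
        exact id) (by
      intro u hu w hw
      rcases hc u hu with rfl | rfl | rfl | hu' <;> rcases hc w hw with rfl | rfl | rfl | hw'
      · exact irr
      · rw [fx, fb]
        exact ⟨fun _ => h2.xb, fun _ => h1.xb⟩
      · rw [fx, fa]
        exact ⟨fun _ => h2.xa, fun _ => h1.xa⟩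
      · rw [fx, fr w hw']
        exact m1 w hw'
      · rw [fx, fb]
        exact ⟨fun _ => h2.xb.symm, fun _ => h1.xb.symm⟩
      · exact irr
      · rw [fb, fa]
        exact ⟨fun _ => h2.ba, fun _ => h1.ba⟩
      · rw [fb, fr w hw']
        exact m2 w hw'
      · rw [fx, fa]
        exact ⟨fun _ => h2.xa.symm, fun _ => h1.xa.symm⟩
      · rw [fb, fa]
        exact ⟨fun _ => h2.ba.symm, fun _ => h1.ba.symm⟩
      · exact irr
      · rw [fa, fr w hw']
        exact m3 w hw'
      · rw [fx, fr u hu', G.adj_comm, G.adj_comm u]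
        exact m1 u hu'
      · rw [fb, fr u hu', G.adj_comm, G.adj_comm u]
        exact m2 u hu'
      · rw [fa, fr u hu', G.adj_comm, G.adj_comm u]
        exact m3 u hu'
      · rw [fr u hu', fr w hw'])).1 v
  rw [List.map_append, eW, List.map_congr_left fr, List.map_id'] at h
  exact h

/-- the columns `R1` of the classes `1`, `0`, then the columns `R2` of the class `2` -/
structure Cx (G : SimpleGraph V) (R1 R2 : List V) (x b a : V) : Prop where
  n1 : ∀ {z}, z ∈ R1 → ¬ G.Adj a z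
  s1 : ∀ {z}, z ∈ R1 → G.Adj b z → G.Adj x z
  e1 : ∀ {z}, z ∈ R2 → (G.Adj a z ↔ G.Adj b z)
  e2 : ∀ {z}, z ∈ R2 → (G.Adj b z ↔ G.Adj x z)
  cl : ∀ {z w}, z ∈ R2 → w ∈ R1 → G.Adj a z → G.Adj b w → G.Adj z w
  ex : ∃ w ∈ R1, G.Adj b w

omit [DecidableEq V] in
/-- the exchange of `p` (class 1) and `s` (class 0) -/
theorem mk4 {x b a : V} (h : Cx G R1 R2 x b a) {E1 E2 : List V} {s p : V} (ts : Tw G (R1 ++ R2) s a) (tp : Tw G (R1 ++ R2) p b) (sp : G.Adj s p)
    (t1 : ∀ z ∈ E1, Tw G (R1 ++ R2) z a) (k1 : ∀ z ∈ E1, ¬ G.Adj s z) (k2 : ∀ z ∈ E2, G.Adj s z ∧ G.Adj p z)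
    (k3 : ∀ z ∈ E2, ∀ w ∈ R1, G.Adj b w → G.Adj z w) (k4 : ∀ z ∈ E2, ∀ y ∈ E1, G.Adj z y) : F4 G s p (E1 ++ R1) (R2 ++ E2) where
  adj := sp
  sub := by
    intro z hz e
    rcases hz with hz | hz
    · rcases List.mem_append.1 hz with hz | hz
      · exact absurd e (k1 z hz)
      · exact absurd ((ts z (List.mem_append_left _ hz)).1 e) (h.n1 hz)
    · rcases List.mem_append.1 hz with hz | hz
      · have m : z ∈ R1 ++ R2 := List.mem_append_right _ hz
        exact (tp z m).2 ((h.e1 hz).1 ((ts z m).1 e))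
      · exact (k2 z hz).2
  n1 := by
    intro z hz e
    rcases List.mem_append.1 hz with hz | hz
    · exact k1 z hz e
    · exact absurd ((ts z (List.mem_append_left _ hz)).1 e) (h.n1 hz)
  n2 := by
    intro z hz e
    rcases List.mem_append.1 hz with hz | hz
    · have m : z ∈ R1 ++ R2 := List.mem_append_right _ hz
      exact (ts z m).2 ((h.e1 hz).2 ((tp z m).1 e))
    · exact (k2 z hz).1
  cl := by
    intro z w hz hw e1 e2
    rcases List.mem_append.1 hz with hz | hz <;> rcases List.mem_append.1 hw with hw | hw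
    · have m : z ∈ R1 ++ R2 := List.mem_append_right _ hz
      exact ((t1 w hw z m).2 ((ts z m).1 e1)).symm
    · exact h.cl hz hw ((ts z (List.mem_append_right _ hz)).1 e1) ((tp w (List.mem_append_left _ hw)).1 e2)
    · exact k4 z hz w hw
    · exact k3 z hz w hw ((tp w (List.mem_append_left _ hw)).1 e2)
  f := by
    obtain ⟨w, hw, e⟩ := h.ex
    exact ⟨w, List.mem_append_right _ hw, (tp w (List.mem_append_left _ hw)).2 e⟩

variable {x b a : V}

/-- the word 201 -/
theorem w201 (h : Cx G R1 R2 x b a) {x' b' a' : V} (t : Tri G (R1 ++ R2) x b a x' b' a') (v : Val G (x' :: b' :: a' :: (R1 ++ R2))) :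
    Val G (x' :: a' :: b' :: (R1 ++ R2)) := by
  have hF := mk4 (E1 := []) (E2 := [x']) h t.ta t.tb t.ba.symm (by simp) (by simp) (by
    intro z hz
    rw [List.mem_singleton.1 hz]
    exact ⟨t.xa.symm, t.xb.symm⟩) (by
    intro z hz w hw e
    rw [List.mem_singleton.1 hz]
    exact (t.tx w (List.mem_append_left _ hw)).2 (h.s1 hw e)) (by simp)
  have nd : (b' :: a' :: ((([] : List V) ++ R1) ++ (R2 ++ [x']))).Nodup := by
    have e : ((b' :: a' :: (R1 ++ R2)) ++ [x']).Perm (x' :: b' :: a' :: (R1 ++ R2)) := List.perm_append_comm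
    have e1 := e.nodup_iff.2 t.nd
    simpa using e1
  have v1 : Val G ((b' :: a' :: (R1 ++ R2)) ++ [x']) :=
    (Val_rotate (G := G) (l₁ := [x']) (l₂ := b' :: a' :: (R1 ++ R2)) t.nd).1 v
  obtain ⟨T, hT, _⟩ := flip4L nd hF (by simpa using v1)
  have v2 : Val G ((a' :: b' :: (R1 ++ R2)) ++ [x']) := by
    have hv : Val G _ := ⟨T, hT⟩
    simpa using hv
  exact (Val_rotate (G := G) (l₁ := a' :: b' :: (R1 ++ R2)) (l₂ := [x']) (by
    have e : ((a' :: b' :: (R1 ++ R2)) ++ [x']).Perm (x' :: b' :: a' :: (R1 ++ R2)) :=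
      List.perm_append_comm.trans (List.Perm.cons x' (List.Perm.swap b' a' _))
    exact e.nodup_iff.2 t.nd)).1 v2

/-- the word 2010 -/
theorem w2010 (h : Cx G R1 R2 x b a) {x' b' a' a1 : V} (t : Tri G (R1 ++ R2) x b a x' b' a') (t1 : Tw G (R1 ++ R2) a1 a)
    (xa1 : G.Adj x' a1) (ba1 : G.Adj b' a1) (aa1 : ¬ G.Adj a' a1) (nd : (x' :: a' :: b' :: a1 :: (R1 ++ R2)).Nodup)
    (v : Val G (x' :: b' :: a' :: (R1 ++ R2))) : Val G (x' :: a' :: b' :: a1 :: (R1 ++ R2)) := by
  have hF := mk4 (E1 := [a1]) (E2 := [x']) h t.ta t.tb t.ba.symm (by simpa using t1) (by simpa using aa1) (by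
    intro z hz
    rw [List.mem_singleton.1 hz]
    exact ⟨t.xa.symm, t.xb.symm⟩) (by
    intro z hz w hw e
    rw [List.mem_singleton.1 hz]
    exact (t.tx w (List.mem_append_left _ hw)).2 (h.s1 hw e)) (by simpa using xa1)
  have v1 : Val G ((a' :: (R1 ++ R2)) ++ [x', b']) :=
    (Val_rotate (G := G) (l₁ := [x', b']) (l₂ := a' :: (R1 ++ R2)) t.nd).1 v
  have nd1 : ((a' :: a1 :: (R1 ++ R2)) ++ [x', b']).Nodup := by
    have e : ((a' :: a1 :: (R1 ++ R2)) ++ [x', b']).Perm (x' :: b' :: a' :: a1 :: (R1 ++ R2)) := List.perm_append_comm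
    exact (e.trans (List.Perm.cons x' (List.Perm.swap a' b' _))).nodup_iff.2 nd
  have v2 : Val G ((a' :: a1 :: (R1 ++ R2)) ++ [x', b']) := by
    refine val_dup nd1 ?_ v1
    intro z hz
    rcases List.mem_append.1 hz with hz | hz
    · exact (t.ta z hz).trans (t1 z hz).symm
    · simp only [List.mem_cons, List.not_mem_nil, or_false] at hz
      rcases hz with rfl | rfl
      · exact ⟨fun _ => xa1.symm, fun _ => t.xa.symm⟩
      · exact ⟨fun _ => ba1.symm, fun _ => t.ba.symm⟩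
  have v3 : Val G (x' :: b' :: a' :: a1 :: (R1 ++ R2)) := (Val_rotate (G := G) (l₁ := a' :: a1 :: (R1 ++ R2)) (l₂ := [x', b']) nd1).1 v2
  have nd3 : (x' :: b' :: a' :: a1 :: (R1 ++ R2)).Nodup := (List.Perm.cons x' (List.Perm.swap a' b' _)).nodup_iff.2 nd
  have v4 : Val G ((b' :: a' :: a1 :: (R1 ++ R2)) ++ [x']) :=
    (Val_rotate (G := G) (l₁ := [x']) (l₂ := b' :: a' :: a1 :: (R1 ++ R2)) nd3).1 v3
  have nd4 : ((b' :: a' :: a1 :: (R1 ++ R2)) ++ [x']).Nodup := List.perm_append_comm.nodup_iff.2 nd3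
  obtain ⟨T, hT, _⟩ := flip4L (by simpa using nd4) hF (by simpa using v4)
  have v5 : Val G ((a' :: b' :: a1 :: (R1 ++ R2)) ++ [x']) := by
    have hv : Val G _ := ⟨T, hT⟩
    simpa using hv
  exact (Val_rotate (G := G) (l₁ := a' :: b' :: a1 :: (R1 ++ R2)) (l₂ := [x']) (List.perm_append_comm.nodup_iff.2 nd)).1 v5

/-- the word 2101 -/
theorem w2101 (h : Cx G R1 R2 x b a) {x' b' a' b1 : V} (t : Tri G (R1 ++ R2) x b a x' b' a') (t1 : Tw G (R1 ++ R2) b1 b)
    (xb1 : G.Adj x' b1) (ba1 : G.Adj b1 a') (bb1 : G.Adj b1 b') (nd : (x' :: b1 :: a' :: b' :: (R1 ++ R2)).Nodup)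
    (v : Val G (x' :: b' :: a' :: (R1 ++ R2))) : Val G (x' :: b1 :: a' :: b' :: (R1 ++ R2)) := by
  have hF := mk4 (E1 := []) (E2 := [x', b1]) h t.ta t.tb t.ba.symm (by simp) (by simp) (by
    intro z hz
    simp only [List.mem_cons, List.not_mem_nil, or_false] at hz
    rcases hz with rfl | rfl
    · exact ⟨t.xa.symm, t.xb.symm⟩
    · exact ⟨ba1.symm, bb1.symm⟩) (by
    intro z hz w hw e
    simp only [List.mem_cons, List.not_mem_nil, or_false] at hz
    rcases hz with rfl | rfl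
    · exact (t.tx w (List.mem_append_left _ hw)).2 (h.s1 hw e)
    · exact (t1 w (List.mem_append_left _ hw)).2 e) (by simp)
  have v1 : Val G ((b' :: a' :: (R1 ++ R2)) ++ [x']) :=
    (Val_rotate (G := G) (l₁ := [x']) (l₂ := b' :: a' :: (R1 ++ R2)) t.nd).1 v
  have nd3 : (x' :: b1 :: b' :: a' :: (R1 ++ R2)).Nodup := (List.Perm.cons x' (List.Perm.cons b1 (List.Perm.swap a' b' _))).nodup_iff.2 nd
  have nd1 : ((b1 :: b' :: a' :: (R1 ++ R2)) ++ [x']).Nodup := List.perm_append_comm.nodup_iff.2 nd3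
  have v2 : Val G ((b1 :: b' :: a' :: (R1 ++ R2)) ++ [x']) := by
    refine val_dup' nd1 ?_ v1
    intro z hz
    rcases List.mem_append.1 hz with hz | hz
    · rcases List.mem_cons.1 hz with rfl | hz
      · exact ⟨fun _ => t.ba, fun _ => ba1⟩
      · exact (t1 z hz).trans (t.tb z hz).symm
    · rw [List.mem_singleton.1 hz]
      exact ⟨fun _ => t.xb.symm, fun _ => xb1.symm⟩
  have nd4 : ((b' :: a' :: (R1 ++ R2)) ++ [x', b1]).Nodup := by
    have e : ((b' :: a' :: (R1 ++ R2)) ++ [x', b1]).Perm (x' :: b1 :: b' :: a' :: (R1 ++ R2)) := List.perm_append_comm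
    exact e.nodup_iff.2 nd3
  have v3 : Val G (x' :: b1 :: b' :: a' :: (R1 ++ R2)) :=
    (Val_rotate (G := G) (l₁ := b1 :: b' :: a' :: (R1 ++ R2)) (l₂ := [x']) nd1).1 v2
  have v4 : Val G ((b' :: a' :: (R1 ++ R2)) ++ [x', b1]) :=
    (Val_rotate (G := G) (l₁ := [x', b1]) (l₂ := b' :: a' :: (R1 ++ R2)) nd3).1 v3
  obtain ⟨T, hT, _⟩ := flip4L (by simpa using nd4) hF (by simpa using v4)
  have v5 : Val G ((a' :: b' :: (R1 ++ R2)) ++ [x', b1]) := by
    have hv : Val G _ := ⟨T, hT⟩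
    simpa using hv
  exact (Val_rotate (G := G) (l₁ := a' :: b' :: (R1 ++ R2)) (l₂ := [x', b1]) (List.perm_append_comm.nodup_iff.2 nd)).1 v5

/-- the word 21010 -/
theorem w21010 (h : Cx G R1 R2 x b a) {x' b' a' b1 a1 : V} (t : Tri G (R1 ++ R2) x b a x' b' a') (t1 : Tw G (R1 ++ R2) b1 b)
    (t2 : Tw G (R1 ++ R2) a1 a) (xb1 : G.Adj x' b1) (ba1 : G.Adj b1 a') (bb1 : G.Adj b1 b') (xa1 : G.Adj x' a1) (ba2 : G.Adj b' a1)
    (ba3 : G.Adj b1 a1) (aa1 : ¬ G.Adj a' a1) (nd : (x' :: b1 :: a' :: b' :: a1 :: (R1 ++ R2)).Nodup)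
    (v : Val G (x' :: b' :: a' :: (R1 ++ R2))) : Val G (x' :: b1 :: a' :: b' :: a1 :: (R1 ++ R2)) := by
  have hF := mk4 (E1 := [a1]) (E2 := [x', b1]) h t.ta t.tb t.ba.symm (by simpa using t2) (by simpa using aa1) (by
    intro z hz
    simp only [List.mem_cons, List.not_mem_nil, or_false] at hz
    rcases hz with rfl | rfl
    · exact ⟨t.xa.symm, t.xb.symm⟩
    · exact ⟨ba1.symm, bb1.symm⟩) (by
    intro z hz w hw e
    simp only [List.mem_cons, List.not_mem_nil, or_false] at hz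
    rcases hz with rfl | rfl
    · exact (t.tx w (List.mem_append_left _ hw)).2 (h.s1 hw e)
    · exact (t1 w (List.mem_append_left _ hw)).2 e) (by
    intro z hz y hy
    rw [List.mem_singleton.1 hy]
    simp only [List.mem_cons, List.not_mem_nil, or_false] at hz
    rcases hz with rfl | rfl
    · exact xa1
    · exact ba3)
  -- duplicate a
  have v1 : Val G ((a' :: (R1 ++ R2)) ++ [x', b']) :=
    (Val_rotate (G := G) (l₁ := [x', b']) (l₂ := a' :: (R1 ++ R2)) t.nd).1 v
  have nd0 : (x' :: b1 :: b' :: a' :: a1 :: (R1 ++ R2)).Nodup := (List.Perm.cons x' (List.Perm.cons b1 (List.Perm.swap a' b' _))).nodup_iff.2 nd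
  have nd2 : (x' :: b' :: a' :: a1 :: (R1 ++ R2)).Nodup :=
    List.Nodup.sublist (List.Sublist.cons_cons x' (List.sublist_cons_self b1 _)) nd0
  have nd1 : ((a' :: a1 :: (R1 ++ R2)) ++ [x', b']).Nodup := by
    have e : ((a' :: a1 :: (R1 ++ R2)) ++ [x', b']).Perm (x' :: b' :: a' :: a1 :: (R1 ++ R2)) := List.perm_append_comm
    exact e.nodup_iff.2 nd2
  have v2 : Val G ((a' :: a1 :: (R1 ++ R2)) ++ [x', b']) := by
    refine val_dup nd1 ?_ v1
    intro z hz
    rcases List.mem_append.1 hz with hz | hz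
    · exact (t.ta z hz).trans (t2 z hz).symm
    · simp only [List.mem_cons, List.not_mem_nil, or_false] at hz
      rcases hz with rfl | rfl
      · exact ⟨fun _ => xa1.symm, fun _ => t.xa.symm⟩
      · exact ⟨fun _ => ba2.symm, fun _ => t.ba.symm⟩
  have v3 : Val G (x' :: b' :: a' :: a1 :: (R1 ++ R2)) := (Val_rotate (G := G) (l₁ := a' :: a1 :: (R1 ++ R2)) (l₂ := [x', b']) nd1).1 v2
  -- duplicate b
  have v4 : Val G ((b' :: a' :: a1 :: (R1 ++ R2)) ++ [x']) :=
    (Val_rotate (G := G) (l₁ := [x']) (l₂ := b' :: a' :: a1 :: (R1 ++ R2)) nd2).1 v3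
  have nd5 : ((b1 :: b' :: a' :: a1 :: (R1 ++ R2)) ++ [x']).Nodup := List.perm_append_comm.nodup_iff.2 nd0
  have v5 : Val G ((b1 :: b' :: a' :: a1 :: (R1 ++ R2)) ++ [x']) := by
    refine val_dup' nd5 ?_ v4
    intro z hz
    rcases List.mem_append.1 hz with hz | hz
    · rcases List.mem_cons.1 hz with rfl | hz
      · exact ⟨fun _ => t.ba, fun _ => ba1⟩
      · rcases List.mem_cons.1 hz with rfl | hz
        · exact ⟨fun _ => ba2, fun _ => ba3⟩
        · exact (t1 z hz).trans (t.tb z hz).symm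
    · rw [List.mem_singleton.1 hz]
      exact ⟨fun _ => t.xb.symm, fun _ => xb1.symm⟩
  have v6 : Val G (x' :: b1 :: b' :: a' :: a1 :: (R1 ++ R2)) :=
    (Val_rotate (G := G) (l₁ := b1 :: b' :: a' :: a1 :: (R1 ++ R2)) (l₂ := [x']) nd5).1 v5
  have v7 : Val G ((b' :: a' :: a1 :: (R1 ++ R2)) ++ [x', b1]) :=
    (Val_rotate (G := G) (l₁ := [x', b1]) (l₂ := b' :: a' :: a1 :: (R1 ++ R2)) nd0).1 v6
  have nd7 : ((b' :: a' :: a1 :: (R1 ++ R2)) ++ [x', b1]).Nodup := by
    have e : ((b' :: a' :: a1 :: (R1 ++ R2)) ++ [x', b1]).Perm (x' :: b1 :: b' :: a' :: a1 :: (R1 ++ R2)) := List.perm_append_comm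
    exact e.nodup_iff.2 nd0
  obtain ⟨T, hT, _⟩ := flip4L (by simpa using nd7) hF (by simpa using v7)
  have v8 : Val G ((a' :: b' :: a1 :: (R1 ++ R2)) ++ [x', b1]) := by
    have hv : Val G _ := ⟨T, hT⟩
    simpa using hv
  exact (Val_rotate (G := G) (l₁ := a' :: b' :: a1 :: (R1 ++ R2)) (l₂ := [x', b1]) (List.perm_append_comm.nodup_iff.2 nd)).1 v8

end Pool.Agent.SOH
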