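import Pool.Agent.SOH.A1M
import Pool.Agent.SOH.Arr3

/-! Project SOH (MP_66ba69_lc), module A1L: the word 201 in the context 012 gives 012, for lists. -/

set_option autoImplicit false

namespace Pool.Agent.SOH

open Pool.Agent.SOC Pool.Agent.SOD Pool.Agent.RUP Pool.Agent.SOF Pool.Agent.SOG Pool.Agent.SOJ Pool.Agent.SOV Pool.Agent.SOK Pool.Agent.SOS
open Pool.Agent.SOM

/-- the columns: `R0` of the class `0`, `R1` of the class `1`, `R2` of the class `2` -/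
structure C012 {V : Type} (G : SimpleGraph V) (R0 R1 R2 : List V) (x b a : V) : Prop where
  xa : G.Adj x a
  xb : G.Adj x b
  ab : G.Adj a b
  n0 : ∀ {z}, z ∈ R0 → ¬ G.Adj b z
  n1 : ∀ {z}, z ∈ R1 → ¬ G.Adj a z
  m1 : ∀ {z}, z ∈ R1 → G.Adj x z → G.Adj b z
  m2 : ∀ {z}, z ∈ R2 → G.Adj x z → G.Adj a z
  s1 : ∀ {z}, z ∈ R0 ∨ z ∈ R1 ∨ z ∈ R2 → G.Adj a z → G.Adj b z
  s2 : ∀ {z}, z ∈ R0 ∨ z ∈ R1 ∨ z ∈ R2 → G.Adj b z → G.Adj x z
  c0 : ∀ {z w}, z ∈ R0 → w ∈ R1 ∨ w ∈ R2 → G.Adj x z → G.Adj b w → G.Adj z w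
  c1 : ∀ {z w}, z ∈ R1 → w ∈ R2 → G.Adj x z → G.Adj a w → G.Adj z w
  y0 : ∃ z ∈ R0, G.Adj x z

section
variable {V : Type} [DecidableEq V] {G : SimpleGraph V} {R0 R1 R2 : List V} {x b a : V}

/-- positions -/
structure Jx (R0 R1 R2 : List V) (x b a : V) : Prop where
  na : a ≠ x
  nb : b ≠ x
  nab : a ≠ b
  x0 : (x :: a :: b :: (R0 ++ (R1 ++ R2))).idxOf x = 0
  a0 : (x :: a :: b :: (R0 ++ (R1 ++ R2))).idxOf a = 1
  b0 : (x :: a :: b :: (R0 ++ (R1 ++ R2))).idxOf b = 2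
  x1 : (a :: b :: x :: (R0 ++ (R1 ++ R2))).idxOf x = 2
  a1 : (a :: b :: x :: (R0 ++ (R1 ++ R2))).idxOf a = 0
  b1 : (a :: b :: x :: (R0 ++ (R1 ++ R2))).idxOf b = 1
  m : ∀ {z}, z ∈ R0 ∨ z ∈ R1 ∨ z ∈ R2 → z ≠ x ∧ z ≠ a ∧ z ≠ b
  r0 : ∀ {z}, z ∈ R0 → 3 ≤ (x :: a :: b :: (R0 ++ (R1 ++ R2))).idxOf z ∧ (x :: a :: b :: (R0 ++ (R1 ++ R2))).idxOf z < 3 + R0.length
  r1 : ∀ {z}, z ∈ R1 → 3 + R0.length ≤ (x :: a :: b :: (R0 ++ (R1 ++ R2))).idxOf z ∧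
    (x :: a :: b :: (R0 ++ (R1 ++ R2))).idxOf z < 3 + R0.length + R1.length
  r2 : ∀ {z}, z ∈ R2 → 3 + R0.length + R1.length ≤ (x :: a :: b :: (R0 ++ (R1 ++ R2))).idxOf z
  e : ∀ {z}, z ≠ x → z ≠ a → z ≠ b → (a :: b :: x :: (R0 ++ (R1 ++ R2))).idxOf z = (x :: a :: b :: (R0 ++ (R1 ++ R2))).idxOf z

theorem jx_of (nd : (x :: a :: b :: (R0 ++ (R1 ++ R2))).Nodup) : Jx R0 R1 R2 x b a := by
  simp only [List.nodup_cons, List.mem_cons, List.mem_append, not_or] at nd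
  obtain ⟨⟨n1, n2, n3, n4, n5⟩, ⟨n6, n7, n8, n9⟩, ⟨n10, n11, n12⟩, nd⟩ := nd
  have nd' := List.nodup_append.1 nd
  have nd'' := List.nodup_append.1 nd'.2.1
  have e1 : ∀ {z}, z ≠ x → z ≠ a → z ≠ b → (x :: a :: b :: (R0 ++ (R1 ++ R2))).idxOf z = (R0 ++ (R1 ++ R2)).idxOf z + 3 := by
    intro z h1 h2 h3
    rw [List.idxOf_cons_ne _ h1.symm, List.idxOf_cons_ne _ h2.symm, List.idxOf_cons_ne _ h3.symm]
  have e2 : ∀ {z}, z ≠ x → z ≠ a → z ≠ b → (a :: b :: x :: (R0 ++ (R1 ++ R2))).idxOf z = (R0 ++ (R1 ++ R2)).idxOf z + 3 := by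
    intro z h1 h2 h3
    rw [List.idxOf_cons_ne _ h2.symm, List.idxOf_cons_ne _ h3.symm, List.idxOf_cons_ne _ h1.symm]
  have m : ∀ {z}, z ∈ R0 ∨ z ∈ R1 ∨ z ∈ R2 → z ≠ x ∧ z ≠ a ∧ z ≠ b := by
    rintro z (h | h | h)
    · exact ⟨fun e => n3 (e ▸ h), fun e => n7 (e ▸ h), fun e => n10 (e ▸ h)⟩
    · exact ⟨fun e => n4 (e ▸ h), fun e => n8 (e ▸ h), fun e => n11 (e ▸ h)⟩
    · exact ⟨fun e => n5 (e ▸ h), fun e => n9 (e ▸ h), fun e => n12 (e ▸ h)⟩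
  have k0 : ∀ {z}, z ∈ R1 ∨ z ∈ R2 → z ∉ R0 := fun h hz => nd'.2.2 _ hz _ (List.mem_append.2 h) rfl
  have k1 : ∀ {z}, z ∈ R2 → z ∉ R1 := fun h hz => nd''.2.2 _ hz _ h rfl
  refine ⟨fun e => n1 e.symm, fun e => n2 e.symm, fun e => n6 e, by simp, ?_, ?_, ?_, by simp, ?_, m, ?_, ?_, ?_, ?_⟩
  · rw [List.idxOf_cons_ne _ n1, List.idxOf_cons_self]
  · rw [List.idxOf_cons_ne _ n2, List.idxOf_cons_ne _ n6, List.idxOf_cons_self]
  · rw [List.idxOf_cons_ne _ (Ne.symm n1), List.idxOf_cons_ne _ (Ne.symm n2), List.idxOf_cons_self]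
  · rw [List.idxOf_cons_ne _ n6, List.idxOf_cons_self]
  · intro z hz
    obtain ⟨h1, h2, h3⟩ := m (Or.inl hz)
    rw [e1 h1 h2 h3, List.idxOf_append_of_mem hz]
    have := List.idxOf_lt_length_iff.2 hz
    omega
  · intro z hz
    obtain ⟨h1, h2, h3⟩ := m (Or.inr (Or.inl hz))
    rw [e1 h1 h2 h3, List.idxOf_append_of_notMem (k0 (Or.inl hz)), List.idxOf_append_of_mem hz]
    have := List.idxOf_lt_length_iff.2 hz
    omega
  · intro z hz
    obtain ⟨h1, h2, h3⟩ := m (Or.inr (Or.inr hz))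
    rw [e1 h1 h2 h3, List.idxOf_append_of_notMem (k0 (Or.inr hz)), List.idxOf_append_of_notMem (k1 hz)]
    omega
  · intro z h1 h2 h3
    rw [e1 h1 h2 h3, e2 h1 h2 h3]

omit [DecidableEq V] in
theorem mem_en3 (hs : IsEnum (x :: a :: b :: (R0 ++ (R1 ++ R2)))) {z : V} (h1 : z ≠ x) (h2 : z ≠ a) (h3 : z ≠ b) :
    z ∈ R0 ∨ z ∈ R1 ∨ z ∈ R2 := by
  have h := hs.2 z
  simp only [List.mem_cons, List.mem_append] at h
  rcases h with h | h | h | h
  · exact absurd h h1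
  · exact absurd h h2
  · exact absurd h h3
  · exact h

omit [DecidableEq V] in
theorem enum_rot (hs : IsEnum (x :: a :: b :: (R0 ++ (R1 ++ R2)))) : IsEnum (a :: b :: x :: (R0 ++ (R1 ++ R2))) := by
  have e : (a :: b :: x :: (R0 ++ (R1 ++ R2))).Perm (x :: a :: b :: (R0 ++ (R1 ++ R2))) :=
    (List.Perm.cons a (List.Perm.swap x b _)).trans (List.Perm.swap x a _)
  exact ⟨e.nodup_iff.2 hs.1, fun v => e.mem_iff.2 (hs.2 v)⟩

/-- the data of the lists -/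
def syL (G : SimpleGraph V) (R : List V) (x b a : V) (hs : IsEnum (x :: a :: b :: R)) (hs' : IsEnum (a :: b :: x :: R))
    (T : V → V → V → V → Prop) (hT : Sym4 T) : ASy V where
  G := G
  X := CrD (x :: a :: b :: R)
  XX := CrD (a :: b :: x :: R)
  T := T
  x := x
  a := a
  b := b
  hX := ⟨fun _ _ _ _ h => (crD_sepr hs).swap h, fun _ _ _ _ h => (crD_sepr hs).comm h⟩
  hXX := ⟨fun _ _ _ _ h => (crD_sepr hs').swap h, fun _ _ _ _ h => (crD_sepr hs').comm h⟩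
  hT := hT

theorem a1c_of (hs : IsEnum (x :: a :: b :: (R0 ++ (R1 ++ R2)))) (h : C012 G R0 R1 R2 x b a) {T : V → V → V → V → Prop}
    (hT : QT G (CrD (x :: a :: b :: (R0 ++ (R1 ++ R2)))) T) :
    A1C (syL G (R0 ++ (R1 ++ R2)) x b a hs (enum_rot hs) T ⟨fun _ _ _ _ h => hT.swap₁ h, fun _ _ _ _ h => hT.swap₂ h⟩) := by
  have jx := jx_of hs.1
  obtain ⟨na, nb, nab, x0, a0, b0, x1, a1, b1, m, r0, r1, r2, e⟩ := jx
  have ge : ∀ {z}, z ≠ x → z ≠ a → z ≠ b → 3 ≤ (x :: a :: b :: (R0 ++ (R1 ++ R2))).idxOf z := by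
    intro z h1 h2 h3
    rcases mem_en3 hs h1 h2 h3 with h | h | h
    · exact (r0 h).1
    · have := r1 h
      omega
    · have := r2 h
      omega
  have inj : ∀ {z w}, z ≠ w → (x :: a :: b :: (R0 ++ (R1 ++ R2))).idxOf z ≠ (x :: a :: b :: (R0 ++ (R1 ++ R2))).idxOf w := by
    intro z w n he
    exact n (List.idxOf_inj (hs.2 z) |>.1 he)
  have za : ∀ {z}, G.Adj a z → z ≠ x → z ≠ b → z ∈ R2 := by
    intro z h1 h2 h3
    rcases mem_en3 hs h2 h1.ne.symm h3 with k | k | k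
    · exact absurd (h.s1 (Or.inl k) h1) (h.n0 k)
    · exact absurd h1 (h.n1 k)
    · exact k
  have zb : ∀ {z}, G.Adj b z → z ≠ x → z ≠ a → z ∈ R1 ∨ z ∈ R2 := by
    intro z h1 h2 h3
    rcases mem_en3 hs h2 h3 h1.ne.symm with k | k
    · exact absurd h1 (h.n0 k)
    · exact k
  have zna : ∀ {z}, G.Adj x z → ¬ G.Adj a z → z ≠ a → z ≠ b → z ∈ R0 ∨ z ∈ R1 := by
    intro z h1 h2 h3 h4
    rcases mem_en3 hs h1.ne.symm h3 h4 with k | k | k
    · exact Or.inl k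
    · exact Or.inr k
    · exact absurd (h.m2 k h1) h2
  have znb : ∀ {z}, G.Adj x z → ¬ G.Adj b z → z ≠ a → z ≠ b → z ∈ R0 := by
    intro z h1 h2 h3 h4
    rcases mem_en3 hs h1.ne.symm h3 h4 with k | k | k
    · exact k
    · exact absurd (h.m1 k h1) h2
    · exact absurd (h.s1 (Or.inr (Or.inr k)) (h.m2 k h1)) h2
  refine
    { sepr := crD_sepr hs
      sepr' := crD_sepr (enum_rot hs)
      qt := hT
      xa := h.xa
      xb := h.xb
      ab := h.ab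
      s1 := ?_
      s2 := ?_
      c1 := ?_
      c2 := ?_
      o1 := ?_
      o2 := ?_
      o3 := ?_
      o4 := ?_
      r1 := ?_
      r2 := ?_
      y0 := ?_
      e0 := ?_
      e1 := ?_
      ea1 := ?_
      ea2 := ?_
      eb1 := ?_
      eb2 := ?_
      e3 := ?_
      e4 := ?_
      e5 := ?_ }
  · intro z n h1
    by_cases hx : z = x
    · rw [hx]
      exact h.xb.symm
    · exact h.s1 (Or.inr (Or.inr (za h1 hx n))) h1
  · intro z n h1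
    by_cases hx : z = a
    · rw [hx]
      exact h.xa
    · exact h.s2 (Or.inr (zb h1 n hx)) h1
  · intro z w n1 n2 n3 n4 h1 h2 h3
    exact h.c0 (znb h1 h2 n1 n2) (zb h3 n3 n4) h1 h3
  · intro z w n1 n2 n3 n4 h1 h2 h3
    have hw := za h3 n3 n4
    rcases zna h1 h2 n1 n2 with k | k
    · exact h.c0 k (Or.inr hw) h1 (h.s1 (Or.inr (Or.inr hw)) h3)
    · exact h.c1 k hw h1 h3
  · intro z n1 n2 n3
    have k := ge n1 n2 n3
    refine ⟨⟨nb.symm, na.symm, Ne.symm n1, nab.symm, Ne.symm n3, Ne.symm n2⟩, ?_⟩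
    show ¬ (SOC.Btw _ x b a ↔ SOC.Btw _ x b z)
    unfold SOC.Btw
    rw [x0, a0, b0]
    omega
  · rintro z w ⟨⟨n1, n2, n3, n4, n5, n6⟩, hx⟩
    change ¬ (SOC.Btw _ x a z ↔ SOC.Btw _ x a w) at hx
    unfold SOC.Btw at hx
    rw [x0, a0] at hx
    omega
  · rintro z w ⟨⟨n1, n2, n3, n4, n5, n6⟩, hx⟩
    change ¬ (SOC.Btw _ a b z ↔ SOC.Btw _ a b w) at hx
    unfold SOC.Btw at hx
    rw [b0, a0] at hx
    omega
  · rintro z w m1 m2 ⟨⟨n1, n2, n3, n4, n5, n6⟩, hx⟩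
    change ¬ (SOC.Btw _ x b z ↔ SOC.Btw _ x b w) at hx
    have k1 := ge (Ne.symm n2) m1 (Ne.symm n4)
    have k2 := ge (Ne.symm n3) m2 (Ne.symm n5)
    unfold SOC.Btw at hx
    rw [x0, b0] at hx
    omega
  · intro z w n1 n2 n3 n4 h1 h2 h3
    have hw := za h3 n3 n4
    have nzw : z ≠ w := by
      rintro rfl
      exact h2 h3
    refine ⟨⟨h1.ne, na.symm, n3.symm, n1, nzw, h3.ne⟩, ?_⟩
    show ¬ (SOC.Btw _ x z a ↔ SOC.Btw _ x z w)
    have k2 := r2 hw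
    have k1 : 3 ≤ (x :: a :: b :: (R0 ++ (R1 ++ R2))).idxOf z ∧ (x :: a :: b :: (R0 ++ (R1 ++ R2))).idxOf z < 3 + R0.length + R1.length := by
      rcases zna h1 h2 n1 n2 with k | k
      · have := r0 k
        omega
      · have := r1 k
        omega
    unfold SOC.Btw
    rw [x0, a0]
    omega
  · intro z w n1 n2 n3 n4 h1 h2 h3
    have hz := r0 (znb h1 h2 n1 n2)
    have nzw : z ≠ w := by
      rintro rfl
      exact h2 h3
    refine ⟨⟨h1.ne, na.symm, n3.symm, n1, nzw, n4.symm⟩, ?_⟩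
    show ¬ (SOC.Btw _ x z a ↔ SOC.Btw _ x z w)
    have hw : 3 + R0.length ≤ (x :: a :: b :: (R0 ++ (R1 ++ R2))).idxOf w := by
      rcases zb h3 n3 n4 with k | k
      · have := r1 k
        omega
      · have := r2 k
        omega
    unfold SOC.Btw
    rw [x0, a0]
    omega
  · obtain ⟨z, hz, h1⟩ := h.y0
    obtain ⟨k1, k2, k3⟩ := m (Or.inl hz)
    exact ⟨z, k2, k3, h1, h.n0 hz⟩
  · intro u v w z n1 n2 n3 n4
    have lt : ∀ p ∈ {v : V | v ≠ x}, ∀ q ∈ {v : V | v ≠ x}, ((a :: b :: x :: (R0 ++ (R1 ++ R2))).idxOf p < (a :: b :: x :: (R0 ++ (R1 ++ R2))).idxOf q ↔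
        (x :: a :: b :: (R0 ++ (R1 ++ R2))).idxOf (id p) < (x :: a :: b :: (R0 ++ (R1 ++ R2))).idxOf (id q)) := by
      intro p hp q hq
      simp only [id]
      by_cases h1 : p = a
      · by_cases h2 : q = a
        · rw [h1, h2]
          omega
        · by_cases h3 : q = b
          · rw [h1, h3, a1, b1, a0, b0]
            omega
          · rw [h1, e hq h2 h3, a1, a0]
            have := ge hq h2 h3
            omega
      · by_cases h1' : p = b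
        · by_cases h2 : q = a
          · rw [h1', h2, a1, b1, a0, b0]
            omega
          · by_cases h3 : q = b
            · rw [h1', h3]
              omega
            · rw [h1', e hq h2 h3, b1, b0]
              have := ge hq h2 h3
              omega
        · have k := ge hp h1 h1'
          by_cases h2 : q = a
          · rw [e hp h1 h1', h2, a1, a0]
            omega
          · by_cases h3 : q = b
            · rw [e hp h1 h1', h3, b1, b0]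
              omega
            · rw [e hp h1 h1', e hq h2 h3]
    show CrD _ u v w z ↔ CrD _ u v w z
    unfold CrD
    rw [cross_of_lt (S := {v : V | v ≠ x}) (f := id) lt n1 n2 n3 n4]
    rfl
  · rintro u v w n1 n2 n3 n4 n5 n6 ⟨⟨d1, d2, d3, d4, d5, d6⟩, hx⟩
    refine ⟨⟨d1, d2, d3, d4, d5, d6⟩, ?_⟩
    change ¬ (SOC.Btw _ x u v ↔ SOC.Btw _ x u w) at hx
    show ¬ (SOC.Btw _ x u v ↔ SOC.Btw _ x u w)
    unfold SOC.Btw at hx ⊢
    rw [x1, e (Ne.symm d1) n1 n2, e (Ne.symm d2) n3 n4, e (Ne.symm d3) n5 n6] at hx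
    rw [x0]
    have k1 := ge (Ne.symm d1) n1 n2
    have k2 := ge (Ne.symm d2) n3 n4
    have k3 := ge (Ne.symm d3) n5 n6
    omega
  · rintro v w n1 n2 ⟨⟨d1, d2, d3, d4, d5, d6⟩, hx⟩
    change ¬ (SOC.Btw _ x a v ↔ SOC.Btw _ x a w) at hx
    unfold SOC.Btw at hx
    rw [x1, a1, e (Ne.symm d2) (Ne.symm d4) n1, e (Ne.symm d3) (Ne.symm d5) n2] at hx
    have k1 := ge (Ne.symm d2) (Ne.symm d4) n1
    have k2 := ge (Ne.symm d3) (Ne.symm d5) n2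
    omega
  · intro u w n1 n2 n3 n4 n5 n6
    have k1 := ge n5 n3 n1
    have k2 := ge n6 n4 n2
    have t1 := e n5 n3 n1
    have t2 := e n6 n4 n2
    constructor
    · rintro ⟨⟨d1, d2, d3, d4, d5, d6⟩, hx⟩
      refine ⟨⟨d3, na.symm, d1, d6.symm, d5.symm, n3.symm⟩, ?_⟩
      change ¬ (SOC.Btw _ x u a ↔ SOC.Btw _ x u w) at hx
      show ¬ (SOC.Btw _ x w a ↔ SOC.Btw _ x w u)
      unfold SOC.Btw at hx ⊢
      rw [x1, a1, t1, t2] at hx
      rw [x0, a0]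
      omega
    · rintro ⟨⟨d1, d2, d3, d4, d5, d6⟩, hx⟩
      refine ⟨⟨d3, na.symm, d1, n3, d5.symm, n4.symm⟩, ?_⟩
      change ¬ (SOC.Btw _ x w a ↔ SOC.Btw _ x w u) at hx
      show ¬ (SOC.Btw _ x u a ↔ SOC.Btw _ x u w)
      have k3 := inj d5
      unfold SOC.Btw at hx ⊢
      rw [x1, a1, t1, t2]
      rw [x0, a0] at hx
      omega
  · rintro v w n1 n2 ⟨⟨d1, d2, d3, d4, d5, d6⟩, hx⟩
    change ¬ (SOC.Btw _ x b v ↔ SOC.Btw _ x b w) at hx
    unfold SOC.Btw at hx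
    rw [x1, b1, e (Ne.symm d2) n1 (Ne.symm d4), e (Ne.symm d3) n2 (Ne.symm d5)] at hx
    have k1 := ge (Ne.symm d2) n1 (Ne.symm d4)
    have k2 := ge (Ne.symm d3) n2 (Ne.symm d5)
    omega
  · intro u w n1 n2 n3 n4 n5 n6
    have k1 := ge n5 n3 n1
    have k2 := ge n6 n4 n2
    have t1 := e n5 n3 n1
    have t2 := e n6 n4 n2
    constructor
    · rintro ⟨⟨d1, d2, d3, d4, d5, d6⟩, hx⟩
      refine ⟨⟨d3, nb.symm, d1, d6.symm, d5.symm, n1.symm⟩, ?_⟩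
      change ¬ (SOC.Btw _ x u b ↔ SOC.Btw _ x u w) at hx
      show ¬ (SOC.Btw _ x w b ↔ SOC.Btw _ x w u)
      unfold SOC.Btw at hx ⊢
      rw [x1, b1, t1, t2] at hx
      rw [x0, b0]
      omega
    · rintro ⟨⟨d1, d2, d3, d4, d5, d6⟩, hx⟩
      refine ⟨⟨d3, nb.symm, d1, n1, d5.symm, n2.symm⟩, ?_⟩
      change ¬ (SOC.Btw _ x w b ↔ SOC.Btw _ x w u) at hx
      show ¬ (SOC.Btw _ x u b ↔ SOC.Btw _ x u w)
      have k3 := inj d5
      unfold SOC.Btw at hx ⊢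
      rw [x1, b1, t1, t2]
      rw [x0, b0] at hx
      omega
  · intro z n1 n2 n3
    have k := ge n1 n2 n3
    refine ⟨⟨na.symm, nb.symm, Ne.symm n1, nab, Ne.symm n2, Ne.symm n3⟩, ?_⟩
    show ¬ (SOC.Btw _ x a b ↔ SOC.Btw _ x a z)
    unfold SOC.Btw
    rw [x1, a1, b1, e n1 n2 n3]
    omega
  · rintro z ⟨⟨d1, d2, d3, d4, d5, d6⟩, hx⟩
    change ¬ (SOC.Btw _ x b a ↔ SOC.Btw _ x b z) at hx
    unfold SOC.Btw at hx
    rw [x1, a1, b1, e (Ne.symm d3) (Ne.symm d6) (Ne.symm d5)] at hx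
    have k := ge (Ne.symm d3) (Ne.symm d6) (Ne.symm d5)
    omega
  · rintro z ⟨⟨d1, d2, d3, d4, d5, d6⟩, hx⟩
    change ¬ (SOC.Btw _ x z a ↔ SOC.Btw _ x z b) at hx
    unfold SOC.Btw at hx
    rw [x1, a1, b1, e (Ne.symm d1) d4 d5] at hx
    have k := ge (Ne.symm d1) d4 d5
    omega

theorem a1E (hs : IsEnum (x :: a :: b :: (R0 ++ (R1 ++ R2)))) (h : C012 G R0 R1 R2 x b a) (v : Val G (x :: a :: b :: (R0 ++ (R1 ++ R2)))) :
    Val G (a :: b :: x :: (R0 ++ (R1 ++ R2))) := by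
  rw [Val_enum hs] at v
  rw [Val_enum (enum_rot hs)]
  obtain ⟨T, hT⟩ := v
  exact ⟨_, qt_cross (a1_qt (a1c_of hs h (Pool.Agent.RUP.qt_crD hT)))⟩

end

/-- the members of a list, as a type -/
theorem lift6 {V : Type} [DecidableEq V] {x a b : V} {R0 R1 R2 : List V} (nd : (x :: a :: b :: (R0 ++ (R1 ++ R2))).Nodup) :
    ∃ (U : Type) (_ : DecidableEq U) (f : U → V) (x' a' b' : U) (S0 S1 S2 : List U), Function.Injective f ∧ f x' = x ∧ f a' = a ∧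
      f b' = b ∧ S0.map f = R0 ∧ S1.map f = R1 ∧ S2.map f = R2 ∧ IsEnum (x' :: a' :: b' :: (S0 ++ (S1 ++ S2))) := by
  obtain ⟨l', hl⟩ := lift_sub (l := x :: a :: b :: (R0 ++ (R1 ++ R2)))
  have hm : ∀ z : {v // v ∈ x :: a :: b :: (R0 ++ (R1 ++ R2))}, z ∈ l' := by
    intro z
    have h1 : z.1 ∈ l'.map Subtype.val := by rw [hl]; exact z.2
    obtain ⟨u, hu, e⟩ := List.mem_map.1 h1
    rwa [Subtype.ext e] at hu
  have hnd : l'.Nodup := List.Nodup.of_map Subtype.val (by rw [hl]; exact nd)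
  obtain ⟨x', l1, rfl, hx', hl1⟩ := List.map_eq_cons_iff.1 hl
  obtain ⟨a', l2, rfl, ha', hl2⟩ := List.map_eq_cons_iff.1 hl1
  obtain ⟨b', l3, rfl, hb', hl3⟩ := List.map_eq_cons_iff.1 hl2
  obtain ⟨S0, l4, rfl, hS0, hl4⟩ := List.map_eq_append_iff.1 hl3
  obtain ⟨S1, S2, rfl, hS1, hS2⟩ := List.map_eq_append_iff.1 hl4
  exact ⟨_, inferInstance, Subtype.val, x', a', b', S0, S1, S2, Subtype.val_injective, hx', ha', hb', hS0, hS1, hS2, hnd, hm⟩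

/-- (A1) THE WORD 201 IN THE CONTEXT 012 GIVES THE WORD 012 -/
theorem a1L {V : Type} [DecidableEq V] {G : SimpleGraph V} {R0 R1 R2 : List V} {x b a : V} (nd : (x :: a :: b :: (R0 ++ (R1 ++ R2))).Nodup)
    (h : C012 G R0 R1 R2 x b a) (v : Val G (x :: a :: b :: (R0 ++ (R1 ++ R2)))) : Val G (a :: b :: x :: (R0 ++ (R1 ++ R2))) := by
  obtain ⟨U, _, f, x, a, b, R0, R1, R2, hf, rfl, rfl, rfl, rfl, rfl, rfl, hen⟩ := lift6 nd
  have hadj : ∀ a b, (G.comap f).Adj a b ↔ G.Adj (f a) (f b) := fun _ _ => Iff.rfl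
  have mm : ∀ {z}, z ∈ R0 ∨ z ∈ R1 ∨ z ∈ R2 → f z ∈ R0.map f ∨ f z ∈ R1.map f ∨ f z ∈ R2.map f :=
    fun hz => hz.imp List.mem_map_of_mem (fun k => k.imp List.mem_map_of_mem List.mem_map_of_mem)
  have hF : C012 (G.comap f) R0 R1 R2 x b a :=
    { xa := h.xa
      xb := h.xb
      ab := h.ab
      n0 := fun hz => h.n0 (List.mem_map_of_mem hz)
      n1 := fun hz => h.n1 (List.mem_map_of_mem hz)
      m1 := fun hz => h.m1 (List.mem_map_of_mem hz)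
      m2 := fun hz => h.m2 (List.mem_map_of_mem hz)
      s1 := fun hz => h.s1 (mm hz)
      s2 := fun hz => h.s2 (mm hz)
      c0 := fun hz hw => h.c0 (List.mem_map_of_mem hz) (hw.imp List.mem_map_of_mem List.mem_map_of_mem)
      c1 := fun hz hw => h.c1 (List.mem_map_of_mem hz) (List.mem_map_of_mem hw)
      y0 := by
        obtain ⟨z, hz, e⟩ := h.y0
        obtain ⟨z', hz', rfl⟩ := List.mem_map.1 hz
        exact ⟨z', hz', e⟩ }
  have h1 := a1E hen hF ((Val_map (fun _ _ _ _ e => hf e) (fun _ _ _ _ => hadj _ _)).2 (by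
    simp only [List.map_cons, List.map_append]
    exact v))
  have k1 := (Val_map (G := G) (f := f) (fun _ _ _ _ e => hf e) (fun _ _ _ _ => hadj _ _)).1 h1
  simp only [List.map_cons, List.map_append] at k1
  exact k1

end Pool.Agent.SOH
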