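import Pool.Agent.SOH.A1R0
import Pool.Agent.SOH.A1R

/-! Project SOH (MP_66ba69_lc), module A1M: the word 201 in the context 012 gives 012, the structure. -/

set_option autoImplicit false

namespace Pool.Agent.SOH

open Pool.Agent.SOC Pool.Agent.SOD Pool.Agent.RUP Pool.Agent.SOF Pool.Agent.SOG

variable {V : Type} {Y : ASy V}

theorem a1f (hc : A1C Y) : A1F Y := by
  obtain ⟨y, y1, y2, y3, y4⟩ := hc.y0
  have nx := hc.xa.ne
  have nb := hc.xb.ne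
  have na := hc.ab.ne
  refine ⟨?_, ?_⟩
  · intro z h1 h2 h3
    by_contra hn
    have n1 : z ≠ y := by
      rintro rfl
      exact y4 (hc.s1 h2 h3)
    refine fa_r hc (x := Y.x) (a := Y.a) (b := Y.b) (c := z) (d := y) ?_ rfl rfl rfl h3 hn y3 y4
    simp only [List.nodup_cons, List.mem_cons, List.not_mem_nil, or_false, not_or, not_false_eq_true, List.nodup_nil, and_true]
    exact ⟨⟨nx, nb, h1.symm, y3.ne⟩, ⟨na, h3.ne, y1.symm⟩, ⟨h2.symm, y2.symm⟩, n1⟩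
  · intro z w h1 h2 h3 h4 h5 h6 h7
    by_contra hn
    have n1 : z ≠ y := by
      rintro rfl
      exact y4 (hc.s1 h2 h5)
    have n2 : w ≠ y := by
      rintro rfl
      exact y4 (hc.s1 h4 h6)
    refine fb_r hc (x := Y.x) (a := Y.a) (b := Y.b) (c := z) (d := y) (e := w) ?_ rfl rfl rfl h5 h6 h7 hn y3 y4
    simp only [List.nodup_cons, List.mem_cons, List.not_mem_nil, or_false, not_or, not_false_eq_true, List.nodup_nil, and_true]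
    exact ⟨⟨nx, nb, h1.symm, y3.ne, h3.symm⟩, ⟨na, h5.ne, y1.symm, h6.ne⟩, ⟨h2.symm, y2.symm, h4.symm⟩, ⟨n1, h7.ne⟩, n2.symm⟩

theorem nd_o {l : List V} {o : V} (h : l.Nodup) (h' : ∀ x ∈ l, x ≠ o) : (l ++ [o]).Nodup :=
  List.nodup_append.2 ⟨h, List.nodup_singleton o, fun a ha b hb => by rw [List.mem_singleton.1 hb]; exact h' a ha⟩

section
variable {p q r s t u : V}

theorem ndn4 {o : V} (h : ¬ (p = o ∨ q = o ∨ r = o ∨ s = o)) : ∀ x ∈ [p, q, r, s], x ≠ o := by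
  simp only [not_or] at h
  intro x hx
  simp only [List.mem_cons, List.not_mem_nil, or_false] at hx
  rcases hx with rfl | rfl | rfl | rfl
  · exact h.1
  · exact h.2.1
  · exact h.2.2.1
  · exact h.2.2.2

theorem ndn5 {o : V} (h : ¬ (p = o ∨ q = o ∨ r = o ∨ s = o ∨ t = o)) : ∀ x ∈ [p, q, r, s, t], x ≠ o := by
  simp only [not_or] at h
  intro x hx
  simp only [List.mem_cons, List.not_mem_nil, or_false] at hx
  rcases hx with rfl | rfl | rfl | rfl | rfl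
  · exact h.1
  · exact h.2.1
  · exact h.2.2.1
  · exact h.2.2.2.1
  · exact h.2.2.2.2

theorem ndn6 {o : V} (h : ¬ (p = o ∨ q = o ∨ r = o ∨ s = o ∨ t = o ∨ u = o)) : ∀ x ∈ [p, q, r, s, t, u], x ≠ o := by
  simp only [not_or] at h
  intro x hx
  simp only [List.mem_cons, List.not_mem_nil, or_false] at hx
  rcases hx with rfl | rfl | rfl | rfl | rfl | rfl
  · exact h.1
  · exact h.2.1
  · exact h.2.2.1
  · exact h.2.2.2.1
  · exact h.2.2.2.2.1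
  · exact h.2.2.2.2.2

theorem nd_oo {l : List V} {o o' : V} (h : l.Nodup) (h1 : ∀ x ∈ l, x ≠ o) (h2 : ∀ x ∈ l, x ≠ o') (n : o ≠ o') : (l ++ [o, o']).Nodup := by
  have h3 : ((l ++ [o]) ++ [o']).Nodup := nd_o (nd_o h h1) (by
    intro x hx
    rcases List.mem_append.1 hx with hx | hx
    · exact h2 x hx
    · rw [List.mem_singleton.1 hx]
      exact n)
  simpa using h3

/-- not both -/
theorem m_nb (hc : A1C Y) (nd : [p, q, r, s].Nodup) (g1 : Y.TT p q r s) (g2 : Y.TT p r q s) : False := by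
  have hf := a1f hc
  by_cases hx : p = Y.x ∨ q = Y.x ∨ r = Y.x ∨ s = Y.x
  · by_cases ha : p = Y.a ∨ q = Y.a ∨ r = Y.a ∨ s = Y.a <;> by_cases hb : p = Y.b ∨ q = Y.b ∨ r = Y.b ∨ s = Y.b
    · exact nb11 hc hf nd g1 g2 hx ha hb
    · exact nb10 hc hf (nd_o nd (ndn4 hb)) g1 g2 hx ha rfl
    · exact nb01 hc hf (nd_o nd (ndn4 ha)) g1 g2 hx rfl hb
    · exact nb00 hc hf (nd_oo nd (ndn4 ha) (ndn4 hb) hc.ab.ne) g1 g2 hx rfl rfl
  · simp only [not_or] at hx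
    obtain ⟨x1, x2, x3, x4⟩ := hx
    exact hc.qt.notboth (hc.qt.swap₂ (hc.qt.swap₁ (hc.qt.swap₂ ((tt_n x1 x2 x3 x4).1 g1)))) ((tt_n x1 x3 x2 x4).1 g2)

theorem m_nc (hc : A1C Y) (nd : [p, q, r, s].Nodup) (g1 : Y.TT p q r s) (g2 : Y.XX p q r s) : False := by
  have hf := a1f hc
  by_cases hx : p = Y.x ∨ q = Y.x ∨ r = Y.x ∨ s = Y.x
  · by_cases ha : p = Y.a ∨ q = Y.a ∨ r = Y.a ∨ s = Y.a <;> by_cases hb : p = Y.b ∨ q = Y.b ∨ r = Y.b ∨ s = Y.b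
    · exact nc11 hc hf nd g1 g2 hx ha hb
    · exact nc10 hc hf (nd_o nd (ndn4 hb)) g1 g2 hx ha rfl
    · exact nc01 hc hf (nd_o nd (ndn4 ha)) g1 g2 hx rfl hb
    · exact nc00 hc hf (nd_oo nd (ndn4 ha) (ndn4 hb) hc.ab.ne) g1 g2 hx rfl rfl
  · simp only [not_or] at hx
    obtain ⟨x1, x2, x3, x4⟩ := hx
    exact hc.qt.nocross ((tt_n x1 x2 x3 x4).1 g1) ((hc.e0 x1 x2 x3 x4).1 g2)

theorem m_some (hc : A1C Y) (nd : [p, q, r, s].Nodup) (e1 : Y.G.Adj p r) (e2 : Y.G.Adj q s) (g1 : Y.XX p r q s) (g2 : ¬ Y.TT p q r s)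
    (g3 : ¬ Y.TT p s q r) : False := by
  have hf := a1f hc
  by_cases hx : p = Y.x ∨ q = Y.x ∨ r = Y.x ∨ s = Y.x
  · by_cases ha : p = Y.a ∨ q = Y.a ∨ r = Y.a ∨ s = Y.a <;> by_cases hb : p = Y.b ∨ q = Y.b ∨ r = Y.b ∨ s = Y.b
    · exact some11 hc hf nd e1 e2 g1 g2 g3 hx ha hb
    · exact some10 hc hf (nd_o nd (ndn4 hb)) e1 e2 g1 g2 g3 hx ha rfl
    · exact some01 hc hf (nd_o nd (ndn4 ha)) e1 e2 g1 g2 g3 hx rfl hb
    · exact some00 hc hf (nd_oo nd (ndn4 ha) (ndn4 hb) hc.ab.ne) e1 e2 g1 g2 g3 hx rfl rfl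
  · simp only [not_or] at hx
    obtain ⟨x1, x2, x3, x4⟩ := hx
    simp only [List.nodup_cons, List.mem_cons, List.not_mem_nil, or_false, not_or] at nd
    obtain ⟨⟨n1, n2, n3⟩, ⟨n4, n5⟩, n6, _⟩ := nd
    rcases hc.qt.some e1 e2 n1 n3 n4 n6 ((hc.e0 x1 x3 x2 x4).1 g1) with h | h
    · exact g2 ((tt_n x1 x2 x3 x4).2 h)
    · exact g3 ((tt_n x1 x4 x2 x3).2 h)

theorem m_tr (hc : A1C Y) (nd : [p, q, r, s, t].Nodup) (g1 : Y.TT p q r s) (g2 : Y.TT p q s t) (g3 : ¬ Y.TT p q r t) : False := by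
  have hf := a1f hc
  by_cases hx : p = Y.x ∨ q = Y.x ∨ r = Y.x ∨ s = Y.x ∨ t = Y.x
  · by_cases ha : p = Y.a ∨ q = Y.a ∨ r = Y.a ∨ s = Y.a ∨ t = Y.a <;> by_cases hb : p = Y.b ∨ q = Y.b ∨ r = Y.b ∨ s = Y.b ∨ t = Y.b
    · exact tr11 hc hf nd g1 g2 g3 hx ha hb
    · exact tr10 hc hf (nd_o nd (ndn5 hb)) g1 g2 g3 hx ha rfl
    · exact tr01 hc hf (nd_o nd (ndn5 ha)) g1 g2 g3 hx rfl hb
    · exact tr00 hc hf (nd_oo nd (ndn5 ha) (ndn5 hb) hc.ab.ne) g1 g2 g3 hx rfl rfl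
  · simp only [not_or] at hx
    obtain ⟨x1, x2, x3, x4, x5⟩ := hx
    simp only [List.nodup_cons, List.mem_cons, List.not_mem_nil, or_false, not_or] at nd
    exact g3 ((tt_n x1 x2 x3 x5).2 (hc.qt.trans ((tt_n x1 x2 x3 x4).1 g1) ((tt_n x1 x2 x4 x5).1 g2) nd.2.2.1.2))

theorem m_ff (hc : A1C Y) (nd : [p, q, r, s, t].Nodup) (g1 : Y.TT p r q s) (g2 : Y.TT p t q r) (g3 : ¬ Y.TT p t q s) : False := by
  have hf := a1f hc
  by_cases hx : p = Y.x ∨ q = Y.x ∨ r = Y.x ∨ s = Y.x ∨ t = Y.x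
  · by_cases ha : p = Y.a ∨ q = Y.a ∨ r = Y.a ∨ s = Y.a ∨ t = Y.a <;> by_cases hb : p = Y.b ∨ q = Y.b ∨ r = Y.b ∨ s = Y.b ∨ t = Y.b
    · exact ff11 hc hf nd g1 g2 g3 hx ha hb
    · exact ff10 hc hf (nd_o nd (ndn5 hb)) g1 g2 g3 hx ha rfl
    · exact ff01 hc hf (nd_o nd (ndn5 ha)) g1 g2 g3 hx rfl hb
    · exact ff00 hc hf (nd_oo nd (ndn5 ha) (ndn5 hb) hc.ab.ne) g1 g2 g3 hx rfl rfl
  · simp only [not_or] at hx
    obtain ⟨x1, x2, x3, x4, x5⟩ := hx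
    rcases hc.qt.ferrers ((tt_n x1 x3 x2 x4).1 g1) ((tt_n x1 x5 x2 x3).1 g2) with h | h
    · exact (hc.qt.adj (hc.qt.swap₂ (hc.qt.swap₁ (hc.qt.swap₂ (hc.qt.swap₁ h))))).ne rfl
    · exact g3 ((tt_n x1 x5 x2 x4).2 h)

theorem m_fg (hc : A1C Y) (nd : [p, q, r, s, t, u].Nodup) (g1 : Y.TT p r q s) (g2 : Y.TT p t q u) (g3 : ¬ Y.TT p r q u)
    (g4 : ¬ Y.TT p t q s) : False := by
  have hf := a1f hc
  by_cases hx : p = Y.x ∨ q = Y.x ∨ r = Y.x ∨ s = Y.x ∨ t = Y.x ∨ u = Y.x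
  · by_cases ha : p = Y.a ∨ q = Y.a ∨ r = Y.a ∨ s = Y.a ∨ t = Y.a ∨ u = Y.a <;>
      by_cases hb : p = Y.b ∨ q = Y.b ∨ r = Y.b ∨ s = Y.b ∨ t = Y.b ∨ u = Y.b
    · exact fg11 hc hf nd g1 g2 g3 g4 hx ha hb
    · exact fg10 hc hf (nd_o nd (ndn6 hb)) g1 g2 g3 g4 hx ha rfl
    · exact fg01 hc hf (nd_o nd (ndn6 ha)) g1 g2 g3 g4 hx rfl hb
    · exact fg00 hc hf (nd_oo nd (ndn6 ha) (ndn6 hb) hc.ab.ne) g1 g2 g3 g4 hx rfl rfl
  · simp only [not_or] at hx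
    obtain ⟨x1, x2, x3, x4, x5, x6⟩ := hx
    rcases hc.qt.ferrers ((tt_n x1 x3 x2 x4).1 g1) ((tt_n x1 x5 x2 x6).1 g2) with h | h
    · exact g3 ((tt_n x1 x3 x2 x6).2 h)
    · exact g4 ((tt_n x1 x5 x2 x4).2 h)

end

theorem tt_adj (hc : A1C Y) {a b c d : V} (h : Y.TT a b c d) : Y.G.Adj a c := by
  rcases h with ⟨e, h⟩ | ⟨e, h⟩ | ⟨e, h⟩ | ⟨e, h⟩ | ⟨_, h⟩
  · exact h.1.1.1
  · exact h.1.2.1
  · exact h.1.1.1.symm
  · exact h.1.2.1.symm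
  · exact hc.qt.adj h

theorem tt_ne (hc : A1C Y) {a b c d : V} (h : Y.TT a b c d) : a ≠ b := by
  rcases h with ⟨e, h⟩ | ⟨e, h⟩ | ⟨e, h⟩ | ⟨e, h⟩ | ⟨_, h⟩
  · exact h.2.1.1
  · exact h.2.1.1.symm
  · exact h.2.1.2
  · exact h.2.1.2
  · exact hc.qt.ne h

/-- all points are different -/
theorem tt_nd (hc : A1C Y) {a b c d : V} (h : Y.TT a b c d) : [a, b, c, d].Nodup := by
  have s1 : ∀ {a b c d}, Y.TT a b c d → Y.TT b a c d := fun h => tt_sym.1 _ _ _ _ h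
  have s2 : ∀ {a b c d}, Y.TT a b c d → Y.TT c d a b := fun h => tt_sym.2 _ _ _ _ h
  have n1 := tt_ne hc h
  have n2 := (tt_adj hc h).ne
  have n3 := (tt_adj hc (s2 (s1 (s2 h)))).ne
  have n4 := (tt_adj hc (s1 h)).ne
  have n5 := (tt_adj hc (s1 (s2 (s1 (s2 h))))).ne
  have n6 := tt_ne hc (s2 h)
  simp only [List.nodup_cons, List.mem_cons, List.not_mem_nil, or_false, not_or, not_false_eq_true, List.nodup_nil, and_true]
  exact ⟨⟨n1, n2, n3⟩, ⟨n4, n5⟩, n6⟩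

/-- THE NEW STRUCTURE -/
theorem a1_qt (hc : A1C Y) : QT Y.G Y.XX Y.TT := by
  have s1 : ∀ {a b c d}, Y.TT a b c d → Y.TT b a c d := fun h => tt_sym.1 _ _ _ _ h
  have s2 : ∀ {a b c d}, Y.TT a b c d → Y.TT c d a b := fun h => tt_sym.2 _ _ _ _ h
  refine ⟨s1, s2, tt_ne hc, tt_adj hc, ?_, ?_, ?_, ?_, ?_⟩
  · intro a b c d h1 h2
    exact m_nc hc (tt_nd hc h1) h1 h2
  · intro a b c d e1 e2 n1 n2 n3 n4 hx
    by_contra hn
    rw [not_or] at hn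
    refine m_some hc ?_ e1 e2 hx hn.1 hn.2
    simp only [List.nodup_cons, List.mem_cons, List.not_mem_nil, or_false, not_or, not_false_eq_true, List.nodup_nil, and_true]
    exact ⟨⟨n1, e1.ne, n2⟩, ⟨n3, e2.ne⟩, n4⟩
  · intro a b c d h1 h2
    exact m_nb hc (tt_nd hc (s2 (s1 (s2 h1)))) (s2 (s1 (s2 h1))) h2
  · intro u w x y z h1 h2 n
    by_contra hn
    refine m_tr hc ?_ h1 h2 hn
    have d1 := tt_nd hc h1
    have d2 := tt_nd hc h2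
    simp only [List.nodup_cons, List.mem_cons, List.not_mem_nil, or_false, not_or, not_false_eq_true, List.nodup_nil, and_true] at d1 d2 ⊢
    obtain ⟨⟨n1, n2, n3⟩, ⟨n4, n5⟩, n6⟩ := d1
    obtain ⟨⟨m1, m2, m3⟩, ⟨m4, m5⟩, m6⟩ := d2
    exact ⟨⟨n1, n2, n3, m3⟩, ⟨n4, n5, m5⟩, ⟨n6, n⟩, m6⟩
  · intro a b x y x' y' h1 h2
    by_contra hn
    rw [not_or] at hn
    obtain ⟨k1, k2⟩ := hn
    have d1 := tt_nd hc h1
    have d2 := tt_nd hc h2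
    simp only [List.nodup_cons, List.mem_cons, List.not_mem_nil, or_false, not_or, not_false_eq_true, List.nodup_nil, and_true] at d1 d2
    obtain ⟨⟨n1, n2, n3⟩, ⟨n4, n5⟩, n6⟩ := d1
    obtain ⟨⟨m1, m2, m3⟩, ⟨m4, m5⟩, m6⟩ := d2
    have x1 : x ≠ x' := by
      rintro rfl
      exact k1 h2
    have x2 : y ≠ y' := by
      rintro rfl
      exact k1 h1
    -- a x b y, a x' b y'
    by_cases e1 : x = y'
    · subst e1
      by_cases e2 : y = x'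
      · subst e2
        -- T a x b y, T a y b x
        exact m_nb hc (tt_nd hc (s2 (s1 (s2 h1)))) (s2 (s1 (s2 h1))) (s2 (s1 (s2 h2)))
      · refine m_ff hc (p := a) (q := b) (r := x) (s := y) (t := x') ?_ h1 h2 k2
        simp only [List.nodup_cons, List.mem_cons, List.not_mem_nil, or_false, not_or, not_false_eq_true, List.nodup_nil, and_true]
        exact ⟨⟨n2, n1, n3, m1⟩, ⟨Ne.symm n4, n6, Ne.symm m4⟩, ⟨n5, x1⟩, e2⟩
    · by_cases e2 : y = x'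
      · subst e2
        refine m_ff hc (p := a) (q := b) (r := y) (s := y') (t := x) ?_ h2 h1 k1
        simp only [List.nodup_cons, List.mem_cons, List.not_mem_nil, or_false, not_or, not_false_eq_true, List.nodup_nil, and_true]
        exact ⟨⟨n2, m1, m3, n1⟩, ⟨Ne.symm m4, m6, Ne.symm n4⟩, ⟨m5, x1.symm⟩, Ne.symm e1⟩
      · refine m_fg hc (p := a) (q := b) (r := x) (s := y) (t := x') (u := y') ?_ h1 h2 k1 k2
        simp only [List.nodup_cons, List.mem_cons, List.not_mem_nil, or_false, not_or, not_false_eq_true, List.nodup_nil, and_true]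
        exact ⟨⟨n2, n1, n3, m1, m3⟩, ⟨Ne.symm n4, n6, Ne.symm m4, m6⟩, ⟨n5, x1, e1⟩, ⟨e2, x2⟩, m5⟩

end Pool.Agent.SOH
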