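import Pool.Agent.SOH.A1T

/-! Project SOH (MP_66ba69_lc), the word 201 in the context 012 gives 012: refutations for the forced quartets (generated). -/

set_option autoImplicit false
set_option maxRecDepth 100000
set_option linter.unusedVariables false

namespace Pool.Agent.SOH

open Pool.Agent.SOC Pool.Agent.SOD Pool.Agent.RUP Pool.Agent.SOF Pool.Agent.SOG

/-- templates -/
def fa_r_x : List Tm := [
  ⟨0, [], [], [.b true 1 8 8]⟩,
  ⟨0, [], [], [.b true 2 9 9]⟩,
  ⟨0, [], [], [.b true 3 10 10]⟩,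
  ⟨0, [], [], [.b true 0 9 11]⟩,
  ⟨0, [], [], [.q false 1 8 11 9 10]⟩,
  ⟨0, [], [], [.b true 0 8 12]⟩,
  ⟨0, [], [], [.b false 0 10 12]⟩]

def fa_r_p0 : List Nat := [
0x402500000003d000000041000c000301,
0x62403100000003f00000003d00000004100db000401,
0x6422900000004100000003f0000000430020000401,
0x64200f00000004300000000400000000200000004500f4000501,
0x28640900000004903c7000201,
0x8422900000004100000003f000000049026b000401,
0x468203b00000004700000000600000003d00000003f0000000410000000490157000701,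
0x840621300000000800000000a03bf000301,
0x68020900000000c040f000201,
0x68200f00000001200000004700000004300000001000000000e000600]

def fa_r_pf : List Nat := fa_r_p0

theorem fa_r_ref {V : Type} {S : SRel V} {p : Nat → V} (hp : ∀ i j, i < 5 → j < 5 → p i = p j → i = j)
    (hts : PHs S p 5 ((aO ++ (aQ ++ aC)) ++ fa_r_x)) : False :=
  refuteS (k := 5) (n2 := 4) (n3 := 1) (n4 := 4) (o3 := 60) (o4 := 95) (M := 575) ((aO ++ (aQ ++ aC)) ++ fa_r_x) fa_r_pf (by decide +kernel)
    (by decide +kernel) (by decide +kernel) (by decide +kernel) hp hts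

theorem fa_r {V : Type} {Y : ASy V} (hc : A1C Y) {x a b c d : V}
    (nd : [x, a, b, c, d].Nodup) (hx : x = Y.x) (ha : a = Y.a) (hb : b = Y.b) (e1 : Y.G.Adj a c)
    (e2 : ¬ Y.T x c a b) (e3 : Y.G.Adj x d) (e4 : ¬ Y.G.Adj b d) : False :=
  fa_r_ref (S := Y.rel) (pt_inj (o := x) nd rfl) (PHs.app (UHs.phs ((aO_h hc).app ((aQ_h hc).app (aC_h hc))) _ _) (
  .cons (fun d hd h0 => h0 ⟨rfl, hx⟩) (
  .cons (fun d hd h0 => h0 ⟨rfl, ha⟩) (
  .cons (fun d hd h0 => h0 ⟨rfl, hb⟩) (
  .cons (fun d hd h0 => h0 e1) (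
  .cons (fun d hd h0 => e2 h0) (
  .cons (fun d hd h0 => h0 e3) (
  .cons (fun d hd h0 => e4 h0) (
  .nil)))))))))

/-- templates -/
def fb_r_x : List Tm := [
  ⟨0, [], [], [.b true 1 8 8]⟩,
  ⟨0, [], [], [.b true 2 9 9]⟩,
  ⟨0, [], [], [.b true 3 10 10]⟩,
  ⟨0, [], [], [.b true 0 9 11]⟩,
  ⟨0, [], [], [.b true 0 9 13]⟩,
  ⟨0, [], [], [.b true 0 11 13]⟩,
  ⟨0, [], [], [.q false 1 9 10 11 13]⟩,
  ⟨0, [], [], [.b true 0 8 12]⟩,
  ⟨0, [], [], [.b false 0 10 12]⟩]

def fb_r_p0 : List Nat := [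
0x80423500000003f00000004105a0000301,
0x6422900000004100000003f0000000430020000401,
0xa422900000004100000003f0000000450044000401,
0x68040900000004d062d000201,
0xa8040900000004d07b9000201,
0x8422900000004100000003f00000004d0454000401,
0x468203b00000004b00000000400000003d00000003f00000004100000004d0184000701,
0x4a8203b00000004b00000000600000003d00000003f00000004100000004d02d4000701,
0x68020900000000c0625000201,
0xa8020900000000c07b1000201,
0x462800700000000200000000e0188000301,
0x68200f00000001200000004b00000004300000000e01ad000501,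
0x4a280070000000020000000100318000301,
0xa8200f00000001400000004b0000000450000000100299000501,
0x68400f00000000800000004b00000000400000001601dd000501,
0xa8400f00000000a00000004b00000000600000001a029d000501,
0xa06821100000001800000001c0365000301,
0xa06841100000001e0000000200369000301,
0x482a611000000049000000022000000024000400]

def fb_r_pf : List Nat := fb_r_p0

theorem fb_r_ref {V : Type} {S : SRel V} {p : Nat → V} (hp : ∀ i j, i < 6 → j < 6 → p i = p j → i = j)
    (hts : PHs S p 6 ((aO ++ (aQ ++ aC)) ++ fb_r_x)) : False :=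
  refuteS (k := 6) (n2 := 4) (n3 := 1) (n4 := 4) (o3 := 84) (o4 := 140) (M := 1064) ((aO ++ (aQ ++ aC)) ++ fb_r_x) fb_r_pf (by decide +kernel)
    (by decide +kernel) (by decide +kernel) (by decide +kernel) hp hts

theorem fb_r {V : Type} {Y : ASy V} (hc : A1C Y) {x a b c d e : V}
    (nd : [x, a, b, c, d, e].Nodup) (hx : x = Y.x) (ha : a = Y.a) (hb : b = Y.b) (e1 : Y.G.Adj a c)
    (e5 : Y.G.Adj a e) (e6 : Y.G.Adj c e) (e2 : ¬ Y.T a b c e) (e3 : Y.G.Adj x d) (e4 : ¬ Y.G.Adj b d) : False :=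
  fb_r_ref (S := Y.rel) (pt_inj (o := x) nd rfl) (PHs.app (UHs.phs ((aO_h hc).app ((aQ_h hc).app (aC_h hc))) _ _) (
  .cons (fun d hd h0 => h0 ⟨rfl, hx⟩) (
  .cons (fun d hd h0 => h0 ⟨rfl, ha⟩) (
  .cons (fun d hd h0 => h0 ⟨rfl, hb⟩) (
  .cons (fun d hd h0 => h0 e1) (
  .cons (fun d hd h0 => h0 e5) (
  .cons (fun d hd h0 => h0 e6) (
  .cons (fun d hd h0 => e2 h0) (
  .cons (fun d hd h0 => h0 e3) (
  .cons (fun d hd h0 => e4 h0) (
  .nil)))))))))))

end Pool.Agent.SOH
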