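import Pool.Agent.SOH.A1D
import Pool.Agent.SOG.Th

/-! Project SOH (MP_66ba69_lc), the word 201 in the context 012 gives 012: templates (generated). -/

set_option autoImplicit false
set_option maxRecDepth 100000
set_option linter.unusedVariables false

namespace Pool.Agent.SOH

open Pool.Agent.SOC Pool.Agent.SOD Pool.Agent.RUP Pool.Agent.SOF Pool.Agent.SOG

variable {V : Type} {Y : ASy V} {p q r s z w : V}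

theorem k_adj {G : SimpleGraph V} {c d : V} (h : G.Adj c d) (hp : p = c) (hq : q = d) : G.Adj p q := by
  subst hp hq
  exact h

theorem k_s1 (hc : A1C Y) (hp : p = Y.a) (hq : q = Y.b) (n : q ≠ z) (h : Y.G.Adj p z) : Y.G.Adj q z := by
  subst hp hq
  exact hc.s1 n.symm h

theorem k_s2 (hc : A1C Y) (hp : p = Y.x) (hq : q = Y.b) (n : p ≠ z) (h : Y.G.Adj q z) : Y.G.Adj p z := by
  subst hp hq
  exact hc.s2 n.symm h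

theorem k_c1 (hc : A1C Y) (hp : p = Y.x) (hq : q = Y.b) (n1 : q ≠ z) (n2 : p ≠ w) (h1 : ¬ z = Y.a) (h2 : ¬ w = Y.a)
    (h : Y.G.Adj p z) (h' : ¬ Y.G.Adj q z) (h'' : Y.G.Adj q w) : Y.G.Adj z w := by
  subst hp hq
  exact hc.c1 h1 n1.symm n2.symm h2 h h' h''

theorem k_c2 (hc : A1C Y) (hp : p = Y.x) (hq : q = Y.a) (n1 : q ≠ z) (n2 : p ≠ w) (h1 : ¬ z = Y.b) (h2 : ¬ w = Y.b)
    (h : Y.G.Adj p z) (h' : ¬ Y.G.Adj q z) (h'' : Y.G.Adj q w) : Y.G.Adj z w := by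
  subst hp hq
  exact hc.c2 n1.symm h1 n2.symm h2 h h' h''

theorem k_o1 (hc : A1C Y) (hp : p = Y.x) (hq : q = Y.b) (hr : r = Y.a) (n1 : p ≠ z) (n2 : r ≠ z) (n3 : q ≠ z) : Y.X p q r z := by
  subst hp hq hr
  exact hc.o1 n1.symm n2.symm n3.symm

theorem k_o2 (hc : A1C Y) (hp : p = Y.x) (hq : q = Y.a) (h : Y.X p q z w) : False := by
  subst hp hq
  exact hc.o2 h

theorem k_o3 (hc : A1C Y) (hp : p = Y.a) (hq : q = Y.b) (h : Y.X p q z w) : False := by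
  subst hp hq
  exact hc.o3 h

theorem k_o4 (hc : A1C Y) (hp : p = Y.x) (hq : q = Y.b) (h1 : ¬ z = Y.a) (h2 : ¬ w = Y.a) (h : Y.X p q z w) : False := by
  subst hp hq
  exact hc.o4 h1 h2 h

theorem k_r1 (hc : A1C Y) (hp : p = Y.x) (hq : q = Y.a) (n1 : q ≠ z) (n2 : p ≠ w) (h1 : ¬ z = Y.b) (h2 : ¬ w = Y.b)
    (h : Y.G.Adj p z) (h' : ¬ Y.G.Adj q z) (h'' : Y.G.Adj q w) : Y.X p z q w := by
  subst hp hq
  exact hc.r1 n1.symm h1 n2.symm h2 h h' h''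

theorem k_r2 (hc : A1C Y) (hp : p = Y.x) (hq : q = Y.a) (hr : r = Y.b) (n1 : q ≠ z) (n2 : z ≠ r) (n3 : p ≠ w) (n4 : q ≠ w)
    (h : Y.G.Adj p z) (h' : ¬ Y.G.Adj r z) (h'' : Y.G.Adj r w) : Y.X p z q w := by
  subst hp hq hr
  exact hc.r2 n1.symm n2 n3.symm n4.symm h h' h''

theorem k_e1 (hc : A1C Y) (hp : p = Y.x) (h1 : ¬ q = Y.a) (h2 : ¬ q = Y.b) (h3 : ¬ r = Y.a) (h4 : ¬ r = Y.b) (h5 : ¬ s = Y.a)
    (h6 : ¬ s = Y.b) (h : Y.XX p q r s) : Y.X p q r s := by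
  subst hp
  exact hc.e1 h1 h2 h3 h4 h5 h6 h

theorem k_ea1 (hc : A1C Y) (hp : p = Y.x) (hq : q = Y.a) (h1 : ¬ r = Y.b) (h2 : ¬ s = Y.b) (h : Y.XX p q r s) : False := by
  subst hp hq
  exact hc.ea1 h1 h2 h

theorem k_eb1 (hc : A1C Y) (hp : p = Y.x) (hq : q = Y.b) (h1 : ¬ r = Y.a) (h2 : ¬ s = Y.a) (h : Y.XX p q r s) : False := by
  subst hp hq
  exact hc.eb1 h1 h2 h

theorem k_ea2 (hc : A1C Y) (hp : p = Y.x) (hr : r = Y.a) (h1 : ¬ q = Y.b) (h2 : ¬ s = Y.b) (n1 : q ≠ r) (n2 : r ≠ s) (n3 : p ≠ q)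
    (n4 : p ≠ s) : Y.XX p q r s ↔ Y.X p s r q := by
  subst hp hr
  exact hc.ea2 h1 h2 n1 n2.symm n3.symm n4.symm

theorem k_eb2 (hc : A1C Y) (hp : p = Y.x) (hr : r = Y.b) (h1 : ¬ q = Y.a) (h2 : ¬ s = Y.a) (n1 : q ≠ r) (n2 : r ≠ s) (n3 : p ≠ q)
    (n4 : p ≠ s) : Y.XX p q r s ↔ Y.X p s r q := by
  subst hp hr
  exact hc.eb2 n1 n2.symm h1 h2 n3.symm n4.symm

theorem k_e3 (hc : A1C Y) (hp : p = Y.x) (hq : q = Y.a) (hr : r = Y.b) (n1 : p ≠ z) (n2 : q ≠ z) (n3 : r ≠ z) : Y.XX p q r z := by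
  subst hp hq hr
  exact hc.e3 n1.symm n2.symm n3.symm

theorem k_e4 (hc : A1C Y) (hp : p = Y.x) (hq : q = Y.b) (hr : r = Y.a) (h : Y.XX p q r z) : False := by
  subst hp hq hr
  exact hc.e4 h

theorem k_e5 (hc : A1C Y) (hp : p = Y.x) (hq : q = Y.a) (hr : r = Y.b) (h : Y.XX p z q r) : False := by
  subst hp hq hr
  exact hc.e5 h

theorem k_fa (hf : A1F Y) (hp : p = Y.x) (hq : q = Y.a) (hr : r = Y.b) (n1 : p ≠ z) (n2 : r ≠ z) (h : Y.G.Adj q z) : Y.T p z q r := by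
  subst hp hq hr
  exact hf.fa n1.symm n2.symm h

theorem k_fb (hf : A1F Y) (hp : p = Y.a) (hq : q = Y.b) (h1 : ¬ z = Y.x) (n1 : q ≠ z) (h2 : ¬ w = Y.x) (n2 : q ≠ w) (k1 : Y.G.Adj p z)
    (k2 : Y.G.Adj p w) (k3 : Y.G.Adj z w) : Y.T p q z w := by
  subst hp hq
  exact hf.fb h1 n1.symm h2 n2.symm k1 k2 k3

/-- templates -/
def aO : List Tm := [
  ⟨4, [], ad4, [.q true 0 0 1 2 3, .q true 0 0 2 1 3, .q true 0 0 3 1 2]⟩,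
  ⟨4, [], ad4, [.q false 0 0 1 2 3, .q false 0 0 2 1 3]⟩,
  ⟨5, [], ad5, [.q false 0 0 1 2 3, .q false 0 0 1 3 4, .q false 0 0 1 2 4]⟩,
  ⟨5, [], ad5, [.q false 0 0 1 2 3, .q true 0 0 1 3 4, .q true 0 0 1 2 4]⟩]

theorem aO_h {V : Type} {Y : ASy V} (hc : A1C Y) : UHs Y.rel aO :=
  .cons (fun v n01 n02 n03 n12 n13 n23 h0 h1 h2 => (hc.sepr.one n01 n02 n03 n12 n13 n23).elim h0 (fun k => k.elim h1 h2)) (
  .cons (fun v n01 n02 n03 n12 n13 n23 h0 h1 => hc.sepr.amo h0 h1) (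
  .cons (fun v n01 n02 n03 n04 n12 n13 n14 n23 n24 n34 h0 h1 h2 => hc.sepr.add h0 h1 h2) (
  .cons (fun v n01 n02 n03 n04 n12 n13 n14 n23 n24 n34 h0 h1 h2 => (hc.sepr.add2 h0 n34 n24 n04 n14).elim h1 h2) (
  .nil))))

/-- templates -/
def aQ : List Tm := [
  ⟨4, [], ad4, [.q false 1 0 1 2 3, .b true 0 0 2]⟩,
  ⟨4, [], ad4, [.q false 1 0 1 2 3, .q false 0 0 1 2 3]⟩,
  ⟨4, [], ad4, [.q false 1 0 1 2 3, .q false 1 0 2 1 3]⟩,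
  ⟨4, [], ad4, [.b false 0 0 2, .b false 0 1 3, .q false 0 0 2 1 3, .q true 1 0 1 2 3, .q true 1 0 3 1 2]⟩,
  ⟨5, [], ad5, [.q false 1 0 1 2 3, .q false 1 0 1 3 4, .q true 1 0 1 2 4]⟩,
  ⟨5, [], ad5, [.q false 1 0 2 1 3, .q false 1 0 4 1 2, .q true 1 0 4 1 3]⟩,
  ⟨6, [], ad6, [.q false 1 0 2 1 3, .q false 1 0 4 1 5, .q true 1 0 2 1 5, .q true 1 0 4 1 3]⟩]

theorem aQ_h {V : Type} {Y : ASy V} (hc : A1C Y) : UHs Y.rel aQ :=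
  .cons (fun v n01 n02 n03 n12 n13 n23 h0 h1 => h1 (hc.qt.adj h0)) (
  .cons (fun v n01 n02 n03 n12 n13 n23 h0 h1 => hc.qt.nocross h0 h1) (
  .cons (fun v n01 n02 n03 n12 n13 n23 h0 h1 => hc.qt.notboth (hc.qt.swap₂ (hc.qt.swap₁ (hc.qt.swap₂ h0))) h1) (
  .cons (fun v n01 n02 n03 n12 n13 n23 h0 h1 h2 h3 h4 => (hc.qt.some h0 h1 n01 n03 n12 n23 h2).elim h3 h4) (
  .cons (fun v n01 n02 n03 n04 n12 n13 n14 n23 n24 n34 h0 h1 h2 => h2 (hc.qt.trans h0 h1 n24)) (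
  .cons (fun v n01 n02 n03 n04 n12 n13 n14 n23 n24 n34 h0 h1 h2 => (hc.qt.ferrers h0 h1).elim (fun k => (hc.qt.adj (hc.qt.swap₂ (hc.qt.swap₁ (hc.qt.swap₂ (hc.qt.swap₁ k))))).ne rfl) h2) (
  .cons (fun v n01 n02 n03 n04 n05 n12 n13 n14 n15 n23 n24 n25 n34 n35 n45 h0 h1 h2 h3 => (hc.qt.ferrers h0 h1).elim h2 h3) (
  .nil)))))))

/-- templates -/
def aC : List Tm := [
  ⟨2, [], [(0, 1)], [.b false 1 0 0, .b false 1 1 1]⟩,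
  ⟨2, [], [(0, 1)], [.b false 2 0 0, .b false 2 1 1]⟩,
  ⟨2, [], [(0, 1)], [.b false 3 0 0, .b false 3 1 1]⟩,
  ⟨1, [], [], [.b false 1 0 0, .b false 2 0 0]⟩,
  ⟨1, [], [], [.b false 1 0 0, .b false 3 0 0]⟩,
  ⟨1, [], [], [.b false 2 0 0, .b false 3 0 0]⟩,
  ⟨2, [], [(0, 1)], [.b false 1 0 0, .b false 2 1 1, .b true 0 0 1]⟩,
  ⟨2, [], [(0, 1)], [.b false 1 0 0, .b false 3 1 1, .b true 0 0 1]⟩,
  ⟨2, [], [(0, 1)], [.b false 2 0 0, .b false 3 1 1, .b true 0 0 1]⟩,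
  ⟨3, [], [(0, 1), (0, 2), (1, 2)], [.b false 2 0 0, .b false 3 1 1, .b false 0 0 2, .b true 0 1 2]⟩,
  ⟨3, [], [(0, 1), (0, 2), (1, 2)], [.b false 1 0 0, .b false 3 1 1, .b false 0 1 2, .b true 0 0 2]⟩,
  ⟨4, [], ad4, [.b false 1 0 0, .b false 3 1 1, .b false 0 0 2, .b true 0 1 2, .b false 0 1 3, .b true 0 2 3, .b true 2 2 2, .b true 2 3 3]⟩,
  ⟨4, [], ad4, [.b false 1 0 0, .b false 2 1 1, .b false 0 0 2, .b true 0 1 2, .b false 0 1 3, .b true 0 2 3, .b true 3 2 2, .b true 3 3 3]⟩,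
  ⟨4, [], ad4, [.b false 1 0 0, .b false 3 1 1, .b false 2 2 2, .q true 0 0 1 2 3]⟩,
  ⟨4, [], ad4, [.b false 1 0 0, .b false 2 1 1, .q false 0 0 1 2 3]⟩,
  ⟨4, [], ad4, [.b false 2 0 0, .b false 3 1 1, .q false 0 0 1 2 3]⟩,
  ⟨4, [], ad4, [.b false 1 0 0, .b false 3 1 1, .b true 2 2 2, .b true 2 3 3, .q false 0 0 1 2 3]⟩,
  ⟨4, [], ad4, [.b false 1 0 0, .b false 2 1 1, .b false 0 0 2, .b true 0 1 2, .b false 0 1 3, .b true 3 2 2, .b true 3 3 3, .q true 0 0 2 1 3]⟩,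
  ⟨5, [], ad5, [.b false 1 0 0, .b false 2 1 1, .b false 3 4 4, .b false 0 0 2, .b true 0 4 2, .b false 0 4 3, .q true 0 0 2 1 3]⟩]

theorem aC_h {V : Type} {Y : ASy V} (hc : A1C Y) : UHs Y.rel aC :=
  .cons (fun v n01 h0 h1 => n01 (h0.2.trans h1.2.symm)) (
  .cons (fun v n01 h0 h1 => n01 (h0.2.trans h1.2.symm)) (
  .cons (fun v n01 h0 h1 => n01 (h0.2.trans h1.2.symm)) (
  .cons (fun v  h0 h1 => hc.xa.ne (h0.2.symm.trans h1.2)) (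
  .cons (fun v  h0 h1 => hc.xb.ne (h0.2.symm.trans h1.2)) (
  .cons (fun v  h0 h1 => hc.ab.ne (h0.2.symm.trans h1.2)) (
  .cons (fun v n01 h0 h1 h2 => h2 (k_adj hc.xa h0.2 h1.2)) (
  .cons (fun v n01 h0 h1 h2 => h2 (k_adj hc.xb h0.2 h1.2)) (
  .cons (fun v n01 h0 h1 h2 => h2 (k_adj hc.ab h0.2 h1.2)) (
  .cons (fun v n01 n02 n12 h0 h1 h2 h3 => h3 (k_s1 hc h0.2 h1.2 n12 h2)) (
  .cons (fun v n01 n02 n12 h0 h1 h2 h3 => h3 (k_s2 hc h0.2 h1.2 n02 h2)) (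
  .cons (fun v n01 n02 n03 n12 n13 n23 h0 h1 h2 h3 h4 h5 h6 h7 => h5 (k_c1 hc h0.2 h1.2 n12 n03 (ng h6) (ng h7) h2 h3 h4)) (
  .cons (fun v n01 n02 n03 n12 n13 n23 h0 h1 h2 h3 h4 h5 h6 h7 => h5 (k_c2 hc h0.2 h1.2 n12 n03 (ng h6) (ng h7) h2 h3 h4)) (
  .cons (fun v n01 n02 n03 n12 n13 n23 h0 h1 h2 h3 => h3 (k_o1 hc h0.2 h1.2 h2.2 n03 n23 n13)) (
  .cons (fun v n01 n02 n03 n12 n13 n23 h0 h1 h2 => k_o2 hc h0.2 h1.2 h2) (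
  .cons (fun v n01 n02 n03 n12 n13 n23 h0 h1 h2 => k_o3 hc h0.2 h1.2 h2) (
  .cons (fun v n01 n02 n03 n12 n13 n23 h0 h1 h2 h3 h4 => k_o4 hc h0.2 h1.2 (ng h2) (ng h3) h4) (
  .cons (fun v n01 n02 n03 n12 n13 n23 h0 h1 h2 h3 h4 h5 h6 h7 => h7 (k_r1 hc h0.2 h1.2 n12 n03 (ng h5) (ng h6) h2 h3 h4)) (
  .cons (fun v n01 n02 n03 n04 n12 n13 n14 n23 n24 n34 h0 h1 h2 h3 h4 h5 h6 => h6 (k_r2 hc h0.2 h1.2 h2.2 n12 n24 n03 n13 h3 h4 h5)) (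
  .nil)))))))))))))))))))

/-- templates -/
def aX : List Tm := [
  ⟨4, [], ad4, [.b true 1 0 0, .b true 1 1 1, .b true 1 2 2, .b true 1 3 3, .q false 2 0 1 2 3, .q true 0 0 1 2 3]⟩,
  ⟨4, [], ad4, [.b true 1 0 0, .b true 1 1 1, .b true 1 2 2, .b true 1 3 3, .q true 2 0 1 2 3, .q false 0 0 1 2 3]⟩,
  ⟨4, [], ad4, [.b false 1 0 0, .b true 2 1 1, .b true 3 1 1, .b true 2 2 2, .b true 3 2 2, .b true 2 3 3, .b true 3 3 3, .q false 2 0 1 2 3, .q true 0 0 1 2 3]⟩,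
  ⟨4, [], ad4, [.b false 1 0 0, .b false 2 1 1, .b true 3 2 2, .b true 3 3 3, .q false 2 0 1 2 3]⟩,
  ⟨4, [], ad4, [.b false 1 0 0, .b false 2 2 2, .b true 3 1 1, .b true 3 3 3, .q false 2 0 1 2 3, .q true 0 0 3 2 1]⟩,
  ⟨4, [], ad4, [.b false 1 0 0, .b false 2 2 2, .b true 3 1 1, .b true 3 3 3, .q true 2 0 1 2 3, .q false 0 0 3 2 1]⟩,
  ⟨4, [], ad4, [.b false 1 0 0, .b false 3 1 1, .b true 2 2 2, .b true 2 3 3, .q false 2 0 1 2 3]⟩,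
  ⟨4, [], ad4, [.b false 1 0 0, .b false 3 2 2, .b true 2 1 1, .b true 2 3 3, .q false 2 0 1 2 3, .q true 0 0 3 2 1]⟩,
  ⟨4, [], ad4, [.b false 1 0 0, .b false 3 2 2, .b true 2 1 1, .b true 2 3 3, .q true 2 0 1 2 3, .q false 0 0 3 2 1]⟩,
  ⟨4, [], ad4, [.b false 1 0 0, .b false 2 1 1, .b false 3 2 2, .q true 2 0 1 2 3]⟩,
  ⟨4, [], ad4, [.b false 1 0 0, .b false 3 1 1, .b false 2 2 2, .q false 2 0 1 2 3]⟩,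
  ⟨4, [], ad4, [.b false 1 0 0, .b false 2 1 1, .b false 3 2 2, .q false 2 0 3 1 2]⟩]

theorem aX_h {V : Type} {Y : ASy V} (hc : A1C Y) : UHs Y.rel aX :=
  .cons (fun v n01 n02 n03 n12 n13 n23 h0 h1 h2 h3 h4 h5 => h5 ((hc.e0 (ng h0) (ng h1) (ng h2) (ng h3)).1 h4)) (
  .cons (fun v n01 n02 n03 n12 n13 n23 h0 h1 h2 h3 h4 h5 => h4 ((hc.e0 (ng h0) (ng h1) (ng h2) (ng h3)).2 h5)) (
  .cons (fun v n01 n02 n03 n12 n13 n23 h0 h1 h2 h3 h4 h5 h6 h7 h8 => h8 (k_e1 hc h0.2 (ng h1) (ng h2) (ng h3) (ng h4) (ng h5) (ng h6) h7)) (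
  .cons (fun v n01 n02 n03 n12 n13 n23 h0 h1 h2 h3 h4 => k_ea1 hc h0.2 h1.2 (ng h2) (ng h3) h4) (
  .cons (fun v n01 n02 n03 n12 n13 n23 h0 h1 h2 h3 h4 h5 => h5 ((k_ea2 hc h0.2 h1.2 (ng h2) (ng h3) n12 n23 n01 n03).1 h4)) (
  .cons (fun v n01 n02 n03 n12 n13 n23 h0 h1 h2 h3 h4 h5 => h4 ((k_ea2 hc h0.2 h1.2 (ng h2) (ng h3) n12 n23 n01 n03).2 h5)) (
  .cons (fun v n01 n02 n03 n12 n13 n23 h0 h1 h2 h3 h4 => k_eb1 hc h0.2 h1.2 (ng h2) (ng h3) h4) (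
  .cons (fun v n01 n02 n03 n12 n13 n23 h0 h1 h2 h3 h4 h5 => h5 ((k_eb2 hc h0.2 h1.2 (ng h2) (ng h3) n12 n23 n01 n03).1 h4)) (
  .cons (fun v n01 n02 n03 n12 n13 n23 h0 h1 h2 h3 h4 h5 => h4 ((k_eb2 hc h0.2 h1.2 (ng h2) (ng h3) n12 n23 n01 n03).2 h5)) (
  .cons (fun v n01 n02 n03 n12 n13 n23 h0 h1 h2 h3 => h3 (k_e3 hc h0.2 h1.2 h2.2 n03 n13 n23)) (
  .cons (fun v n01 n02 n03 n12 n13 n23 h0 h1 h2 h3 => k_e4 hc h0.2 h1.2 h2.2 h3) (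
  .cons (fun v n01 n02 n03 n12 n13 n23 h0 h1 h2 h3 => k_e5 hc h0.2 h1.2 h2.2 h3) (
  .nil))))))))))))

/-- templates -/
def aF : List Tm := [
  ⟨4, [], ad4, [.b false 1 0 0, .b false 2 1 1, .b false 3 2 2, .b false 0 1 3, .q true 1 0 3 1 2]⟩,
  ⟨4, [], ad4, [.b false 2 0 0, .b false 3 1 1, .b false 0 0 2, .b true 1 2 2, .b false 0 0 3, .b true 1 3 3, .b false 0 2 3, .q true 1 0 1 2 3]⟩]

theorem aF_h {V : Type} {Y : ASy V} (hf : A1F Y) : UHs Y.rel aF :=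
  .cons (fun v n01 n02 n03 n12 n13 n23 h0 h1 h2 h3 h4 => h4 (k_fa hf h0.2 h1.2 h2.2 n03 n23 h3)) (
  .cons (fun v n01 n02 n03 n12 n13 n23 h0 h1 h2 h3 h4 h5 h6 h7 => h7 (k_fb hf h0.2 h1.2 (ng h3) n12 (ng h5) n13 h2 h4 h6)) (
  .nil))

/-- templates -/
def aT : List Tm := [
  ⟨4, [], ad4, [.b true 1 0 0, .b true 1 1 1, .b true 1 2 2, .b true 1 3 3, .q false 3 0 1 2 3, .q true 1 0 1 2 3]⟩,
  ⟨4, [], ad4, [.b true 1 0 0, .b true 1 1 1, .b true 1 2 2, .b true 1 3 3, .q true 3 0 1 2 3, .q false 1 0 1 2 3]⟩,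
  ⟨4, [], ad4, [.b false 1 0 0, .q false 3 0 1 2 3, .b true 0 0 2]⟩,
  ⟨4, [], ad4, [.b false 1 0 0, .q false 3 0 1 2 3, .b true 0 1 2]⟩,
  ⟨4, [], ad4, [.b false 1 0 0, .b true 0 0 1, .q false 3 0 1 2 3, .q true 1 0 1 2 3]⟩,
  ⟨4, [], ad4, [.b false 1 0 0, .b true 0 0 1, .q true 3 0 1 2 3, .q false 1 0 1 2 3]⟩,
  ⟨4, [], ad4, [.b false 1 0 0, .b false 0 0 1, .b false 0 0 2, .b false 0 0 3, .b false 0 1 2, .b false 0 1 3, .b false 3 1 1, .q true 3 0 1 2 3]⟩,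
  ⟨4, [], ad4, [.b false 1 0 0, .b false 0 0 1, .b false 0 0 2, .b false 0 0 3, .b false 0 1 2, .b false 0 1 3, .b false 2 1 1, .b true 3 2 2, .b true 3 3 3, .q true 3 0 1 2 3]⟩,
  ⟨4, [], ad4, [.b false 1 0 0, .b false 0 0 1, .b false 2 1 1, .b false 3 2 2, .q false 3 0 1 2 3]⟩,
  ⟨4, [], ad4, [.b false 1 0 0, .b false 0 0 1, .b true 2 1 1, .b true 3 1 1, .b false 2 2 2, .q false 3 0 1 2 3]⟩,
  ⟨4, [], ad4, [.b false 1 0 0, .b false 0 0 1, .b true 2 1 1, .b true 3 1 1, .b false 3 2 2, .q false 3 0 1 2 3]⟩,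
  ⟨5, [], ad5, [.b false 1 0 0, .b true 2 1 1, .b true 3 1 1, .b true 2 2 2, .b true 3 2 2, .b true 2 3 3, .b true 3 3 3, .b false 0 0 1, .b false 3 4 4, .b false 0 4 2, .b false 0 4 3, .q false 3 0 1 2 3, .q true 1 4 1 2 3]⟩,
  ⟨5, [], ad5, [.b false 1 0 0, .b true 2 1 1, .b true 3 1 1, .b true 2 2 2, .b true 3 2 2, .b true 2 3 3, .b true 3 3 3, .b false 0 0 1, .b false 3 4 4, .b false 0 4 2, .b false 0 4 3, .q true 3 0 1 2 3, .q false 1 4 1 2 3]⟩,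
  ⟨5, [], ad5, [.b false 1 0 0, .b true 2 1 1, .b true 3 1 1, .b true 2 2 2, .b true 3 2 2, .b true 2 3 3, .b true 3 3 3, .b false 0 0 1, .b false 3 4 4, .b true 0 4 2, .b true 0 4 3, .q false 3 0 1 2 3, .q true 1 0 1 2 3]⟩,
  ⟨5, [], ad5, [.b false 1 0 0, .b true 2 1 1, .b true 3 1 1, .b true 2 2 2, .b true 3 2 2, .b true 2 3 3, .b true 3 3 3, .b false 0 0 1, .b false 3 4 4, .b true 0 4 2, .b true 0 4 3, .q true 3 0 1 2 3, .q false 1 0 1 2 3]⟩,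
  ⟨5, [], ad5, [.b false 1 0 0, .b true 2 1 1, .b true 3 1 1, .b false 0 0 1, .b false 3 4 4, .b false 0 4 2, .b true 0 4 3, .q false 3 0 1 2 3]⟩]

theorem aT_h {V : Type} {Y : ASy V} (hc : A1C Y) : UHs Y.rel aT :=
  .cons (fun v n01 n02 n03 n12 n13 n23 h0 h1 h2 h3 h4 h5 => h5 ((tt_n (ng h0) (ng h1) (ng h2) (ng h3)).1 h4)) (
  .cons (fun v n01 n02 n03 n12 n13 n23 h0 h1 h2 h3 h4 h5 => h4 ((tt_n (ng h0) (ng h1) (ng h2) (ng h3)).2 h5)) (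
  .cons (fun v n01 n02 n03 n12 n13 n23 h0 h1 h2 => h2 ((tt_x h0.2 n01 n02 n03).1 h1).1.1.1) (
  .cons (fun v n01 n02 n03 n12 n13 n23 h0 h1 h2 => h2 ((tt_x h0.2 n01 n02 n03).1 h1).1.2.1) (
  .cons (fun v n01 n02 n03 n12 n13 n23 h0 h1 h2 h3 => h3 ((rr_na h1 n01 n23 hc.qt.adj).1 ((tt_x h0.2 n01 n02 n03).1 h2))) (
  .cons (fun v n01 n02 n03 n12 n13 n23 h0 h1 h2 h3 => h2 ((tt_x h0.2 n01 n02 n03).2 ((rr_na h1 n01 n23 hc.qt.adj).2 h3))) (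
  .cons (fun v n01 n02 n03 n12 n13 n23 h0 h1 h2 h3 h4 h5 h6 h7 => h7 ((tt_x h0.2 n01 n02 n03).2 (rr_b h1 h2 h3 h4 h5 n23 h6.2))) (
  .cons (fun v n01 n02 n03 n12 n13 n23 h0 h1 h2 h3 h4 h5 h6 h7 h8 h9 => h9 ((tt_x h0.2 n01 n02 n03).2 (rr_a h1 h2 h3 h4 h5 n23 h6.2 (ng h7) (ng h8)))) (
  .cons (fun v n01 n02 n03 n12 n13 n23 h0 h1 h2 h3 h4 => rr_ab ((tt_x h0.2 n01 n02 n03).1 h4) h2.2 n12 h1 h3.2) (
  .cons (fun v n01 n02 n03 n12 n13 n23 h0 h1 h2 h3 h4 h5 => (rr_ya ((tt_x h0.2 n01 n02 n03).1 h5) h1 (ng h2) (ng h3)).1 h4.2) (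
  .cons (fun v n01 n02 n03 n12 n13 n23 h0 h1 h2 h3 h4 h5 => (rr_ya ((tt_x h0.2 n01 n02 n03).1 h5) h1 (ng h2) (ng h3)).2 h4.2) (
  .cons (fun v n01 n02 n03 n04 n12 n13 n14 n23 n24 n34 h0 h1 h2 h3 h4 h5 h6 h7 h8 h9 h10 h11 h12 => h12 ((rr_y1 h7 (ng h1) (ng h2) (ng h3) (ng h4) (ng h5) (ng h6) h8.2 h9 h10 (k_s2 hc h0.2 h8.2 n02 h9) (k_s2 hc h0.2 h8.2 n03 h10) n23 hc.qt.adj).1 ((tt_x h0.2 n01 n02 n03).1 h11))) (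
  .cons (fun v n01 n02 n03 n04 n12 n13 n14 n23 n24 n34 h0 h1 h2 h3 h4 h5 h6 h7 h8 h9 h10 h11 h12 => h11 ((tt_x h0.2 n01 n02 n03).2 ((rr_y1 h7 (ng h1) (ng h2) (ng h3) (ng h4) (ng h5) (ng h6) h8.2 h9 h10 (k_s2 hc h0.2 h8.2 n02 h9) (k_s2 hc h0.2 h8.2 n03 h10) n23 hc.qt.adj).2 h12))) (
  .cons (fun v n01 n02 n03 n04 n12 n13 n14 n23 n24 n34 h0 h1 h2 h3 h4 h5 h6 h7 h8 h9 h10 h11 h12 => h12 ((rr_y0 h7 (ng h1) (ng h2) (ng h3) (ng h4) (ng h5) (ng h6) h8.2 h9 h10 n23 hc.qt.adj).1 ((tt_x h0.2 n01 n02 n03).1 h11))) (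
  .cons (fun v n01 n02 n03 n04 n12 n13 n14 n23 n24 n34 h0 h1 h2 h3 h4 h5 h6 h7 h8 h9 h10 h11 h12 => h11 ((tt_x h0.2 n01 n02 n03).2 ((rr_y0 h7 (ng h1) (ng h2) (ng h3) (ng h4) (ng h5) (ng h6) h8.2 h9 h10 n23 hc.qt.adj).2 h12))) (
  .cons (fun v n01 n02 n03 n04 n12 n13 n14 n23 n24 n34 h0 h1 h2 h3 h4 h5 h6 h7 => rr_y2 ((tt_x h0.2 n01 n02 n03).1 h7) h3 (ng h1) (ng h2) h4.2 h5 h6) (
  .nil))))))))))))))))

end Pool.Agent.SOH
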