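import Pool.Agent.SOH.HdS

/-! Project SOH (MP_66ba69_lc), module HdT: words for chains of four rows; no chain of five rows. -/

set_option autoImplicit false

namespace Pool.Agent.SOH

open Pool.Agent.SOC Pool.Agent.SOD Pool.Agent.RUP Pool.Agent.SOF Pool.Agent.SOG Pool.Agent.SOV Pool.Agent.SOS Pool.Agent.SOK

variable {V : Type} {G : SimpleGraph V} {W B : List V}

/-! ### choice of one letter of each kind -/

theorem rep_of {α : Type} {l : List α} (hc : l.IsChain (fun a b => a ≠ b)) (hn : ¬ l.Nodup) :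
    ∃ a b, a ≠ b ∧ [a, b, a].Sublist l := by
  induction l with
  | nil => exact absurd List.nodup_nil hn
  | cons x t ih =>
    by_cases hx : x ∈ t
    · match t, hx, hc with
      | y :: t', hx, hc =>
        rw [List.isChain_cons_cons] at hc
        have h1 : x ∈ t' := by
          rcases List.mem_cons.1 hx with e | e
          · exact absurd e hc.1
          · exact e
        exact ⟨x, y, hc.1, .cons_cons _ (.cons_cons _ (List.singleton_sublist.2 h1))⟩
    · have h1 : ¬ t.Nodup := fun e => hn (List.nodup_cons.2 ⟨hx, e⟩)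
      obtain ⟨a, b, h2, h3⟩ := ih hc.tail h1
      exact ⟨a, b, h2, .cons _ h3⟩

theorem perm_ex {α : Type} [DecidableEq α] {l : List α} {a b : α} (ha : ∀ i, i ∈ l) (hab : a ≠ b) (h : [a, b].Sublist l) :
    ∃ p : List α, p.Sublist l ∧ p.Nodup ∧ (∀ i, i ∈ p) ∧ [a, b].Sublist p := by
  obtain ⟨u, v, e, hu, hv⟩ := List.cons_sublist_iff.1 h
  obtain ⟨u1, u2, rfl⟩ := List.append_of_mem hu
  obtain ⟨v1, v2, rfl⟩ := List.append_of_mem (List.singleton_sublist.1 hv)
  let P : α → Bool := fun x => decide (x ≠ a ∧ x ≠ b)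
  let w := u1.filter P ++ a :: (u2.filter P ++ (v1.filter P ++ b :: v2.filter P))
  have hw : w.Sublist l := by
    rw [e, List.append_assoc, List.cons_append]
    exact List.Sublist.append List.filter_sublist (.cons_cons _ (List.Sublist.append List.filter_sublist
      (List.Sublist.append List.filter_sublist (.cons_cons _ List.filter_sublist))))
  have aw : ∀ i, i ∈ w := by
    intro i
    by_cases e1 : i = a
    · subst e1
      simp [w]
    by_cases e2 : i = b
    · subst e2
      simp [w]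
    have h2 := ha i
    rw [e] at h2
    have h3 : P i = true := decide_eq_true ⟨e1, e2⟩
    simp only [List.mem_append, List.mem_cons, e1, e2, false_or] at h2
    simp only [w, List.mem_append, List.mem_cons, List.mem_filter, h3, and_true, e1, e2, false_or]
    tauto
  refine ⟨w.dedup, (List.dedup_sublist w).trans hw, List.nodup_dedup w, fun i => List.mem_dedup.2 (aw i), ?_⟩
  rcases two_ord (List.mem_dedup.2 (aw a)) (List.mem_dedup.2 (aw b)) hab with h2 | h2
  · exact h2
  · exfalso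
    have h3 := (h2.trans (List.dedup_sublist w)).filter (fun x => !P x)
    have key : ∀ m : List α, (m.filter P).filter (fun x => !P x) = [] := by
      intro m
      rw [List.filter_filter]
      apply List.filter_eq_nil_iff.2
      intro x _
      cases P x <;> simp
    have pa : P a = false := by simp [P]
    have pb : P b = false := by simp [P]
    have e1 : w.filter (fun x => !P x) = [a, b] := by
      simp only [w, List.filter_append, List.filter_cons, key, pa, pb, Bool.not_false, if_true, List.nil_append]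
    rw [e1] at h3
    have e2 : ([b, a] : List α).filter (fun x => !P x) = [b, a] := by
      simp [pa, pb]
    rw [e2] at h3
    have h4 := h3.eq_of_length rfl
    simp only [List.cons.injEq, and_true] at h4
    exact hab h4.1.symm

theorem two_nd {α : Type} {l : List α} {a b : α} (hn : l.Nodup) (h1 : [a, b].Sublist l) (h2 : [b, a].Sublist l) : False := by
  obtain ⟨u, v, rfl, hu, hv⟩ := List.cons_sublist_iff.1 h1
  have hb : b ∈ v := List.singleton_sublist.1 hv
  have dj := List.nodup_append.1 hn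
  have hb' : b ∉ u := fun e => dj.2.2 b e b hb rfl
  have ha' : a ∉ v := fun e => dj.2.2 a hu a e rfl
  obtain ⟨l1, l2, e, e1, e2⟩ := List.sublist_append_iff.1 h2
  match l1, e with
  | [], e =>
    rw [List.nil_append] at e
    subst e
    exact ha' (e2.subset (by simp))
  | x :: l1, e =>
    rw [List.cons_append, List.cons.injEq] at e
    exact hb' (e1.subset (by rw [e.1]; exact List.mem_cons_self))

/-! ### four rows -/

/-- the table: context, word -/
def tab4 : List (List (Fin 4) × List (Fin 4)) :=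
  [([1, 0, 2, 3], [3, 0, 1, 2]), ([2, 1, 0, 3], [3, 2, 0, 1]), ([3, 0, 1, 2], [1, 0, 2, 3]), ([3, 2, 0, 1], [2, 1, 0, 3])]

/-- permutations of the letters -/
def per (k : ℕ) : List (List (Fin k)) := (alw k k).filter fun l => decide l.Nodup

theorem mem_per {k : ℕ} {l : List (Fin k)} (hn : l.Nodup) (ha : ∀ i, i ∈ l) : l ∈ per k := by
  refine List.mem_filter.2 ⟨mem_alw ?_, decide_eq_true hn⟩
  have h1 : l.Perm (List.finRange k) := (List.perm_ext_iff_of_nodup hn (List.nodup_finRange k)).2 fun x =>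
    ⟨fun _ => List.mem_finRange x, fun _ => ha x⟩
  rw [h1.length_eq, List.length_finRange]

set_option maxRecDepth 100000 in
theorem c4 : ∀ w ∈ per 4, ∀ c ∈ per 4, P4 w c → (c, w) ∈ tab4 := by
  decide

theorem t4u : ∀ t ∈ tab4, ∀ t' ∈ tab4, t.1 = t'.1 → t.2 = t'.2 := by
  decide

theorem P4.symm {w c : List (Fin 4)} (h : P4 w c) : P4 c w := by
  have av : ∀ {p q : List (Fin 4)}, Av w c p q → Av c w p q := fun h =>
    ⟨fun e => h.2.1 ⟨e.2, e.1⟩, fun e => h.1 ⟨e.2, e.1⟩, fun e => h.2.2.2 ⟨e.2, e.1⟩, fun e => h.2.2.1 ⟨e.2, e.1⟩⟩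
  obtain ⟨a0, a1, a2, a3, a4, a5, a6, a7, a8, a9, a10, a11, a12, a13⟩ := h
  exact ⟨av a0, av a1, av a2, av a3, av a4, av a5, av a6, av a7, av a8, av a9, av a10, av a11, av a12, av a13⟩

theorem w4_nd {w c : List (Fin 4)} (hc : w.IsChain (fun a b => a ≠ b)) (aw : ∀ i, i ∈ w) (ac : ∀ i, i ∈ c) (h : P4 w c) :
    w.Nodup := by
  by_contra hn
  obtain ⟨a, b, hab, h1⟩ := rep_of hc hn
  have s1 : [a, b].Sublist w := List.Sublist.trans (.cons_cons _ (.cons_cons _ (List.nil_sublist _))) h1
  have s2 : [b, a].Sublist w := List.Sublist.trans (.cons _ (List.Sublist.refl _)) h1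
  obtain ⟨p1, k1, n1, a1, o1⟩ := perm_ex aw hab s1
  obtain ⟨p2, k2, n2, a2, o2⟩ := perm_ex aw hab.symm s2
  have q1 := mem_per (List.nodup_dedup c) fun i => List.mem_dedup.2 (ac i)
  have t1 := c4 _ (mem_per n1 a1) _ q1 (h.mono k1 (List.dedup_sublist c))
  have t2 := c4 _ (mem_per n2 a2) _ q1 (h.mono k2 (List.dedup_sublist c))
  have e : p1 = p2 := t4u _ t1 _ t2 rfl
  subst e
  have h3 := two_nd n1 o1 o2
  exact h3

/-- THE WORDS FOR FOUR ROWS -/
theorem tab4_of [DecidableEq V] {cl : V → Fin 4} (h : RW (fc 4) (gc 4) G W B cl) (cW : (W.map cl).IsChain (fun a b => a ≠ b))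
    (cB : (B.map cl).IsChain (fun a b => a ≠ b)) (aW : ∀ i, i ∈ W.map cl) (aB : ∀ i, i ∈ B.map cl) :
    (B.map cl, W.map cl) ∈ tab4 :=
  c4 _ (mem_per (w4_nd cW aW aB (p4_of h)) aW) _ (mem_per (w4_nd cB aB aW (p4_of h).symm) aB) (p4_of h)

/-! ### five rows -/

/-- relabelling without `i` -/
def rl (i x : Fin 5) : Fin 4 := ⟨if x.val < i.val then x.val else x.val - 1, by split <;> omega⟩

/-- one letter removed -/
def rm (i : Fin 5) (w : List (Fin 5)) : List (Fin 4) := (w.filter fun x => decide (x ≠ i)).map (rl i)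

theorem rl_fc : ∀ i j : Fin 5, (i.val + j.val = 3 ∨ i.val + j.val = 4) → ∀ x y : Fin 5, x ≠ i → y ≠ j →
    (fc 5 x y ↔ fc 4 (rl i x) (rl j y)) := by
  decide

theorem rl_inj : ∀ i x y : Fin 5, x ≠ i → y ≠ i → x ≠ y → rl i x ≠ rl i y := by
  decide

theorem rl_sur : ∀ i : Fin 5, ∀ k : Fin 4, ∃ x, x ≠ i ∧ rl i x = k := by
  decide

theorem nd_gc {k : ℕ} {cl : V → Fin k} {l : List V} (h : (l.map cl).Nodup) {x y : V} (hx : x ∈ l) (hy : y ∈ l) (e : cl x = cl y) :
    x = y :=
  List.inj_on_of_nodup_map h hx hy e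

theorem five_rw [DecidableEq V] {cl : V → Fin 5} (h : RW (fc 5) (gc 5) G W B cl) (nW : (W.map cl).Nodup)
    (nB : (B.map cl).Nodup) {i j : Fin 5} (hij : i.val + j.val = 3 ∨ i.val + j.val = 4) :
    ∃ (W' B' : List V) (cl' : V → Fin 4), RW (fc 4) (gc 4) G W' B' cl' ∧ W'.map cl' = rm i (W.map cl) ∧
      B'.map cl' = rm j (B.map cl) := by
  have dj := List.nodup_append.1 h.nd
  let cl' : V → Fin 4 := fun v => if v ∈ W then rl i (cl v) else rl j (cl v)
  have eW : ∀ {v : V}, v ∈ W → cl' v = rl i (cl v) := fun {v} hv => if_pos hv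
  have eB : ∀ {v : V}, v ∈ B → cl' v = rl j (cl v) := fun {v} hv => if_neg fun e => dj.2.2 v e v hv rfl
  have sW : (W.filter fun v => decide (cl v ≠ i)).Sublist W := List.filter_sublist
  have sB : (B.filter fun v => decide (cl v ≠ j)).Sublist B := List.filter_sublist
  have mW : ∀ {v : V}, v ∈ (W.filter fun v => decide (cl v ≠ i)) → v ∈ W ∧ cl v ≠ i := fun {v} hv => by
    have := List.mem_filter.1 hv
    exact ⟨this.1, of_decide_eq_true this.2⟩
  have mB : ∀ {v : V}, v ∈ (B.filter fun v => decide (cl v ≠ j)) → v ∈ B ∧ cl v ≠ j := fun {v} hv => by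
    have := List.mem_filter.1 hv
    exact ⟨this.1, of_decide_eq_true this.2⟩
  refine ⟨_, _, cl', ⟨(sW.append sB).nodup h.nd, Val_sublist (sW.append sB) h.nd h.vl, ?_, ?_, ?_⟩, ?_, ?_⟩
  · intro x y hx hy
    rw [h.ax (mW hx).1 (mB hy).1, eW (mW hx).1, eB (mB hy).1]
    exact rl_fc i j hij _ _ (mW hx).2 (mB hy).2
  · intro x y hx hy hne
    have hc : cl x ≠ cl y := fun e => hne (nd_gc nW (mW hx).1 (mW hy).1 e)
    rw [h.aW (mW hx).1 (mW hy).1 hne, eW (mW hx).1, eW (mW hy).1]
    exact ⟨fun _ => Or.inl (rl_inj i _ _ (mW hx).2 (mW hy).2 hc), fun _ => Or.inl hc⟩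
  · intro x y hx hy hne
    have hc : cl x ≠ cl y := fun e => hne (nd_gc nB (mB hx).1 (mB hy).1 e)
    rw [h.aB (mB hx).1 (mB hy).1 hne, eB (mB hx).1, eB (mB hy).1]
    exact ⟨fun _ => Or.inl (rl_inj j _ _ (mB hx).2 (mB hy).2 hc), fun _ => Or.inl hc⟩
  · unfold rm
    rw [List.filter_map, List.map_map]
    exact List.map_congr_left fun v hv => eW (mW hv).1
  · unfold rm
    rw [List.filter_map, List.map_map]
    exact List.map_congr_left fun v hv => eB (mB hv).1

theorem rm_nd {i : Fin 5} {w : List (Fin 5)} (h : w.Nodup) : (rm i w).Nodup := by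
  unfold rm
  refine (List.nodup_map_iff_inj_on (h.filter _)).2 ?_
  intro x hx y hy e
  by_contra hne
  have h1 := of_decide_eq_true (List.mem_filter.1 hx).2
  have h2 := of_decide_eq_true (List.mem_filter.1 hy).2
  exact rl_inj i x y h1 h2 hne e

theorem rm_all {i : Fin 5} {w : List (Fin 5)} (h : ∀ x, x ∈ w) : ∀ k, k ∈ rm i w := by
  intro k
  obtain ⟨x, h1, h2⟩ := rl_sur i k
  exact List.mem_map.2 ⟨x, List.mem_filter.2 ⟨h x, decide_eq_true h1⟩, h2⟩

/-- words which pass the tests for one side -/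
def cand5 : List (List (Fin 5)) := [[2, 1, 0, 3, 4], [4, 3, 0, 1, 2]]

/-- the test for one word -/
def Te5 (w : List (Fin 5)) : Prop := ∀ i : Fin 5, ∃ t ∈ tab4, t.1 = rm i w

instance {w : List (Fin 5)} : Decidable (Te5 w) := by
  unfold Te5
  infer_instance

set_option maxRecDepth 1000000 in
theorem c5a : ∀ w ∈ alw 5 5, w.Nodup → Te5 w → w ∈ cand5 := by
  decide

theorem t4s : ∀ t ∈ tab4, (t.2, t.1) ∈ tab4 := by
  decide

theorem c5b : ∀ w ∈ cand5, ∀ c ∈ cand5, ¬ ∀ i j : Fin 5, (i.val + j.val = 3 ∨ i.val + j.val = 4) → (rm j c, rm i w) ∈ tab4 := by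
  decide

theorem ij5 : ∀ i : Fin 5, ∃ j : Fin 5, i.val + j.val = 3 ∨ i.val + j.val = 4 := by
  decide

/-- NO CHAIN OF FIVE ROWS -/
theorem no_five [DecidableEq V] {cl : V → Fin 5} (h : RW (fc 5) (gc 5) G W B cl) (nW : (W.map cl).Nodup)
    (nB : (B.map cl).Nodup) (aW : ∀ i, i ∈ W.map cl) (aB : ∀ i, i ∈ B.map cl) : False := by
  have key : ∀ i j : Fin 5, (i.val + j.val = 3 ∨ i.val + j.val = 4) → (rm j (B.map cl), rm i (W.map cl)) ∈ tab4 := by
    intro i j hij
    obtain ⟨W', B', cl', h1, h2, h3⟩ := five_rw h nW nB hij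
    have h4 := tab4_of h1 (by rw [h2]; exact (rm_nd nW).isChain) (by rw [h3]; exact (rm_nd nB).isChain)
      (by rw [h2]; exact rm_all aW) (by rw [h3]; exact rm_all aB)
    rwa [h2, h3] at h4
  have tB : Te5 (B.map cl) := fun j => by
    obtain ⟨i, hi⟩ := ij5 j
    exact ⟨_, key i j (by omega), rfl⟩
  have tW : Te5 (W.map cl) := fun i => by
    obtain ⟨j, hj⟩ := ij5 i
    exact ⟨_, t4s _ (key i j hj), rfl⟩
  have len : ∀ {l : List (Fin 5)}, l.Nodup → (∀ i, i ∈ l) → l ∈ alw 5 5 := fun hn ha =>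
    (List.mem_filter.1 (mem_per hn ha)).1
  exact c5b _ (c5a _ (len nW aW) nW tW) _ (c5a _ (len nB aB) nB tB) key

/-! ### lists -/

theorem ty_c {k : ℕ} : TyF (fc k) (gc k) where
  sym := fc_symm
  sep := by
    intro i j h
    by_contra hn
    rcases Nat.lt_or_gt_of_ne (fun e => hn (Fin.ext e)) with hlt | hlt
    · have h1 := h ⟨k - 1 - j.val, by omega⟩
      unfold fc at h1
      simp only at h1
      omega
    · have h1 := h ⟨k - 1 - i.val, by omega⟩
      unfold fc at h1
      simp only at h1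
      omega
  gd := by
    intro i j
    unfold gc Gm fc
    constructor
    · rintro (h | h) ⟨e, h2⟩
      · exact h e
      · refine h2 ⟨i.val - 1, by omega⟩ ⟨fun m hm => ?_, ⟨k - 1 - i.val, by omega⟩, ?_, ?_⟩
        · simp only at hm
          omega
        · simp only
          omega
        · simp only
          omega
    · intro h
      by_cases e : i = j
      · right
        by_contra h0
        refine h ⟨e, ?_⟩
        rintro l ⟨h1, m, h2, h3⟩
        omega
      · exact Or.inl e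

/-- three rows: the words of the orders of `L` in the context `B` -/
theorem words3 [DecidableEq V] {L L' R : List V} {ad : V → V → Bool} {cl : V → Fin 3} (had : ∀ x y, ad x y = true ↔ G.Adj x y)
    (hE : LEp G L R) (hc : LCl (fc 3) G L R cl) (hB : LRp G L R B) (hp : L'.Perm L) (hv : Val G (L' ++ B)) :
    Function.Injective (rwC (fc 3) cl B) ∧ ∃ t ∈ tab3, t.1 = B.map cl ∧ ∃ w ∈ t.2, wordF ad B L' = w.map (rwC (fc 3) cl B) := by
  obtain ⟨W, w⟩ := wds_ex had ty_c (hE.permL hp) (hc.permL hp) (hB.permL hp) hv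
  obtain ⟨t, h1, h2, h3⟩ := tab3_of w.rw' w.cW w.cB w.aW w.aB
  exact ⟨w.inj, t, h1, h2, _, h3, w.word⟩

/-- four rows: the word of the orders of `L` in the context `B` -/
theorem words4 [DecidableEq V] {L L' R : List V} {ad : V → V → Bool} {cl : V → Fin 4} (had : ∀ x y, ad x y = true ↔ G.Adj x y)
    (hE : LEp G L R) (hc : LCl (fc 4) G L R cl) (hB : LRp G L R B) (hp : L'.Perm L) (hv : Val G (L' ++ B)) :
    Function.Injective (rwC (fc 4) cl B) ∧ ∃ w, (B.map cl, w) ∈ tab4 ∧ wordF ad B L' = w.map (rwC (fc 4) cl B) := by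
  obtain ⟨W, w⟩ := wds_ex had ty_c (hE.permL hp) (hc.permL hp) (hB.permL hp) hv
  exact ⟨w.inj, _, tab4_of w.rw' w.cW w.cB w.aW w.aB, w.word⟩

end Pool.Agent.SOH
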