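import Pool.Agent.SOH.A1L
import Pool.Agent.SOH.HdT
import Pool.Agent.SOK.FinF

/-! Project SOH (MP_66ba69_lc), module DmA: change of representatives, representatives with classes. -/

set_option autoImplicit false

namespace Pool.Agent.SOH

open Pool.Agent.SOC Pool.Agent.SOD Pool.Agent.RUP Pool.Agent.SOF Pool.Agent.SOG Pool.Agent.SOJ Pool.Agent.SOV Pool.Agent.SOK Pool.Agent.SOS
open Pool.Agent.SOM

variable {V : Type} [DecidableEq V] {G : SimpleGraph V}

/-- lists with the same adjacencies -/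
theorem val_eqw {W1 W2 R : List V} (hl : W1.length = W2.length) (n1 : (W1 ++ R).Nodup) (n2 : (W2 ++ R).Nodup)
    (hW : ∀ {i j : ℕ} {x y x' y' : V}, W1[i]? = some x → W1[j]? = some y → W2[i]? = some x' → W2[j]? = some y' → i ≠ j →
      (G.Adj x y ↔ G.Adj x' y'))
    (hR : ∀ {i : ℕ} {x x' : V}, W1[i]? = some x → W2[i]? = some x' → ∀ z ∈ R, (G.Adj x z ↔ G.Adj x' z))
    (v : Val G (W1 ++ R)) : Val G (W2 ++ R) := by
  classical
  -- the list of the names
  have g1 : ∀ i : Fin W1.length, W1[i.val]? = some (W1.get i) := fun i => List.getElem?_eq_getElem i.2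
  have g2 : ∀ i : Fin W1.length, W2[i.val]? = some (W2.get (i.cast hl)) := fun i => List.getElem?_eq_getElem (i.cast hl).2
  have d1 := List.nodup_append.1 n1
  have d2 := List.nodup_append.1 n2
  have i1 : ∀ i j : Fin W1.length, W1.get i = W1.get j → i = j := fun i j e => (List.Nodup.get_inj_iff d1.1).1 e
  have i2 : ∀ i j : Fin W1.length, W2.get (i.cast hl) = W2.get (j.cast hl) → i = j := fun i j e => by
    have := (List.Nodup.get_inj_iff d2.1).1 e
    exact Fin.cast_injective hl this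
  have r1 : ∀ (i : Fin W1.length) (z : V), z ∈ R → W1.get i ≠ z := fun i z hz => d1.2.2 _ (List.get_mem W1 i) z hz
  have r2 : ∀ (i : Fin W1.length) (z : V), z ∈ R → W2.get (i.cast hl) ≠ z := fun i z hz => d2.2.2 _ (List.get_mem W2 _) z hz
  obtain ⟨l, hlm, e1, e2⟩ : ∃ l : List (Fin W1.length ⊕ V), (∀ a ∈ l, (∃ i, a = Sum.inl i) ∨ ∃ z ∈ R, a = Sum.inr z) ∧
      l.map (Sum.elim (fun i => W1.get i) id) = W1 ++ R ∧ l.map (Sum.elim (fun i => W2.get (i.cast hl)) id) = W2 ++ R := by
    refine ⟨(List.finRange W1.length).map Sum.inl ++ R.map Sum.inr, ?_, ?_, ?_⟩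
    · intro a ha
      rcases List.mem_append.1 ha with ha | ha
      · obtain ⟨i, _, rfl⟩ := List.mem_map.1 ha
        exact Or.inl ⟨i, rfl⟩
      · obtain ⟨z, hz, rfl⟩ := List.mem_map.1 ha
        exact Or.inr ⟨z, hz, rfl⟩
    · rw [List.map_append, List.map_map, List.map_map]
      congr 1
      · refine List.ext_getElem (by simp) fun i h1 h2 => ?_
        simp
      · exact List.map_id' R
    · rw [List.map_append, List.map_map, List.map_map]
      congr 1
      · refine List.ext_getElem (by simp [hl]) fun i h1 h2 => ?_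
        simp
      · exact List.map_id' R
  have irr : ∀ {a b : V}, G.Adj a a ↔ G.Adj b b := ⟨fun h => absurd h G.irrefl, fun h => absurd h G.irrefl⟩
  rw [← e1] at v
  rw [← e2]
  have v' := (Val_map (G' := G.comap (Sum.elim (fun i : Fin W1.length => W1.get i) id)) (G := G)
    (f := Sum.elim (fun i : Fin W1.length => W1.get i) id) (l := l) (by
      intro a ha b hb e
      rcases hlm a ha with ⟨i, rfl⟩ | ⟨z, hz, rfl⟩ <;> rcases hlm b hb with ⟨j, rfl⟩ | ⟨w, hw, rfl⟩
      · rw [i1 i j e]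
      · exact absurd e (r1 i w hw)
      · exact absurd e.symm (r1 j z hz)
      · rw [show z = w from e]) (fun _ _ _ _ => Iff.rfl)).2 v
  refine (Val_map (f := Sum.elim (fun i : Fin W1.length => W2.get (i.cast hl)) id) (by
      intro a ha b hb e
      rcases hlm a ha with ⟨i, rfl⟩ | ⟨z, hz, rfl⟩ <;> rcases hlm b hb with ⟨j, rfl⟩ | ⟨w, hw, rfl⟩
      · rw [i2 i j e]
      · exact absurd e (r2 i w hw)
      · exact absurd e.symm (r2 j z hz)
      · rw [show z = w from e]) ?_).1 v'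
  intro a ha b hb
  rcases hlm a ha with ⟨i, rfl⟩ | ⟨z, hz, rfl⟩ <;> rcases hlm b hb with ⟨j, rfl⟩ | ⟨w, hw, rfl⟩
  · by_cases hij : i = j
    · rw [hij]
      exact irr
    · exact hW (g1 i) (g1 j) (g2 i) (g2 j) fun e => hij (Fin.ext e)
  · exact hR (g1 i) (g2 i) w hw
  · show G.Adj z (W1.get j) ↔ G.Adj z (W2.get (j.cast hl))
    rw [G.adj_comm, G.adj_comm z]
    exact hR (g1 j) (g2 j) z hz
  · exact Iff.rfl

variable {α : Type} {f g : α → α → Prop} {L R B W : List V} {cl : V → α}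

/-- representatives with classes -/
structure Wr (f g : α → α → Prop) (G : SimpleGraph V) (R W : List V) (A : V → Prop) (cl : V → α) : Prop where
  nd : (W ++ R).Nodup
  ax : ∀ {x y}, x ∈ W → y ∈ R → (G.Adj x y ↔ A y ∧ f (cl x) (cl y))
  aW : ∀ {x y}, x ∈ W → y ∈ W → x ≠ y → (G.Adj x y ↔ g (cl x) (cl y))

omit [DecidableEq V] in
theorem Wr.sub {A : V → Prop} {W' : List V} (h : Wr f g G R W A cl) (hs : W'.Sublist W) : Wr f g G R W' A cl :=
  ⟨(List.Sublist.append hs (List.Sublist.refl R)).nodup h.nd, fun hx => h.ax (hs.subset hx), fun hx hy => h.aW (hs.subset hx) (hs.subset hy)⟩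

omit [DecidableEq V] in
theorem map_get {W1 W2 : List V} (e : W1.map cl = W2.map cl) {i : ℕ} {x x' : V} (h : W1[i]? = some x) (h' : W2[i]? = some x') :
    cl x = cl x' := by
  have h1 := congrArg (fun l => l[i]?) e
  simp only [List.getElem?_map, h, h', Option.map_some, Option.some.injEq] at h1
  exact h1

/-- EQUAL CLASSES -/
theorem Wr.same {A : V → Prop} {W1 W2 : List V} (h1 : Wr f g G R W1 A cl) (h2 : Wr f g G R W2 A cl) (e : W1.map cl = W2.map cl)
    (v : Val G (W1 ++ R)) : Val G (W2 ++ R) := by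
  have hl : W1.length = W2.length := by
    have := congrArg List.length e
    rwa [List.length_map, List.length_map] at this
  have ne : ∀ {W : List V}, (W ++ R).Nodup → ∀ {i j : ℕ} {x y : V}, W[i]? = some x → W[j]? = some y → i ≠ j → x ≠ y := by
    intro W nd i j x y hi hj hij e
    subst e
    have nd' := (List.nodup_append.1 nd).1
    obtain ⟨h3, h4⟩ := List.getElem?_eq_some_iff.1 hi
    obtain ⟨h5, h6⟩ := List.getElem?_eq_some_iff.1 hj
    exact hij ((List.Nodup.getElem_inj_iff nd').1 (h4.trans h6.symm))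
  refine val_eqw hl h1.nd h2.nd ?_ ?_ v
  · intro i j x y x' y' hx hy hx' hy' hij
    rw [h1.aW (List.mem_of_getElem? hx) (List.mem_of_getElem? hy) (ne h1.nd hx hy hij),
      h2.aW (List.mem_of_getElem? hx') (List.mem_of_getElem? hy') (ne h2.nd hx' hy' hij), map_get e hx hx', map_get e hy hy']
  · intro i x x' hx hx' z hz
    rw [h1.ax (List.mem_of_getElem? hx) hz, h2.ax (List.mem_of_getElem? hx') hz, map_get e hx hx']


omit [DecidableEq V] in
theorem sub_map {W : List V} {w : List α} (h : w.Sublist (W.map cl)) : ∃ W' : List V, W'.Sublist W ∧ W'.map cl = w := by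
  obtain ⟨l, h1, h2⟩ := List.sublist_map_iff.1 h
  exact ⟨l, h1, h2.symm⟩

/-- the representatives of the blocks of `L`, with classes -/
theorem wr_ex [Inhabited α] {ad : V → V → Bool} (had : ∀ x y, ad x y = true ↔ G.Adj x y) (ht : TyF f g)
    (hE : LEp G L R) (hc : LCl f G L R cl) (hB : LRp G L R B) (hv : Val G (L ++ B)) : ∃ W, Wr f g G R W (Atd G L) cl ∧ LWr G R L W ∧
      wordF ad B L = (W.map cl).map (rwC f cl B) ∧ W.Sublist L ∧ (∀ i, i ∈ W.map cl) := by
  classical
  have cB := hB.cov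
  obtain ⟨sR, eR, hR⟩ := hB
  have rp := rpB_of_sd hR eR
  have nd := List.nodup_append.1 hE.nd
  have sB := sd_single hR
  have ndB : B.Nodup := by
    have h1 := sB.nd
    rwa [flatten_single] at h1
  have hcB := hc.cov ht cB
  have ep1 : LEp G L B := hE.mono (by
    rw [List.nodup_append]
    exact ⟨nd.1, ndB, fun a ha b hb => nd.2.2 a ha b (cB.1 b hb)⟩) (fun _ h => h) cB.1
  have hA : ∃ x ∈ L, Atd G R x := by
    obtain ⟨a, ha, Aa, _⟩ := hc.wL default
    exact ⟨a, ha, Aa⟩
  obtain ⟨sL, W, eL, hL, subW, mapW, _⟩ := sd_word had rp nd.1 hA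
  have hLB : Sd G B sL W := Sd.cov hL cB eL
  have inB : ∀ {b : V}, b ∈ B → Atd G L b := by
    intro b hb
    obtain ⟨i, hi⟩ := List.mem_iff_getElem?.1 hb
    exact (sB.rep hi).2
  have inW : ∀ {x : V}, x ∈ W → x ∈ L ∧ Atd G R x := by
    intro x hx
    obtain ⟨i, hi⟩ := List.mem_iff_getElem?.1 hx
    exact ⟨subW.subset hx, (hL.rep hi).2⟩
  have rowW : ∀ {x : V}, x ∈ L → Atd G R x → rowF ad B x = rwC f cl B (cl x) := by
    intro x hx ax
    unfold rowF rwC
    refine List.map_congr_left fun b hb => ?_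
    rw [Bool.eq_iff_iff, had, decide_eq_true_eq]
    exact hc.adj hx (cB.1 b hb) ax (inB hb)
  refine ⟨W, ⟨?_, ?_, ?_⟩, ⟨sL, W, eL, hL, rfl, subW.nodup nd.1, fun w hw => subW.subset hw, ?_⟩, ?_, subW, ?_⟩
  · exact (List.Sublist.append subW (List.Sublist.refl R)).nodup hE.nd
  · intro x y hx hy
    constructor
    · intro e
      have ay : Atd G L y := ⟨x, (inW hx).1, e.symm⟩
      exact ⟨ay, (hc.adj (inW hx).1 hy (inW hx).2 ay).1 e⟩
    · rintro ⟨ay, h⟩
      exact (hc.adj (inW hx).1 hy (inW hx).2 ay).2 h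
  · intro x y hx hy hne
    obtain ⟨i, hi⟩ := List.mem_iff_getElem?.1 hx
    obtain ⟨j, hj⟩ := List.mem_iff_getElem?.1 hy
    have hij : i ≠ j := by
      rintro rfl
      exact hne (Option.some.inj (hi.symm.trans hj))
    rw [rule_l ep1 hLB eL sB (flatten_single B) hv (hLB.rep hi).1 (hLB.rep hj).1 hij (hLB.rep hi).2 (hLB.rep hj).2]
    exact hcB.rl ht (inW hx).1 (inW hy).1 (hLB.rep hi).2 (hLB.rep hj).2
  · intro i w x h1 h2
    rw [h1] at h2
    rw [Option.some.inj h2]
    exact fun _ _ => Iff.rfl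
  · rw [← mapW, List.map_map]
    exact List.map_congr_left fun x hx => rowW (inW hx).1 (inW hx).2
  · intro i
    obtain ⟨a, ha, Aa, rfl⟩ := hc.wL i
    obtain ⟨j, hj⟩ := seg_of eL ha
    obtain ⟨b, h1, h2, h3⟩ := hL.ex hj
    have m1 := List.mem_of_getElem? h1
    rw [(hc.row ht ha (inW m1).1 Aa (inW m1).2).1 (hL.same hj h2 Aa h3)]
    exact List.mem_map_of_mem m1

end Pool.Agent.SOH
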