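import Pool.Agent.SOH.DmA
import Pool.Agent.SOM.DomF

/-! Project SOH (MP_66ba69_lc), module DmB: three rows, change of the word of the representatives. -/

set_option autoImplicit false

namespace Pool.Agent.SOH

open Pool.Agent.SOC Pool.Agent.SOD Pool.Agent.RUP Pool.Agent.SOF Pool.Agent.SOG Pool.Agent.SOJ Pool.Agent.SOV Pool.Agent.SOK Pool.Agent.SOS
open Pool.Agent.SOM

variable {V : Type} {G : SimpleGraph V} {R : List V} {A : V → Prop} {cl : V → Fin 3}

/-- three blocks with the classes `k0`, `k1`, `k2` -/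
def Sp3 (R : List V) (A : V → Prop) (cl : V → Fin 3) (k0 k1 k2 : Fin 3) : Prop := ∃ S0 S1 S2, R = S0 ++ (S1 ++ S2) ∧
  (∀ z ∈ S0, A z → cl z = k0) ∧ (∀ z ∈ S1, A z → cl z = k1) ∧ (∀ z ∈ S2, A z → cl z = k2) ∧
    (∃ z ∈ S0, A z) ∧ (∃ z ∈ S1, A z) ∧ ∃ z ∈ S2, A z

theorem Sp3.rev {k0 k1 k2 : Fin 3} (h : Sp3 R A cl k0 k1 k2) : Sp3 R.reverse A cl k2 k1 k0 := by
  obtain ⟨S0, S1, S2, rfl, h0, h1, h2, ⟨z0, m0, a0⟩, ⟨z1, m1, a1⟩, z2, m2, a2⟩ := h
  refine ⟨S2.reverse, S1.reverse, S0.reverse, ?_, ?_, ?_, ?_, ⟨z2, List.mem_reverse.2 m2, a2⟩, ⟨z1, List.mem_reverse.2 m1, a1⟩, z0,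
    List.mem_reverse.2 m0, a0⟩
  · rw [List.reverse_append, List.reverse_append, List.append_assoc]
  · exact fun z hz => h2 z (List.mem_reverse.1 hz)
  · exact fun z hz => h1 z (List.mem_reverse.1 hz)
  · exact fun z hz => h0 z (List.mem_reverse.1 hz)

theorem Wr.rev {f g : Fin 3 → Fin 3 → Prop} {W : List V} (h : Wr f g G R W A cl) : Wr f g G R.reverse W.reverse A cl :=
  ⟨nd_rev h.nd, fun hx hy => h.ax (List.mem_reverse.1 hx) (List.mem_reverse.1 hy),
    fun hx hy => h.aW (List.mem_reverse.1 hx) (List.mem_reverse.1 hy)⟩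

theorem f_d {i j : Fin 3} (h : fc 3 i j) : 2 ≤ i.val + j.val := by
  unfold fc at h
  omega

theorem f_u {i j : Fin 3} (h : 2 ≤ i.val + j.val) : fc 3 i j := by
  unfold fc
  omega

section
variable {x b a : V} {W : List V}

/-- the facts about three representatives of the classes `2`, `1`, `0` -/
structure T3 (G : SimpleGraph V) (R : List V) (A : V → Prop) (cl : V → Fin 3) (x b a : V) : Prop where
  rx : ∀ {z}, z ∈ R → (G.Adj x z ↔ A z)
  rb : ∀ {z}, z ∈ R → (G.Adj b z ↔ A z ∧ cl z ≠ 0)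
  ra : ∀ {z}, z ∈ R → (G.Adj a z ↔ A z ∧ cl z = 2)
  xb : G.Adj x b
  xa : G.Adj x a
  ba : G.Adj b a

theorem t3_of (h : Wr (fc 3) (gc 3) G R W A cl) (mx : x ∈ W) (mb : b ∈ W) (ma : a ∈ W) (cx : cl x = 2) (cb : cl b = 1) (ca : cl a = 0) :
    T3 G R A cl x b a := by
  have n1 : x ≠ b := by
    rintro rfl
    rw [cx] at cb
    exact absurd cb (by decide)
  have n2 : x ≠ a := by
    rintro rfl
    rw [cx] at ca
    exact absurd ca (by decide)
  have n3 : b ≠ a := by
    rintro rfl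
    rw [cb] at ca
    exact absurd ca (by decide)
  refine ⟨?_, ?_, ?_, ?_, ?_, ?_⟩
  · intro z hz
    rw [h.ax mx hz, cx]
    exact ⟨fun k => k.1, fun k => ⟨k, f_u (by
      show 2 ≤ 2 + (cl z).val
      omega)⟩⟩
  · intro z hz
    rw [h.ax mb hz, cb]
    refine and_congr_right fun _ => ?_
    constructor
    · intro k e
      have := f_d k
      rw [e] at this
      exact absurd this (by decide)
    · intro k
      refine f_u ?_
      have : (cl z).val ≠ 0 := fun e => k (Fin.ext e)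
      show 2 ≤ 1 + (cl z).val
      omega
  · intro z hz
    rw [h.ax ma hz, ca]
    refine and_congr_right fun _ => ?_
    constructor
    · intro k
      have h1 := f_d k
      have h2 := (cl z).2
      refine Fin.ext ?_
      show (cl z).val = 2
      have h3 : 2 ≤ 0 + (cl z).val := h1
      omega
    · intro k
      rw [k]
      exact f_u (by decide)
  · rw [h.aW mx mb n1, cx, cb]
    exact Or.inl (by decide)
  · rw [h.aW mx ma n2, cx, ca]
    exact Or.inl (by decide)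
  · rw [h.aW mb ma n3, cb, ca]
    exact Or.inl (by decide)

end

theorem map3 {W : List V} {k0 k1 k2 : Fin 3} (h : W.map cl = [k0, k1, k2]) :
    ∃ p q r, W = [p, q, r] ∧ cl p = k0 ∧ cl q = k1 ∧ cl r = k2 := by
  match W, h with
  | [p, q, r], h =>
    simp only [List.map_cons, List.map_nil, List.cons.injEq, and_true] at h
    exact ⟨p, q, r, rfl, h⟩

theorem map4 {W : List V} {k0 k1 k2 k3 : Fin 3} (h : W.map cl = [k0, k1, k2, k3]) :
    ∃ p q r s, W = [p, q, r, s] ∧ cl p = k0 ∧ cl q = k1 ∧ cl r = k2 ∧ cl s = k3 := by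
  match W, h with
  | [p, q, r, s], h =>
    simp only [List.map_cons, List.map_nil, List.cons.injEq, and_true] at h
    exact ⟨p, q, r, s, rfl, h⟩

theorem map5 {W : List V} {k0 k1 k2 k3 k4 : Fin 3} (h : W.map cl = [k0, k1, k2, k3, k4]) :
    ∃ p q r s t, W = [p, q, r, s, t] ∧ cl p = k0 ∧ cl q = k1 ∧ cl r = k2 ∧ cl s = k3 ∧ cl t = k4 := by
  match W, h with
  | [p, q, r, s, t], h =>
    simp only [List.map_cons, List.map_nil, List.cons.injEq, and_true] at h
    exact ⟨p, q, r, s, t, rfl, h⟩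

variable [DecidableEq V]

/-- THE ARROW 201 -> 012 IN THE CONTEXT 012 -/
theorem arr1 {W1 W2 : List V} (w1 : Wr (fc 3) (gc 3) G R W1 A cl) (w2 : Wr (fc 3) (gc 3) G R W2 A cl) (sp : Sp3 R A cl 0 1 2)
    (hA : ∀ z ∈ R, ∀ w ∈ R, A z → A w → cl z ≠ cl w → G.Adj z w) (h1 : [2, 0, 1].Sublist (W1.map cl)) (h2 : W2.map cl = [0, 1, 2])
    (v : Val G (W1 ++ R)) : Val G (W2 ++ R) := by
  obtain ⟨S0, S1, S2, rfl, c0, c1, c2, ⟨z0, m0, a0⟩, _, _⟩ := sp
  obtain ⟨a, b, x, rfl, ca, cb, cx⟩ := map3 h2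
  · have t := t3_of w2 (x := x) (b := b) (a := a) (by simp) (by simp) (by simp) cx cb ca
    obtain ⟨W', hs, e⟩ := sub_map h1
    have v1 := Val_sublist (List.Sublist.append hs (List.Sublist.refl _)) w1.nd v
    have ndW := w2.nd
    have pm : (x :: a :: b :: (S0 ++ (S1 ++ S2))).Perm ([a, b, x] ++ (S0 ++ (S1 ++ S2))) :=
      ((List.Perm.swap a x _).trans (List.Perm.cons a (List.Perm.swap b x _)))
    have nd1 : (x :: a :: b :: (S0 ++ (S1 ++ S2))).Nodup := pm.nodup_iff.2 ndW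
    have w3 : Wr (fc 3) (gc 3) G (S0 ++ (S1 ++ S2)) [x, a, b] A cl := by
      refine ⟨nd1, ?_, ?_⟩
      · intro y z hy
        refine w2.ax ?_
        simp only [List.mem_cons, List.not_mem_nil, or_false] at hy ⊢
        tauto
      · intro y z hy hz
        refine w2.aW ?_ ?_
        · simp only [List.mem_cons, List.not_mem_nil, or_false] at hy ⊢
          tauto
        · simp only [List.mem_cons, List.not_mem_nil, or_false] at hz ⊢
          tauto
    have v2 := (w1.sub hs).same w3 (by rw [e]; simp [cx, ca, cb]) v1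
    have i0 : ∀ {z}, z ∈ S0 → z ∈ S0 ++ (S1 ++ S2) := fun h => List.mem_append_left _ h
    have i1 : ∀ {z}, z ∈ S1 → z ∈ S0 ++ (S1 ++ S2) := fun h => List.mem_append_right _ (List.mem_append_left _ h)
    have i2 : ∀ {z}, z ∈ S2 → z ∈ S0 ++ (S1 ++ S2) := fun h => List.mem_append_right _ (List.mem_append_right _ h)
    have ii : ∀ {z}, z ∈ S0 ∨ z ∈ S1 ∨ z ∈ S2 → z ∈ S0 ++ (S1 ++ S2) := fun h => h.elim i0 (fun k => k.elim i1 i2)
    refine a1L (R0 := S0) (R1 := S1) (R2 := S2) nd1 ?_ v2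
    refine
      { xa := t.xa
        xb := t.xb
        ab := t.ba.symm
        n0 := ?_
        n1 := ?_
        m1 := ?_
        m2 := ?_
        s1 := ?_
        s2 := ?_
        c0 := ?_
        c1 := ?_
        y0 := ?_ }
    · intro z hz k
      have k' := (t.rb (i0 hz)).1 k
      exact k'.2 (c0 z hz k'.1)
    · intro z hz k
      have k' := (t.ra (i1 hz)).1 k
      rw [c1 z hz k'.1] at k'
      exact absurd k'.2 (by decide)
    · intro z hz k
      have k' := (t.rx (i1 hz)).1 k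
      exact (t.rb (i1 hz)).2 ⟨k', by rw [c1 z hz k']; decide⟩
    · intro z hz k
      have k' := (t.rx (i2 hz)).1 k
      exact (t.ra (i2 hz)).2 ⟨k', c2 z hz k'⟩
    · intro z hz k
      have k' := (t.ra (ii hz)).1 k
      exact (t.rb (ii hz)).2 ⟨k'.1, by rw [k'.2]; decide⟩
    · intro z hz k
      exact (t.rx (ii hz)).2 ((t.rb (ii hz)).1 k).1
    · intro z w hz hw k1 k2
      have k1' := (t.rx (i0 hz)).1 k1
      have hw' : w ∈ S0 ++ (S1 ++ S2) := hw.elim i1 i2
      have k2' := (t.rb hw').1 k2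
      exact hA z (i0 hz) w hw' k1' k2'.1 (by rw [c0 z hz k1']; exact fun e => k2'.2 e.symm)
    · intro z w hz hw k1 k2
      have k1' := (t.rx (i1 hz)).1 k1
      have k2' := (t.ra (i2 hw)).1 k2
      exact hA z (i1 hz) w (i2 hw) k1' k2'.1 (by rw [c1 z hz k1', k2'.2]; decide)
    · exact ⟨z0, m0, (t.rx (i0 m0)).2 a0⟩

/-- THE ARROWS 210 -> 201, 2010, 2101, 21010 IN THE CONTEXT 102 -/
theorem arr3 {W1 W2 : List V} (w1 : Wr (fc 3) (gc 3) G R W1 A cl) (w2 : Wr (fc 3) (gc 3) G R W2 A cl) (sp : Sp3 R A cl 1 0 2)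
    (hA : ∀ z ∈ R, ∀ w ∈ R, A z → A w → cl z ≠ cl w → G.Adj z w) (h1 : [2, 1, 0].Sublist (W1.map cl))
    (h2 : W2.map cl = [2, 0, 1] ∨ W2.map cl = [2, 0, 1, 0] ∨ W2.map cl = [2, 1, 0, 1] ∨ W2.map cl = [2, 1, 0, 1, 0])
    (v : Val G (W1 ++ R)) : Val G (W2 ++ R) := by
  obtain ⟨S0, S1, S2, rfl, c0, c1, c2, ⟨z0, m0, a0⟩, _, _⟩ := sp
  obtain ⟨W', hs, e⟩ := sub_map h1
  have v1 := Val_sublist (List.Sublist.append hs (List.Sublist.refl _)) w1.nd v
  have eS : S0 ++ (S1 ++ S2) = (S0 ++ S1) ++ S2 := (List.append_assoc _ _ _).symm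
  rw [eS] at v1 w1 w2 hA ⊢
  have iL : ∀ {z}, z ∈ S0 ++ S1 → z ∈ (S0 ++ S1) ++ S2 := fun h => List.mem_append_left _ h
  have i2 : ∀ {z}, z ∈ S2 → z ∈ (S0 ++ S1) ++ S2 := fun h => List.mem_append_right _ h
  have cL : ∀ z ∈ S0 ++ S1, A z → cl z ≠ 2 := by
    intro z hz az
    rcases List.mem_append.1 hz with hz | hz
    · rw [c0 z hz az]
      decide
    · rw [c1 z hz az]
      decide
  -- the context
  have cx : ∀ {x b a : V}, T3 G ((S0 ++ S1) ++ S2) A cl x b a → Cx G (S0 ++ S1) S2 x b a := by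
    intro x b a t
    refine ⟨?_, ?_, ?_, ?_, ?_, ?_⟩
    · intro z hz k
      have k' := (t.ra (iL hz)).1 k
      exact cL z hz k'.1 k'.2
    · intro z hz k
      exact (t.rx (iL hz)).2 ((t.rb (iL hz)).1 k).1
    · intro z hz
      rw [t.ra (i2 hz), t.rb (i2 hz)]
      exact and_congr_right fun az => by
        rw [c2 z hz az]
        simp
    · intro z hz
      rw [t.rx (i2 hz), t.rb (i2 hz)]
      exact ⟨fun k => k.1, fun az => ⟨az, by rw [c2 z hz az]; decide⟩⟩
    · intro z w hz hw k1 k2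
      have k1' := (t.ra (i2 hz)).1 k1
      have k2' := (t.rb (iL hw)).1 k2
      exact hA z (i2 hz) w (iL hw) k1'.1 k2'.1 (by rw [k1'.2]; exact fun e => cL w hw k2'.1 e.symm)
    · exact ⟨z0, List.mem_append_left _ m0, (t.rb (iL (List.mem_append_left _ m0))).2 ⟨a0, by rw [c0 z0 m0 a0]; decide⟩⟩
  have tw : ∀ {p q : V}, p ∈ W2 → q ∈ W2 → cl p = cl q → Tw G ((S0 ++ S1) ++ S2) p q := by
    intro p q hp hq e z hz
    rw [w2.ax hp hz, w2.ax hq hz, e]
  -- the word 210 for three members of W2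
  have tri : ∀ {x b a : V}, x ∈ W2 → b ∈ W2 → a ∈ W2 → cl x = 2 → cl b = 1 → cl a = 0 →
      Tri G ((S0 ++ S1) ++ S2) x b a x b a ∧ Cx G (S0 ++ S1) S2 x b a ∧ Val G (x :: b :: a :: ((S0 ++ S1) ++ S2)) := by
    intro x b a mx mb ma k2 k1 k0
    have t := t3_of w2 mx mb ma k2 k1 k0
    have nd2 := List.nodup_append.1 w2.nd
    have nd : (x :: b :: a :: ((S0 ++ S1) ++ S2)).Nodup := by
      have hm : ∀ {p}, p ∈ W2 → p ∉ (S0 ++ S1) ++ S2 := fun hp h => nd2.2.2 _ hp _ h rfl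
      refine List.nodup_cons.2 ⟨?_, List.nodup_cons.2 ⟨?_, List.nodup_cons.2 ⟨hm ma, nd2.2.1⟩⟩⟩
      · simp only [List.mem_cons, not_or]
        exact ⟨t.xb.ne, t.xa.ne, hm mx⟩
      · simp only [List.mem_cons, not_or]
        exact ⟨t.ba.ne, hm mb⟩
    refine ⟨⟨nd, fun _ _ => Iff.rfl, fun _ _ => Iff.rfl, fun _ _ => Iff.rfl, t.xb, t.xa, t.ba⟩, cx t, ?_⟩
    have w3 : Wr (fc 3) (gc 3) G ((S0 ++ S1) ++ S2) [x, b, a] A cl := by
      have mm : ∀ {y}, y ∈ [x, b, a] → y ∈ W2 := by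
        intro y hy
        simp only [List.mem_cons, List.not_mem_nil, or_false] at hy
        rcases hy with rfl | rfl | rfl
        · exact mx
        · exact mb
        · exact ma
      exact ⟨nd, fun hy => w2.ax (mm hy), fun hy hz => w2.aW (mm hy) (mm hz)⟩
    exact (w1.sub hs).same w3 (by rw [e]; simp [k0, k1, k2]) v1
  have ad : ∀ {p q : V}, p ∈ W2 → q ∈ W2 → cl p ≠ cl q → G.Adj p q := by
    intro p q hp hq hn
    rw [w2.aW hp hq (fun e => hn (by rw [e]))]
    exact Or.inl hn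
  rcases h2 with h2 | h2 | h2 | h2
  · obtain ⟨x, a, b, rfl, k2, k0, k1⟩ := map3 h2
    · obtain ⟨t, c, v2⟩ := tri (x := x) (b := b) (a := a) (by simp) (by simp) (by simp) k2 k1 k0
      exact w201 c t v2
  · obtain ⟨x, a, b, a1, rfl, k2, k0, k1, k3⟩ := map4 h2
    · obtain ⟨t, c, v2⟩ := tri (x := x) (b := b) (a := a) (by simp) (by simp) (by simp) k2 k1 k0
      have n1 : a ≠ a1 := by
        rintro rfl
        have := w2.nd
        simp at this
      refine w2010 c t (tw (by simp) (by simp) (k3.trans k0.symm)) (ad (by simp) (by simp) (by rw [k2, k3]; decide))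
        (ad (by simp) (by simp) (by rw [k1, k3]; decide)) ?_ w2.nd v2
      rw [w2.aW (by simp) (by simp) n1, k0, k3]
      rintro (h | h)
      · exact h rfl
      · exact absurd h (by decide)
  · obtain ⟨x, b1, a, b, rfl, k2, k3, k0, k1⟩ := map4 h2
    · obtain ⟨t, c, v2⟩ := tri (x := x) (b := b) (a := a) (by simp) (by simp) (by simp) k2 k1 k0
      have n1 : b1 ≠ b := by
        rintro rfl
        have := w2.nd
        simp at this
      refine w2101 c t (tw (by simp) (by simp) (k3.trans k1.symm)) (ad (by simp) (by simp) (by rw [k2, k3]; decide))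
        (ad (by simp) (by simp) (by rw [k0, k3]; decide)) ?_ w2.nd v2
      rw [w2.aW (by simp) (by simp) n1, k3, k1]
      exact Or.inr (by decide)
  · obtain ⟨x, b1, a, b, a1, rfl, k2, k3, k0, k1, k4⟩ := map5 h2
    · obtain ⟨t, c, v2⟩ := tri (x := x) (b := b) (a := a) (by simp) (by simp) (by simp) k2 k1 k0
      have n1 : b1 ≠ b := by
        rintro rfl
        have := w2.nd
        simp at this
      have n2 : a ≠ a1 := by
        rintro rfl
        have := w2.nd
        simp at this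
      refine w21010 c t (tw (by simp) (by simp) (k3.trans k1.symm)) (tw (by simp) (by simp) (k4.trans k0.symm))
        (ad (by simp) (by simp) (by rw [k2, k3]; decide)) (ad (by simp) (by simp) (by rw [k0, k3]; decide)) ?_
        (ad (by simp) (by simp) (by rw [k2, k4]; decide)) (ad (by simp) (by simp) (by rw [k1, k4]; decide))
        (ad (by simp) (by simp) (by rw [k3, k4]; decide)) ?_ w2.nd v2
      · rw [w2.aW (by simp) (by simp) n1, k3, k1]
        exact Or.inr (by decide)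
      · rw [w2.aW (by simp) (by simp) n2, k0, k4]
        rintro (h | h)
        · exact h rfl
        · exact absurd h (by decide)

end Pool.Agent.SOH
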