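import Pool.Agent.SOH.HTy

/-! Project SOH (MP_66ba69_lc), module HWd: the words for chains of three or four rows, on numbers. -/

set_option autoImplicit false

namespace Pool.Agent.SOH

open Pool.Agent.SOC Pool.Agent.SOD Pool.Agent.SOS Pool.Agent.SOP Pool.Agent.SOE Pool.Agent.SOV Pool.Agent.SOF Pool.Agent.SOT Pool.Agent.SOK Pool.Agent.SON FP

variable {M : Mat} {L L' R B W : Ord} {G : SimpleGraph ℕ}

/-- the row of an attached vertex is given by its class -/
theorem row_cls {α : Type} {f : α → α → Prop} {cl : ℕ → α} (hc : ClsL f (gN M) L R cl) (hR : RpL (gN M) L R B) {x : ℕ}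
    (hx : x ∈ L) (ax : Atd (gN M) B x) : rowB M B x = rwC f cl B (cl x) := by
  classical
  have cB : CovL (gN M) L R B := LRp.cov hR
  unfold rowB rwC
  refine List.map_congr_left fun b hb => ?_
  rw [Bool.eq_iff_iff, decide_eq_true_eq]
  refine hc.adj hx (cB.1 b hb) ((cB.att hx).1 ax) ?_
  obtain ⟨sR, _, hR'⟩ := hR
  obtain ⟨i, hi⟩ := List.mem_iff_getElem?.1 hb
  exact (hR'.rep hi).2

/-- three rows: `rwC (fc 3) cl B i` is the row of the class `i` on `B` -/
theorem h3_words {cl : ℕ → Fin 3} (hE : EpL (gN M) L R) (hc : ClsL (fc 3) (gN M) L R cl) (hR : RpL (gN M) L R B) (hp : L'.Perm L)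
    (hV : Val (gN M) (L' ++ B)) :
    Function.Injective (rwC (fc 3) cl B) ∧ ∃ t ∈ tab3, t.1 = B.map cl ∧ ∃ w ∈ t.2, wordB M B L' = w.map (rwC (fc 3) cl B) :=
  words3 (ad := adjB M) (fun _ _ => Iff.rfl) (lep_of hE) (lcl_of hc) hR hp hV

/-- four rows -/
theorem h4_words {cl : ℕ → Fin 4} (hE : EpL (gN M) L R) (hc : ClsL (fc 4) (gN M) L R cl) (hR : RpL (gN M) L R B) (hp : L'.Perm L)
    (hV : Val (gN M) (L' ++ B)) :
    Function.Injective (rwC (fc 4) cl B) ∧ ∃ w, (B.map cl, w) ∈ tab4 ∧ wordB M B L' = w.map (rwC (fc 4) cl B) :=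
  words4 (ad := adjB M) (fun _ _ => Iff.rfl) (lep_of hE) (lcl_of hc) hR hp hV

/-- three rows: at least three blocks, at most five -/
theorem h3_len {cl : ℕ → Fin 3} (hE : EpL (gN M) L R) (hc : ClsL (fc 3) (gN M) L R cl) (hR : RpL (gN M) L R B) (hp : L'.Perm L)
    (hV : Val (gN M) (L' ++ B)) : 3 ≤ B.length ∧ B.length ≤ 5 ∧ 3 ≤ (wordB M B L').length ∧ (wordB M B L').length ≤ 5 := by
  obtain ⟨_, t, ht, e, w, hw, h⟩ := h3_words hE hc hR hp hV
  have key : ∀ t ∈ tab3, 3 ≤ t.1.length ∧ t.1.length ≤ 5 ∧ ∀ w ∈ t.2, 3 ≤ w.length ∧ w.length ≤ 5 := by decide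
  obtain ⟨k1, k2, k3⟩ := key t ht
  have e1 : t.1.length = B.length := by rw [e, List.length_map]
  have e2 : (wordB M B L').length = w.length := by rw [h, List.length_map]
  have k4 := k3 w hw
  omega

/-- four rows: four blocks -/
theorem h4_len {cl : ℕ → Fin 4} (hE : EpL (gN M) L R) (hc : ClsL (fc 4) (gN M) L R cl) (hR : RpL (gN M) L R B) (hp : L'.Perm L)
    (hV : Val (gN M) (L' ++ B)) : B.length = 4 ∧ (wordB M B L').length = 4 := by
  obtain ⟨_, w, hw, h⟩ := h4_words hE hc hR hp hV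
  have key : ∀ t ∈ tab4, t.1.length = 4 ∧ t.2.length = 4 := by decide
  obtain ⟨k1, k2⟩ := key _ hw
  have e1 : (B.map cl).length = B.length := List.length_map _
  have e2 : (wordB M B L').length = w.length := by rw [h, List.length_map]
  simp only at k1 k2
  omega

/-- four rows: the word is determined -/
theorem h4_eq {cl : ℕ → Fin 4} (hE : EpL (gN M) L R) (hc : ClsL (fc 4) (gN M) L R cl) (hR : RpL (gN M) L R B) (hp : L'.Perm L)
    (hV : Val (gN M) (L ++ B)) (hV' : Val (gN M) (L' ++ B)) : wordB M B L' = wordB M B L := by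
  obtain ⟨_, w, hw, h⟩ := h4_words hE hc hR (List.Perm.refl _) hV
  obtain ⟨_, w', hw', h'⟩ := h4_words hE hc hR hp hV'
  have e : w' = w := t4u _ hw' _ hw rfl
  rw [h, h', e]

end Pool.Agent.SOH
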