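import Pool.Agent.SOH.DmB
import Pool.Agent.SOH.HWd
import Pool.Agent.SON.SdL
import Pool.Agent.SOM.DomN

/-! Project SOH (MP_66ba69_lc), module Dom3: three rows, CHANGE OF THE WORD. -/

set_option autoImplicit false

namespace Pool.Agent.SOH

open Pool.Agent.SOC Pool.Agent.SOD Pool.Agent.RUP Pool.Agent.SOF Pool.Agent.SOG Pool.Agent.SOJ Pool.Agent.SOV Pool.Agent.SOK Pool.Agent.SOS
open Pool.Agent.SOM Pool.Agent.SON Pool.Agent.SOT FP

/-- the changes of the word `w` to `w'` in the context `c` -/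
inductive Arw : List (Fin 3) → List (Fin 3) → List (Fin 3) → Prop
  | sub {c w w'} : w'.Sublist w → Arw c w w'
  | a1 {w} : [2, 0, 1].Sublist w → Arw [0, 1, 2] w [0, 1, 2]
  | b1 {w} : [1, 0, 2].Sublist w → Arw [2, 1, 0] w [2, 1, 0]
  | a3 {w w'} : [2, 1, 0].Sublist w → (w' = [2, 0, 1] ∨ w' = [2, 0, 1, 0] ∨ w' = [2, 1, 0, 1] ∨ w' = [2, 1, 0, 1, 0]) → Arw [1, 0, 2] w w'
  | b3 {w w'} : [0, 1, 2].Sublist w → (w' = [1, 0, 2] ∨ w' = [0, 1, 0, 2] ∨ w' = [1, 0, 1, 2] ∨ w' = [0, 1, 0, 1, 2]) → Arw [2, 0, 1] w w'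

variable {V : Type} [DecidableEq V] {G : SimpleGraph V} {L L' R B : List V} {cl : V → Fin 3} {ad : V → V → Bool}

omit [DecidableEq V] in
theorem sp3_of (hc : LCl (fc 3) G L R cl) (hB : LRp G L R B) {k0 k1 k2 : Fin 3} (e : B.map cl = [k0, k1, k2]) :
    Sp3 R (Atd G L) cl k0 k1 k2 := by
  obtain ⟨b0, b1, b2, rfl, e0, e1, e2⟩ := map3 e
  obtain ⟨sR, eR, h⟩ := hB
  have hl := h.len
  have hs := hc.symm ty_c
  match sR, hl with
  | [S0, S1, S2], _ =>
    have eR' : R = S0 ++ (S1 ++ S2) := by rw [← eR]; simp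
    obtain ⟨⟨s, k, m0⟩, a0⟩ := h.rep (i := 0) (b := b0) rfl
    have e0' : S0 = s := Option.some.inj k
    subst e0'
    obtain ⟨⟨s, k, m1⟩, a1⟩ := h.rep (i := 1) (b := b1) rfl
    have e1' : S1 = s := Option.some.inj k
    subst e1'
    obtain ⟨⟨s, k, m2⟩, a2⟩ := h.rep (i := 2) (b := b2) rfl
    have e2' : S2 = s := Option.some.inj k
    subst e2'
    have i0 : ∀ {z}, z ∈ S0 → z ∈ R := fun hz => by rw [eR']; exact List.mem_append_left _ hz
    have i1 : ∀ {z}, z ∈ S1 → z ∈ R := fun hz => by rw [eR']; exact List.mem_append_right _ (List.mem_append_left _ hz)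
    have i2 : ∀ {z}, z ∈ S2 → z ∈ R := fun hz => by rw [eR']; exact List.mem_append_right _ (List.mem_append_right _ hz)
    refine ⟨S0, S1, S2, eR', ?_, ?_, ?_, ⟨b0, m0, a0⟩, ⟨b1, m1, a1⟩, b2, m2, a2⟩
    · intro z hz az
      rw [← e0]
      exact (hs.row ty_c (i0 hz) (i0 m0) az a0).1 (h.same (i := 0) ⟨S0, rfl, hz⟩ ⟨S0, rfl, m0⟩ az a0)
    · intro z hz az
      rw [← e1]
      exact (hs.row ty_c (i1 hz) (i1 m1) az a1).1 (h.same (i := 1) ⟨S1, rfl, hz⟩ ⟨S1, rfl, m1⟩ az a1)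
    · intro z hz az
      rw [← e2]
      exact (hs.row ty_c (i2 hz) (i2 m2) az a2).1 (h.same (i := 2) ⟨S2, rfl, hz⟩ ⟨S2, rfl, m2⟩ az a2)

/-- the representatives, change of the word -/
theorem arw_w {W1 W2 : List V} {A : V → Prop} {c : List (Fin 3)} (w1 : Wr (fc 3) (gc 3) G R W1 A cl) (w2 : Wr (fc 3) (gc 3) G R W2 A cl)
    (sp : ∀ {k0 k1 k2}, c = [k0, k1, k2] → Sp3 R A cl k0 k1 k2)
    (hA : ∀ z ∈ R, ∀ w ∈ R, A z → A w → cl z ≠ cl w → G.Adj z w) (h : Arw c (W1.map cl) (W2.map cl)) (v : Val G (W1 ++ R)) :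
    Val G (W2 ++ R) := by
  generalize e1 : W1.map cl = u1 at h
  generalize e2 : W2.map cl = u2 at h
  have hA' : ∀ z ∈ R.reverse, ∀ w ∈ R.reverse, A z → A w → cl z ≠ cl w → G.Adj z w := fun z hz w hw =>
    hA z (List.mem_reverse.1 hz) w (List.mem_reverse.1 hw)
  have rv : ∀ {W : List V} {l : List (Fin 3)}, W.map cl = l → W.reverse.map cl = l.reverse := fun e => by rw [List.map_reverse, e]
  cases h with
  | sub hs =>
    subst e1
    obtain ⟨W', h1, h2⟩ := sub_map hs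
    exact (w1.sub h1).same w2 (h2.trans e2.symm) (Val_sublist (List.Sublist.append h1 (List.Sublist.refl R)) w1.nd v)
  | a1 hs =>
    subst e1
    exact arr1 w1 w2 (sp rfl) hA hs e2 v
  | b1 hs =>
    subst e1
    refine (val_rev w2.nd).2 (arr1 w1.rev w2.rev (sp rfl).rev hA' ?_ (rv e2) ((val_rev w1.nd).1 v))
    rw [List.map_reverse]
    exact List.reverse_sublist.2 hs
  | a3 hs h3 =>
    subst e1 e2
    exact arr3 w1 w2 (sp rfl) hA hs h3 v
  | b3 hs h3 =>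
    subst e1
    refine (val_rev w2.nd).2 (arr3 w1.rev w2.rev (sp rfl).rev hA' ?_ ?_ ((val_rev w1.nd).1 v))
    · rw [List.map_reverse]
      exact List.reverse_sublist.2 hs
    · rcases h3 with h3 | h3 | h3 | h3
      · exact Or.inl (rv (e2.trans h3))
      · exact Or.inr (Or.inl (rv (e2.trans h3)))
      · exact Or.inr (Or.inr (Or.inl (rv (e2.trans h3))))
      · exact Or.inr (Or.inr (Or.inr (rv (e2.trans h3))))

omit [DecidableEq V] in
theorem lrp_sub (h : LRp G L R B) : B.Sublist R := by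
  obtain ⟨sR, e, hS⟩ := h
  rw [← e]
  exact sdl_sub hS.len fun i b hb => (hS.rep hb).1

/-- CHANGE OF THE WORD -/
theorem dom_3 (had : ∀ x y, ad x y = true ↔ G.Adj x y) (hE : LEp G L R) (hc : LCl (fc 3) G L R cl) (hp : L'.Perm L) (hB : LRp G L R B)
    (h1 : Val G (L ++ R)) (h2 : Val G (L' ++ B)) {w w' : List (Fin 3)} (e : wordF ad B L = w.map (rwC (fc 3) cl B))
    (e' : wordF ad B L' = w'.map (rwC (fc 3) cl B)) (ha : Arw (B.map cl) w w') : Val G (L' ++ R) := by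
  have hE' := hE.permL hp
  have hc' := hc.permL hp
  have hB' := hB.permL hp
  have vB : Val G (L ++ B) := Val_sublist (List.Sublist.append (List.Sublist.refl L) (lrp_sub hB)) hE.nd h1
  obtain ⟨W1, r1, _, m1, s1, _⟩ := wr_ex had ty_c hE hc hB vB
  obtain ⟨W2, r2, l2, m2, _, c2⟩ := wr_ex had ty_c hE' hc' hB' h2
  obtain ⟨_, wd⟩ := wds_ex had ty_c hE hc hB vB
  have inj := List.map_injective_iff.2 wd.inj
  have w1 : W1.map cl = w := inj (m1.symm.trans e)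
  have w2 : W2.map cl = w' := inj (m2.symm.trans e')
  have at' : ∀ {z}, Atd G L' z ↔ Atd G L z := fun {z} => by
    constructor
    · rintro ⟨y, hy, k⟩
      exact ⟨y, hp.mem_iff.1 hy, k⟩
    · rintro ⟨y, hy, k⟩
      exact ⟨y, hp.mem_iff.2 hy, k⟩
  have r2' : Wr (fc 3) (gc 3) G R W2 (Atd G L) cl := ⟨r2.nd, fun hx hy => by rw [r2.ax hx hy, at'], r2.aW⟩
  have v2 : Val G (W2 ++ R) := by
    refine arw_w (c := B.map cl) r1 r2' (fun k => sp3_of hc hB k) ?_ (by rw [w1, w2]; exact ha)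
      (Val_sublist (List.Sublist.append s1 (List.Sublist.refl R)) hE.nd h1)
    intro z hz w hw az aw hn
    refine adj_diff ruleF sixF hE.symm ((Val_rotate hE.nd).1 h1) hz hw az aw fun hs => ?_
    exact hn (((hc.symm ty_c).row ty_c hz hw az aw).1 hs)
  refine glue_5 hE' hB' l2 h2 v2 ?_
  have k1 := len3 wd.aB
  have k2 := len3 c2
  rw [List.length_map] at k1 k2
  omega

/-- CHANGE OF THE WORD, for matrices -/
theorem dom3 {M : Mat} {L L' R B : Ord} {cl : ℕ → Fin 3} (hE : EpL (gN M) L R) (hc : ClsL (fc 3) (gN M) L R cl) (hp : L'.Perm L)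
    (hR : RpL (gN M) L R B) (h1 : Val (gN M) (L ++ R)) (h2 : Val (gN M) (L' ++ B)) {w w' : List (Fin 3)}
    (e : wordB M B L = w.map (rwC (fc 3) cl B)) (e' : wordB M B L' = w'.map (rwC (fc 3) cl B)) (ha : Arw (B.map cl) w w') :
    Val (gN M) (L' ++ R) :=
  dom_3 (ad := adjB M) (fun _ _ => Iff.rfl) (lep_of hE) (lcl_of hc) hp hR h1 h2 e e' ha

end Pool.Agent.SOH
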