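import Pool.Agent.SOH.HdT
import Pool.Agent.SON.Ty2

/-! Project SOH (MP_66ba69_lc), module HCh: classes of a chain of rows. -/

set_option autoImplicit false

namespace Pool.Agent.SOH

open Pool.Agent.SOC Pool.Agent.SOD Pool.Agent.RUP Pool.Agent.SOF Pool.Agent.SOG Pool.Agent.SOV Pool.Agent.SOS Pool.Agent.SOK

section
variable {V : Type} {G : SimpleGraph V} {S : V → Prop}

/-- the row as a set -/
def rwS (G : SimpleGraph V) (S : V → Prop) (x : V) : Set V := {z | ¬ S z ∧ G.Adj x z}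

open Classical in
/-- the classes of a chain of rows -/
theorem chn_cls [Fintype V] (hch : Chn G S) (ne : ∃ x, S x ∧ At G S x) : ∃ (n : ℕ) (cl : V → Fin (n + 1)),
    (∀ {a b}, S a → ¬ S b → At G S a → (∃ z, S z ∧ G.Adj b z) → (G.Adj a b ↔ fc (n + 1) (cl a) (cl b))) ∧
    (∀ i, ∃ a, S a ∧ At G S a ∧ cl a = i) ∧ ∀ i, ∃ a, ¬ S a ∧ (∃ z, S z ∧ G.Adj a z) ∧ cl a = i := by
  let A : Finset V := Finset.univ.filter fun x => S x ∧ At G S x
  let R : Finset (Set V) := A.image (rwS G S)
  have mA : ∀ {x : V}, x ∈ A ↔ S x ∧ At G S x := fun {x} => by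
    simp [A]
  have mR : ∀ {r : Set V}, r ∈ R ↔ ∃ x, (S x ∧ At G S x) ∧ rwS G S x = r := fun {r} => by
    simp only [R, Finset.mem_image, mA]
  have cmp : ∀ {r r' : Set V}, r ∈ R → r' ∈ R → r ⊆ r' ∨ r' ⊆ r := by
    intro r r' hr hr'
    obtain ⟨x, hx, rfl⟩ := mR.1 hr
    obtain ⟨y, hy, rfl⟩ := mR.1 hr'
    rcases hch x y hx.1 hy.1 hx.2 hy.2 with h | h
    · exact Or.inl fun z hz => ⟨hz.1, h z hz.1 hz.2⟩
    · exact Or.inr fun z hz => ⟨hz.1, h z hz.1 hz.2⟩
  have rne : ∀ {r : Set V}, r ∈ R → ∃ z, z ∈ r := by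
    intro r hr
    obtain ⟨x, ⟨_, z, hz, e⟩, rfl⟩ := mR.1 hr
    exact ⟨z, hz, e⟩
  obtain ⟨x0, hx0⟩ := ne
  have hx0' : rwS G S x0 ∈ R := mR.2 ⟨x0, hx0, rfl⟩
  obtain ⟨n, hn⟩ : ∃ n, R.card = n + 1 := by
    have : 0 < R.card := Finset.card_pos.2 ⟨_, hx0'⟩
    exact ⟨R.card - 1, by omega⟩
  -- number of rows strictly below, number of rows not containing a vertex
  let be : Set V → ℕ := fun r => (R.filter fun r' => r' ⊂ r).card
  let no : V → ℕ := fun z => (R.filter fun r' => z ∉ r').card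
  have be_lt : ∀ {r : Set V}, r ∈ R → be r < n + 1 := by
    intro r hr
    rw [← hn]
    refine Finset.card_lt_card ⟨Finset.filter_subset _ _, fun h => ?_⟩
    have := h hr
    rw [Finset.mem_filter] at this
    exact this.2.2 (fun _ hz => hz)
  have key : ∀ {r : Set V} {z : V}, r ∈ R → (z ∈ r ↔ no z ≤ be r) := by
    intro r z hr
    constructor
    · intro hz
      refine Finset.card_le_card fun r' hr' => ?_
      rw [Finset.mem_filter] at hr' ⊢
      refine ⟨hr'.1, ?_⟩
      rcases cmp hr'.1 hr with h | h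
      · exact ⟨h, fun h2 => hr'.2 (h2 hz)⟩
      · exact absurd (h hz) hr'.2
    · intro hle
      by_contra hz
      have : be r < no z := by
        refine Finset.card_lt_card ⟨fun r' hr' => ?_, fun h => ?_⟩
        · rw [Finset.mem_filter] at hr' ⊢
          exact ⟨hr'.1, fun h => hz (hr'.2.1 h)⟩
        · have h2 := h (Finset.mem_filter.2 ⟨hr, hz⟩)
          rw [Finset.mem_filter] at h2
          exact h2.2.2 (fun _ hz => hz)
      omega
  have be_inj : ∀ {r r' : Set V}, r ∈ R → r' ∈ R → be r = be r' → r = r' := by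
    intro r r' hr hr' e
    ext z
    rw [key hr, key hr', e]
  have be_sur : ∀ i, i < n + 1 → ∃ r ∈ R, be r = i := by
    intro i hi
    have h1 : R.image be ⊆ Finset.range (n + 1) := by
      intro j hj
      obtain ⟨r, hr, rfl⟩ := Finset.mem_image.1 hj
      exact Finset.mem_range.2 (be_lt hr)
    have h2 : (R.image be).card = n + 1 := by
      rw [Finset.card_image_of_injOn, hn]
      exact fun r hr r' hr' e => be_inj hr hr' e
    have h3 := Finset.eq_of_subset_of_card_le h1 (by rw [h2, Finset.card_range])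
    have h4 : i ∈ R.image be := by
      rw [h3]
      exact Finset.mem_range.2 hi
    obtain ⟨r, hr, e⟩ := Finset.mem_image.1 h4
    exact ⟨r, hr, e⟩
  have no_le : ∀ {z : V}, (∃ r ∈ R, z ∈ r) → no z ≤ n := by
    rintro z ⟨r, hr, hz⟩
    have := (key hr).1 hz
    have := be_lt hr
    omega
  refine ⟨n, fun v => if S v then ⟨min (be (rwS G S v)) n, by omega⟩ else ⟨n - no v, by omega⟩, ?_, ?_, ?_⟩
  · rintro a b ha hb hA ⟨z, hz, e⟩
    have hr : rwS G S a ∈ R := mR.2 ⟨a, ⟨ha, hA⟩, rfl⟩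
    have hz' : rwS G S z ∈ R := mR.2 ⟨z, ⟨hz, b, hb, e.symm⟩, rfl⟩
    have h1 : G.Adj a b ↔ b ∈ rwS G S a := ⟨fun h => ⟨hb, h⟩, fun h => h.2⟩
    have h2 := be_lt hr
    have h3 : no b ≤ n := no_le ⟨_, hz', hb, e.symm⟩
    rw [h1, key hr]
    unfold fc
    simp only [if_pos ha, if_neg hb]
    omega
  · intro i
    obtain ⟨r, hr, e⟩ := be_sur i.val i.2
    obtain ⟨x, hx, rfl⟩ := mR.1 hr
    refine ⟨x, hx.1, hx.2, ?_⟩
    simp only [if_pos hx.1]
    apply Fin.ext
    simp only
    omega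
  · intro i
    obtain ⟨r, hr, e⟩ := be_sur (n - i.val) (by omega)
    have : ∃ z ∈ r, no z = n - i.val := by
      by_cases h0 : n - i.val = 0
      · obtain ⟨z, hz⟩ := rne hr
        refine ⟨z, hz, ?_⟩
        have := (key hr).1 hz
        omega
      · obtain ⟨r', hr', e'⟩ := be_sur (n - i.val - 1) (by omega)
        have h1 : ∃ z, z ∈ r ∧ z ∉ r' := by
          by_contra hn'
          push Not at hn'
          have h2 : ∀ z, z ∈ r → z ∈ r' := hn'
          rcases cmp hr' hr with h3 | h3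
          · have h4 : r' = r := Set.Subset.antisymm h3 h2
            rw [h4] at e'
            omega
          · have h4 : be r ≤ be r' := by
              refine Finset.card_le_card fun q hq => ?_
              rw [Finset.mem_filter] at hq ⊢
              exact ⟨hq.1, hq.2.1.trans h3, fun h5 => hq.2.2 (h3.trans h5)⟩
            omega
        obtain ⟨z, hz, hz'⟩ := h1
        refine ⟨z, hz, ?_⟩
        have h2 := (key hr).1 hz
        have h3 : ¬ no z ≤ be r' := fun h => hz' ((key hr').2 h)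
        omega
    obtain ⟨z, hz, hno⟩ := this
    obtain ⟨x, hx, rfl⟩ := mR.1 hr
    refine ⟨z, hz.1, ⟨x, hx.1, hz.2.symm⟩, ?_⟩
    simp only [if_neg hz.1]
    apply Fin.ext
    simp only
    omega

end

end Pool.Agent.SOH
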