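import Pool.Agent.SOH.HCh
import Pool.Agent.SON.Wd

/-! Project SOH (MP_66ba69_lc), module HTy: the types of the E-P-cuts of a prime graph. -/

set_option autoImplicit false

namespace Pool.Agent.SOH

open Pool.Agent.SOC Pool.Agent.SOD Pool.Agent.SOS Pool.Agent.SOP Pool.Agent.SOE Pool.Agent.SOV Pool.Agent.SOF Pool.Agent.SOT Pool.Agent.SOK Pool.Agent.SON FP

variable {M : Mat} {L L' R B : Ord} {G : SimpleGraph ℕ}

/-- E-P-cut of one of the five types -/
structure StL3 (G : SimpleGraph ℕ) (L R : List ℕ) : Prop where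
  ep : EpL G L R
  ty : (∃ cl, ClsL fP G L R cl) ∨ (∃ cl, ClsL fK G L R cl) ∨ (∃ cl, ClsL fE G L R cl) ∨
    (∃ cl, ClsL (fc 3) G L R cl) ∨ (∃ cl, ClsL (fc 4) G L R cl)

open Classical in
/-- no chain of five rows -/
theorem no5L {n : ℕ} (h5 : 5 ≤ n) {cl : ℕ → Fin n} (ep : EpL G L R) (hc : ClsL (fc n) G L R cl) (hv : Val G (L ++ R)) : False := by
  have hcL : LCl (fc n) G L R cl := lcl_of hc
  have hcR : LCl (fc n) G R L cl := hcL.symm ty_c
  have dj := List.nodup_append.1 ep.nd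
  choose a ha using hc.wL
  choose b hb using hc.wR
  let ia : Fin 5 → Fin n := fun i => ⟨i.val, by omega⟩
  let ib : Fin 5 → Fin n := fun i => ⟨n - 5 + i.val, by omega⟩
  let A := L.filter fun v => decide (∃ i, v = a (ia i))
  let D := R.filter fun v => decide (∃ i, v = b (ib i))
  let cl5 : ℕ → Fin 5 := fun v => if v ∈ L then ⟨min (cl v).val 4, by omega⟩ else ⟨min ((cl v).val - (n - 5)) 4, by omega⟩
  have mA : ∀ {v : ℕ}, v ∈ A → v ∈ L ∧ ∃ i, v = a (ia i) := fun {v} hv' => by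
    have := List.mem_filter.1 hv'
    exact ⟨this.1, of_decide_eq_true this.2⟩
  have mD : ∀ {v : ℕ}, v ∈ D → v ∈ R ∧ ∃ i, v = b (ib i) := fun {v} hv' => by
    have := List.mem_filter.1 hv'
    exact ⟨this.1, of_decide_eq_true this.2⟩
  have cA : ∀ i, cl5 (a (ia i)) = i := by
    intro i
    have h1 : (cl (a (ia i))).val = i.val := congrArg Fin.val (ha (ia i)).2.2
    simp only [cl5, if_pos (ha (ia i)).1]
    apply Fin.ext
    show min (cl (a (ia i))).val 4 = i.val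
    omega
  have cD : ∀ i, cl5 (b (ib i)) = i := by
    intro i
    have h1 : (cl (b (ib i))).val = n - 5 + i.val := congrArg Fin.val (hb (ib i)).2.2
    have h2 : b (ib i) ∉ L := fun e => dj.2.2 _ e _ (hb (ib i)).1 rfl
    simp only [cl5, if_neg h2]
    apply Fin.ext
    show min ((cl (b (ib i))).val - (n - 5)) 4 = i.val
    omega
  have sA : A.Sublist L := List.filter_sublist
  have sD : D.Sublist R := List.filter_sublist
  have injA : ∀ x ∈ A, ∀ y ∈ A, cl5 x = cl5 y → x = y := by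
    intro x hx y hy e
    obtain ⟨_, i, rfl⟩ := mA hx
    obtain ⟨_, j, rfl⟩ := mA hy
    rw [cA, cA] at e
    rw [e]
  have injD : ∀ x ∈ D, ∀ y ∈ D, cl5 x = cl5 y → x = y := by
    intro x hx y hy e
    obtain ⟨_, i, rfl⟩ := mD hx
    obtain ⟨_, j, rfl⟩ := mD hy
    rw [cD, cD] at e
    rw [e]
  have rw5 : RW (fc 5) (gc 5) G A D cl5 := by
    refine ⟨(sA.append sD).nodup ep.nd, Val_sublist (sA.append sD) ep.nd hv, ?_, ?_, ?_⟩
    · intro x y hx hy
      obtain ⟨_, i, rfl⟩ := mA hx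
      obtain ⟨_, j, rfl⟩ := mD hy
      rw [cA, cD, hc.adj (ha _).1 (hb _).1 (ha _).2.1 (hb _).2.1, (ha _).2.2, (hb _).2.2]
      unfold fc
      simp only [ia, ib]
      omega
    · intro x y hx hy hne
      refine ⟨fun _ => Or.inl fun e => hne (injA x hx y hy e), fun _ => ?_⟩
      obtain ⟨_, i, rfl⟩ := mA hx
      obtain ⟨_, j, rfl⟩ := mA hy
      refine epl_adj ep (ha _).1 (ha _).1 (ha _).2.1 (ha _).2.1 fun hs => ?_
      have e := (hcL.row ty_c (ha _).1 (ha _).1 (ha _).2.1 (ha _).2.1).1 hs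
      rw [(ha _).2.2, (ha _).2.2] at e
      exact hne (by rw [e])
    · intro x y hx hy hne
      refine ⟨fun _ => Or.inl fun e => hne (injD x hx y hy e), fun _ => ?_⟩
      obtain ⟨_, i, rfl⟩ := mD hx
      obtain ⟨_, j, rfl⟩ := mD hy
      refine epl_adj (epl_swap ep) (hb _).1 (hb _).1 (hb _).2.1 (hb _).2.1 fun hs => ?_
      have e := (hcR.row ty_c (hb _).1 (hb _).1 (hb _).2.1 (hb _).2.1).1 hs
      rw [(hb _).2.2, (hb _).2.2] at e
      exact hne (by rw [e])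
  refine no_five rw5 ?_ ?_ ?_ ?_
  · exact (List.nodup_map_iff_inj_on (sA.nodup dj.1)).2 injA
  · exact (List.nodup_map_iff_inj_on (sD.nodup dj.2.1)).2 injD
  · intro i
    exact List.mem_map.2 ⟨a (ia i), List.mem_filter.2 ⟨(ha _).1, decide_eq_true ⟨i, rfl⟩⟩, cA i⟩
  · intro i
    exact List.mem_map.2 ⟨b (ib i), List.mem_filter.2 ⟨(hb _).1, decide_eq_true ⟨i, rfl⟩⟩, cD i⟩

/-- THE TYPES -/
theorem st3_of_vo {P Y : Ord} (hG : PrimeG (graphOf M)) (hE : EPC (graphOf M) (setW M P)) (h2 : 2 ≤ P.length)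
    (h2' : 2 ≤ Y.length) (hV : VO M (P ++ Y)) : StL3 (gN M) P Y := by
  have hp := vo_perm hV
  have hn : (P ++ Y).Nodup := hp.nodup_iff.2 List.nodup_range
  have hlt : ∀ x ∈ P ++ Y, x < M.length := fun x hx => List.mem_range.1 (hp.subset hx)
  have ltP : ∀ {x}, x ∈ P → x < M.length := fun h => hlt _ (List.mem_append_left _ h)
  have ltY : ∀ {x}, x ∈ Y → x < M.length := fun h => hlt _ (List.mem_append_right _ h)
  have hdj : ∀ {x}, x ∈ P → x ∈ Y → False := fun h h' => (List.nodup_append.1 hn).2.2 _ h _ h' rfl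
  have hS : ∀ v : Fin M.length, ¬ v.val ∈ P ↔ v.val ∈ Y := by
    intro v
    have h3 : v.val ∈ P ++ Y := hp.mem_iff.2 (List.mem_range.2 v.2)
    exact ⟨fun h => (List.mem_append.1 h3).resolve_left h, fun h h' => hdj h' h⟩
  have he : EP (graphOf M) (fun v => v.val ∈ P) := EP.of_epc hE
  obtain ⟨s, hs, hE', T, hT⟩ := id hV
  have idx : ∀ v : Fin M.length, (P ++ Y).idxOf v.val = s.idxOf v := by
    intro v
    rw [← hs]
    exact idxOf_map_of (fun _ _ _ _ h => Fin.ext h) (hE'.2 v)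
  have lo : ∀ v : Fin M.length, v.val ∈ P → s.idxOf v < P.length := by
    intro v hv
    rw [← idx, idxL hv]
    exact List.idxOf_lt_length_iff.2 hv
  have hi : ∀ v : Fin M.length, ¬ v.val ∈ P → P.length ≤ s.idxOf v := by
    intro v hv
    rw [← idx, idxR hn ((hS v).1 hv)]
    omega
  have hq : QC (graphOf M) (Pool.Agent.RUP.CrD s) T (fun v => v.val ∈ P) := by
    refine ⟨Pool.Agent.RUP.crD_sepr hE', qt_crD hT, ?_⟩
    intro a b c d ha hb hc hd hx
    have h1 := lo a ha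
    have h2 := lo b hb
    have h3 := hi c hc
    have h4 := hi d hd
    have h5 := hx.2
    unfold Cross SOC.Btw at h5
    omega
  have ep : EpL (gN M) P Y := by
    refine ⟨hn, ?_, ?_⟩
    · intro a b c d ha hb hc hd e e' n n'
      exact he.rig (a := ⟨a, ltP ha⟩) (b := ⟨b, ltY hb⟩) (c := ⟨c, ltP hc⟩) (d := ⟨d, ltY hd⟩) ha ((hS ⟨b, ltY hb⟩).2 hb) hc
        ((hS ⟨d, ltY hd⟩).2 hd) e e' (fun h => n (Fin.mk.inj h)) (fun h => n' (Fin.mk.inj h))
    · intro p p' q q' r hp1 hp2 hq1 hq2 hr hw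
      exact he.w4 (p := ⟨p, ltP hp1⟩) (p' := ⟨p', ltY hp2⟩) (q := ⟨q, ltP hq1⟩) (q' := ⟨q', ltY hq2⟩) (r := ⟨r, hlt r hr⟩) hp1
        ((hS ⟨p', ltY hp2⟩).2 hp2) hq1 ((hS ⟨q', ltY hq2⟩).2 hq2)
        ⟨hw.n1, hw.n2, fun h => hw.d1 (Fin.mk.inj h), fun h => hw.d2 (Fin.mk.inj h), hw.pq, hw.pq', hw.p'q, hw.p'q', hw.rp,
          hw.rp', hw.rq, hw.rq'⟩
  refine ⟨ep, ?_⟩
  rcases types he hq with hch | ⟨B, hB⟩ | ⟨cl, hcl⟩
  · have hP : P ≠ [] := by rintro rfl; simp at h2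
    have hY : Y ≠ [] := by rintro rfl; simp at h2'
    obtain ⟨a₀, b₀, m0, m0', e0⟩ := Ty2_edge hG.1 hP hY hV
    have two : ∀ {l : Ord}, l.Nodup → 2 ≤ l.length → ∀ a, ∃ b ∈ l, b ≠ a := by
      intro l hl h a
      rcases l with _ | ⟨x, _ | ⟨y, l⟩⟩
      · simp at h
      · simp at h
      · by_cases hx : x = a
        · refine ⟨y, by simp, fun hy => ?_⟩
          have := (List.nodup_cons.1 hl).1
          rw [hx, ← hy] at this
          simp at this
        · exact ⟨x, by simp, hx⟩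
    have g1 : ∃ a ∈ setW M P, a ≠ a₀ := by
      obtain ⟨b, hb, hne⟩ := two (List.nodup_append.1 hn).1 h2 a₀.val
      exact ⟨⟨b, ltP hb⟩, hb, fun h => hne (congrArg Fin.val h)⟩
    have g2 : ∃ b, b ∉ setW M P ∧ b ≠ b₀ := by
      obtain ⟨b, hb, hne⟩ := two (List.nodup_append.1 hn).2.1 h2' b₀.val
      exact ⟨⟨b, ltY hb⟩, (hS ⟨b, ltY hb⟩).2 hb, fun h => hne (congrArg Fin.val h)⟩
    obtain ⟨a, b, z, ha, hb, hz, hAb, az, nbz⟩ := Ty2_dif (A := setW M P) hG m0 ((hS b₀).2 m0') e0 g1 g2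
    obtain ⟨n, cl, k1, k2, k3⟩ := chn_cls hch ⟨a₀, m0, b₀, (hS b₀).2 m0', e0⟩
    have hn1 : n ≠ 0 := by
      rintro rfl
      refine nbz ((k1 hb hz hAb ⟨a, ha, az.symm⟩).2 ?_)
      unfold fc
      omega
    have hcl := Ty2_cls (f := fc (n + 1)) hlt hS (fun h1 h2 h3 h4 => k1 h1 h2 h3 h4) k2 k3
    rcases (by omega : n = 1 ∨ n = 2 ∨ n = 3 ∨ 4 ≤ n) with e | e | e | e
    · subst e
      obtain ⟨cl', hc⟩ := hcl
      left
      refine ⟨fun v => decide (cl' v = 1), ?_, ?_, ?_⟩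
      · intro a b ha hb Aa Ab
        rw [hc.adj ha hb Aa Ab]
        unfold fP
        generalize cl' a = i
        generalize cl' b = j
        revert i j
        decide
      · intro i
        obtain ⟨a, h1, h2, h3⟩ := hc.wL (if i = true then 1 else 0)
        refine ⟨a, h1, h2, ?_⟩
        rw [h3]
        cases i <;> simp
      · intro i
        obtain ⟨a, h1, h2, h3⟩ := hc.wR (if i = true then 1 else 0)
        refine ⟨a, h1, h2, ?_⟩
        rw [h3]
        cases i <;> simp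
    · subst e
      exact Or.inr (Or.inr (Or.inr (Or.inl hcl)))
    · subst e
      exact Or.inr (Or.inr (Or.inr (Or.inr hcl)))
    · obtain ⟨cl', hc⟩ := hcl
      exact (no5L (by omega) ep hc ((vo_val hp).1 hV)).elim
  · right; left
    classical
    refine Ty2_cls (cl := fun v => decide (B v)) hlt hS ?_ ?_ ?_
    · intro a b ha hb hA hB'
      rw [hB.adj ha hb hA hB']
      unfold fK
      by_cases h1 : B a <;> by_cases h2 : B b <;> simp [h1, h2]
    · intro i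
      cases i
      · obtain ⟨a, h1, h2, h3⟩ := hB.w2
        exact ⟨a, h1, h2, decide_eq_false h3⟩
      · obtain ⟨a, h1, h2, h3⟩ := hB.w1
        exact ⟨a, h1, h2, decide_eq_true h3⟩
    · intro i
      cases i
      · obtain ⟨a, h1, h2, h3⟩ := hB.w4
        exact ⟨a, h1, h2, decide_eq_false h3⟩
      · obtain ⟨a, h1, h2, h3⟩ := hB.w3
        exact ⟨a, h1, h2, decide_eq_true h3⟩
  · right; right; left
    exact Ty2_cls (cl := cl) hlt hS (fun ha hb hA hB' => hcl.adj ha hb hA hB') hcl.w hcl.w'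

end Pool.Agent.SOH
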