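import Pool.Agent.SOK.TyT

/-! Project SOH: refutations for words, chains of rows (generated). -/

set_option autoImplicit false
set_option maxRecDepth 100000
set_option linter.unusedVariables false

namespace Pool.Agent.SOH

open Pool.Agent.SOC Pool.Agent.SOD Pool.Agent.RUP Pool.Agent.SOF Pool.Agent.SOG Pool.Agent.SOK

/-- templates -/
def ha_x : List Tm := [
  ⟨0, [], [], [.b true 2 8 8]⟩,
  ⟨0, [], [], [.b true 2 9 9]⟩,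
  ⟨0, [], [], [.b false 2 10 10]⟩,
  ⟨0, [], [], [.b false 2 11 11]⟩,
  ⟨0, [], [], [.b false 2 12 12]⟩,
  ⟨0, [], [], [.b true 0 8 9]⟩,
  ⟨0, [], [], [.b false 0 8 10]⟩,
  ⟨0, [], [], [.b true 0 8 11]⟩,
  ⟨0, [], [], [.b false 0 8 12]⟩,
  ⟨0, [], [], [.b true 0 9 10]⟩,
  ⟨0, [], [], [.b true 0 9 11]⟩,
  ⟨0, [], [], [.b true 0 9 12]⟩,
  ⟨0, [], [], [.b true 0 10 11]⟩,
  ⟨0, [], [], [.b true 0 10 12]⟩,
  ⟨0, [], [], [.b true 0 11 12]⟩,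
  ⟨0, [], [], [.q true 0 9 11 10 12]⟩]

def ha_p0 : List Nat := [
0x84200900000001d00000001b00000001900000002103bc000501,
0x64800b000000025037f000201,
0x68400b00000002903fb000201,
0x86401100000000600000000400000002700000003303d0000501,
0x62840700000000200000000803d4000301,
0x3700000000a000200]

def ha_pf : List Nat := ha_p0

theorem ha_ref {V : Type} {S : SRel V} {p : Nat → V} (hp : ∀ i j, i < 5 → j < 5 → p i = p j → i = j)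
    (hts : PHs S p 5 ((qO ++ qQ) ++ ha_x)) : False :=
  refuteS (k := 5) (n2 := 3) (n3 := 1) (n4 := 4) (o3 := 45) (o4 := 80) (M := 560) ((qO ++ qQ) ++ ha_x) ha_pf (by decide +kernel)
    (by decide +kernel) (by decide +kernel) (by decide +kernel) hp hts

theorem ha {V : Type} {Y : QSy V} (hq : QC Y.G Y.X Y.T Y.S) {x0 x1 y0 y1 y2 : V}
    (nd : [x0, x1, y0, y1, y2].Nodup) 
    (sx0 : Y.S x0) (sx1 : Y.S x1) (sy0 : ¬ Y.S y0) (sy1 : ¬ Y.S y1)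
    (sy2 : ¬ Y.S y2) (ex0x1 : Y.G.Adj x0 x1) (ex0y0 : ¬ Y.G.Adj x0 y0) (ex0y1 : Y.G.Adj x0 y1)
    (ex0y2 : ¬ Y.G.Adj x0 y2) (ex1y0 : Y.G.Adj x1 y0) (ex1y1 : Y.G.Adj x1 y1) (ex1y2 : Y.G.Adj x1 y2)
    (ey0y1 : Y.G.Adj y0 y1) (ey0y2 : Y.G.Adj y0 y2) (ey1y2 : Y.G.Adj y1 y2)
    (hx : ∀ a b c d : V, [a, b, c, d].Sublist [x0, x1, y0, y1, y2] → Y.X a c b d) : False :=
  ha_ref (S := Y.rel) (pt_inj (o := x0) nd rfl) (PHs.app (UHs.phs ((qO_h hq).app (qQ_h hq)) _ _) (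
  .cons (fun d hd h0 => h0 ⟨rfl, sx0⟩) (
  .cons (fun d hd h0 => h0 ⟨rfl, sx1⟩) (
  .cons (fun d hd h0 => sy0 h0.2) (
  .cons (fun d hd h0 => sy1 h0.2) (
  .cons (fun d hd h0 => sy2 h0.2) (
  .cons (fun d hd h0 => h0 ex0x1) (
  .cons (fun d hd h0 => ex0y0 h0) (
  .cons (fun d hd h0 => h0 ex0y1) (
  .cons (fun d hd h0 => ex0y2 h0) (
  .cons (fun d hd h0 => h0 ex1y0) (
  .cons (fun d hd h0 => h0 ex1y1) (
  .cons (fun d hd h0 => h0 ex1y2) (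
  .cons (fun d hd h0 => h0 ey0y1) (
  .cons (fun d hd h0 => h0 ey0y2) (
  .cons (fun d hd h0 => h0 ey1y2) (
  .cons (fun d hd h0 => h0 (hx x1 y0 y1 y2 (.cons _ (.cons_cons _ (.cons_cons _ (.cons_cons _ (.cons_cons _ .slnil))))))) (
  .nil))))))))))))))))))

/-- templates -/
def hb_x : List Tm := [
  ⟨0, [], [], [.b true 2 8 8]⟩,
  ⟨0, [], [], [.b true 2 9 9]⟩,
  ⟨0, [], [], [.b true 2 10 10]⟩,
  ⟨0, [], [], [.b false 2 11 11]⟩,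
  ⟨0, [], [], [.b false 2 12 12]⟩,
  ⟨0, [], [], [.b true 0 8 9]⟩,
  ⟨0, [], [], [.b true 0 8 10]⟩,
  ⟨0, [], [], [.b false 0 8 11]⟩,
  ⟨0, [], [], [.b false 0 8 12]⟩,
  ⟨0, [], [], [.b true 0 9 10]⟩,
  ⟨0, [], [], [.b true 0 9 11]⟩,
  ⟨0, [], [], [.b false 0 9 12]⟩,
  ⟨0, [], [], [.b true 0 10 11]⟩,
  ⟨0, [], [], [.b true 0 10 12]⟩,
  ⟨0, [], [], [.b true 0 11 12]⟩,
  ⟨0, [], [], [.q true 0 8 11 9 12]⟩,
  ⟨0, [], [], [.q true 0 9 11 10 12]⟩]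

def hb_p0 : List Nat := [
0x46200b0000000270317000201,
0x28600b00000002903a3000201,
0x68420b00000002f03ff000201,
0x2860030000000370378000201,
0x84620700000000800000003900cc000301,
0x86421100000000600000003300000002d000000039017b000501,
0x64201100000000200000002d00000002500000000a00b7000501,
0x804621500000000400000000e00000000c000400]

def hb_pf : List Nat := hb_p0

theorem hb_ref {V : Type} {S : SRel V} {p : Nat → V} (hp : ∀ i j, i < 5 → j < 5 → p i = p j → i = j)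
    (hts : PHs S p 5 ((qO ++ qQ) ++ hb_x)) : False :=
  refuteS (k := 5) (n2 := 3) (n3 := 1) (n4 := 4) (o3 := 45) (o4 := 80) (M := 560) ((qO ++ qQ) ++ hb_x) hb_pf (by decide +kernel)
    (by decide +kernel) (by decide +kernel) (by decide +kernel) hp hts

theorem hb {V : Type} {Y : QSy V} (hq : QC Y.G Y.X Y.T Y.S) {x0 x1 x2 y0 y1 : V}
    (nd : [x0, x1, x2, y0, y1].Nodup) 
    (sx0 : Y.S x0) (sx1 : Y.S x1) (sx2 : Y.S x2) (sy0 : ¬ Y.S y0)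
    (sy1 : ¬ Y.S y1) (ex0x1 : Y.G.Adj x0 x1) (ex0x2 : Y.G.Adj x0 x2) (ex0y0 : ¬ Y.G.Adj x0 y0)
    (ex0y1 : ¬ Y.G.Adj x0 y1) (ex1x2 : Y.G.Adj x1 x2) (ex1y0 : Y.G.Adj x1 y0) (ex1y1 : ¬ Y.G.Adj x1 y1)
    (ex2y0 : Y.G.Adj x2 y0) (ex2y1 : Y.G.Adj x2 y1) (ey0y1 : Y.G.Adj y0 y1)
    (hx : ∀ a b c d : V, [a, b, c, d].Sublist [x0, x1, x2, y0, y1] → Y.X a c b d) : False :=
  hb_ref (S := Y.rel) (pt_inj (o := x0) nd rfl) (PHs.app (UHs.phs ((qO_h hq).app (qQ_h hq)) _ _) (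
  .cons (fun d hd h0 => h0 ⟨rfl, sx0⟩) (
  .cons (fun d hd h0 => h0 ⟨rfl, sx1⟩) (
  .cons (fun d hd h0 => h0 ⟨rfl, sx2⟩) (
  .cons (fun d hd h0 => sy0 h0.2) (
  .cons (fun d hd h0 => sy1 h0.2) (
  .cons (fun d hd h0 => h0 ex0x1) (
  .cons (fun d hd h0 => h0 ex0x2) (
  .cons (fun d hd h0 => ex0y0 h0) (
  .cons (fun d hd h0 => ex0y1 h0) (
  .cons (fun d hd h0 => h0 ex1x2) (
  .cons (fun d hd h0 => h0 ex1y0) (
  .cons (fun d hd h0 => ex1y1 h0) (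
  .cons (fun d hd h0 => h0 ex2y0) (
  .cons (fun d hd h0 => h0 ex2y1) (
  .cons (fun d hd h0 => h0 ey0y1) (
  .cons (fun d hd h0 => h0 (hx x0 x1 y0 y1 (.cons_cons _ (.cons_cons _ (.cons _ (.cons_cons _ (.cons_cons _ .slnil))))))) (
  .cons (fun d hd h0 => h0 (hx x1 x2 y0 y1 (.cons _ (.cons_cons _ (.cons_cons _ (.cons_cons _ (.cons_cons _ .slnil))))))) (
  .nil)))))))))))))))))))

/-- templates -/
def hc_x : List Tm := [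
  ⟨0, [], [], [.b true 2 8 8]⟩,
  ⟨0, [], [], [.b true 2 9 9]⟩,
  ⟨0, [], [], [.b false 2 10 10]⟩,
  ⟨0, [], [], [.b false 2 11 11]⟩,
  ⟨0, [], [], [.b false 2 12 12]⟩,
  ⟨0, [], [], [.b true 0 8 9]⟩,
  ⟨0, [], [], [.b false 0 8 10]⟩,
  ⟨0, [], [], [.b true 0 8 11]⟩,
  ⟨0, [], [], [.b false 0 8 12]⟩,
  ⟨0, [], [], [.b true 0 9 10]⟩,
  ⟨0, [], [], [.b true 0 9 11]⟩,
  ⟨0, [], [], [.b false 0 9 12]⟩,
  ⟨0, [], [], [.b true 0 10 11]⟩,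
  ⟨0, [], [], [.b true 0 10 12]⟩,
  ⟨0, [], [], [.b true 0 11 12]⟩,
  ⟨0, [], [], [.q true 0 9 11 10 12]⟩]

def hc_p0 : List Nat := [
0x84200900000001d00000001b00000001900000002103bc000501,
0x64800b000000025037f000201,
0x68400b00000002903fb000201,
0x86401100000000600000000400000002700000003303d0000501,
0x62840700000000200000000803d4000301,
0x3700000000a000200]

def hc_pf : List Nat := hc_p0

theorem hc_ref {V : Type} {S : SRel V} {p : Nat → V} (hp : ∀ i j, i < 5 → j < 5 → p i = p j → i = j)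
    (hts : PHs S p 5 ((qO ++ qQ) ++ hc_x)) : False :=
  refuteS (k := 5) (n2 := 3) (n3 := 1) (n4 := 4) (o3 := 45) (o4 := 80) (M := 560) ((qO ++ qQ) ++ hc_x) hc_pf (by decide +kernel)
    (by decide +kernel) (by decide +kernel) (by decide +kernel) hp hts

theorem hc {V : Type} {Y : QSy V} (hq : QC Y.G Y.X Y.T Y.S) {x0 x1 y0 y1 y2 : V}
    (nd : [x0, x1, y0, y1, y2].Nodup) 
    (sx0 : Y.S x0) (sx1 : Y.S x1) (sy0 : ¬ Y.S y0) (sy1 : ¬ Y.S y1)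
    (sy2 : ¬ Y.S y2) (ex0x1 : Y.G.Adj x0 x1) (ex0y0 : ¬ Y.G.Adj x0 y0) (ex0y1 : Y.G.Adj x0 y1)
    (ex0y2 : ¬ Y.G.Adj x0 y2) (ex1y0 : Y.G.Adj x1 y0) (ex1y1 : Y.G.Adj x1 y1) (ex1y2 : ¬ Y.G.Adj x1 y2)
    (ey0y1 : Y.G.Adj y0 y1) (ey0y2 : Y.G.Adj y0 y2) (ey1y2 : Y.G.Adj y1 y2)
    (hx : ∀ a b c d : V, [a, b, c, d].Sublist [x0, x1, y0, y1, y2] → Y.X a c b d) : False :=
  hc_ref (S := Y.rel) (pt_inj (o := x0) nd rfl) (PHs.app (UHs.phs ((qO_h hq).app (qQ_h hq)) _ _) (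
  .cons (fun d hd h0 => h0 ⟨rfl, sx0⟩) (
  .cons (fun d hd h0 => h0 ⟨rfl, sx1⟩) (
  .cons (fun d hd h0 => sy0 h0.2) (
  .cons (fun d hd h0 => sy1 h0.2) (
  .cons (fun d hd h0 => sy2 h0.2) (
  .cons (fun d hd h0 => h0 ex0x1) (
  .cons (fun d hd h0 => ex0y0 h0) (
  .cons (fun d hd h0 => h0 ex0y1) (
  .cons (fun d hd h0 => ex0y2 h0) (
  .cons (fun d hd h0 => h0 ex1y0) (
  .cons (fun d hd h0 => h0 ex1y1) (
  .cons (fun d hd h0 => ex1y2 h0) (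
  .cons (fun d hd h0 => h0 ey0y1) (
  .cons (fun d hd h0 => h0 ey0y2) (
  .cons (fun d hd h0 => h0 ey1y2) (
  .cons (fun d hd h0 => h0 (hx x1 y0 y1 y2 (.cons _ (.cons_cons _ (.cons_cons _ (.cons_cons _ (.cons_cons _ .slnil))))))) (
  .nil))))))))))))))))))

/-- templates -/
def hd_x : List Tm := [
  ⟨0, [], [], [.b true 2 8 8]⟩,
  ⟨0, [], [], [.b true 2 9 9]⟩,
  ⟨0, [], [], [.b true 2 10 10]⟩,
  ⟨0, [], [], [.b false 2 11 11]⟩,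
  ⟨0, [], [], [.b false 2 12 12]⟩,
  ⟨0, [], [], [.b true 0 8 9]⟩,
  ⟨0, [], [], [.b true 0 8 10]⟩,
  ⟨0, [], [], [.b false 0 8 11]⟩,
  ⟨0, [], [], [.b false 0 8 12]⟩,
  ⟨0, [], [], [.b true 0 9 10]⟩,
  ⟨0, [], [], [.b true 0 9 11]⟩,
  ⟨0, [], [], [.b true 0 9 12]⟩,
  ⟨0, [], [], [.b false 0 10 11]⟩,
  ⟨0, [], [], [.b true 0 10 12]⟩,
  ⟨0, [], [], [.b true 0 11 12]⟩,
  ⟨0, [], [], [.q true 0 8 11 9 12]⟩,
  ⟨0, [], [], [.q true 0 9 11 10 12]⟩]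

def hd_p0 : List Nat := [
0x46200b0000000270317000201,
0x6240b00000003102e7000201,
0x64201100000000200000002d00000002500000000402fc000501,
0x2860030000000370378000201,
0x84620700000000600000000803d4000301,
0x3900000000a000200]

def hd_pf : List Nat := hd_p0

theorem hd_ref {V : Type} {S : SRel V} {p : Nat → V} (hp : ∀ i j, i < 5 → j < 5 → p i = p j → i = j)
    (hts : PHs S p 5 ((qO ++ qQ) ++ hd_x)) : False :=
  refuteS (k := 5) (n2 := 3) (n3 := 1) (n4 := 4) (o3 := 45) (o4 := 80) (M := 560) ((qO ++ qQ) ++ hd_x) hd_pf (by decide +kernel)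
    (by decide +kernel) (by decide +kernel) (by decide +kernel) hp hts

theorem hd {V : Type} {Y : QSy V} (hq : QC Y.G Y.X Y.T Y.S) {x0 x1 x2 y0 y1 : V}
    (nd : [x0, x1, x2, y0, y1].Nodup) 
    (sx0 : Y.S x0) (sx1 : Y.S x1) (sx2 : Y.S x2) (sy0 : ¬ Y.S y0)
    (sy1 : ¬ Y.S y1) (ex0x1 : Y.G.Adj x0 x1) (ex0x2 : Y.G.Adj x0 x2) (ex0y0 : ¬ Y.G.Adj x0 y0)
    (ex0y1 : ¬ Y.G.Adj x0 y1) (ex1x2 : Y.G.Adj x1 x2) (ex1y0 : Y.G.Adj x1 y0) (ex1y1 : Y.G.Adj x1 y1)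
    (ex2y0 : ¬ Y.G.Adj x2 y0) (ex2y1 : Y.G.Adj x2 y1) (ey0y1 : Y.G.Adj y0 y1)
    (hx : ∀ a b c d : V, [a, b, c, d].Sublist [x0, x1, x2, y0, y1] → Y.X a c b d) : False :=
  hd_ref (S := Y.rel) (pt_inj (o := x0) nd rfl) (PHs.app (UHs.phs ((qO_h hq).app (qQ_h hq)) _ _) (
  .cons (fun d hd h0 => h0 ⟨rfl, sx0⟩) (
  .cons (fun d hd h0 => h0 ⟨rfl, sx1⟩) (
  .cons (fun d hd h0 => h0 ⟨rfl, sx2⟩) (
  .cons (fun d hd h0 => sy0 h0.2) (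
  .cons (fun d hd h0 => sy1 h0.2) (
  .cons (fun d hd h0 => h0 ex0x1) (
  .cons (fun d hd h0 => h0 ex0x2) (
  .cons (fun d hd h0 => ex0y0 h0) (
  .cons (fun d hd h0 => ex0y1 h0) (
  .cons (fun d hd h0 => h0 ex1x2) (
  .cons (fun d hd h0 => h0 ex1y0) (
  .cons (fun d hd h0 => h0 ex1y1) (
  .cons (fun d hd h0 => ex2y0 h0) (
  .cons (fun d hd h0 => h0 ex2y1) (
  .cons (fun d hd h0 => h0 ey0y1) (
  .cons (fun d hd h0 => h0 (hx x0 x1 y0 y1 (.cons_cons _ (.cons_cons _ (.cons _ (.cons_cons _ (.cons_cons _ .slnil))))))) (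
  .cons (fun d hd h0 => h0 (hx x1 x2 y0 y1 (.cons _ (.cons_cons _ (.cons_cons _ (.cons_cons _ (.cons_cons _ .slnil))))))) (
  .nil)))))))))))))))))))

/-- templates -/
def he_x : List Tm := [
  ⟨0, [], [], [.b true 2 8 8]⟩,
  ⟨0, [], [], [.b false 2 9 9]⟩,
  ⟨0, [], [], [.b false 2 10 10]⟩,
  ⟨0, [], [], [.b false 2 11 11]⟩,
  ⟨0, [], [], [.b false 2 12 12]⟩,
  ⟨0, [], [], [.b false 2 13 13]⟩,
  ⟨0, [], [], [.b true 0 8 9]⟩,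
  ⟨0, [], [], [.b false 0 8 10]⟩,
  ⟨0, [], [], [.b true 0 8 11]⟩,
  ⟨0, [], [], [.b false 0 8 12]⟩,
  ⟨0, [], [], [.b true 0 8 13]⟩,
  ⟨0, [], [], [.b true 0 9 10]⟩,
  ⟨0, [], [], [.b true 0 9 11]⟩,
  ⟨0, [], [], [.b true 0 9 12]⟩,
  ⟨0, [], [], [.b true 0 9 13]⟩,
  ⟨0, [], [], [.b true 0 10 11]⟩,
  ⟨0, [], [], [.b false 0 10 12]⟩,
  ⟨0, [], [], [.b true 0 10 13]⟩,
  ⟨0, [], [], [.b true 0 11 12]⟩,
  ⟨0, [], [], [.b true 0 11 13]⟩,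
  ⟨0, [], [], [.b true 0 12 13]⟩,
  ⟨0, [], [], [.q true 0 8 12 9 13]⟩,
  ⟨0, [], [], [.q true 0 9 12 10 13]⟩,
  ⟨0, [], [], [.q true 0 10 12 11 13]⟩]

def he_p0 : List Nat := [
0x64a00b000000027068d000201,
0xa8240b0000000390795000201,
0x2a80030000000430696000201,
0xa2800d00000004306d5000201,
0xa48207000000006000000045018b000301,
0xa8421100000000400000003b00000003300000004502ca000501,
0x28400300000000a0576000201,
0x840a21300000000800000000c06b9000301,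
0x4a2800700000004300000000e0303000301,
0x6a84030000000470722000201,
0xa6840d0000000470769000201,
0x680a40700000001200000001402f3000301,
0x2860a41700000000c0000000100000000160745000401,
0xa6401100000003b00000000200000002900000001a000000018000600]

def he_pf : List Nat := he_p0

theorem he_ref {V : Type} {S : SRel V} {p : Nat → V} (hp : ∀ i j, i < 6 → j < 6 → p i = p j → i = j)
    (hts : PHs S p 6 ((qO ++ qQ) ++ he_x)) : False :=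
  refuteS (k := 6) (n2 := 3) (n3 := 1) (n4 := 4) (o3 := 63) (o4 := 119) (M := 1043) ((qO ++ qQ) ++ he_x) he_pf (by decide +kernel)
    (by decide +kernel) (by decide +kernel) (by decide +kernel) hp hts

theorem he {V : Type} {Y : QSy V} (hq : QC Y.G Y.X Y.T Y.S) {x0 y0 y1 y2 y3 y4 : V}
    (nd : [x0, y0, y1, y2, y3, y4].Nodup) 
    (sx0 : Y.S x0) (sy0 : ¬ Y.S y0) (sy1 : ¬ Y.S y1) (sy2 : ¬ Y.S y2)
    (sy3 : ¬ Y.S y3) (sy4 : ¬ Y.S y4) (ex0y0 : Y.G.Adj x0 y0) (ex0y1 : ¬ Y.G.Adj x0 y1)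
    (ex0y2 : Y.G.Adj x0 y2) (ex0y3 : ¬ Y.G.Adj x0 y3) (ex0y4 : Y.G.Adj x0 y4) (ey0y1 : Y.G.Adj y0 y1)
    (ey0y2 : Y.G.Adj y0 y2) (ey0y3 : Y.G.Adj y0 y3) (ey0y4 : Y.G.Adj y0 y4) (ey1y2 : Y.G.Adj y1 y2)
    (ey1y3 : ¬ Y.G.Adj y1 y3) (ey1y4 : Y.G.Adj y1 y4) (ey2y3 : Y.G.Adj y2 y3) (ey2y4 : Y.G.Adj y2 y4)
    (ey3y4 : Y.G.Adj y3 y4)
    (hx : ∀ a b c d : V, [a, b, c, d].Sublist [x0, y0, y1, y2, y3, y4] → Y.X a c b d) : False :=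
  he_ref (S := Y.rel) (pt_inj (o := x0) nd rfl) (PHs.app (UHs.phs ((qO_h hq).app (qQ_h hq)) _ _) (
  .cons (fun d hd h0 => h0 ⟨rfl, sx0⟩) (
  .cons (fun d hd h0 => sy0 h0.2) (
  .cons (fun d hd h0 => sy1 h0.2) (
  .cons (fun d hd h0 => sy2 h0.2) (
  .cons (fun d hd h0 => sy3 h0.2) (
  .cons (fun d hd h0 => sy4 h0.2) (
  .cons (fun d hd h0 => h0 ex0y0) (
  .cons (fun d hd h0 => ex0y1 h0) (
  .cons (fun d hd h0 => h0 ex0y2) (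
  .cons (fun d hd h0 => ex0y3 h0) (
  .cons (fun d hd h0 => h0 ex0y4) (
  .cons (fun d hd h0 => h0 ey0y1) (
  .cons (fun d hd h0 => h0 ey0y2) (
  .cons (fun d hd h0 => h0 ey0y3) (
  .cons (fun d hd h0 => h0 ey0y4) (
  .cons (fun d hd h0 => h0 ey1y2) (
  .cons (fun d hd h0 => ey1y3 h0) (
  .cons (fun d hd h0 => h0 ey1y4) (
  .cons (fun d hd h0 => h0 ey2y3) (
  .cons (fun d hd h0 => h0 ey2y4) (
  .cons (fun d hd h0 => h0 ey3y4) (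
  .cons (fun d hd h0 => h0 (hx x0 y0 y3 y4 (.cons_cons _ (.cons_cons _ (.cons _ (.cons _ (.cons_cons _ (.cons_cons _ .slnil)))))))) (
  .cons (fun d hd h0 => h0 (hx y0 y1 y3 y4 (.cons _ (.cons_cons _ (.cons_cons _ (.cons _ (.cons_cons _ (.cons_cons _ .slnil)))))))) (
  .cons (fun d hd h0 => h0 (hx y1 y2 y3 y4 (.cons _ (.cons _ (.cons_cons _ (.cons_cons _ (.cons_cons _ (.cons_cons _ .slnil)))))))) (
  .nil))))))))))))))))))))))))))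

/-- templates -/
def j0_x : List Tm := [
  ⟨0, [], [], [.b true 2 8 8]⟩,
  ⟨0, [], [], [.b true 2 9 9]⟩,
  ⟨0, [], [], [.b true 2 10 10]⟩,
  ⟨0, [], [], [.b false 2 11 11]⟩,
  ⟨0, [], [], [.b false 2 12 12]⟩,
  ⟨0, [], [], [.b false 2 13 13]⟩,
  ⟨0, [], [], [.b true 0 8 9]⟩,
  ⟨0, [], [], [.b true 0 8 10]⟩,
  ⟨0, [], [], [.b false 0 8 11]⟩,
  ⟨0, [], [], [.b false 0 8 12]⟩,
  ⟨0, [], [], [.b false 0 8 13]⟩,
  ⟨0, [], [], [.b true 0 9 10]⟩,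
  ⟨0, [], [], [.b false 0 9 11]⟩,
  ⟨0, [], [], [.b false 0 9 12]⟩,
  ⟨0, [], [], [.b true 0 9 13]⟩,
  ⟨0, [], [], [.b false 0 10 11]⟩,
  ⟨0, [], [], [.b true 0 10 12]⟩,
  ⟨0, [], [], [.b true 0 10 13]⟩,
  ⟨0, [], [], [.b true 0 11 12]⟩,
  ⟨0, [], [], [.b true 0 11 13]⟩,
  ⟨0, [], [], [.b true 0 12 13]⟩,
  ⟨0, [], [], [.q true 0 8 12 9 13]⟩,
  ⟨0, [], [], [.q true 0 10 12 11 13]⟩]

def j0_p0 : List Nat := [
0x46a00b000000029068d000201,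
0x4a200b00000002d06f5000201,
0x46820b00000003105b5000201,
0xa8420b0000000330795000201,
0x86a40b0000000370725000201,
0xa8641100000003f00000000a0000000390000000450392000501,
0x62a841500000000600000000c071d000301,
0x8602a41700000000800000000200000000c067d000401,
0x8a421100000000800000003900000003500000000e06da000501,
0xa4201100000000400000003500000002700000001006b6000501,
0x480a207000000043000000012000000014000400]

def j0_pf : List Nat := j0_p0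

theorem j0_ref {V : Type} {S : SRel V} {p : Nat → V} (hp : ∀ i j, i < 6 → j < 6 → p i = p j → i = j)
    (hts : PHs S p 6 ((qO ++ qQ) ++ j0_x)) : False :=
  refuteS (k := 6) (n2 := 3) (n3 := 1) (n4 := 4) (o3 := 63) (o4 := 119) (M := 1043) ((qO ++ qQ) ++ j0_x) j0_pf (by decide +kernel)
    (by decide +kernel) (by decide +kernel) (by decide +kernel) hp hts

theorem j0 {V : Type} {Y : QSy V} (hq : QC Y.G Y.X Y.T Y.S) {x0 x1 x2 y0 y1 y2 : V}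
    (nd : [x0, x1, x2, y0, y1, y2].Nodup) 
    (sx0 : Y.S x0) (sx1 : Y.S x1) (sx2 : Y.S x2) (sy0 : ¬ Y.S y0)
    (sy1 : ¬ Y.S y1) (sy2 : ¬ Y.S y2) (ex0x1 : Y.G.Adj x0 x1) (ex0x2 : Y.G.Adj x0 x2)
    (ex0y0 : ¬ Y.G.Adj x0 y0) (ex0y1 : ¬ Y.G.Adj x0 y1) (ex0y2 : ¬ Y.G.Adj x0 y2) (ex1x2 : Y.G.Adj x1 x2)
    (ex1y0 : ¬ Y.G.Adj x1 y0) (ex1y1 : ¬ Y.G.Adj x1 y1) (ex1y2 : Y.G.Adj x1 y2) (ex2y0 : ¬ Y.G.Adj x2 y0)
    (ex2y1 : Y.G.Adj x2 y1) (ex2y2 : Y.G.Adj x2 y2) (ey0y1 : Y.G.Adj y0 y1) (ey0y2 : Y.G.Adj y0 y2)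
    (ey1y2 : Y.G.Adj y1 y2)
    (hx : ∀ a b c d : V, [a, b, c, d].Sublist [x0, x1, x2, y0, y1, y2] → Y.X a c b d) : False :=
  j0_ref (S := Y.rel) (pt_inj (o := x0) nd rfl) (PHs.app (UHs.phs ((qO_h hq).app (qQ_h hq)) _ _) (
  .cons (fun d hd h0 => h0 ⟨rfl, sx0⟩) (
  .cons (fun d hd h0 => h0 ⟨rfl, sx1⟩) (
  .cons (fun d hd h0 => h0 ⟨rfl, sx2⟩) (
  .cons (fun d hd h0 => sy0 h0.2) (
  .cons (fun d hd h0 => sy1 h0.2) (
  .cons (fun d hd h0 => sy2 h0.2) (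
  .cons (fun d hd h0 => h0 ex0x1) (
  .cons (fun d hd h0 => h0 ex0x2) (
  .cons (fun d hd h0 => ex0y0 h0) (
  .cons (fun d hd h0 => ex0y1 h0) (
  .cons (fun d hd h0 => ex0y2 h0) (
  .cons (fun d hd h0 => h0 ex1x2) (
  .cons (fun d hd h0 => ex1y0 h0) (
  .cons (fun d hd h0 => ex1y1 h0) (
  .cons (fun d hd h0 => h0 ex1y2) (
  .cons (fun d hd h0 => ex2y0 h0) (
  .cons (fun d hd h0 => h0 ex2y1) (
  .cons (fun d hd h0 => h0 ex2y2) (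
  .cons (fun d hd h0 => h0 ey0y1) (
  .cons (fun d hd h0 => h0 ey0y2) (
  .cons (fun d hd h0 => h0 ey1y2) (
  .cons (fun d hd h0 => h0 (hx x0 x1 y1 y2 (.cons_cons _ (.cons_cons _ (.cons _ (.cons _ (.cons_cons _ (.cons_cons _ .slnil)))))))) (
  .cons (fun d hd h0 => h0 (hx x2 y0 y1 y2 (.cons _ (.cons _ (.cons_cons _ (.cons_cons _ (.cons_cons _ (.cons_cons _ .slnil)))))))) (
  .nil)))))))))))))))))))))))))

/-- templates -/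
def j1_x : List Tm := [
  ⟨0, [], [], [.b true 2 8 8]⟩,
  ⟨0, [], [], [.b false 2 9 9]⟩,
  ⟨0, [], [], [.b false 2 10 10]⟩,
  ⟨0, [], [], [.b false 2 11 11]⟩,
  ⟨0, [], [], [.b false 2 12 12]⟩,
  ⟨0, [], [], [.b false 0 8 9]⟩,
  ⟨0, [], [], [.b true 0 8 10]⟩,
  ⟨0, [], [], [.b false 0 8 11]⟩,
  ⟨0, [], [], [.b true 0 8 12]⟩,
  ⟨0, [], [], [.b true 0 9 10]⟩,
  ⟨0, [], [], [.b true 0 9 11]⟩,
  ⟨0, [], [], [.b true 0 9 12]⟩,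
  ⟨0, [], [], [.b true 0 10 11]⟩,
  ⟨0, [], [], [.b true 0 10 12]⟩,
  ⟨0, [], [], [.b true 0 11 12]⟩,
  ⟨0, [], [], [.q true 0 9 11 10 12]⟩]

def j1_p0 : List Nat := [
0x42600b00000002302e7000201,
0x82600b00000002303a3000201,
0x46200b0000000270317000201,
0x86200b00000002703f3000201,
0x64201100000000600000000200000002500000002d02fc000501,
0x68201100000000800000000400000002900000002d0378000501,
0x84620700000000c00000000a03d4000301,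
0x3700000000e000200]

def j1_pf : List Nat := j1_p0

theorem j1_ref {V : Type} {S : SRel V} {p : Nat → V} (hp : ∀ i j, i < 5 → j < 5 → p i = p j → i = j)
    (hts : PHs S p 5 ((qO ++ qQ) ++ j1_x)) : False :=
  refuteS (k := 5) (n2 := 3) (n3 := 1) (n4 := 4) (o3 := 45) (o4 := 80) (M := 560) ((qO ++ qQ) ++ j1_x) j1_pf (by decide +kernel)
    (by decide +kernel) (by decide +kernel) (by decide +kernel) hp hts

theorem j1 {V : Type} {Y : QSy V} (hq : QC Y.G Y.X Y.T Y.S) {x0 y0 y1 y2 y3 : V}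
    (nd : [x0, y0, y1, y2, y3].Nodup) 
    (sx0 : Y.S x0) (sy0 : ¬ Y.S y0) (sy1 : ¬ Y.S y1) (sy2 : ¬ Y.S y2)
    (sy3 : ¬ Y.S y3) (ex0y0 : ¬ Y.G.Adj x0 y0) (ex0y1 : Y.G.Adj x0 y1) (ex0y2 : ¬ Y.G.Adj x0 y2)
    (ex0y3 : Y.G.Adj x0 y3) (ey0y1 : Y.G.Adj y0 y1) (ey0y2 : Y.G.Adj y0 y2) (ey0y3 : Y.G.Adj y0 y3)
    (ey1y2 : Y.G.Adj y1 y2) (ey1y3 : Y.G.Adj y1 y3) (ey2y3 : Y.G.Adj y2 y3)
    (hx : ∀ a b c d : V, [a, b, c, d].Sublist [x0, y0, y1, y2, y3] → Y.X a c b d) : False :=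
  j1_ref (S := Y.rel) (pt_inj (o := x0) nd rfl) (PHs.app (UHs.phs ((qO_h hq).app (qQ_h hq)) _ _) (
  .cons (fun d hd h0 => h0 ⟨rfl, sx0⟩) (
  .cons (fun d hd h0 => sy0 h0.2) (
  .cons (fun d hd h0 => sy1 h0.2) (
  .cons (fun d hd h0 => sy2 h0.2) (
  .cons (fun d hd h0 => sy3 h0.2) (
  .cons (fun d hd h0 => ex0y0 h0) (
  .cons (fun d hd h0 => h0 ex0y1) (
  .cons (fun d hd h0 => ex0y2 h0) (
  .cons (fun d hd h0 => h0 ex0y3) (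
  .cons (fun d hd h0 => h0 ey0y1) (
  .cons (fun d hd h0 => h0 ey0y2) (
  .cons (fun d hd h0 => h0 ey0y3) (
  .cons (fun d hd h0 => h0 ey1y2) (
  .cons (fun d hd h0 => h0 ey1y3) (
  .cons (fun d hd h0 => h0 ey2y3) (
  .cons (fun d hd h0 => h0 (hx y0 y1 y2 y3 (.cons _ (.cons_cons _ (.cons_cons _ (.cons_cons _ (.cons_cons _ .slnil))))))) (
  .nil))))))))))))))))))

/-- templates -/
def j2_x : List Tm := [
  ⟨0, [], [], [.b true 2 8 8]⟩,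
  ⟨0, [], [], [.b false 2 9 9]⟩,
  ⟨0, [], [], [.b false 2 10 10]⟩,
  ⟨0, [], [], [.b false 2 11 11]⟩,
  ⟨0, [], [], [.b false 2 12 12]⟩,
  ⟨0, [], [], [.b false 0 8 9]⟩,
  ⟨0, [], [], [.b true 0 8 10]⟩,
  ⟨0, [], [], [.b true 0 8 11]⟩,
  ⟨0, [], [], [.b false 0 8 12]⟩,
  ⟨0, [], [], [.b true 0 9 10]⟩,
  ⟨0, [], [], [.b true 0 9 11]⟩,
  ⟨0, [], [], [.b true 0 9 12]⟩,
  ⟨0, [], [], [.b true 0 10 11]⟩,
  ⟨0, [], [], [.b true 0 10 12]⟩,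
  ⟨0, [], [], [.b true 0 11 12]⟩,
  ⟨0, [], [], [.q true 0 8 11 9 12]⟩]

def j2_p0 : List Nat := [
0x62800b000000023037b000201,
0x68200b00000002903f3000201,
0x86201100000000400000000200000002700000002f03a0000501,
0x37000000006000200]

def j2_pf : List Nat := j2_p0

theorem j2_ref {V : Type} {S : SRel V} {p : Nat → V} (hp : ∀ i j, i < 5 → j < 5 → p i = p j → i = j)
    (hts : PHs S p 5 ((qO ++ qQ) ++ j2_x)) : False :=
  refuteS (k := 5) (n2 := 3) (n3 := 1) (n4 := 4) (o3 := 45) (o4 := 80) (M := 560) ((qO ++ qQ) ++ j2_x) j2_pf (by decide +kernel)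
    (by decide +kernel) (by decide +kernel) (by decide +kernel) hp hts

theorem j2 {V : Type} {Y : QSy V} (hq : QC Y.G Y.X Y.T Y.S) {x0 y0 y1 y2 y3 : V}
    (nd : [x0, y0, y1, y2, y3].Nodup) 
    (sx0 : Y.S x0) (sy0 : ¬ Y.S y0) (sy1 : ¬ Y.S y1) (sy2 : ¬ Y.S y2)
    (sy3 : ¬ Y.S y3) (ex0y0 : ¬ Y.G.Adj x0 y0) (ex0y1 : Y.G.Adj x0 y1) (ex0y2 : Y.G.Adj x0 y2)
    (ex0y3 : ¬ Y.G.Adj x0 y3) (ey0y1 : Y.G.Adj y0 y1) (ey0y2 : Y.G.Adj y0 y2) (ey0y3 : Y.G.Adj y0 y3)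
    (ey1y2 : Y.G.Adj y1 y2) (ey1y3 : Y.G.Adj y1 y3) (ey2y3 : Y.G.Adj y2 y3)
    (hx : ∀ a b c d : V, [a, b, c, d].Sublist [x0, y0, y1, y2, y3] → Y.X a c b d) : False :=
  j2_ref (S := Y.rel) (pt_inj (o := x0) nd rfl) (PHs.app (UHs.phs ((qO_h hq).app (qQ_h hq)) _ _) (
  .cons (fun d hd h0 => h0 ⟨rfl, sx0⟩) (
  .cons (fun d hd h0 => sy0 h0.2) (
  .cons (fun d hd h0 => sy1 h0.2) (
  .cons (fun d hd h0 => sy2 h0.2) (
  .cons (fun d hd h0 => sy3 h0.2) (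
  .cons (fun d hd h0 => ex0y0 h0) (
  .cons (fun d hd h0 => h0 ex0y1) (
  .cons (fun d hd h0 => h0 ex0y2) (
  .cons (fun d hd h0 => ex0y3 h0) (
  .cons (fun d hd h0 => h0 ey0y1) (
  .cons (fun d hd h0 => h0 ey0y2) (
  .cons (fun d hd h0 => h0 ey0y3) (
  .cons (fun d hd h0 => h0 ey1y2) (
  .cons (fun d hd h0 => h0 ey1y3) (
  .cons (fun d hd h0 => h0 ey2y3) (
  .cons (fun d hd h0 => h0 (hx x0 y0 y2 y3 (.cons_cons _ (.cons_cons _ (.cons _ (.cons_cons _ (.cons_cons _ .slnil))))))) (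
  .nil))))))))))))))))))

/-- templates -/
def j3_x : List Tm := [
  ⟨0, [], [], [.b true 2 8 8]⟩,
  ⟨0, [], [], [.b false 2 9 9]⟩,
  ⟨0, [], [], [.b false 2 10 10]⟩,
  ⟨0, [], [], [.b false 2 11 11]⟩,
  ⟨0, [], [], [.b false 2 12 12]⟩,
  ⟨0, [], [], [.b false 0 8 9]⟩,
  ⟨0, [], [], [.b true 0 8 10]⟩,
  ⟨0, [], [], [.b true 0 8 11]⟩,
  ⟨0, [], [], [.b false 0 8 12]⟩,
  ⟨0, [], [], [.b true 0 9 10]⟩,
  ⟨0, [], [], [.b true 0 9 11]⟩,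
  ⟨0, [], [], [.b true 0 9 12]⟩,
  ⟨0, [], [], [.b true 0 10 11]⟩,
  ⟨0, [], [], [.b true 0 10 12]⟩,
  ⟨0, [], [], [.b true 0 11 12]⟩,
  ⟨0, [], [], [.q true 0 8 11 9 12]⟩]

def j3_p0 : List Nat := [
0x62800b000000023037b000201,
0x68200b00000002903f3000201,
0x86201100000000400000000200000002700000002f03a0000501,
0x37000000006000200]

def j3_pf : List Nat := j3_p0

theorem j3_ref {V : Type} {S : SRel V} {p : Nat → V} (hp : ∀ i j, i < 5 → j < 5 → p i = p j → i = j)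
    (hts : PHs S p 5 ((qO ++ qQ) ++ j3_x)) : False :=
  refuteS (k := 5) (n2 := 3) (n3 := 1) (n4 := 4) (o3 := 45) (o4 := 80) (M := 560) ((qO ++ qQ) ++ j3_x) j3_pf (by decide +kernel)
    (by decide +kernel) (by decide +kernel) (by decide +kernel) hp hts

theorem j3 {V : Type} {Y : QSy V} (hq : QC Y.G Y.X Y.T Y.S) {x0 y0 y1 y2 y3 : V}
    (nd : [x0, y0, y1, y2, y3].Nodup) 
    (sx0 : Y.S x0) (sy0 : ¬ Y.S y0) (sy1 : ¬ Y.S y1) (sy2 : ¬ Y.S y2)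
    (sy3 : ¬ Y.S y3) (ex0y0 : ¬ Y.G.Adj x0 y0) (ex0y1 : Y.G.Adj x0 y1) (ex0y2 : Y.G.Adj x0 y2)
    (ex0y3 : ¬ Y.G.Adj x0 y3) (ey0y1 : Y.G.Adj y0 y1) (ey0y2 : Y.G.Adj y0 y2) (ey0y3 : Y.G.Adj y0 y3)
    (ey1y2 : Y.G.Adj y1 y2) (ey1y3 : Y.G.Adj y1 y3) (ey2y3 : Y.G.Adj y2 y3)
    (hx : ∀ a b c d : V, [a, b, c, d].Sublist [x0, y0, y1, y2, y3] → Y.X a c b d) : False :=
  j3_ref (S := Y.rel) (pt_inj (o := x0) nd rfl) (PHs.app (UHs.phs ((qO_h hq).app (qQ_h hq)) _ _) (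
  .cons (fun d hd h0 => h0 ⟨rfl, sx0⟩) (
  .cons (fun d hd h0 => sy0 h0.2) (
  .cons (fun d hd h0 => sy1 h0.2) (
  .cons (fun d hd h0 => sy2 h0.2) (
  .cons (fun d hd h0 => sy3 h0.2) (
  .cons (fun d hd h0 => ex0y0 h0) (
  .cons (fun d hd h0 => h0 ex0y1) (
  .cons (fun d hd h0 => h0 ex0y2) (
  .cons (fun d hd h0 => ex0y3 h0) (
  .cons (fun d hd h0 => h0 ey0y1) (
  .cons (fun d hd h0 => h0 ey0y2) (
  .cons (fun d hd h0 => h0 ey0y3) (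
  .cons (fun d hd h0 => h0 ey1y2) (
  .cons (fun d hd h0 => h0 ey1y3) (
  .cons (fun d hd h0 => h0 ey2y3) (
  .cons (fun d hd h0 => h0 (hx x0 y0 y2 y3 (.cons_cons _ (.cons_cons _ (.cons _ (.cons_cons _ (.cons_cons _ .slnil))))))) (
  .nil))))))))))))))))))

/-- templates -/
def j4_x : List Tm := [
  ⟨0, [], [], [.b true 2 8 8]⟩,
  ⟨0, [], [], [.b true 2 9 9]⟩,
  ⟨0, [], [], [.b true 2 10 10]⟩,
  ⟨0, [], [], [.b false 2 11 11]⟩,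
  ⟨0, [], [], [.b false 2 12 12]⟩,
  ⟨0, [], [], [.b true 0 8 9]⟩,
  ⟨0, [], [], [.b true 0 8 10]⟩,
  ⟨0, [], [], [.b false 0 8 11]⟩,
  ⟨0, [], [], [.b false 0 8 12]⟩,
  ⟨0, [], [], [.b true 0 9 10]⟩,
  ⟨0, [], [], [.b true 0 9 11]⟩,
  ⟨0, [], [], [.b false 0 9 12]⟩,
  ⟨0, [], [], [.b true 0 10 11]⟩,
  ⟨0, [], [], [.b true 0 10 12]⟩,
  ⟨0, [], [], [.b true 0 11 12]⟩,
  ⟨0, [], [], [.q true 0 8 11 9 12]⟩,
  ⟨0, [], [], [.q true 0 9 11 10 12]⟩]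

def j4_p0 : List Nat := [
0x46200b0000000270317000201,
0x28600b00000002903a3000201,
0x68420b00000002f03ff000201,
0x2860030000000370378000201,
0x84620700000000800000003900cc000301,
0x86421100000000600000003300000002d000000039017b000501,
0x64201100000000200000002d00000002500000000a00b7000501,
0x804621500000000400000000e00000000c000400]

def j4_pf : List Nat := j4_p0

theorem j4_ref {V : Type} {S : SRel V} {p : Nat → V} (hp : ∀ i j, i < 5 → j < 5 → p i = p j → i = j)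
    (hts : PHs S p 5 ((qO ++ qQ) ++ j4_x)) : False :=
  refuteS (k := 5) (n2 := 3) (n3 := 1) (n4 := 4) (o3 := 45) (o4 := 80) (M := 560) ((qO ++ qQ) ++ j4_x) j4_pf (by decide +kernel)
    (by decide +kernel) (by decide +kernel) (by decide +kernel) hp hts

theorem j4 {V : Type} {Y : QSy V} (hq : QC Y.G Y.X Y.T Y.S) {x0 x1 x2 y0 y1 : V}
    (nd : [x0, x1, x2, y0, y1].Nodup) 
    (sx0 : Y.S x0) (sx1 : Y.S x1) (sx2 : Y.S x2) (sy0 : ¬ Y.S y0)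
    (sy1 : ¬ Y.S y1) (ex0x1 : Y.G.Adj x0 x1) (ex0x2 : Y.G.Adj x0 x2) (ex0y0 : ¬ Y.G.Adj x0 y0)
    (ex0y1 : ¬ Y.G.Adj x0 y1) (ex1x2 : Y.G.Adj x1 x2) (ex1y0 : Y.G.Adj x1 y0) (ex1y1 : ¬ Y.G.Adj x1 y1)
    (ex2y0 : Y.G.Adj x2 y0) (ex2y1 : Y.G.Adj x2 y1) (ey0y1 : Y.G.Adj y0 y1)
    (hx : ∀ a b c d : V, [a, b, c, d].Sublist [x0, x1, x2, y0, y1] → Y.X a c b d) : False :=
  j4_ref (S := Y.rel) (pt_inj (o := x0) nd rfl) (PHs.app (UHs.phs ((qO_h hq).app (qQ_h hq)) _ _) (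
  .cons (fun d hd h0 => h0 ⟨rfl, sx0⟩) (
  .cons (fun d hd h0 => h0 ⟨rfl, sx1⟩) (
  .cons (fun d hd h0 => h0 ⟨rfl, sx2⟩) (
  .cons (fun d hd h0 => sy0 h0.2) (
  .cons (fun d hd h0 => sy1 h0.2) (
  .cons (fun d hd h0 => h0 ex0x1) (
  .cons (fun d hd h0 => h0 ex0x2) (
  .cons (fun d hd h0 => ex0y0 h0) (
  .cons (fun d hd h0 => ex0y1 h0) (
  .cons (fun d hd h0 => h0 ex1x2) (
  .cons (fun d hd h0 => h0 ex1y0) (
  .cons (fun d hd h0 => ex1y1 h0) (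
  .cons (fun d hd h0 => h0 ex2y0) (
  .cons (fun d hd h0 => h0 ex2y1) (
  .cons (fun d hd h0 => h0 ey0y1) (
  .cons (fun d hd h0 => h0 (hx x0 x1 y0 y1 (.cons_cons _ (.cons_cons _ (.cons _ (.cons_cons _ (.cons_cons _ .slnil))))))) (
  .cons (fun d hd h0 => h0 (hx x1 x2 y0 y1 (.cons _ (.cons_cons _ (.cons_cons _ (.cons_cons _ (.cons_cons _ .slnil))))))) (
  .nil)))))))))))))))))))

/-- templates -/
def j5_x : List Tm := [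
  ⟨0, [], [], [.b true 2 8 8]⟩,
  ⟨0, [], [], [.b true 2 9 9]⟩,
  ⟨0, [], [], [.b true 2 10 10]⟩,
  ⟨0, [], [], [.b false 2 11 11]⟩,
  ⟨0, [], [], [.b false 2 12 12]⟩,
  ⟨0, [], [], [.b true 0 8 9]⟩,
  ⟨0, [], [], [.b true 0 8 10]⟩,
  ⟨0, [], [], [.b false 0 8 11]⟩,
  ⟨0, [], [], [.b false 0 8 12]⟩,
  ⟨0, [], [], [.b true 0 9 10]⟩,
  ⟨0, [], [], [.b true 0 9 11]⟩,
  ⟨0, [], [], [.b false 0 9 12]⟩,
  ⟨0, [], [], [.b true 0 10 11]⟩,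
  ⟨0, [], [], [.b true 0 10 12]⟩,
  ⟨0, [], [], [.b true 0 11 12]⟩,
  ⟨0, [], [], [.q true 0 8 11 9 12]⟩,
  ⟨0, [], [], [.q true 0 9 11 10 12]⟩]

def j5_p0 : List Nat := [
0x46200b0000000270317000201,
0x28600b00000002903a3000201,
0x68420b00000002f03ff000201,
0x2860030000000370378000201,
0x84620700000000800000003900cc000301,
0x86421100000000600000003300000002d000000039017b000501,
0x64201100000000200000002d00000002500000000a00b7000501,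
0x804621500000000400000000e00000000c000400]

def j5_pf : List Nat := j5_p0

theorem j5_ref {V : Type} {S : SRel V} {p : Nat → V} (hp : ∀ i j, i < 5 → j < 5 → p i = p j → i = j)
    (hts : PHs S p 5 ((qO ++ qQ) ++ j5_x)) : False :=
  refuteS (k := 5) (n2 := 3) (n3 := 1) (n4 := 4) (o3 := 45) (o4 := 80) (M := 560) ((qO ++ qQ) ++ j5_x) j5_pf (by decide +kernel)
    (by decide +kernel) (by decide +kernel) (by decide +kernel) hp hts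

theorem j5 {V : Type} {Y : QSy V} (hq : QC Y.G Y.X Y.T Y.S) {x0 x1 x2 y0 y1 : V}
    (nd : [x0, x1, x2, y0, y1].Nodup) 
    (sx0 : Y.S x0) (sx1 : Y.S x1) (sx2 : Y.S x2) (sy0 : ¬ Y.S y0)
    (sy1 : ¬ Y.S y1) (ex0x1 : Y.G.Adj x0 x1) (ex0x2 : Y.G.Adj x0 x2) (ex0y0 : ¬ Y.G.Adj x0 y0)
    (ex0y1 : ¬ Y.G.Adj x0 y1) (ex1x2 : Y.G.Adj x1 x2) (ex1y0 : Y.G.Adj x1 y0) (ex1y1 : ¬ Y.G.Adj x1 y1)
    (ex2y0 : Y.G.Adj x2 y0) (ex2y1 : Y.G.Adj x2 y1) (ey0y1 : Y.G.Adj y0 y1)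
    (hx : ∀ a b c d : V, [a, b, c, d].Sublist [x0, x1, x2, y0, y1] → Y.X a c b d) : False :=
  j5_ref (S := Y.rel) (pt_inj (o := x0) nd rfl) (PHs.app (UHs.phs ((qO_h hq).app (qQ_h hq)) _ _) (
  .cons (fun d hd h0 => h0 ⟨rfl, sx0⟩) (
  .cons (fun d hd h0 => h0 ⟨rfl, sx1⟩) (
  .cons (fun d hd h0 => h0 ⟨rfl, sx2⟩) (
  .cons (fun d hd h0 => sy0 h0.2) (
  .cons (fun d hd h0 => sy1 h0.2) (
  .cons (fun d hd h0 => h0 ex0x1) (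
  .cons (fun d hd h0 => h0 ex0x2) (
  .cons (fun d hd h0 => ex0y0 h0) (
  .cons (fun d hd h0 => ex0y1 h0) (
  .cons (fun d hd h0 => h0 ex1x2) (
  .cons (fun d hd h0 => h0 ex1y0) (
  .cons (fun d hd h0 => ex1y1 h0) (
  .cons (fun d hd h0 => h0 ex2y0) (
  .cons (fun d hd h0 => h0 ex2y1) (
  .cons (fun d hd h0 => h0 ey0y1) (
  .cons (fun d hd h0 => h0 (hx x0 x1 y0 y1 (.cons_cons _ (.cons_cons _ (.cons _ (.cons_cons _ (.cons_cons _ .slnil))))))) (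
  .cons (fun d hd h0 => h0 (hx x1 x2 y0 y1 (.cons _ (.cons_cons _ (.cons_cons _ (.cons_cons _ (.cons_cons _ .slnil))))))) (
  .nil)))))))))))))))))))

/-- templates -/
def j6_x : List Tm := [
  ⟨0, [], [], [.b true 2 8 8]⟩,
  ⟨0, [], [], [.b true 2 9 9]⟩,
  ⟨0, [], [], [.b true 2 10 10]⟩,
  ⟨0, [], [], [.b false 2 11 11]⟩,
  ⟨0, [], [], [.b false 2 12 12]⟩,
  ⟨0, [], [], [.b true 0 8 9]⟩,
  ⟨0, [], [], [.b true 0 8 10]⟩,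
  ⟨0, [], [], [.b false 0 8 11]⟩,
  ⟨0, [], [], [.b true 0 8 12]⟩,
  ⟨0, [], [], [.b true 0 9 10]⟩,
  ⟨0, [], [], [.b true 0 9 11]⟩,
  ⟨0, [], [], [.b true 0 9 12]⟩,
  ⟨0, [], [], [.b false 0 10 11]⟩,
  ⟨0, [], [], [.b true 0 10 12]⟩,
  ⟨0, [], [], [.b true 0 11 12]⟩,
  ⟨0, [], [], [.q true 0 8 11 9 12]⟩,
  ⟨0, [], [], [.q true 0 9 11 10 12]⟩]

def j6_p0 : List Nat := [
0x46200b0000000270317000201,
0x6240b00000003102e7000201,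
0x64201100000000200000002d00000002500000000402fc000501,
0x2860030000000370378000201,
0x84620700000000600000000803d4000301,
0x3900000000a000200]

def j6_pf : List Nat := j6_p0

theorem j6_ref {V : Type} {S : SRel V} {p : Nat → V} (hp : ∀ i j, i < 5 → j < 5 → p i = p j → i = j)
    (hts : PHs S p 5 ((qO ++ qQ) ++ j6_x)) : False :=
  refuteS (k := 5) (n2 := 3) (n3 := 1) (n4 := 4) (o3 := 45) (o4 := 80) (M := 560) ((qO ++ qQ) ++ j6_x) j6_pf (by decide +kernel)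
    (by decide +kernel) (by decide +kernel) (by decide +kernel) hp hts

theorem j6 {V : Type} {Y : QSy V} (hq : QC Y.G Y.X Y.T Y.S) {x0 x1 x2 y0 y1 : V}
    (nd : [x0, x1, x2, y0, y1].Nodup) 
    (sx0 : Y.S x0) (sx1 : Y.S x1) (sx2 : Y.S x2) (sy0 : ¬ Y.S y0)
    (sy1 : ¬ Y.S y1) (ex0x1 : Y.G.Adj x0 x1) (ex0x2 : Y.G.Adj x0 x2) (ex0y0 : ¬ Y.G.Adj x0 y0)
    (ex0y1 : Y.G.Adj x0 y1) (ex1x2 : Y.G.Adj x1 x2) (ex1y0 : Y.G.Adj x1 y0) (ex1y1 : Y.G.Adj x1 y1)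
    (ex2y0 : ¬ Y.G.Adj x2 y0) (ex2y1 : Y.G.Adj x2 y1) (ey0y1 : Y.G.Adj y0 y1)
    (hx : ∀ a b c d : V, [a, b, c, d].Sublist [x0, x1, x2, y0, y1] → Y.X a c b d) : False :=
  j6_ref (S := Y.rel) (pt_inj (o := x0) nd rfl) (PHs.app (UHs.phs ((qO_h hq).app (qQ_h hq)) _ _) (
  .cons (fun d hd h0 => h0 ⟨rfl, sx0⟩) (
  .cons (fun d hd h0 => h0 ⟨rfl, sx1⟩) (
  .cons (fun d hd h0 => h0 ⟨rfl, sx2⟩) (
  .cons (fun d hd h0 => sy0 h0.2) (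
  .cons (fun d hd h0 => sy1 h0.2) (
  .cons (fun d hd h0 => h0 ex0x1) (
  .cons (fun d hd h0 => h0 ex0x2) (
  .cons (fun d hd h0 => ex0y0 h0) (
  .cons (fun d hd h0 => h0 ex0y1) (
  .cons (fun d hd h0 => h0 ex1x2) (
  .cons (fun d hd h0 => h0 ex1y0) (
  .cons (fun d hd h0 => h0 ex1y1) (
  .cons (fun d hd h0 => ex2y0 h0) (
  .cons (fun d hd h0 => h0 ex2y1) (
  .cons (fun d hd h0 => h0 ey0y1) (
  .cons (fun d hd h0 => h0 (hx x0 x1 y0 y1 (.cons_cons _ (.cons_cons _ (.cons _ (.cons_cons _ (.cons_cons _ .slnil))))))) (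
  .cons (fun d hd h0 => h0 (hx x1 x2 y0 y1 (.cons _ (.cons_cons _ (.cons_cons _ (.cons_cons _ (.cons_cons _ .slnil))))))) (
  .nil)))))))))))))))))))

/-- templates -/
def j7_x : List Tm := [
  ⟨0, [], [], [.b true 2 8 8]⟩,
  ⟨0, [], [], [.b false 2 9 9]⟩,
  ⟨0, [], [], [.b false 2 10 10]⟩,
  ⟨0, [], [], [.b false 2 11 11]⟩,
  ⟨0, [], [], [.b false 2 12 12]⟩,
  ⟨0, [], [], [.b true 0 8 9]⟩,
  ⟨0, [], [], [.b false 0 8 10]⟩,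
  ⟨0, [], [], [.b true 0 8 11]⟩,
  ⟨0, [], [], [.b false 0 8 12]⟩,
  ⟨0, [], [], [.b true 0 9 10]⟩,
  ⟨0, [], [], [.b true 0 9 11]⟩,
  ⟨0, [], [], [.b true 0 9 12]⟩,
  ⟨0, [], [], [.b true 0 10 11]⟩,
  ⟨0, [], [], [.b true 0 10 12]⟩,
  ⟨0, [], [], [.b true 0 11 12]⟩,
  ⟨0, [], [], [.q true 0 9 11 10 12]⟩]

def j7_p0 : List Nat := [
0x24800b000000025036f000201,
0x64800b000000025037f000201,
0x28400b0000000290397000201,
0x68400b00000002903fb000201,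
0x82401100000000600000000200000002300000003303bc000501,
0x86401100000000800000000400000002700000003303d0000501,
0x62840700000000c00000000a03d4000301,
0x3700000000e000200]

def j7_pf : List Nat := j7_p0

theorem j7_ref {V : Type} {S : SRel V} {p : Nat → V} (hp : ∀ i j, i < 5 → j < 5 → p i = p j → i = j)
    (hts : PHs S p 5 ((qO ++ qQ) ++ j7_x)) : False :=
  refuteS (k := 5) (n2 := 3) (n3 := 1) (n4 := 4) (o3 := 45) (o4 := 80) (M := 560) ((qO ++ qQ) ++ j7_x) j7_pf (by decide +kernel)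
    (by decide +kernel) (by decide +kernel) (by decide +kernel) hp hts

theorem j7 {V : Type} {Y : QSy V} (hq : QC Y.G Y.X Y.T Y.S) {x0 y0 y1 y2 y3 : V}
    (nd : [x0, y0, y1, y2, y3].Nodup) 
    (sx0 : Y.S x0) (sy0 : ¬ Y.S y0) (sy1 : ¬ Y.S y1) (sy2 : ¬ Y.S y2)
    (sy3 : ¬ Y.S y3) (ex0y0 : Y.G.Adj x0 y0) (ex0y1 : ¬ Y.G.Adj x0 y1) (ex0y2 : Y.G.Adj x0 y2)
    (ex0y3 : ¬ Y.G.Adj x0 y3) (ey0y1 : Y.G.Adj y0 y1) (ey0y2 : Y.G.Adj y0 y2) (ey0y3 : Y.G.Adj y0 y3)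
    (ey1y2 : Y.G.Adj y1 y2) (ey1y3 : Y.G.Adj y1 y3) (ey2y3 : Y.G.Adj y2 y3)
    (hx : ∀ a b c d : V, [a, b, c, d].Sublist [x0, y0, y1, y2, y3] → Y.X a c b d) : False :=
  j7_ref (S := Y.rel) (pt_inj (o := x0) nd rfl) (PHs.app (UHs.phs ((qO_h hq).app (qQ_h hq)) _ _) (
  .cons (fun d hd h0 => h0 ⟨rfl, sx0⟩) (
  .cons (fun d hd h0 => sy0 h0.2) (
  .cons (fun d hd h0 => sy1 h0.2) (
  .cons (fun d hd h0 => sy2 h0.2) (
  .cons (fun d hd h0 => sy3 h0.2) (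
  .cons (fun d hd h0 => h0 ex0y0) (
  .cons (fun d hd h0 => ex0y1 h0) (
  .cons (fun d hd h0 => h0 ex0y2) (
  .cons (fun d hd h0 => ex0y3 h0) (
  .cons (fun d hd h0 => h0 ey0y1) (
  .cons (fun d hd h0 => h0 ey0y2) (
  .cons (fun d hd h0 => h0 ey0y3) (
  .cons (fun d hd h0 => h0 ey1y2) (
  .cons (fun d hd h0 => h0 ey1y3) (
  .cons (fun d hd h0 => h0 ey2y3) (
  .cons (fun d hd h0 => h0 (hx y0 y1 y2 y3 (.cons _ (.cons_cons _ (.cons_cons _ (.cons_cons _ (.cons_cons _ .slnil))))))) (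
  .nil))))))))))))))))))

/-- templates -/
def j8_x : List Tm := [
  ⟨0, [], [], [.b true 2 8 8]⟩,
  ⟨0, [], [], [.b true 2 9 9]⟩,
  ⟨0, [], [], [.b true 2 10 10]⟩,
  ⟨0, [], [], [.b false 2 11 11]⟩,
  ⟨0, [], [], [.b false 2 12 12]⟩,
  ⟨0, [], [], [.b true 0 8 9]⟩,
  ⟨0, [], [], [.b true 0 8 10]⟩,
  ⟨0, [], [], [.b false 0 8 11]⟩,
  ⟨0, [], [], [.b false 0 8 12]⟩,
  ⟨0, [], [], [.b true 0 9 10]⟩,
  ⟨0, [], [], [.b true 0 9 11]⟩,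
  ⟨0, [], [], [.b true 0 9 12]⟩,
  ⟨0, [], [], [.b false 0 10 11]⟩,
  ⟨0, [], [], [.b true 0 10 12]⟩,
  ⟨0, [], [], [.b true 0 11 12]⟩,
  ⟨0, [], [], [.q true 0 8 11 9 12]⟩,
  ⟨0, [], [], [.q true 0 9 11 10 12]⟩]

def j8_p0 : List Nat := [
0x46200b0000000270317000201,
0x6240b00000003102e7000201,
0x64201100000000200000002d00000002500000000402fc000501,
0x2860030000000370378000201,
0x84620700000000600000000803d4000301,
0x3900000000a000200]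

def j8_pf : List Nat := j8_p0

theorem j8_ref {V : Type} {S : SRel V} {p : Nat → V} (hp : ∀ i j, i < 5 → j < 5 → p i = p j → i = j)
    (hts : PHs S p 5 ((qO ++ qQ) ++ j8_x)) : False :=
  refuteS (k := 5) (n2 := 3) (n3 := 1) (n4 := 4) (o3 := 45) (o4 := 80) (M := 560) ((qO ++ qQ) ++ j8_x) j8_pf (by decide +kernel)
    (by decide +kernel) (by decide +kernel) (by decide +kernel) hp hts

theorem j8 {V : Type} {Y : QSy V} (hq : QC Y.G Y.X Y.T Y.S) {x0 x1 x2 y0 y1 : V}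
    (nd : [x0, x1, x2, y0, y1].Nodup) 
    (sx0 : Y.S x0) (sx1 : Y.S x1) (sx2 : Y.S x2) (sy0 : ¬ Y.S y0)
    (sy1 : ¬ Y.S y1) (ex0x1 : Y.G.Adj x0 x1) (ex0x2 : Y.G.Adj x0 x2) (ex0y0 : ¬ Y.G.Adj x0 y0)
    (ex0y1 : ¬ Y.G.Adj x0 y1) (ex1x2 : Y.G.Adj x1 x2) (ex1y0 : Y.G.Adj x1 y0) (ex1y1 : Y.G.Adj x1 y1)
    (ex2y0 : ¬ Y.G.Adj x2 y0) (ex2y1 : Y.G.Adj x2 y1) (ey0y1 : Y.G.Adj y0 y1)
    (hx : ∀ a b c d : V, [a, b, c, d].Sublist [x0, x1, x2, y0, y1] → Y.X a c b d) : False :=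
  j8_ref (S := Y.rel) (pt_inj (o := x0) nd rfl) (PHs.app (UHs.phs ((qO_h hq).app (qQ_h hq)) _ _) (
  .cons (fun d hd h0 => h0 ⟨rfl, sx0⟩) (
  .cons (fun d hd h0 => h0 ⟨rfl, sx1⟩) (
  .cons (fun d hd h0 => h0 ⟨rfl, sx2⟩) (
  .cons (fun d hd h0 => sy0 h0.2) (
  .cons (fun d hd h0 => sy1 h0.2) (
  .cons (fun d hd h0 => h0 ex0x1) (
  .cons (fun d hd h0 => h0 ex0x2) (
  .cons (fun d hd h0 => ex0y0 h0) (
  .cons (fun d hd h0 => ex0y1 h0) (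
  .cons (fun d hd h0 => h0 ex1x2) (
  .cons (fun d hd h0 => h0 ex1y0) (
  .cons (fun d hd h0 => h0 ex1y1) (
  .cons (fun d hd h0 => ex2y0 h0) (
  .cons (fun d hd h0 => h0 ex2y1) (
  .cons (fun d hd h0 => h0 ey0y1) (
  .cons (fun d hd h0 => h0 (hx x0 x1 y0 y1 (.cons_cons _ (.cons_cons _ (.cons _ (.cons_cons _ (.cons_cons _ .slnil))))))) (
  .cons (fun d hd h0 => h0 (hx x1 x2 y0 y1 (.cons _ (.cons_cons _ (.cons_cons _ (.cons_cons _ (.cons_cons _ .slnil))))))) (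
  .nil)))))))))))))))))))

/-- templates -/
def j9_x : List Tm := [
  ⟨0, [], [], [.b true 2 8 8]⟩,
  ⟨0, [], [], [.b true 2 9 9]⟩,
  ⟨0, [], [], [.b false 2 10 10]⟩,
  ⟨0, [], [], [.b false 2 11 11]⟩,
  ⟨0, [], [], [.b false 2 12 12]⟩,
  ⟨0, [], [], [.b true 0 8 9]⟩,
  ⟨0, [], [], [.b true 0 8 10]⟩,
  ⟨0, [], [], [.b false 0 8 11]⟩,
  ⟨0, [], [], [.b false 0 8 12]⟩,
  ⟨0, [], [], [.b true 0 9 10]⟩,
  ⟨0, [], [], [.b true 0 9 11]⟩,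
  ⟨0, [], [], [.b false 0 9 12]⟩,
  ⟨0, [], [], [.b true 0 10 11]⟩,
  ⟨0, [], [], [.b true 0 10 12]⟩,
  ⟨0, [], [], [.b true 0 11 12]⟩,
  ⟨0, [], [], [.q true 0 8 11 9 12]⟩,
  ⟨0, [], [], [.q true 0 9 11 10 12]⟩]

def j9_p0 : List Nat := [
0x46200b0000000270317000201,
0x28600b00000002903a3000201,
0x68420b00000002f03ff000201,
0x2860030000000370378000201,
0x84620700000000800000003900cc000301,
0x86421100000000600000003300000002d000000039017b000501,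
0x64201100000000200000002d00000002500000000a00b7000501,
0x804621500000000400000000e00000000c000400]

def j9_pf : List Nat := j9_p0

theorem j9_ref {V : Type} {S : SRel V} {p : Nat → V} (hp : ∀ i j, i < 5 → j < 5 → p i = p j → i = j)
    (hts : PHs S p 5 ((qO ++ qQ) ++ j9_x)) : False :=
  refuteS (k := 5) (n2 := 3) (n3 := 1) (n4 := 4) (o3 := 45) (o4 := 80) (M := 560) ((qO ++ qQ) ++ j9_x) j9_pf (by decide +kernel)
    (by decide +kernel) (by decide +kernel) (by decide +kernel) hp hts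

theorem j9 {V : Type} {Y : QSy V} (hq : QC Y.G Y.X Y.T Y.S) {x0 x1 y0 y1 y2 : V}
    (nd : [x0, x1, y0, y1, y2].Nodup) 
    (sx0 : Y.S x0) (sx1 : Y.S x1) (sy0 : ¬ Y.S y0) (sy1 : ¬ Y.S y1)
    (sy2 : ¬ Y.S y2) (ex0x1 : Y.G.Adj x0 x1) (ex0y0 : Y.G.Adj x0 y0) (ex0y1 : ¬ Y.G.Adj x0 y1)
    (ex0y2 : ¬ Y.G.Adj x0 y2) (ex1y0 : Y.G.Adj x1 y0) (ex1y1 : Y.G.Adj x1 y1) (ex1y2 : ¬ Y.G.Adj x1 y2)
    (ey0y1 : Y.G.Adj y0 y1) (ey0y2 : Y.G.Adj y0 y2) (ey1y2 : Y.G.Adj y1 y2)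
    (hx : ∀ a b c d : V, [a, b, c, d].Sublist [x0, x1, y0, y1, y2] → Y.X a c b d) : False :=
  j9_ref (S := Y.rel) (pt_inj (o := x0) nd rfl) (PHs.app (UHs.phs ((qO_h hq).app (qQ_h hq)) _ _) (
  .cons (fun d hd h0 => h0 ⟨rfl, sx0⟩) (
  .cons (fun d hd h0 => h0 ⟨rfl, sx1⟩) (
  .cons (fun d hd h0 => sy0 h0.2) (
  .cons (fun d hd h0 => sy1 h0.2) (
  .cons (fun d hd h0 => sy2 h0.2) (
  .cons (fun d hd h0 => h0 ex0x1) (
  .cons (fun d hd h0 => h0 ex0y0) (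
  .cons (fun d hd h0 => ex0y1 h0) (
  .cons (fun d hd h0 => ex0y2 h0) (
  .cons (fun d hd h0 => h0 ex1y0) (
  .cons (fun d hd h0 => h0 ex1y1) (
  .cons (fun d hd h0 => ex1y2 h0) (
  .cons (fun d hd h0 => h0 ey0y1) (
  .cons (fun d hd h0 => h0 ey0y2) (
  .cons (fun d hd h0 => h0 ey1y2) (
  .cons (fun d hd h0 => h0 (hx x0 x1 y1 y2 (.cons_cons _ (.cons_cons _ (.cons _ (.cons_cons _ (.cons_cons _ .slnil))))))) (
  .cons (fun d hd h0 => h0 (hx x1 y0 y1 y2 (.cons _ (.cons_cons _ (.cons_cons _ (.cons_cons _ (.cons_cons _ .slnil))))))) (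
  .nil)))))))))))))))))))

/-- templates -/
def j10_x : List Tm := [
  ⟨0, [], [], [.b true 2 8 8]⟩,
  ⟨0, [], [], [.b false 2 9 9]⟩,
  ⟨0, [], [], [.b false 2 10 10]⟩,
  ⟨0, [], [], [.b false 2 11 11]⟩,
  ⟨0, [], [], [.b false 2 12 12]⟩,
  ⟨0, [], [], [.b true 0 8 9]⟩,
  ⟨0, [], [], [.b false 0 8 10]⟩,
  ⟨0, [], [], [.b true 0 8 11]⟩,
  ⟨0, [], [], [.b false 0 8 12]⟩,
  ⟨0, [], [], [.b true 0 9 10]⟩,
  ⟨0, [], [], [.b true 0 9 11]⟩,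
  ⟨0, [], [], [.b true 0 9 12]⟩,
  ⟨0, [], [], [.b true 0 10 11]⟩,
  ⟨0, [], [], [.b true 0 10 12]⟩,
  ⟨0, [], [], [.b true 0 11 12]⟩,
  ⟨0, [], [], [.q true 0 9 11 10 12]⟩]

def j10_p0 : List Nat := [
0x24800b000000025036f000201,
0x64800b000000025037f000201,
0x28400b0000000290397000201,
0x68400b00000002903fb000201,
0x82401100000000600000000200000002300000003303bc000501,
0x86401100000000800000000400000002700000003303d0000501,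
0x62840700000000c00000000a03d4000301,
0x3700000000e000200]

def j10_pf : List Nat := j10_p0

theorem j10_ref {V : Type} {S : SRel V} {p : Nat → V} (hp : ∀ i j, i < 5 → j < 5 → p i = p j → i = j)
    (hts : PHs S p 5 ((qO ++ qQ) ++ j10_x)) : False :=
  refuteS (k := 5) (n2 := 3) (n3 := 1) (n4 := 4) (o3 := 45) (o4 := 80) (M := 560) ((qO ++ qQ) ++ j10_x) j10_pf (by decide +kernel)
    (by decide +kernel) (by decide +kernel) (by decide +kernel) hp hts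

theorem j10 {V : Type} {Y : QSy V} (hq : QC Y.G Y.X Y.T Y.S) {x0 y0 y1 y2 y3 : V}
    (nd : [x0, y0, y1, y2, y3].Nodup) 
    (sx0 : Y.S x0) (sy0 : ¬ Y.S y0) (sy1 : ¬ Y.S y1) (sy2 : ¬ Y.S y2)
    (sy3 : ¬ Y.S y3) (ex0y0 : Y.G.Adj x0 y0) (ex0y1 : ¬ Y.G.Adj x0 y1) (ex0y2 : Y.G.Adj x0 y2)
    (ex0y3 : ¬ Y.G.Adj x0 y3) (ey0y1 : Y.G.Adj y0 y1) (ey0y2 : Y.G.Adj y0 y2) (ey0y3 : Y.G.Adj y0 y3)
    (ey1y2 : Y.G.Adj y1 y2) (ey1y3 : Y.G.Adj y1 y3) (ey2y3 : Y.G.Adj y2 y3)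
    (hx : ∀ a b c d : V, [a, b, c, d].Sublist [x0, y0, y1, y2, y3] → Y.X a c b d) : False :=
  j10_ref (S := Y.rel) (pt_inj (o := x0) nd rfl) (PHs.app (UHs.phs ((qO_h hq).app (qQ_h hq)) _ _) (
  .cons (fun d hd h0 => h0 ⟨rfl, sx0⟩) (
  .cons (fun d hd h0 => sy0 h0.2) (
  .cons (fun d hd h0 => sy1 h0.2) (
  .cons (fun d hd h0 => sy2 h0.2) (
  .cons (fun d hd h0 => sy3 h0.2) (
  .cons (fun d hd h0 => h0 ex0y0) (
  .cons (fun d hd h0 => ex0y1 h0) (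
  .cons (fun d hd h0 => h0 ex0y2) (
  .cons (fun d hd h0 => ex0y3 h0) (
  .cons (fun d hd h0 => h0 ey0y1) (
  .cons (fun d hd h0 => h0 ey0y2) (
  .cons (fun d hd h0 => h0 ey0y3) (
  .cons (fun d hd h0 => h0 ey1y2) (
  .cons (fun d hd h0 => h0 ey1y3) (
  .cons (fun d hd h0 => h0 ey2y3) (
  .cons (fun d hd h0 => h0 (hx y0 y1 y2 y3 (.cons _ (.cons_cons _ (.cons_cons _ (.cons_cons _ (.cons_cons _ .slnil))))))) (
  .nil))))))))))))))))))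

/-- templates -/
def j11_x : List Tm := [
  ⟨0, [], [], [.b true 2 8 8]⟩,
  ⟨0, [], [], [.b false 2 9 9]⟩,
  ⟨0, [], [], [.b false 2 10 10]⟩,
  ⟨0, [], [], [.b false 2 11 11]⟩,
  ⟨0, [], [], [.b false 2 12 12]⟩,
  ⟨0, [], [], [.b false 0 8 9]⟩,
  ⟨0, [], [], [.b true 0 8 10]⟩,
  ⟨0, [], [], [.b false 0 8 11]⟩,
  ⟨0, [], [], [.b false 0 8 12]⟩,
  ⟨0, [], [], [.b true 0 9 10]⟩,
  ⟨0, [], [], [.b true 0 9 11]⟩,
  ⟨0, [], [], [.b true 0 9 12]⟩,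
  ⟨0, [], [], [.b true 0 10 11]⟩,
  ⟨0, [], [], [.b true 0 10 12]⟩,
  ⟨0, [], [], [.b true 0 11 12]⟩,
  ⟨0, [], [], [.q true 0 8 11 9 12]⟩,
  ⟨0, [], [], [.q true 0 9 11 10 12]⟩]

def j11_p0 : List Nat := [
0x42600b00000002302e7000201,
0x46200b0000000270317000201,
0x64201100000000400000000200000002500000002d02fc000501,
0x2860030000000370378000201,
0x84620700000000600000000803d4000301,
0x3900000000a000200]

def j11_pf : List Nat := j11_p0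

theorem j11_ref {V : Type} {S : SRel V} {p : Nat → V} (hp : ∀ i j, i < 5 → j < 5 → p i = p j → i = j)
    (hts : PHs S p 5 ((qO ++ qQ) ++ j11_x)) : False :=
  refuteS (k := 5) (n2 := 3) (n3 := 1) (n4 := 4) (o3 := 45) (o4 := 80) (M := 560) ((qO ++ qQ) ++ j11_x) j11_pf (by decide +kernel)
    (by decide +kernel) (by decide +kernel) (by decide +kernel) hp hts

theorem j11 {V : Type} {Y : QSy V} (hq : QC Y.G Y.X Y.T Y.S) {x0 y0 y1 y2 y3 : V}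
    (nd : [x0, y0, y1, y2, y3].Nodup) 
    (sx0 : Y.S x0) (sy0 : ¬ Y.S y0) (sy1 : ¬ Y.S y1) (sy2 : ¬ Y.S y2)
    (sy3 : ¬ Y.S y3) (ex0y0 : ¬ Y.G.Adj x0 y0) (ex0y1 : Y.G.Adj x0 y1) (ex0y2 : ¬ Y.G.Adj x0 y2)
    (ex0y3 : ¬ Y.G.Adj x0 y3) (ey0y1 : Y.G.Adj y0 y1) (ey0y2 : Y.G.Adj y0 y2) (ey0y3 : Y.G.Adj y0 y3)
    (ey1y2 : Y.G.Adj y1 y2) (ey1y3 : Y.G.Adj y1 y3) (ey2y3 : Y.G.Adj y2 y3)
    (hx : ∀ a b c d : V, [a, b, c, d].Sublist [x0, y0, y1, y2, y3] → Y.X a c b d) : False :=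
  j11_ref (S := Y.rel) (pt_inj (o := x0) nd rfl) (PHs.app (UHs.phs ((qO_h hq).app (qQ_h hq)) _ _) (
  .cons (fun d hd h0 => h0 ⟨rfl, sx0⟩) (
  .cons (fun d hd h0 => sy0 h0.2) (
  .cons (fun d hd h0 => sy1 h0.2) (
  .cons (fun d hd h0 => sy2 h0.2) (
  .cons (fun d hd h0 => sy3 h0.2) (
  .cons (fun d hd h0 => ex0y0 h0) (
  .cons (fun d hd h0 => h0 ex0y1) (
  .cons (fun d hd h0 => ex0y2 h0) (
  .cons (fun d hd h0 => ex0y3 h0) (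
  .cons (fun d hd h0 => h0 ey0y1) (
  .cons (fun d hd h0 => h0 ey0y2) (
  .cons (fun d hd h0 => h0 ey0y3) (
  .cons (fun d hd h0 => h0 ey1y2) (
  .cons (fun d hd h0 => h0 ey1y3) (
  .cons (fun d hd h0 => h0 ey2y3) (
  .cons (fun d hd h0 => h0 (hx x0 y0 y2 y3 (.cons_cons _ (.cons_cons _ (.cons _ (.cons_cons _ (.cons_cons _ .slnil))))))) (
  .cons (fun d hd h0 => h0 (hx y0 y1 y2 y3 (.cons _ (.cons_cons _ (.cons_cons _ (.cons_cons _ (.cons_cons _ .slnil))))))) (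
  .nil)))))))))))))))))))

/-- templates -/
def j12_x : List Tm := [
  ⟨0, [], [], [.b true 2 8 8]⟩,
  ⟨0, [], [], [.b true 2 9 9]⟩,
  ⟨0, [], [], [.b false 2 10 10]⟩,
  ⟨0, [], [], [.b false 2 11 11]⟩,
  ⟨0, [], [], [.b false 2 12 12]⟩,
  ⟨0, [], [], [.b true 0 8 9]⟩,
  ⟨0, [], [], [.b false 0 8 10]⟩,
  ⟨0, [], [], [.b true 0 8 11]⟩,
  ⟨0, [], [], [.b true 0 8 12]⟩,
  ⟨0, [], [], [.b false 0 9 10]⟩,
  ⟨0, [], [], [.b false 0 9 11]⟩,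
  ⟨0, [], [], [.b true 0 9 12]⟩,
  ⟨0, [], [], [.b true 0 10 11]⟩,
  ⟨0, [], [], [.b true 0 10 12]⟩,
  ⟨0, [], [], [.b true 0 11 12]⟩,
  ⟨0, [], [], [.q true 0 8 11 9 12]⟩,
  ⟨0, [], [], [.q true 0 9 11 10 12]⟩]

def j12_p0 : List Nat := [
0x84200900000001d00000001b00000001900000002103bc000501,
0x64800b000000025037f000201,
0x4620b00000002b02ff000201,
0x86020b00000002d03f3000201,
0x86201100000000800000002f000000027000000037014b000501,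
0x428601500000000600000000a03fb000301,
0x86401100000003300000000400000002700000000c03d0000501,
0x62840700000000200000000e03d4000301,
0x39000000010000200]

def j12_pf : List Nat := j12_p0

theorem j12_ref {V : Type} {S : SRel V} {p : Nat → V} (hp : ∀ i j, i < 5 → j < 5 → p i = p j → i = j)
    (hts : PHs S p 5 ((qO ++ qQ) ++ j12_x)) : False :=
  refuteS (k := 5) (n2 := 3) (n3 := 1) (n4 := 4) (o3 := 45) (o4 := 80) (M := 560) ((qO ++ qQ) ++ j12_x) j12_pf (by decide +kernel)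
    (by decide +kernel) (by decide +kernel) (by decide +kernel) hp hts

theorem j12 {V : Type} {Y : QSy V} (hq : QC Y.G Y.X Y.T Y.S) {x0 x1 y0 y1 y2 : V}
    (nd : [x0, x1, y0, y1, y2].Nodup) 
    (sx0 : Y.S x0) (sx1 : Y.S x1) (sy0 : ¬ Y.S y0) (sy1 : ¬ Y.S y1)
    (sy2 : ¬ Y.S y2) (ex0x1 : Y.G.Adj x0 x1) (ex0y0 : ¬ Y.G.Adj x0 y0) (ex0y1 : Y.G.Adj x0 y1)
    (ex0y2 : Y.G.Adj x0 y2) (ex1y0 : ¬ Y.G.Adj x1 y0) (ex1y1 : ¬ Y.G.Adj x1 y1) (ex1y2 : Y.G.Adj x1 y2)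
    (ey0y1 : Y.G.Adj y0 y1) (ey0y2 : Y.G.Adj y0 y2) (ey1y2 : Y.G.Adj y1 y2)
    (hx : ∀ a b c d : V, [a, b, c, d].Sublist [x0, x1, y0, y1, y2] → Y.X a c b d) : False :=
  j12_ref (S := Y.rel) (pt_inj (o := x0) nd rfl) (PHs.app (UHs.phs ((qO_h hq).app (qQ_h hq)) _ _) (
  .cons (fun d hd h0 => h0 ⟨rfl, sx0⟩) (
  .cons (fun d hd h0 => h0 ⟨rfl, sx1⟩) (
  .cons (fun d hd h0 => sy0 h0.2) (
  .cons (fun d hd h0 => sy1 h0.2) (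
  .cons (fun d hd h0 => sy2 h0.2) (
  .cons (fun d hd h0 => h0 ex0x1) (
  .cons (fun d hd h0 => ex0y0 h0) (
  .cons (fun d hd h0 => h0 ex0y1) (
  .cons (fun d hd h0 => h0 ex0y2) (
  .cons (fun d hd h0 => ex1y0 h0) (
  .cons (fun d hd h0 => ex1y1 h0) (
  .cons (fun d hd h0 => h0 ex1y2) (
  .cons (fun d hd h0 => h0 ey0y1) (
  .cons (fun d hd h0 => h0 ey0y2) (
  .cons (fun d hd h0 => h0 ey1y2) (
  .cons (fun d hd h0 => h0 (hx x0 x1 y1 y2 (.cons_cons _ (.cons_cons _ (.cons _ (.cons_cons _ (.cons_cons _ .slnil))))))) (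
  .cons (fun d hd h0 => h0 (hx x1 y0 y1 y2 (.cons _ (.cons_cons _ (.cons_cons _ (.cons_cons _ (.cons_cons _ .slnil))))))) (
  .nil)))))))))))))))))))

/-- templates -/
def j13_x : List Tm := [
  ⟨0, [], [], [.b true 2 8 8]⟩,
  ⟨0, [], [], [.b true 2 9 9]⟩,
  ⟨0, [], [], [.b true 2 10 10]⟩,
  ⟨0, [], [], [.b false 2 11 11]⟩,
  ⟨0, [], [], [.b false 2 12 12]⟩,
  ⟨0, [], [], [.b false 2 13 13]⟩,
  ⟨0, [], [], [.b false 2 14 14]⟩,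
  ⟨0, [], [], [.b true 0 8 9]⟩,
  ⟨0, [], [], [.b true 0 8 10]⟩,
  ⟨0, [], [], [.b true 0 8 11]⟩,
  ⟨0, [], [], [.b true 0 8 12]⟩,
  ⟨0, [], [], [.b false 0 8 13]⟩,
  ⟨0, [], [], [.b true 0 8 14]⟩,
  ⟨0, [], [], [.b true 0 9 10]⟩,
  ⟨0, [], [], [.b true 0 9 11]⟩,
  ⟨0, [], [], [.b false 0 9 12]⟩,
  ⟨0, [], [], [.b false 0 9 13]⟩,
  ⟨0, [], [], [.b false 0 9 14]⟩,
  ⟨0, [], [], [.b true 0 10 11]⟩,
  ⟨0, [], [], [.b false 0 10 12]⟩,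
  ⟨0, [], [], [.b false 0 10 13]⟩,
  ⟨0, [], [], [.b true 0 10 14]⟩,
  ⟨0, [], [], [.b true 0 11 12]⟩,
  ⟨0, [], [], [.b true 0 11 13]⟩,
  ⟨0, [], [], [.b true 0 11 14]⟩,
  ⟨0, [], [], [.b true 0 12 13]⟩,
  ⟨0, [], [], [.b true 0 12 14]⟩,
  ⟨0, [], [], [.b true 0 13 14]⟩,
  ⟨0, [], [], [.q true 0 10 13 11 14]⟩,
  ⟨0, [], [], [.q true 0 11 13 12 14]⟩]

def j13_p0 : List Nat := [
0x86400900000001f00000001d0000000190000000210920000501,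
0xa6400900000001f00000001d0000000190000000230a60000501,
0xc6400900000001f00000001d0000000190000000250c64000501,
0xc8200900000002100000001b0000000190000000250cc0000501,
0x8a600b00000002f0abb000201,
0x48c20b0000000370bcf000201,
0x68c20b0000000370bd3000201,
0xc420b00000003b0b57000201,
0x6c420b00000003b0c6b000201,
0x6c820b00000003b0c87000201,
0x68040b00000003f0923000201,
0xc8040b00000003f0ccb000201,
0x68a40b00000003f0a43000201,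
0xc8a40b00000003f0d03000201,
0xca640b0000000410d47000201,
0xa840b00000004109bb000201,
0x6a840b0000000410a87000201,
0xca840b0000000410d57000201,
0xa6841100000002200000001a00000003d00000004b0ac0000501,
0xac841100000002400000001c00000004300000004b0c44000501,
0x4c6a8070000000280000000260ca4000301,
0xc6821100000001400000000e00000003500000004d0cd8000501,
0x260c80700000000800000002c0cd4000301,
0x6ca4030000000510c40000201,
0xa4c6070000000060000000510594000301,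
0x4c0a6070000000040000000300b8c000301,
0x8a0c60700000002a0000000320580000301,
0xc6a00d0000000320c97000201,
0xc8a607000000034000000053037c000301,
0xa8601100000000a00000004700000002d00000003a02bf000501,
0xa46801500000002000000003c08fb000301,
0xc08a61500000003800000003c0ca7000301,
0x68401100000001600000003d00000002d00000003e08a4000501,
0xca861100000005300000004d000000047000000040065b000501,
0x86400100000000200000004201f8000301,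
0x4c680070000000360000000420520000301,
0xa824c61700000001e00000000e0000000440bbf000401,
0xc84600700000002e0000000460510000301,
0xc8401100000001800000004300000002d0000000480477000501,
0xc6421100000001200000004300000003500000004a0c14000501,
0x260c40700000005000000004c04fc000301,
0x820c41500000000c00000004e0bab000301,
0xc24011000000043000000010000000027000000054000000052000600]

def j13_pf : List Nat := j13_p0

theorem j13_ref {V : Type} {S : SRel V} {p : Nat → V} (hp : ∀ i j, i < 7 → j < 7 → p i = p j → i = j)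
    (hts : PHs S p 7 ((qO ++ qQ) ++ j13_x)) : False :=
  refuteS (k := 7) (n2 := 3) (n3 := 1) (n4 := 4) (o3 := 84) (o4 := 168) (M := 1792) ((qO ++ qQ) ++ j13_x) j13_pf (by decide +kernel)
    (by decide +kernel) (by decide +kernel) (by decide +kernel) hp hts

theorem j13 {V : Type} {Y : QSy V} (hq : QC Y.G Y.X Y.T Y.S) {x0 x1 x2 y0 y1 y2 y3 : V}
    (nd : [x0, x1, x2, y0, y1, y2, y3].Nodup) 
    (sx0 : Y.S x0) (sx1 : Y.S x1) (sx2 : Y.S x2) (sy0 : ¬ Y.S y0)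
    (sy1 : ¬ Y.S y1) (sy2 : ¬ Y.S y2) (sy3 : ¬ Y.S y3) (ex0x1 : Y.G.Adj x0 x1)
    (ex0x2 : Y.G.Adj x0 x2) (ex0y0 : Y.G.Adj x0 y0) (ex0y1 : Y.G.Adj x0 y1) (ex0y2 : ¬ Y.G.Adj x0 y2)
    (ex0y3 : Y.G.Adj x0 y3) (ex1x2 : Y.G.Adj x1 x2) (ex1y0 : Y.G.Adj x1 y0) (ex1y1 : ¬ Y.G.Adj x1 y1)
    (ex1y2 : ¬ Y.G.Adj x1 y2) (ex1y3 : ¬ Y.G.Adj x1 y3) (ex2y0 : Y.G.Adj x2 y0) (ex2y1 : ¬ Y.G.Adj x2 y1)
    (ex2y2 : ¬ Y.G.Adj x2 y2) (ex2y3 : Y.G.Adj x2 y3) (ey0y1 : Y.G.Adj y0 y1) (ey0y2 : Y.G.Adj y0 y2)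
    (ey0y3 : Y.G.Adj y0 y3) (ey1y2 : Y.G.Adj y1 y2) (ey1y3 : Y.G.Adj y1 y3) (ey2y3 : Y.G.Adj y2 y3)
    (hx : ∀ a b c d : V, [a, b, c, d].Sublist [x0, x1, x2, y0, y1, y2, y3] → Y.X a c b d) : False :=
  j13_ref (S := Y.rel) (pt_inj (o := x0) nd rfl) (PHs.app (UHs.phs ((qO_h hq).app (qQ_h hq)) _ _) (
  .cons (fun d hd h0 => h0 ⟨rfl, sx0⟩) (
  .cons (fun d hd h0 => h0 ⟨rfl, sx1⟩) (
  .cons (fun d hd h0 => h0 ⟨rfl, sx2⟩) (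
  .cons (fun d hd h0 => sy0 h0.2) (
  .cons (fun d hd h0 => sy1 h0.2) (
  .cons (fun d hd h0 => sy2 h0.2) (
  .cons (fun d hd h0 => sy3 h0.2) (
  .cons (fun d hd h0 => h0 ex0x1) (
  .cons (fun d hd h0 => h0 ex0x2) (
  .cons (fun d hd h0 => h0 ex0y0) (
  .cons (fun d hd h0 => h0 ex0y1) (
  .cons (fun d hd h0 => ex0y2 h0) (
  .cons (fun d hd h0 => h0 ex0y3) (
  .cons (fun d hd h0 => h0 ex1x2) (
  .cons (fun d hd h0 => h0 ex1y0) (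
  .cons (fun d hd h0 => ex1y1 h0) (
  .cons (fun d hd h0 => ex1y2 h0) (
  .cons (fun d hd h0 => ex1y3 h0) (
  .cons (fun d hd h0 => h0 ex2y0) (
  .cons (fun d hd h0 => ex2y1 h0) (
  .cons (fun d hd h0 => ex2y2 h0) (
  .cons (fun d hd h0 => h0 ex2y3) (
  .cons (fun d hd h0 => h0 ey0y1) (
  .cons (fun d hd h0 => h0 ey0y2) (
  .cons (fun d hd h0 => h0 ey0y3) (
  .cons (fun d hd h0 => h0 ey1y2) (
  .cons (fun d hd h0 => h0 ey1y3) (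
  .cons (fun d hd h0 => h0 ey2y3) (
  .cons (fun d hd h0 => h0 (hx x2 y0 y2 y3 (.cons _ (.cons _ (.cons_cons _ (.cons_cons _ (.cons _ (.cons_cons _ (.cons_cons _ .slnil))))))))) (
  .cons (fun d hd h0 => h0 (hx y0 y1 y2 y3 (.cons _ (.cons _ (.cons _ (.cons_cons _ (.cons_cons _ (.cons_cons _ (.cons_cons _ .slnil))))))))) (
  .nil))))))))))))))))))))))))))))))))

end Pool.Agent.SOH
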