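import Pool.Agent.SOH.HdW
import Pool.Agent.SOK.WdG

/-! Project SOH (MP_66ba69_lc), module HdS: words for chains of three or four rows. -/

set_option autoImplicit false

namespace Pool.Agent.SOH

open Pool.Agent.SOC Pool.Agent.SOD Pool.Agent.RUP Pool.Agent.SOF Pool.Agent.SOG Pool.Agent.SOV Pool.Agent.SOS Pool.Agent.SOK

variable {V : Type} {G : SimpleGraph V} {W B : List V}

/-! ### mirror images -/

section
variable {α : Type} {f g : α → α → Prop} {cl : V → α}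

theorem rw_swp [DecidableEq V] (hf : ∀ {a b}, f a b → f b a) (h : RW f g G W B cl) : RW f g G B W cl where
  nd := by
    have h1 := h.nd
    exact (List.perm_append_comm.nodup_iff).1 h1
  vl := (Val_rotate h.nd).1 h.vl
  ax := fun {x y} hx hy => by
    rw [G.adj_comm, h.ax hy hx]
    exact ⟨hf, hf⟩
  aW := h.aB
  aB := h.aW

theorem rw_rvs [DecidableEq V] (h : RW f g G W B cl) : RW f g G W.reverse B.reverse cl where
  nd := by
    have h1 := (List.perm_append_comm.nodup_iff).1 h.nd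
    have h2 := List.nodup_reverse.2 h1
    rwa [List.reverse_append] at h2
  vl := by
    have h1 := (Val_rotate h.nd).1 h.vl
    have h2 := (Val_reverse ((List.perm_append_comm.nodup_iff).1 h.nd)).2 h1
    rwa [List.reverse_append] at h2
  ax := fun {x y} hx hy => h.ax (List.mem_reverse.1 hx) (List.mem_reverse.1 hy)
  aW := fun {x y} hx hy => h.aW (List.mem_reverse.1 hx) (List.mem_reverse.1 hy)
  aB := fun {x y} hx hy => h.aB (List.mem_reverse.1 hx) (List.mem_reverse.1 hy)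

end

/-- the pair of words does not contain the pattern or a mirror image -/
def Av {α : Type} (w c p q : List α) : Prop :=
  ¬ (p.Sublist w ∧ q.Sublist c) ∧ ¬ (q.Sublist w ∧ p.Sublist c) ∧ ¬ (p.reverse.Sublist w ∧ q.reverse.Sublist c) ∧
    ¬ (q.reverse.Sublist w ∧ p.reverse.Sublist c)

instance {α : Type} [DecidableEq α] {w c p q : List α} : Decidable (Av w c p q) := by
  unfold Av
  infer_instance

theorem Av.mono {α : Type} {w c w' c' p q : List α} (h : Av w c p q) (h1 : w'.Sublist w) (h2 : c'.Sublist c) : Av w' c' p q :=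
  ⟨fun e => h.1 ⟨e.1.trans h1, e.2.trans h2⟩, fun e => h.2.1 ⟨e.1.trans h1, e.2.trans h2⟩,
    fun e => h.2.2.1 ⟨e.1.trans h1, e.2.trans h2⟩, fun e => h.2.2.2 ⟨e.1.trans h1, e.2.trans h2⟩⟩

theorem fc_symm {k : ℕ} {a b : Fin k} (h : fc k a b) : fc k b a := by
  unfold fc at h ⊢
  omega

theorem av_of [DecidableEq V] {k : ℕ} {p q : List (Fin k)} {cl : V → Fin k}
    (key : ∀ {W B : List V}, RW (fc k) (gc k) G W B cl → p.Sublist (W.map cl) → q.Sublist (B.map cl) → False)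
    (h : RW (fc k) (gc k) G W B cl) : Av (W.map cl) (B.map cl) p q := by
  have rv : ∀ {l : List (Fin k)} {D : List V}, l.reverse.Sublist (D.map cl) → l.Sublist (D.reverse.map cl) := by
    intro l D e
    rw [List.map_reverse]
    have := e.reverse
    rwa [List.reverse_reverse] at this
  exact ⟨fun e => key h e.1 e.2, fun e => key (rw_swp fc_symm h) e.2 e.1, fun e => key (rw_rvs h) (rv e.1) (rv e.2),
    fun e => key (rw_rvs (rw_swp fc_symm h)) (rv e.2) (rv e.1)⟩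

/-- the patterns for three rows -/
def P3 (w c : List (Fin 3)) : Prop :=
  Av w c [0, 2] [0, 2, 1] ∧ Av w c [0, 1, 2] [1, 0] ∧ Av w c [0, 1] [1, 2, 0] ∧ Av w c [0, 2, 1] [0, 1] ∧
    Av w c [1] [2, 0, 1, 0, 1]

instance {w c : List (Fin 3)} : Decidable (P3 w c) := by
  unfold P3
  infer_instance

theorem p3_of [DecidableEq V] {cl : V → Fin 3} (h : RW (fc 3) (gc 3) G W B cl) : P3 (W.map cl) (B.map cl) :=
  ⟨av_of ha_w h, av_of hb_w h, av_of hc_w h, av_of hd_w h, av_of he_w h⟩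

/-- the patterns for four rows -/
def P4 (w c : List (Fin 4)) : Prop :=
  Av w c [0, 1, 2] [0, 1, 2] ∧ Av w c [1] [0, 2, 1, 3] ∧ Av w c [1] [0, 2, 3, 1] ∧ Av w c [1] [0, 3, 2, 1] ∧
  Av w c [1, 2, 3] [1, 0] ∧ Av w c [0, 2, 3] [2, 0] ∧ Av w c [1, 3, 2] [0, 3] ∧ Av w c [1] [2, 1, 3, 0] ∧
  Av w c [1, 3, 2] [0, 1] ∧ Av w c [1, 2] [3, 1, 0] ∧ Av w c [1] [3, 0, 2, 1] ∧ Av w c [0] [1, 3, 0, 2] ∧
  Av w c [2, 1] [0, 1, 2] ∧ Av w c [2, 0, 1] [3, 1, 0, 2]

instance {w c : List (Fin 4)} : Decidable (P4 w c) := by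
  unfold P4
  infer_instance

theorem p4_of [DecidableEq V] {cl : V → Fin 4} (h : RW (fc 4) (gc 4) G W B cl) : P4 (W.map cl) (B.map cl) :=
  ⟨av_of j0_w h, av_of j1_w h, av_of j2_w h, av_of j3_w h, av_of j4_w h, av_of j5_w h, av_of j6_w h, av_of j7_w h,
    av_of j8_w h, av_of j9_w h, av_of j10_w h, av_of j11_w h, av_of j12_w h, av_of j13_w h⟩

theorem P4.mono {w c w' c' : List (Fin 4)} (h : P4 w c) (h1 : w'.Sublist w) (h2 : c'.Sublist c) : P4 w' c' := by
  obtain ⟨a0, a1, a2, a3, a4, a5, a6, a7, a8, a9, a10, a11, a12, a13⟩ := h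
  exact ⟨a0.mono h1 h2, a1.mono h1 h2, a2.mono h1 h2, a3.mono h1 h2, a4.mono h1 h2, a5.mono h1 h2, a6.mono h1 h2,
    a7.mono h1 h2, a8.mono h1 h2, a9.mono h1 h2, a10.mono h1 h2, a11.mono h1 h2, a12.mono h1 h2, a13.mono h1 h2⟩

/-! ### words -/

/-- all words of length `n` -/
def alw (k : ℕ) : ℕ → List (List (Fin k))
  | 0 => [[]]
  | n + 1 => (alw k n).flatMap fun l => (List.finRange k).map fun a => a :: l

theorem mem_alw {k : ℕ} : ∀ {l : List (Fin k)} {n : ℕ}, l.length = n → l ∈ alw k n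
  | [], 0, _ => List.mem_singleton_self _
  | a :: l, n + 1, h => by
    unfold alw
    rw [List.mem_flatMap]
    exact ⟨l, mem_alw (by simpa using h), List.mem_map.2 ⟨a, List.mem_finRange a, rfl⟩⟩

theorem two_ord {α : Type} {l : List α} {a b : α} (ha : a ∈ l) (hb : b ∈ l) (hab : a ≠ b) :
    [a, b].Sublist l ∨ [b, a].Sublist l := by
  induction l with
  | nil => exact absurd ha List.not_mem_nil
  | cons c l ih =>
    rcases List.mem_cons.1 ha with e | ha'
    · subst e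
      rcases List.mem_cons.1 hb with e | hb'
      · exact absurd e.symm hab
      · exact Or.inl (.cons_cons _ (List.singleton_sublist.2 hb'))
    · rcases List.mem_cons.1 hb with e | hb'
      · subst e
        exact Or.inr (.cons_cons _ (List.singleton_sublist.2 ha'))
      · rcases ih ha' hb' with h | h
        · exact Or.inl (.cons _ h)
        · exact Or.inr (.cons _ h)

/-- facts about one word, three rows -/
def Q3 (w : List (Fin 3)) : Prop :=
  ¬ [0, 2, 1].Sublist w ∧ ¬ [1, 2, 0].Sublist w ∧ ¬ [2, 0, 1, 0, 1].Sublist w ∧ ¬ [1, 0, 1, 0, 2].Sublist w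

instance {w : List (Fin 3)} : Decidable (Q3 w) := by
  unfold Q3
  infer_instance

theorem Q3.mono {w w' : List (Fin 3)} (h : Q3 w) (h1 : w'.Sublist w) : Q3 w' :=
  ⟨fun e => h.1 (e.trans h1), fun e => h.2.1 (e.trans h1), fun e => h.2.2.1 (e.trans h1), fun e => h.2.2.2 (e.trans h1)⟩

theorem q3_of {w c : List (Fin 3)} (h : P3 w c) (hc : ∀ i, i ∈ c) : Q3 w := by
  obtain ⟨a0, a1, a2, a3, a4⟩ := h
  have h01 := two_ord (hc 0) (hc 1) (by decide)
  refine ⟨?_, ?_, ?_, ?_⟩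
  · intro e
    rcases h01 with k | k
    · exact a3.1 ⟨e, k⟩
    · exact a2.2.2.2 ⟨e, k⟩
  · intro e
    rcases h01 with k | k
    · exact a2.2.1 ⟨e, k⟩
    · exact a3.2.2.1 ⟨e, k⟩
  · exact fun e => a4.2.1 ⟨e, List.singleton_sublist.2 (hc 1)⟩
  · exact fun e => a4.2.2.2 ⟨e, List.singleton_sublist.2 (hc 1)⟩

/-- the words with three letters which can occur -/
def cand3 : List (List (Fin 3)) :=
  [[0, 1, 2], [1, 0, 2], [2, 0, 1], [2, 1, 0], [0, 1, 0, 2], [1, 0, 1, 2], [2, 0, 1, 0], [2, 0, 1, 2], [2, 1, 0, 1],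
    [2, 1, 0, 2], [0, 1, 0, 1, 2], [2, 0, 1, 0, 2], [2, 1, 0, 1, 0], [2, 1, 0, 1, 2]]

/-- the table: context, words -/
def tab3 : List (List (Fin 3) × List (List (Fin 3))) :=
  [([0, 1, 2], [[0, 1, 2], [2, 0, 1], [2, 0, 1, 2]]),
    ([1, 0, 2], [[1, 0, 2], [2, 0, 1], [2, 1, 0], [2, 0, 1, 0], [2, 1, 0, 1], [2, 1, 0, 2], [2, 1, 0, 1, 0]]),
    ([2, 0, 1], [[0, 1, 2], [1, 0, 2], [2, 0, 1], [0, 1, 0, 2], [1, 0, 1, 2], [2, 0, 1, 2], [0, 1, 0, 1, 2]]),
    ([2, 1, 0], [[1, 0, 2], [2, 1, 0], [2, 1, 0, 2]]),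
    ([0, 1, 0, 2], [[2, 0, 1]]),
    ([1, 0, 1, 2], [[2, 0, 1]]),
    ([2, 0, 1, 0], [[1, 0, 2]]),
    ([2, 0, 1, 2], [[0, 1, 2], [2, 0, 1], [2, 0, 1, 2]]),
    ([2, 1, 0, 1], [[1, 0, 2]]),
    ([2, 1, 0, 2], [[1, 0, 2], [2, 1, 0], [2, 1, 0, 2]]),
    ([0, 1, 0, 1, 2], [[2, 0, 1]]),
    ([2, 1, 0, 1, 0], [[1, 0, 2]])]

/-- neighbours are different -/
def chb {k : ℕ} : List (Fin k) → Bool
  | [] => true
  | [_] => true
  | a :: b :: l => decide (a ≠ b) && chb (b :: l)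

theorem chb_of {k : ℕ} : ∀ {l : List (Fin k)}, l.IsChain (fun a b => a ≠ b) → chb l = true
  | [], _ => rfl
  | [_], _ => rfl
  | a :: b :: l, h => by
    rw [List.isChain_cons_cons] at h
    unfold chb
    rw [Bool.and_eq_true, decide_eq_true_eq]
    exact ⟨h.1, chb_of h.2⟩

theorem chb_take {k : ℕ} : ∀ {l m : List (Fin k)}, chb (l ++ m) = true → chb l = true
  | [], _, _ => rfl
  | [_], _, _ => rfl
  | a :: b :: l, m, h => by
    rw [List.cons_append, List.cons_append] at h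
    unfold chb at h ⊢
    rw [Bool.and_eq_true] at h ⊢
    exact ⟨h.1, chb_take (l := b :: l) h.2⟩

set_option maxRecDepth 100000 in
theorem c3a : ∀ l ∈ alw 3 3 ++ (alw 3 4 ++ alw 3 5), chb l = true → (∀ i, i ∈ l) → Q3 l → l ∈ cand3 := by
  decide

set_option maxRecDepth 100000 in
theorem c3b : ∀ l ∈ alw 3 6, chb l = true → ((∀ i, i ∈ l) → ¬ Q3 l) ∧ ∀ x, x ∉ l → ¬ Q3 (l ++ [x]) := by
  decide

set_option maxRecDepth 100000 in
theorem c3t : ∀ w ∈ cand3, ∀ c ∈ cand3, P3 w c → ∃ t ∈ tab3, t.1 = c ∧ w ∈ t.2 := by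
  decide

/-- all letters: at least three -/
theorem len3 {w : List (Fin 3)} (ha : ∀ i, i ∈ w) : 3 ≤ w.length := by
  have h1 : (List.finRange 3).Subperm w := (List.nodup_finRange 3).subperm fun x _ => ha x
  have := h1.length_le
  simpa using this

theorem w3_cand {w : List (Fin 3)} (hc : w.IsChain (fun a b => a ≠ b)) (ha : ∀ i, i ∈ w) (hq : Q3 w) : w ∈ cand3 := by
  have hb := chb_of hc
  have l3 := len3 ha
  by_cases h6 : 6 ≤ w.length
  · exfalso
    have e : w = w.take 6 ++ w.drop 6 := (List.take_append_drop 6 w).symm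
    have m : w.take 6 ∈ alw 3 6 := mem_alw (by rw [List.length_take]; omega)
    obtain ⟨h1, h2⟩ := c3b _ m (chb_take (m := w.drop 6) (by rw [← e]; exact hb))
    by_cases h3 : ∀ i, i ∈ w.take 6
    · exact h1 h3 (hq.mono (List.take_sublist 6 w))
    · push Not at h3
      obtain ⟨x, hx⟩ := h3
      have h4 : x ∈ w.drop 6 := by
        have h5 := ha x
        rw [e, List.mem_append] at h5
        exact h5.resolve_left hx
      refine h2 x hx (hq.mono ?_)
      rw (occs := .pos [2]) [e]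
      exact List.Sublist.append (List.Sublist.refl _) (List.singleton_sublist.2 h4)
  · refine c3a w ?_ hb ha hq
    rcases (by omega : w.length = 3 ∨ w.length = 4 ∨ w.length = 5) with e | e | e
    · exact List.mem_append_left _ (mem_alw e)
    · exact List.mem_append_right _ (List.mem_append_left _ (mem_alw e))
    · exact List.mem_append_right _ (List.mem_append_right _ (mem_alw e))

theorem P3.symm {w c : List (Fin 3)} (h : P3 w c) : P3 c w := by
  have av : ∀ {p q : List (Fin 3)}, Av w c p q → Av c w p q := fun h =>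
    ⟨fun e => h.2.1 ⟨e.2, e.1⟩, fun e => h.1 ⟨e.2, e.1⟩, fun e => h.2.2.2 ⟨e.2, e.1⟩, fun e => h.2.2.1 ⟨e.2, e.1⟩⟩
  exact ⟨av h.1, av h.2.1, av h.2.2.1, av h.2.2.2.1, av h.2.2.2.2⟩

/-- THE WORDS FOR THREE ROWS -/
theorem tab3_of [DecidableEq V] {cl : V → Fin 3} (h : RW (fc 3) (gc 3) G W B cl) (cW : (W.map cl).IsChain (fun a b => a ≠ b))
    (cB : (B.map cl).IsChain (fun a b => a ≠ b)) (aW : ∀ i, i ∈ W.map cl) (aB : ∀ i, i ∈ B.map cl) :
    ∃ t ∈ tab3, t.1 = B.map cl ∧ W.map cl ∈ t.2 :=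
  c3t _ (w3_cand cW aW (q3_of (p3_of h) aB)) _ (w3_cand cB aB (q3_of (p3_of h).symm aW)) (p3_of h)

end Pool.Agent.SOH
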