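import Pool.Agent.SOH.HdR
import Pool.Agent.SOK.WdL

/-! Project SOH (MP_66ba69_lc), module HdW: forbidden words for chains of rows (generated). -/

set_option autoImplicit false
set_option linter.unusedVariables false
set_option linter.unusedSimpArgs false

namespace Pool.Agent.SOH

open Pool.Agent.SOC Pool.Agent.SOD Pool.Agent.RUP Pool.Agent.SOF Pool.Agent.SOG Pool.Agent.SOV Pool.Agent.SOS Pool.Agent.SOK

variable {U V : Type} {G : SimpleGraph V} {W B : List V}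

/-- chain of `k` rows, the class is the size of the row: across -/
def fc (k : ℕ) (a b : Fin k) : Prop := k ≤ a.val + b.val + 1

/-- chain of `k` rows: same side -/
def gc (k : ℕ) (a b : Fin k) : Prop := a ≠ b ∨ 0 < a.val

instance {k : ℕ} {a b : Fin k} : Decidable (fc k a b) := inferInstanceAs (Decidable (k ≤ a.val + b.val + 1))

instance {k : ℕ} {a b : Fin k} : Decidable (gc k a b) := inferInstanceAs (Decidable (a ≠ b ∨ 0 < a.val))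

theorem ha_w [DecidableEq V] {cl : V → Fin 3} (h : RW (fc 3) (gc 3) G W B cl)
    (h1 : [0, 2].Sublist (W.map cl))
    (h2 : [0, 2, 1].Sublist (B.map cl)) : False := by
  obtain ⟨U, fn, Y, m⟩ := mdl_ex h.nd h.vl
  obtain ⟨la, sa, ea⟩ := lift_pat m (D := W) (fun v hv => List.mem_append_left _ hv) h1
  obtain ⟨x0, la, rfl, cx0, ea⟩ := List.map_eq_cons_iff.1 ea
  obtain ⟨x1, la, rfl, cx1, ea⟩ := List.map_eq_cons_iff.1 ea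
  obtain rfl := List.map_eq_nil_iff.1 ea
  have mx0 : fn x0 ∈ W := sa.subset (by simp)
  have mx1 : fn x1 ∈ W := sa.subset (by simp)
  obtain ⟨lb, sb, eb⟩ := lift_pat m (D := B) (fun v hv => List.mem_append_right _ hv) h2
  obtain ⟨y0, lb, rfl, cy0, eb⟩ := List.map_eq_cons_iff.1 eb
  obtain ⟨y1, lb, rfl, cy1, eb⟩ := List.map_eq_cons_iff.1 eb
  obtain ⟨y2, lb, rfl, cy2, eb⟩ := List.map_eq_cons_iff.1 eb
  obtain rfl := List.map_eq_nil_iff.1 eb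
  have my0 : fn y0 ∈ B := sb.subset (by simp)
  have my1 : fn y1 ∈ B := sb.subset (by simp)
  have my2 : fn y2 ∈ B := sb.subset (by simp)
  have hs : ([x0, x1, y0, y1, y2].map fn).Sublist (W ++ B) := sa.append sb
  have hn := m.nd h.nd hs
  have hn2 := hs.nodup h.nd
  simp only [List.map_cons, List.map_nil, List.nodup_cons, List.mem_cons, List.not_mem_nil, or_false, not_or, not_false_eq_true,
    List.nodup_nil, and_true] at hn2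
  obtain ⟨⟨n0_1, n0_2, n0_3, n0_4⟩, ⟨n1_2, n1_3, n1_4⟩, ⟨n2_3, n2_4⟩, n3_4⟩ := hn2
  have ex0x1 : Y.G.Adj x0 x1 := (m.adj _ _).2 ((h.aW mx0 mx1 n0_1).2 (by rw [cx0, cx1]; decide))
  have ex0y0 : ¬ Y.G.Adj x0 y0 := fun e => absurd ((h.ax mx0 my0).1 ((m.adj _ _).1 e)) (by rw [cx0, cy0]; decide)
  have ex0y1 : Y.G.Adj x0 y1 := (m.adj _ _).2 ((h.ax mx0 my1).2 (by rw [cx0, cy1]; decide))
  have ex0y2 : ¬ Y.G.Adj x0 y2 := fun e => absurd ((h.ax mx0 my2).1 ((m.adj _ _).1 e)) (by rw [cx0, cy2]; decide)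
  have ex1y0 : Y.G.Adj x1 y0 := (m.adj _ _).2 ((h.ax mx1 my0).2 (by rw [cx1, cy0]; decide))
  have ex1y1 : Y.G.Adj x1 y1 := (m.adj _ _).2 ((h.ax mx1 my1).2 (by rw [cx1, cy1]; decide))
  have ex1y2 : Y.G.Adj x1 y2 := (m.adj _ _).2 ((h.ax mx1 my2).2 (by rw [cx1, cy2]; decide))
  have ey0y1 : Y.G.Adj y0 y1 := (m.adj _ _).2 ((h.aB my0 my1 n2_3).2 (by rw [cy0, cy1]; decide))
  have ey0y2 : Y.G.Adj y0 y2 := (m.adj _ _).2 ((h.aB my0 my2 n2_4).2 (by rw [cy0, cy2]; decide))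
  have ey1y2 : Y.G.Adj y1 y2 := (m.adj _ _).2 ((h.aB my1 my2 n3_4).2 (by rw [cy1, cy2]; decide))
  exact ha m.hq hn (m.sW _ mx0) (m.sW _ mx1) (m.sB _ my0) (m.sB _ my1) (m.sB _ my2) ex0x1 ex0y0 ex0y1 ex0y2 ex1y0 ex1y1 ex1y2 ey0y1 ey0y2 ey1y2 (m.sub hs)

theorem hb_w [DecidableEq V] {cl : V → Fin 3} (h : RW (fc 3) (gc 3) G W B cl)
    (h1 : [0, 1, 2].Sublist (W.map cl))
    (h2 : [1, 0].Sublist (B.map cl)) : False := by
  obtain ⟨U, fn, Y, m⟩ := mdl_ex h.nd h.vl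
  obtain ⟨la, sa, ea⟩ := lift_pat m (D := W) (fun v hv => List.mem_append_left _ hv) h1
  obtain ⟨x0, la, rfl, cx0, ea⟩ := List.map_eq_cons_iff.1 ea
  obtain ⟨x1, la, rfl, cx1, ea⟩ := List.map_eq_cons_iff.1 ea
  obtain ⟨x2, la, rfl, cx2, ea⟩ := List.map_eq_cons_iff.1 ea
  obtain rfl := List.map_eq_nil_iff.1 ea
  have mx0 : fn x0 ∈ W := sa.subset (by simp)
  have mx1 : fn x1 ∈ W := sa.subset (by simp)
  have mx2 : fn x2 ∈ W := sa.subset (by simp)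
  obtain ⟨lb, sb, eb⟩ := lift_pat m (D := B) (fun v hv => List.mem_append_right _ hv) h2
  obtain ⟨y0, lb, rfl, cy0, eb⟩ := List.map_eq_cons_iff.1 eb
  obtain ⟨y1, lb, rfl, cy1, eb⟩ := List.map_eq_cons_iff.1 eb
  obtain rfl := List.map_eq_nil_iff.1 eb
  have my0 : fn y0 ∈ B := sb.subset (by simp)
  have my1 : fn y1 ∈ B := sb.subset (by simp)
  have hs : ([x0, x1, x2, y0, y1].map fn).Sublist (W ++ B) := sa.append sb
  have hn := m.nd h.nd hs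
  have hn2 := hs.nodup h.nd
  simp only [List.map_cons, List.map_nil, List.nodup_cons, List.mem_cons, List.not_mem_nil, or_false, not_or, not_false_eq_true,
    List.nodup_nil, and_true] at hn2
  obtain ⟨⟨n0_1, n0_2, n0_3, n0_4⟩, ⟨n1_2, n1_3, n1_4⟩, ⟨n2_3, n2_4⟩, n3_4⟩ := hn2
  have ex0x1 : Y.G.Adj x0 x1 := (m.adj _ _).2 ((h.aW mx0 mx1 n0_1).2 (by rw [cx0, cx1]; decide))
  have ex0x2 : Y.G.Adj x0 x2 := (m.adj _ _).2 ((h.aW mx0 mx2 n0_2).2 (by rw [cx0, cx2]; decide))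
  have ex0y0 : ¬ Y.G.Adj x0 y0 := fun e => absurd ((h.ax mx0 my0).1 ((m.adj _ _).1 e)) (by rw [cx0, cy0]; decide)
  have ex0y1 : ¬ Y.G.Adj x0 y1 := fun e => absurd ((h.ax mx0 my1).1 ((m.adj _ _).1 e)) (by rw [cx0, cy1]; decide)
  have ex1x2 : Y.G.Adj x1 x2 := (m.adj _ _).2 ((h.aW mx1 mx2 n1_2).2 (by rw [cx1, cx2]; decide))
  have ex1y0 : Y.G.Adj x1 y0 := (m.adj _ _).2 ((h.ax mx1 my0).2 (by rw [cx1, cy0]; decide))
  have ex1y1 : ¬ Y.G.Adj x1 y1 := fun e => absurd ((h.ax mx1 my1).1 ((m.adj _ _).1 e)) (by rw [cx1, cy1]; decide)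
  have ex2y0 : Y.G.Adj x2 y0 := (m.adj _ _).2 ((h.ax mx2 my0).2 (by rw [cx2, cy0]; decide))
  have ex2y1 : Y.G.Adj x2 y1 := (m.adj _ _).2 ((h.ax mx2 my1).2 (by rw [cx2, cy1]; decide))
  have ey0y1 : Y.G.Adj y0 y1 := (m.adj _ _).2 ((h.aB my0 my1 n3_4).2 (by rw [cy0, cy1]; decide))
  exact hb m.hq hn (m.sW _ mx0) (m.sW _ mx1) (m.sW _ mx2) (m.sB _ my0) (m.sB _ my1) ex0x1 ex0x2 ex0y0 ex0y1 ex1x2 ex1y0 ex1y1 ex2y0 ex2y1 ey0y1 (m.sub hs)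

theorem hc_w [DecidableEq V] {cl : V → Fin 3} (h : RW (fc 3) (gc 3) G W B cl)
    (h1 : [0, 1].Sublist (W.map cl))
    (h2 : [1, 2, 0].Sublist (B.map cl)) : False := by
  obtain ⟨U, fn, Y, m⟩ := mdl_ex h.nd h.vl
  obtain ⟨la, sa, ea⟩ := lift_pat m (D := W) (fun v hv => List.mem_append_left _ hv) h1
  obtain ⟨x0, la, rfl, cx0, ea⟩ := List.map_eq_cons_iff.1 ea
  obtain ⟨x1, la, rfl, cx1, ea⟩ := List.map_eq_cons_iff.1 ea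
  obtain rfl := List.map_eq_nil_iff.1 ea
  have mx0 : fn x0 ∈ W := sa.subset (by simp)
  have mx1 : fn x1 ∈ W := sa.subset (by simp)
  obtain ⟨lb, sb, eb⟩ := lift_pat m (D := B) (fun v hv => List.mem_append_right _ hv) h2
  obtain ⟨y0, lb, rfl, cy0, eb⟩ := List.map_eq_cons_iff.1 eb
  obtain ⟨y1, lb, rfl, cy1, eb⟩ := List.map_eq_cons_iff.1 eb
  obtain ⟨y2, lb, rfl, cy2, eb⟩ := List.map_eq_cons_iff.1 eb
  obtain rfl := List.map_eq_nil_iff.1 eb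
  have my0 : fn y0 ∈ B := sb.subset (by simp)
  have my1 : fn y1 ∈ B := sb.subset (by simp)
  have my2 : fn y2 ∈ B := sb.subset (by simp)
  have hs : ([x0, x1, y0, y1, y2].map fn).Sublist (W ++ B) := sa.append sb
  have hn := m.nd h.nd hs
  have hn2 := hs.nodup h.nd
  simp only [List.map_cons, List.map_nil, List.nodup_cons, List.mem_cons, List.not_mem_nil, or_false, not_or, not_false_eq_true,
    List.nodup_nil, and_true] at hn2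
  obtain ⟨⟨n0_1, n0_2, n0_3, n0_4⟩, ⟨n1_2, n1_3, n1_4⟩, ⟨n2_3, n2_4⟩, n3_4⟩ := hn2
  have ex0x1 : Y.G.Adj x0 x1 := (m.adj _ _).2 ((h.aW mx0 mx1 n0_1).2 (by rw [cx0, cx1]; decide))
  have ex0y0 : ¬ Y.G.Adj x0 y0 := fun e => absurd ((h.ax mx0 my0).1 ((m.adj _ _).1 e)) (by rw [cx0, cy0]; decide)
  have ex0y1 : Y.G.Adj x0 y1 := (m.adj _ _).2 ((h.ax mx0 my1).2 (by rw [cx0, cy1]; decide))
  have ex0y2 : ¬ Y.G.Adj x0 y2 := fun e => absurd ((h.ax mx0 my2).1 ((m.adj _ _).1 e)) (by rw [cx0, cy2]; decide)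
  have ex1y0 : Y.G.Adj x1 y0 := (m.adj _ _).2 ((h.ax mx1 my0).2 (by rw [cx1, cy0]; decide))
  have ex1y1 : Y.G.Adj x1 y1 := (m.adj _ _).2 ((h.ax mx1 my1).2 (by rw [cx1, cy1]; decide))
  have ex1y2 : ¬ Y.G.Adj x1 y2 := fun e => absurd ((h.ax mx1 my2).1 ((m.adj _ _).1 e)) (by rw [cx1, cy2]; decide)
  have ey0y1 : Y.G.Adj y0 y1 := (m.adj _ _).2 ((h.aB my0 my1 n2_3).2 (by rw [cy0, cy1]; decide))
  have ey0y2 : Y.G.Adj y0 y2 := (m.adj _ _).2 ((h.aB my0 my2 n2_4).2 (by rw [cy0, cy2]; decide))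
  have ey1y2 : Y.G.Adj y1 y2 := (m.adj _ _).2 ((h.aB my1 my2 n3_4).2 (by rw [cy1, cy2]; decide))
  exact hc m.hq hn (m.sW _ mx0) (m.sW _ mx1) (m.sB _ my0) (m.sB _ my1) (m.sB _ my2) ex0x1 ex0y0 ex0y1 ex0y2 ex1y0 ex1y1 ex1y2 ey0y1 ey0y2 ey1y2 (m.sub hs)

theorem hd_w [DecidableEq V] {cl : V → Fin 3} (h : RW (fc 3) (gc 3) G W B cl)
    (h1 : [0, 2, 1].Sublist (W.map cl))
    (h2 : [0, 1].Sublist (B.map cl)) : False := by
  obtain ⟨U, fn, Y, m⟩ := mdl_ex h.nd h.vl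
  obtain ⟨la, sa, ea⟩ := lift_pat m (D := W) (fun v hv => List.mem_append_left _ hv) h1
  obtain ⟨x0, la, rfl, cx0, ea⟩ := List.map_eq_cons_iff.1 ea
  obtain ⟨x1, la, rfl, cx1, ea⟩ := List.map_eq_cons_iff.1 ea
  obtain ⟨x2, la, rfl, cx2, ea⟩ := List.map_eq_cons_iff.1 ea
  obtain rfl := List.map_eq_nil_iff.1 ea
  have mx0 : fn x0 ∈ W := sa.subset (by simp)
  have mx1 : fn x1 ∈ W := sa.subset (by simp)
  have mx2 : fn x2 ∈ W := sa.subset (by simp)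
  obtain ⟨lb, sb, eb⟩ := lift_pat m (D := B) (fun v hv => List.mem_append_right _ hv) h2
  obtain ⟨y0, lb, rfl, cy0, eb⟩ := List.map_eq_cons_iff.1 eb
  obtain ⟨y1, lb, rfl, cy1, eb⟩ := List.map_eq_cons_iff.1 eb
  obtain rfl := List.map_eq_nil_iff.1 eb
  have my0 : fn y0 ∈ B := sb.subset (by simp)
  have my1 : fn y1 ∈ B := sb.subset (by simp)
  have hs : ([x0, x1, x2, y0, y1].map fn).Sublist (W ++ B) := sa.append sb
  have hn := m.nd h.nd hs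
  have hn2 := hs.nodup h.nd
  simp only [List.map_cons, List.map_nil, List.nodup_cons, List.mem_cons, List.not_mem_nil, or_false, not_or, not_false_eq_true,
    List.nodup_nil, and_true] at hn2
  obtain ⟨⟨n0_1, n0_2, n0_3, n0_4⟩, ⟨n1_2, n1_3, n1_4⟩, ⟨n2_3, n2_4⟩, n3_4⟩ := hn2
  have ex0x1 : Y.G.Adj x0 x1 := (m.adj _ _).2 ((h.aW mx0 mx1 n0_1).2 (by rw [cx0, cx1]; decide))
  have ex0x2 : Y.G.Adj x0 x2 := (m.adj _ _).2 ((h.aW mx0 mx2 n0_2).2 (by rw [cx0, cx2]; decide))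
  have ex0y0 : ¬ Y.G.Adj x0 y0 := fun e => absurd ((h.ax mx0 my0).1 ((m.adj _ _).1 e)) (by rw [cx0, cy0]; decide)
  have ex0y1 : ¬ Y.G.Adj x0 y1 := fun e => absurd ((h.ax mx0 my1).1 ((m.adj _ _).1 e)) (by rw [cx0, cy1]; decide)
  have ex1x2 : Y.G.Adj x1 x2 := (m.adj _ _).2 ((h.aW mx1 mx2 n1_2).2 (by rw [cx1, cx2]; decide))
  have ex1y0 : Y.G.Adj x1 y0 := (m.adj _ _).2 ((h.ax mx1 my0).2 (by rw [cx1, cy0]; decide))
  have ex1y1 : Y.G.Adj x1 y1 := (m.adj _ _).2 ((h.ax mx1 my1).2 (by rw [cx1, cy1]; decide))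
  have ex2y0 : ¬ Y.G.Adj x2 y0 := fun e => absurd ((h.ax mx2 my0).1 ((m.adj _ _).1 e)) (by rw [cx2, cy0]; decide)
  have ex2y1 : Y.G.Adj x2 y1 := (m.adj _ _).2 ((h.ax mx2 my1).2 (by rw [cx2, cy1]; decide))
  have ey0y1 : Y.G.Adj y0 y1 := (m.adj _ _).2 ((h.aB my0 my1 n3_4).2 (by rw [cy0, cy1]; decide))
  exact hd m.hq hn (m.sW _ mx0) (m.sW _ mx1) (m.sW _ mx2) (m.sB _ my0) (m.sB _ my1) ex0x1 ex0x2 ex0y0 ex0y1 ex1x2 ex1y0 ex1y1 ex2y0 ex2y1 ey0y1 (m.sub hs)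

theorem he_w [DecidableEq V] {cl : V → Fin 3} (h : RW (fc 3) (gc 3) G W B cl)
    (h1 : [1].Sublist (W.map cl))
    (h2 : [2, 0, 1, 0, 1].Sublist (B.map cl)) : False := by
  obtain ⟨U, fn, Y, m⟩ := mdl_ex h.nd h.vl
  obtain ⟨la, sa, ea⟩ := lift_pat m (D := W) (fun v hv => List.mem_append_left _ hv) h1
  obtain ⟨x0, la, rfl, cx0, ea⟩ := List.map_eq_cons_iff.1 ea
  obtain rfl := List.map_eq_nil_iff.1 ea
  have mx0 : fn x0 ∈ W := sa.subset (by simp)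
  obtain ⟨lb, sb, eb⟩ := lift_pat m (D := B) (fun v hv => List.mem_append_right _ hv) h2
  obtain ⟨y0, lb, rfl, cy0, eb⟩ := List.map_eq_cons_iff.1 eb
  obtain ⟨y1, lb, rfl, cy1, eb⟩ := List.map_eq_cons_iff.1 eb
  obtain ⟨y2, lb, rfl, cy2, eb⟩ := List.map_eq_cons_iff.1 eb
  obtain ⟨y3, lb, rfl, cy3, eb⟩ := List.map_eq_cons_iff.1 eb
  obtain ⟨y4, lb, rfl, cy4, eb⟩ := List.map_eq_cons_iff.1 eb
  obtain rfl := List.map_eq_nil_iff.1 eb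
  have my0 : fn y0 ∈ B := sb.subset (by simp)
  have my1 : fn y1 ∈ B := sb.subset (by simp)
  have my2 : fn y2 ∈ B := sb.subset (by simp)
  have my3 : fn y3 ∈ B := sb.subset (by simp)
  have my4 : fn y4 ∈ B := sb.subset (by simp)
  have hs : ([x0, y0, y1, y2, y3, y4].map fn).Sublist (W ++ B) := sa.append sb
  have hn := m.nd h.nd hs
  have hn2 := hs.nodup h.nd
  simp only [List.map_cons, List.map_nil, List.nodup_cons, List.mem_cons, List.not_mem_nil, or_false, not_or, not_false_eq_true,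
    List.nodup_nil, and_true] at hn2
  obtain ⟨⟨n0_1, n0_2, n0_3, n0_4, n0_5⟩, ⟨n1_2, n1_3, n1_4, n1_5⟩, ⟨n2_3, n2_4, n2_5⟩, ⟨n3_4, n3_5⟩, n4_5⟩ := hn2
  have ex0y0 : Y.G.Adj x0 y0 := (m.adj _ _).2 ((h.ax mx0 my0).2 (by rw [cx0, cy0]; decide))
  have ex0y1 : ¬ Y.G.Adj x0 y1 := fun e => absurd ((h.ax mx0 my1).1 ((m.adj _ _).1 e)) (by rw [cx0, cy1]; decide)
  have ex0y2 : Y.G.Adj x0 y2 := (m.adj _ _).2 ((h.ax mx0 my2).2 (by rw [cx0, cy2]; decide))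
  have ex0y3 : ¬ Y.G.Adj x0 y3 := fun e => absurd ((h.ax mx0 my3).1 ((m.adj _ _).1 e)) (by rw [cx0, cy3]; decide)
  have ex0y4 : Y.G.Adj x0 y4 := (m.adj _ _).2 ((h.ax mx0 my4).2 (by rw [cx0, cy4]; decide))
  have ey0y1 : Y.G.Adj y0 y1 := (m.adj _ _).2 ((h.aB my0 my1 n1_2).2 (by rw [cy0, cy1]; decide))
  have ey0y2 : Y.G.Adj y0 y2 := (m.adj _ _).2 ((h.aB my0 my2 n1_3).2 (by rw [cy0, cy2]; decide))
  have ey0y3 : Y.G.Adj y0 y3 := (m.adj _ _).2 ((h.aB my0 my3 n1_4).2 (by rw [cy0, cy3]; decide))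
  have ey0y4 : Y.G.Adj y0 y4 := (m.adj _ _).2 ((h.aB my0 my4 n1_5).2 (by rw [cy0, cy4]; decide))
  have ey1y2 : Y.G.Adj y1 y2 := (m.adj _ _).2 ((h.aB my1 my2 n2_3).2 (by rw [cy1, cy2]; decide))
  have ey1y3 : ¬ Y.G.Adj y1 y3 := fun e => absurd ((h.aB my1 my3 n2_4).1 ((m.adj _ _).1 e)) (by rw [cy1, cy3]; decide)
  have ey1y4 : Y.G.Adj y1 y4 := (m.adj _ _).2 ((h.aB my1 my4 n2_5).2 (by rw [cy1, cy4]; decide))
  have ey2y3 : Y.G.Adj y2 y3 := (m.adj _ _).2 ((h.aB my2 my3 n3_4).2 (by rw [cy2, cy3]; decide))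
  have ey2y4 : Y.G.Adj y2 y4 := (m.adj _ _).2 ((h.aB my2 my4 n3_5).2 (by rw [cy2, cy4]; decide))
  have ey3y4 : Y.G.Adj y3 y4 := (m.adj _ _).2 ((h.aB my3 my4 n4_5).2 (by rw [cy3, cy4]; decide))
  exact he m.hq hn (m.sW _ mx0) (m.sB _ my0) (m.sB _ my1) (m.sB _ my2) (m.sB _ my3) (m.sB _ my4) ex0y0 ex0y1 ex0y2 ex0y3 ex0y4 ey0y1 ey0y2 ey0y3 ey0y4 ey1y2 ey1y3 ey1y4 ey2y3 ey2y4 ey3y4 (m.sub hs)

theorem j0_w [DecidableEq V] {cl : V → Fin 4} (h : RW (fc 4) (gc 4) G W B cl)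
    (h1 : [0, 1, 2].Sublist (W.map cl))
    (h2 : [0, 1, 2].Sublist (B.map cl)) : False := by
  obtain ⟨U, fn, Y, m⟩ := mdl_ex h.nd h.vl
  obtain ⟨la, sa, ea⟩ := lift_pat m (D := W) (fun v hv => List.mem_append_left _ hv) h1
  obtain ⟨x0, la, rfl, cx0, ea⟩ := List.map_eq_cons_iff.1 ea
  obtain ⟨x1, la, rfl, cx1, ea⟩ := List.map_eq_cons_iff.1 ea
  obtain ⟨x2, la, rfl, cx2, ea⟩ := List.map_eq_cons_iff.1 ea
  obtain rfl := List.map_eq_nil_iff.1 ea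
  have mx0 : fn x0 ∈ W := sa.subset (by simp)
  have mx1 : fn x1 ∈ W := sa.subset (by simp)
  have mx2 : fn x2 ∈ W := sa.subset (by simp)
  obtain ⟨lb, sb, eb⟩ := lift_pat m (D := B) (fun v hv => List.mem_append_right _ hv) h2
  obtain ⟨y0, lb, rfl, cy0, eb⟩ := List.map_eq_cons_iff.1 eb
  obtain ⟨y1, lb, rfl, cy1, eb⟩ := List.map_eq_cons_iff.1 eb
  obtain ⟨y2, lb, rfl, cy2, eb⟩ := List.map_eq_cons_iff.1 eb
  obtain rfl := List.map_eq_nil_iff.1 eb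
  have my0 : fn y0 ∈ B := sb.subset (by simp)
  have my1 : fn y1 ∈ B := sb.subset (by simp)
  have my2 : fn y2 ∈ B := sb.subset (by simp)
  have hs : ([x0, x1, x2, y0, y1, y2].map fn).Sublist (W ++ B) := sa.append sb
  have hn := m.nd h.nd hs
  have hn2 := hs.nodup h.nd
  simp only [List.map_cons, List.map_nil, List.nodup_cons, List.mem_cons, List.not_mem_nil, or_false, not_or, not_false_eq_true,
    List.nodup_nil, and_true] at hn2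
  obtain ⟨⟨n0_1, n0_2, n0_3, n0_4, n0_5⟩, ⟨n1_2, n1_3, n1_4, n1_5⟩, ⟨n2_3, n2_4, n2_5⟩, ⟨n3_4, n3_5⟩, n4_5⟩ := hn2
  have ex0x1 : Y.G.Adj x0 x1 := (m.adj _ _).2 ((h.aW mx0 mx1 n0_1).2 (by rw [cx0, cx1]; decide))
  have ex0x2 : Y.G.Adj x0 x2 := (m.adj _ _).2 ((h.aW mx0 mx2 n0_2).2 (by rw [cx0, cx2]; decide))
  have ex0y0 : ¬ Y.G.Adj x0 y0 := fun e => absurd ((h.ax mx0 my0).1 ((m.adj _ _).1 e)) (by rw [cx0, cy0]; decide)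
  have ex0y1 : ¬ Y.G.Adj x0 y1 := fun e => absurd ((h.ax mx0 my1).1 ((m.adj _ _).1 e)) (by rw [cx0, cy1]; decide)
  have ex0y2 : ¬ Y.G.Adj x0 y2 := fun e => absurd ((h.ax mx0 my2).1 ((m.adj _ _).1 e)) (by rw [cx0, cy2]; decide)
  have ex1x2 : Y.G.Adj x1 x2 := (m.adj _ _).2 ((h.aW mx1 mx2 n1_2).2 (by rw [cx1, cx2]; decide))
  have ex1y0 : ¬ Y.G.Adj x1 y0 := fun e => absurd ((h.ax mx1 my0).1 ((m.adj _ _).1 e)) (by rw [cx1, cy0]; decide)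
  have ex1y1 : ¬ Y.G.Adj x1 y1 := fun e => absurd ((h.ax mx1 my1).1 ((m.adj _ _).1 e)) (by rw [cx1, cy1]; decide)
  have ex1y2 : Y.G.Adj x1 y2 := (m.adj _ _).2 ((h.ax mx1 my2).2 (by rw [cx1, cy2]; decide))
  have ex2y0 : ¬ Y.G.Adj x2 y0 := fun e => absurd ((h.ax mx2 my0).1 ((m.adj _ _).1 e)) (by rw [cx2, cy0]; decide)
  have ex2y1 : Y.G.Adj x2 y1 := (m.adj _ _).2 ((h.ax mx2 my1).2 (by rw [cx2, cy1]; decide))
  have ex2y2 : Y.G.Adj x2 y2 := (m.adj _ _).2 ((h.ax mx2 my2).2 (by rw [cx2, cy2]; decide))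
  have ey0y1 : Y.G.Adj y0 y1 := (m.adj _ _).2 ((h.aB my0 my1 n3_4).2 (by rw [cy0, cy1]; decide))
  have ey0y2 : Y.G.Adj y0 y2 := (m.adj _ _).2 ((h.aB my0 my2 n3_5).2 (by rw [cy0, cy2]; decide))
  have ey1y2 : Y.G.Adj y1 y2 := (m.adj _ _).2 ((h.aB my1 my2 n4_5).2 (by rw [cy1, cy2]; decide))
  exact j0 m.hq hn (m.sW _ mx0) (m.sW _ mx1) (m.sW _ mx2) (m.sB _ my0) (m.sB _ my1) (m.sB _ my2) ex0x1 ex0x2 ex0y0 ex0y1 ex0y2 ex1x2 ex1y0 ex1y1 ex1y2 ex2y0 ex2y1 ex2y2 ey0y1 ey0y2 ey1y2 (m.sub hs)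

theorem j1_w [DecidableEq V] {cl : V → Fin 4} (h : RW (fc 4) (gc 4) G W B cl)
    (h1 : [1].Sublist (W.map cl))
    (h2 : [0, 2, 1, 3].Sublist (B.map cl)) : False := by
  obtain ⟨U, fn, Y, m⟩ := mdl_ex h.nd h.vl
  obtain ⟨la, sa, ea⟩ := lift_pat m (D := W) (fun v hv => List.mem_append_left _ hv) h1
  obtain ⟨x0, la, rfl, cx0, ea⟩ := List.map_eq_cons_iff.1 ea
  obtain rfl := List.map_eq_nil_iff.1 ea
  have mx0 : fn x0 ∈ W := sa.subset (by simp)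
  obtain ⟨lb, sb, eb⟩ := lift_pat m (D := B) (fun v hv => List.mem_append_right _ hv) h2
  obtain ⟨y0, lb, rfl, cy0, eb⟩ := List.map_eq_cons_iff.1 eb
  obtain ⟨y1, lb, rfl, cy1, eb⟩ := List.map_eq_cons_iff.1 eb
  obtain ⟨y2, lb, rfl, cy2, eb⟩ := List.map_eq_cons_iff.1 eb
  obtain ⟨y3, lb, rfl, cy3, eb⟩ := List.map_eq_cons_iff.1 eb
  obtain rfl := List.map_eq_nil_iff.1 eb
  have my0 : fn y0 ∈ B := sb.subset (by simp)
  have my1 : fn y1 ∈ B := sb.subset (by simp)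
  have my2 : fn y2 ∈ B := sb.subset (by simp)
  have my3 : fn y3 ∈ B := sb.subset (by simp)
  have hs : ([x0, y0, y1, y2, y3].map fn).Sublist (W ++ B) := sa.append sb
  have hn := m.nd h.nd hs
  have hn2 := hs.nodup h.nd
  simp only [List.map_cons, List.map_nil, List.nodup_cons, List.mem_cons, List.not_mem_nil, or_false, not_or, not_false_eq_true,
    List.nodup_nil, and_true] at hn2
  obtain ⟨⟨n0_1, n0_2, n0_3, n0_4⟩, ⟨n1_2, n1_3, n1_4⟩, ⟨n2_3, n2_4⟩, n3_4⟩ := hn2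
  have ex0y0 : ¬ Y.G.Adj x0 y0 := fun e => absurd ((h.ax mx0 my0).1 ((m.adj _ _).1 e)) (by rw [cx0, cy0]; decide)
  have ex0y1 : Y.G.Adj x0 y1 := (m.adj _ _).2 ((h.ax mx0 my1).2 (by rw [cx0, cy1]; decide))
  have ex0y2 : ¬ Y.G.Adj x0 y2 := fun e => absurd ((h.ax mx0 my2).1 ((m.adj _ _).1 e)) (by rw [cx0, cy2]; decide)
  have ex0y3 : Y.G.Adj x0 y3 := (m.adj _ _).2 ((h.ax mx0 my3).2 (by rw [cx0, cy3]; decide))
  have ey0y1 : Y.G.Adj y0 y1 := (m.adj _ _).2 ((h.aB my0 my1 n1_2).2 (by rw [cy0, cy1]; decide))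
  have ey0y2 : Y.G.Adj y0 y2 := (m.adj _ _).2 ((h.aB my0 my2 n1_3).2 (by rw [cy0, cy2]; decide))
  have ey0y3 : Y.G.Adj y0 y3 := (m.adj _ _).2 ((h.aB my0 my3 n1_4).2 (by rw [cy0, cy3]; decide))
  have ey1y2 : Y.G.Adj y1 y2 := (m.adj _ _).2 ((h.aB my1 my2 n2_3).2 (by rw [cy1, cy2]; decide))
  have ey1y3 : Y.G.Adj y1 y3 := (m.adj _ _).2 ((h.aB my1 my3 n2_4).2 (by rw [cy1, cy3]; decide))
  have ey2y3 : Y.G.Adj y2 y3 := (m.adj _ _).2 ((h.aB my2 my3 n3_4).2 (by rw [cy2, cy3]; decide))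
  exact j1 m.hq hn (m.sW _ mx0) (m.sB _ my0) (m.sB _ my1) (m.sB _ my2) (m.sB _ my3) ex0y0 ex0y1 ex0y2 ex0y3 ey0y1 ey0y2 ey0y3 ey1y2 ey1y3 ey2y3 (m.sub hs)

theorem j2_w [DecidableEq V] {cl : V → Fin 4} (h : RW (fc 4) (gc 4) G W B cl)
    (h1 : [1].Sublist (W.map cl))
    (h2 : [0, 2, 3, 1].Sublist (B.map cl)) : False := by
  obtain ⟨U, fn, Y, m⟩ := mdl_ex h.nd h.vl
  obtain ⟨la, sa, ea⟩ := lift_pat m (D := W) (fun v hv => List.mem_append_left _ hv) h1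
  obtain ⟨x0, la, rfl, cx0, ea⟩ := List.map_eq_cons_iff.1 ea
  obtain rfl := List.map_eq_nil_iff.1 ea
  have mx0 : fn x0 ∈ W := sa.subset (by simp)
  obtain ⟨lb, sb, eb⟩ := lift_pat m (D := B) (fun v hv => List.mem_append_right _ hv) h2
  obtain ⟨y0, lb, rfl, cy0, eb⟩ := List.map_eq_cons_iff.1 eb
  obtain ⟨y1, lb, rfl, cy1, eb⟩ := List.map_eq_cons_iff.1 eb
  obtain ⟨y2, lb, rfl, cy2, eb⟩ := List.map_eq_cons_iff.1 eb
  obtain ⟨y3, lb, rfl, cy3, eb⟩ := List.map_eq_cons_iff.1 eb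
  obtain rfl := List.map_eq_nil_iff.1 eb
  have my0 : fn y0 ∈ B := sb.subset (by simp)
  have my1 : fn y1 ∈ B := sb.subset (by simp)
  have my2 : fn y2 ∈ B := sb.subset (by simp)
  have my3 : fn y3 ∈ B := sb.subset (by simp)
  have hs : ([x0, y0, y1, y2, y3].map fn).Sublist (W ++ B) := sa.append sb
  have hn := m.nd h.nd hs
  have hn2 := hs.nodup h.nd
  simp only [List.map_cons, List.map_nil, List.nodup_cons, List.mem_cons, List.not_mem_nil, or_false, not_or, not_false_eq_true,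
    List.nodup_nil, and_true] at hn2
  obtain ⟨⟨n0_1, n0_2, n0_3, n0_4⟩, ⟨n1_2, n1_3, n1_4⟩, ⟨n2_3, n2_4⟩, n3_4⟩ := hn2
  have ex0y0 : ¬ Y.G.Adj x0 y0 := fun e => absurd ((h.ax mx0 my0).1 ((m.adj _ _).1 e)) (by rw [cx0, cy0]; decide)
  have ex0y1 : Y.G.Adj x0 y1 := (m.adj _ _).2 ((h.ax mx0 my1).2 (by rw [cx0, cy1]; decide))
  have ex0y2 : Y.G.Adj x0 y2 := (m.adj _ _).2 ((h.ax mx0 my2).2 (by rw [cx0, cy2]; decide))
  have ex0y3 : ¬ Y.G.Adj x0 y3 := fun e => absurd ((h.ax mx0 my3).1 ((m.adj _ _).1 e)) (by rw [cx0, cy3]; decide)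
  have ey0y1 : Y.G.Adj y0 y1 := (m.adj _ _).2 ((h.aB my0 my1 n1_2).2 (by rw [cy0, cy1]; decide))
  have ey0y2 : Y.G.Adj y0 y2 := (m.adj _ _).2 ((h.aB my0 my2 n1_3).2 (by rw [cy0, cy2]; decide))
  have ey0y3 : Y.G.Adj y0 y3 := (m.adj _ _).2 ((h.aB my0 my3 n1_4).2 (by rw [cy0, cy3]; decide))
  have ey1y2 : Y.G.Adj y1 y2 := (m.adj _ _).2 ((h.aB my1 my2 n2_3).2 (by rw [cy1, cy2]; decide))
  have ey1y3 : Y.G.Adj y1 y3 := (m.adj _ _).2 ((h.aB my1 my3 n2_4).2 (by rw [cy1, cy3]; decide))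
  have ey2y3 : Y.G.Adj y2 y3 := (m.adj _ _).2 ((h.aB my2 my3 n3_4).2 (by rw [cy2, cy3]; decide))
  exact j2 m.hq hn (m.sW _ mx0) (m.sB _ my0) (m.sB _ my1) (m.sB _ my2) (m.sB _ my3) ex0y0 ex0y1 ex0y2 ex0y3 ey0y1 ey0y2 ey0y3 ey1y2 ey1y3 ey2y3 (m.sub hs)

theorem j3_w [DecidableEq V] {cl : V → Fin 4} (h : RW (fc 4) (gc 4) G W B cl)
    (h1 : [1].Sublist (W.map cl))
    (h2 : [0, 3, 2, 1].Sublist (B.map cl)) : False := by
  obtain ⟨U, fn, Y, m⟩ := mdl_ex h.nd h.vl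
  obtain ⟨la, sa, ea⟩ := lift_pat m (D := W) (fun v hv => List.mem_append_left _ hv) h1
  obtain ⟨x0, la, rfl, cx0, ea⟩ := List.map_eq_cons_iff.1 ea
  obtain rfl := List.map_eq_nil_iff.1 ea
  have mx0 : fn x0 ∈ W := sa.subset (by simp)
  obtain ⟨lb, sb, eb⟩ := lift_pat m (D := B) (fun v hv => List.mem_append_right _ hv) h2
  obtain ⟨y0, lb, rfl, cy0, eb⟩ := List.map_eq_cons_iff.1 eb
  obtain ⟨y1, lb, rfl, cy1, eb⟩ := List.map_eq_cons_iff.1 eb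
  obtain ⟨y2, lb, rfl, cy2, eb⟩ := List.map_eq_cons_iff.1 eb
  obtain ⟨y3, lb, rfl, cy3, eb⟩ := List.map_eq_cons_iff.1 eb
  obtain rfl := List.map_eq_nil_iff.1 eb
  have my0 : fn y0 ∈ B := sb.subset (by simp)
  have my1 : fn y1 ∈ B := sb.subset (by simp)
  have my2 : fn y2 ∈ B := sb.subset (by simp)
  have my3 : fn y3 ∈ B := sb.subset (by simp)
  have hs : ([x0, y0, y1, y2, y3].map fn).Sublist (W ++ B) := sa.append sb
  have hn := m.nd h.nd hs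
  have hn2 := hs.nodup h.nd
  simp only [List.map_cons, List.map_nil, List.nodup_cons, List.mem_cons, List.not_mem_nil, or_false, not_or, not_false_eq_true,
    List.nodup_nil, and_true] at hn2
  obtain ⟨⟨n0_1, n0_2, n0_3, n0_4⟩, ⟨n1_2, n1_3, n1_4⟩, ⟨n2_3, n2_4⟩, n3_4⟩ := hn2
  have ex0y0 : ¬ Y.G.Adj x0 y0 := fun e => absurd ((h.ax mx0 my0).1 ((m.adj _ _).1 e)) (by rw [cx0, cy0]; decide)
  have ex0y1 : Y.G.Adj x0 y1 := (m.adj _ _).2 ((h.ax mx0 my1).2 (by rw [cx0, cy1]; decide))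
  have ex0y2 : Y.G.Adj x0 y2 := (m.adj _ _).2 ((h.ax mx0 my2).2 (by rw [cx0, cy2]; decide))
  have ex0y3 : ¬ Y.G.Adj x0 y3 := fun e => absurd ((h.ax mx0 my3).1 ((m.adj _ _).1 e)) (by rw [cx0, cy3]; decide)
  have ey0y1 : Y.G.Adj y0 y1 := (m.adj _ _).2 ((h.aB my0 my1 n1_2).2 (by rw [cy0, cy1]; decide))
  have ey0y2 : Y.G.Adj y0 y2 := (m.adj _ _).2 ((h.aB my0 my2 n1_3).2 (by rw [cy0, cy2]; decide))
  have ey0y3 : Y.G.Adj y0 y3 := (m.adj _ _).2 ((h.aB my0 my3 n1_4).2 (by rw [cy0, cy3]; decide))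
  have ey1y2 : Y.G.Adj y1 y2 := (m.adj _ _).2 ((h.aB my1 my2 n2_3).2 (by rw [cy1, cy2]; decide))
  have ey1y3 : Y.G.Adj y1 y3 := (m.adj _ _).2 ((h.aB my1 my3 n2_4).2 (by rw [cy1, cy3]; decide))
  have ey2y3 : Y.G.Adj y2 y3 := (m.adj _ _).2 ((h.aB my2 my3 n3_4).2 (by rw [cy2, cy3]; decide))
  exact j3 m.hq hn (m.sW _ mx0) (m.sB _ my0) (m.sB _ my1) (m.sB _ my2) (m.sB _ my3) ex0y0 ex0y1 ex0y2 ex0y3 ey0y1 ey0y2 ey0y3 ey1y2 ey1y3 ey2y3 (m.sub hs)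

theorem j4_w [DecidableEq V] {cl : V → Fin 4} (h : RW (fc 4) (gc 4) G W B cl)
    (h1 : [1, 2, 3].Sublist (W.map cl))
    (h2 : [1, 0].Sublist (B.map cl)) : False := by
  obtain ⟨U, fn, Y, m⟩ := mdl_ex h.nd h.vl
  obtain ⟨la, sa, ea⟩ := lift_pat m (D := W) (fun v hv => List.mem_append_left _ hv) h1
  obtain ⟨x0, la, rfl, cx0, ea⟩ := List.map_eq_cons_iff.1 ea
  obtain ⟨x1, la, rfl, cx1, ea⟩ := List.map_eq_cons_iff.1 ea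
  obtain ⟨x2, la, rfl, cx2, ea⟩ := List.map_eq_cons_iff.1 ea
  obtain rfl := List.map_eq_nil_iff.1 ea
  have mx0 : fn x0 ∈ W := sa.subset (by simp)
  have mx1 : fn x1 ∈ W := sa.subset (by simp)
  have mx2 : fn x2 ∈ W := sa.subset (by simp)
  obtain ⟨lb, sb, eb⟩ := lift_pat m (D := B) (fun v hv => List.mem_append_right _ hv) h2
  obtain ⟨y0, lb, rfl, cy0, eb⟩ := List.map_eq_cons_iff.1 eb
  obtain ⟨y1, lb, rfl, cy1, eb⟩ := List.map_eq_cons_iff.1 eb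
  obtain rfl := List.map_eq_nil_iff.1 eb
  have my0 : fn y0 ∈ B := sb.subset (by simp)
  have my1 : fn y1 ∈ B := sb.subset (by simp)
  have hs : ([x0, x1, x2, y0, y1].map fn).Sublist (W ++ B) := sa.append sb
  have hn := m.nd h.nd hs
  have hn2 := hs.nodup h.nd
  simp only [List.map_cons, List.map_nil, List.nodup_cons, List.mem_cons, List.not_mem_nil, or_false, not_or, not_false_eq_true,
    List.nodup_nil, and_true] at hn2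
  obtain ⟨⟨n0_1, n0_2, n0_3, n0_4⟩, ⟨n1_2, n1_3, n1_4⟩, ⟨n2_3, n2_4⟩, n3_4⟩ := hn2
  have ex0x1 : Y.G.Adj x0 x1 := (m.adj _ _).2 ((h.aW mx0 mx1 n0_1).2 (by rw [cx0, cx1]; decide))
  have ex0x2 : Y.G.Adj x0 x2 := (m.adj _ _).2 ((h.aW mx0 mx2 n0_2).2 (by rw [cx0, cx2]; decide))
  have ex0y0 : ¬ Y.G.Adj x0 y0 := fun e => absurd ((h.ax mx0 my0).1 ((m.adj _ _).1 e)) (by rw [cx0, cy0]; decide)
  have ex0y1 : ¬ Y.G.Adj x0 y1 := fun e => absurd ((h.ax mx0 my1).1 ((m.adj _ _).1 e)) (by rw [cx0, cy1]; decide)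
  have ex1x2 : Y.G.Adj x1 x2 := (m.adj _ _).2 ((h.aW mx1 mx2 n1_2).2 (by rw [cx1, cx2]; decide))
  have ex1y0 : Y.G.Adj x1 y0 := (m.adj _ _).2 ((h.ax mx1 my0).2 (by rw [cx1, cy0]; decide))
  have ex1y1 : ¬ Y.G.Adj x1 y1 := fun e => absurd ((h.ax mx1 my1).1 ((m.adj _ _).1 e)) (by rw [cx1, cy1]; decide)
  have ex2y0 : Y.G.Adj x2 y0 := (m.adj _ _).2 ((h.ax mx2 my0).2 (by rw [cx2, cy0]; decide))
  have ex2y1 : Y.G.Adj x2 y1 := (m.adj _ _).2 ((h.ax mx2 my1).2 (by rw [cx2, cy1]; decide))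
  have ey0y1 : Y.G.Adj y0 y1 := (m.adj _ _).2 ((h.aB my0 my1 n3_4).2 (by rw [cy0, cy1]; decide))
  exact j4 m.hq hn (m.sW _ mx0) (m.sW _ mx1) (m.sW _ mx2) (m.sB _ my0) (m.sB _ my1) ex0x1 ex0x2 ex0y0 ex0y1 ex1x2 ex1y0 ex1y1 ex2y0 ex2y1 ey0y1 (m.sub hs)

theorem j5_w [DecidableEq V] {cl : V → Fin 4} (h : RW (fc 4) (gc 4) G W B cl)
    (h1 : [0, 2, 3].Sublist (W.map cl))
    (h2 : [2, 0].Sublist (B.map cl)) : False := by
  obtain ⟨U, fn, Y, m⟩ := mdl_ex h.nd h.vl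
  obtain ⟨la, sa, ea⟩ := lift_pat m (D := W) (fun v hv => List.mem_append_left _ hv) h1
  obtain ⟨x0, la, rfl, cx0, ea⟩ := List.map_eq_cons_iff.1 ea
  obtain ⟨x1, la, rfl, cx1, ea⟩ := List.map_eq_cons_iff.1 ea
  obtain ⟨x2, la, rfl, cx2, ea⟩ := List.map_eq_cons_iff.1 ea
  obtain rfl := List.map_eq_nil_iff.1 ea
  have mx0 : fn x0 ∈ W := sa.subset (by simp)
  have mx1 : fn x1 ∈ W := sa.subset (by simp)
  have mx2 : fn x2 ∈ W := sa.subset (by simp)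
  obtain ⟨lb, sb, eb⟩ := lift_pat m (D := B) (fun v hv => List.mem_append_right _ hv) h2
  obtain ⟨y0, lb, rfl, cy0, eb⟩ := List.map_eq_cons_iff.1 eb
  obtain ⟨y1, lb, rfl, cy1, eb⟩ := List.map_eq_cons_iff.1 eb
  obtain rfl := List.map_eq_nil_iff.1 eb
  have my0 : fn y0 ∈ B := sb.subset (by simp)
  have my1 : fn y1 ∈ B := sb.subset (by simp)
  have hs : ([x0, x1, x2, y0, y1].map fn).Sublist (W ++ B) := sa.append sb
  have hn := m.nd h.nd hs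
  have hn2 := hs.nodup h.nd
  simp only [List.map_cons, List.map_nil, List.nodup_cons, List.mem_cons, List.not_mem_nil, or_false, not_or, not_false_eq_true,
    List.nodup_nil, and_true] at hn2
  obtain ⟨⟨n0_1, n0_2, n0_3, n0_4⟩, ⟨n1_2, n1_3, n1_4⟩, ⟨n2_3, n2_4⟩, n3_4⟩ := hn2
  have ex0x1 : Y.G.Adj x0 x1 := (m.adj _ _).2 ((h.aW mx0 mx1 n0_1).2 (by rw [cx0, cx1]; decide))
  have ex0x2 : Y.G.Adj x0 x2 := (m.adj _ _).2 ((h.aW mx0 mx2 n0_2).2 (by rw [cx0, cx2]; decide))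
  have ex0y0 : ¬ Y.G.Adj x0 y0 := fun e => absurd ((h.ax mx0 my0).1 ((m.adj _ _).1 e)) (by rw [cx0, cy0]; decide)
  have ex0y1 : ¬ Y.G.Adj x0 y1 := fun e => absurd ((h.ax mx0 my1).1 ((m.adj _ _).1 e)) (by rw [cx0, cy1]; decide)
  have ex1x2 : Y.G.Adj x1 x2 := (m.adj _ _).2 ((h.aW mx1 mx2 n1_2).2 (by rw [cx1, cx2]; decide))
  have ex1y0 : Y.G.Adj x1 y0 := (m.adj _ _).2 ((h.ax mx1 my0).2 (by rw [cx1, cy0]; decide))
  have ex1y1 : ¬ Y.G.Adj x1 y1 := fun e => absurd ((h.ax mx1 my1).1 ((m.adj _ _).1 e)) (by rw [cx1, cy1]; decide)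
  have ex2y0 : Y.G.Adj x2 y0 := (m.adj _ _).2 ((h.ax mx2 my0).2 (by rw [cx2, cy0]; decide))
  have ex2y1 : Y.G.Adj x2 y1 := (m.adj _ _).2 ((h.ax mx2 my1).2 (by rw [cx2, cy1]; decide))
  have ey0y1 : Y.G.Adj y0 y1 := (m.adj _ _).2 ((h.aB my0 my1 n3_4).2 (by rw [cy0, cy1]; decide))
  exact j5 m.hq hn (m.sW _ mx0) (m.sW _ mx1) (m.sW _ mx2) (m.sB _ my0) (m.sB _ my1) ex0x1 ex0x2 ex0y0 ex0y1 ex1x2 ex1y0 ex1y1 ex2y0 ex2y1 ey0y1 (m.sub hs)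

theorem j6_w [DecidableEq V] {cl : V → Fin 4} (h : RW (fc 4) (gc 4) G W B cl)
    (h1 : [1, 3, 2].Sublist (W.map cl))
    (h2 : [0, 3].Sublist (B.map cl)) : False := by
  obtain ⟨U, fn, Y, m⟩ := mdl_ex h.nd h.vl
  obtain ⟨la, sa, ea⟩ := lift_pat m (D := W) (fun v hv => List.mem_append_left _ hv) h1
  obtain ⟨x0, la, rfl, cx0, ea⟩ := List.map_eq_cons_iff.1 ea
  obtain ⟨x1, la, rfl, cx1, ea⟩ := List.map_eq_cons_iff.1 ea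
  obtain ⟨x2, la, rfl, cx2, ea⟩ := List.map_eq_cons_iff.1 ea
  obtain rfl := List.map_eq_nil_iff.1 ea
  have mx0 : fn x0 ∈ W := sa.subset (by simp)
  have mx1 : fn x1 ∈ W := sa.subset (by simp)
  have mx2 : fn x2 ∈ W := sa.subset (by simp)
  obtain ⟨lb, sb, eb⟩ := lift_pat m (D := B) (fun v hv => List.mem_append_right _ hv) h2
  obtain ⟨y0, lb, rfl, cy0, eb⟩ := List.map_eq_cons_iff.1 eb
  obtain ⟨y1, lb, rfl, cy1, eb⟩ := List.map_eq_cons_iff.1 eb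
  obtain rfl := List.map_eq_nil_iff.1 eb
  have my0 : fn y0 ∈ B := sb.subset (by simp)
  have my1 : fn y1 ∈ B := sb.subset (by simp)
  have hs : ([x0, x1, x2, y0, y1].map fn).Sublist (W ++ B) := sa.append sb
  have hn := m.nd h.nd hs
  have hn2 := hs.nodup h.nd
  simp only [List.map_cons, List.map_nil, List.nodup_cons, List.mem_cons, List.not_mem_nil, or_false, not_or, not_false_eq_true,
    List.nodup_nil, and_true] at hn2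
  obtain ⟨⟨n0_1, n0_2, n0_3, n0_4⟩, ⟨n1_2, n1_3, n1_4⟩, ⟨n2_3, n2_4⟩, n3_4⟩ := hn2
  have ex0x1 : Y.G.Adj x0 x1 := (m.adj _ _).2 ((h.aW mx0 mx1 n0_1).2 (by rw [cx0, cx1]; decide))
  have ex0x2 : Y.G.Adj x0 x2 := (m.adj _ _).2 ((h.aW mx0 mx2 n0_2).2 (by rw [cx0, cx2]; decide))
  have ex0y0 : ¬ Y.G.Adj x0 y0 := fun e => absurd ((h.ax mx0 my0).1 ((m.adj _ _).1 e)) (by rw [cx0, cy0]; decide)
  have ex0y1 : Y.G.Adj x0 y1 := (m.adj _ _).2 ((h.ax mx0 my1).2 (by rw [cx0, cy1]; decide))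
  have ex1x2 : Y.G.Adj x1 x2 := (m.adj _ _).2 ((h.aW mx1 mx2 n1_2).2 (by rw [cx1, cx2]; decide))
  have ex1y0 : Y.G.Adj x1 y0 := (m.adj _ _).2 ((h.ax mx1 my0).2 (by rw [cx1, cy0]; decide))
  have ex1y1 : Y.G.Adj x1 y1 := (m.adj _ _).2 ((h.ax mx1 my1).2 (by rw [cx1, cy1]; decide))
  have ex2y0 : ¬ Y.G.Adj x2 y0 := fun e => absurd ((h.ax mx2 my0).1 ((m.adj _ _).1 e)) (by rw [cx2, cy0]; decide)
  have ex2y1 : Y.G.Adj x2 y1 := (m.adj _ _).2 ((h.ax mx2 my1).2 (by rw [cx2, cy1]; decide))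
  have ey0y1 : Y.G.Adj y0 y1 := (m.adj _ _).2 ((h.aB my0 my1 n3_4).2 (by rw [cy0, cy1]; decide))
  exact j6 m.hq hn (m.sW _ mx0) (m.sW _ mx1) (m.sW _ mx2) (m.sB _ my0) (m.sB _ my1) ex0x1 ex0x2 ex0y0 ex0y1 ex1x2 ex1y0 ex1y1 ex2y0 ex2y1 ey0y1 (m.sub hs)

theorem j7_w [DecidableEq V] {cl : V → Fin 4} (h : RW (fc 4) (gc 4) G W B cl)
    (h1 : [1].Sublist (W.map cl))
    (h2 : [2, 1, 3, 0].Sublist (B.map cl)) : False := by
  obtain ⟨U, fn, Y, m⟩ := mdl_ex h.nd h.vl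
  obtain ⟨la, sa, ea⟩ := lift_pat m (D := W) (fun v hv => List.mem_append_left _ hv) h1
  obtain ⟨x0, la, rfl, cx0, ea⟩ := List.map_eq_cons_iff.1 ea
  obtain rfl := List.map_eq_nil_iff.1 ea
  have mx0 : fn x0 ∈ W := sa.subset (by simp)
  obtain ⟨lb, sb, eb⟩ := lift_pat m (D := B) (fun v hv => List.mem_append_right _ hv) h2
  obtain ⟨y0, lb, rfl, cy0, eb⟩ := List.map_eq_cons_iff.1 eb
  obtain ⟨y1, lb, rfl, cy1, eb⟩ := List.map_eq_cons_iff.1 eb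
  obtain ⟨y2, lb, rfl, cy2, eb⟩ := List.map_eq_cons_iff.1 eb
  obtain ⟨y3, lb, rfl, cy3, eb⟩ := List.map_eq_cons_iff.1 eb
  obtain rfl := List.map_eq_nil_iff.1 eb
  have my0 : fn y0 ∈ B := sb.subset (by simp)
  have my1 : fn y1 ∈ B := sb.subset (by simp)
  have my2 : fn y2 ∈ B := sb.subset (by simp)
  have my3 : fn y3 ∈ B := sb.subset (by simp)
  have hs : ([x0, y0, y1, y2, y3].map fn).Sublist (W ++ B) := sa.append sb
  have hn := m.nd h.nd hs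
  have hn2 := hs.nodup h.nd
  simp only [List.map_cons, List.map_nil, List.nodup_cons, List.mem_cons, List.not_mem_nil, or_false, not_or, not_false_eq_true,
    List.nodup_nil, and_true] at hn2
  obtain ⟨⟨n0_1, n0_2, n0_3, n0_4⟩, ⟨n1_2, n1_3, n1_4⟩, ⟨n2_3, n2_4⟩, n3_4⟩ := hn2
  have ex0y0 : Y.G.Adj x0 y0 := (m.adj _ _).2 ((h.ax mx0 my0).2 (by rw [cx0, cy0]; decide))
  have ex0y1 : ¬ Y.G.Adj x0 y1 := fun e => absurd ((h.ax mx0 my1).1 ((m.adj _ _).1 e)) (by rw [cx0, cy1]; decide)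
  have ex0y2 : Y.G.Adj x0 y2 := (m.adj _ _).2 ((h.ax mx0 my2).2 (by rw [cx0, cy2]; decide))
  have ex0y3 : ¬ Y.G.Adj x0 y3 := fun e => absurd ((h.ax mx0 my3).1 ((m.adj _ _).1 e)) (by rw [cx0, cy3]; decide)
  have ey0y1 : Y.G.Adj y0 y1 := (m.adj _ _).2 ((h.aB my0 my1 n1_2).2 (by rw [cy0, cy1]; decide))
  have ey0y2 : Y.G.Adj y0 y2 := (m.adj _ _).2 ((h.aB my0 my2 n1_3).2 (by rw [cy0, cy2]; decide))
  have ey0y3 : Y.G.Adj y0 y3 := (m.adj _ _).2 ((h.aB my0 my3 n1_4).2 (by rw [cy0, cy3]; decide))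
  have ey1y2 : Y.G.Adj y1 y2 := (m.adj _ _).2 ((h.aB my1 my2 n2_3).2 (by rw [cy1, cy2]; decide))
  have ey1y3 : Y.G.Adj y1 y3 := (m.adj _ _).2 ((h.aB my1 my3 n2_4).2 (by rw [cy1, cy3]; decide))
  have ey2y3 : Y.G.Adj y2 y3 := (m.adj _ _).2 ((h.aB my2 my3 n3_4).2 (by rw [cy2, cy3]; decide))
  exact j7 m.hq hn (m.sW _ mx0) (m.sB _ my0) (m.sB _ my1) (m.sB _ my2) (m.sB _ my3) ex0y0 ex0y1 ex0y2 ex0y3 ey0y1 ey0y2 ey0y3 ey1y2 ey1y3 ey2y3 (m.sub hs)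

theorem j8_w [DecidableEq V] {cl : V → Fin 4} (h : RW (fc 4) (gc 4) G W B cl)
    (h1 : [1, 3, 2].Sublist (W.map cl))
    (h2 : [0, 1].Sublist (B.map cl)) : False := by
  obtain ⟨U, fn, Y, m⟩ := mdl_ex h.nd h.vl
  obtain ⟨la, sa, ea⟩ := lift_pat m (D := W) (fun v hv => List.mem_append_left _ hv) h1
  obtain ⟨x0, la, rfl, cx0, ea⟩ := List.map_eq_cons_iff.1 ea
  obtain ⟨x1, la, rfl, cx1, ea⟩ := List.map_eq_cons_iff.1 ea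
  obtain ⟨x2, la, rfl, cx2, ea⟩ := List.map_eq_cons_iff.1 ea
  obtain rfl := List.map_eq_nil_iff.1 ea
  have mx0 : fn x0 ∈ W := sa.subset (by simp)
  have mx1 : fn x1 ∈ W := sa.subset (by simp)
  have mx2 : fn x2 ∈ W := sa.subset (by simp)
  obtain ⟨lb, sb, eb⟩ := lift_pat m (D := B) (fun v hv => List.mem_append_right _ hv) h2
  obtain ⟨y0, lb, rfl, cy0, eb⟩ := List.map_eq_cons_iff.1 eb
  obtain ⟨y1, lb, rfl, cy1, eb⟩ := List.map_eq_cons_iff.1 eb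
  obtain rfl := List.map_eq_nil_iff.1 eb
  have my0 : fn y0 ∈ B := sb.subset (by simp)
  have my1 : fn y1 ∈ B := sb.subset (by simp)
  have hs : ([x0, x1, x2, y0, y1].map fn).Sublist (W ++ B) := sa.append sb
  have hn := m.nd h.nd hs
  have hn2 := hs.nodup h.nd
  simp only [List.map_cons, List.map_nil, List.nodup_cons, List.mem_cons, List.not_mem_nil, or_false, not_or, not_false_eq_true,
    List.nodup_nil, and_true] at hn2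
  obtain ⟨⟨n0_1, n0_2, n0_3, n0_4⟩, ⟨n1_2, n1_3, n1_4⟩, ⟨n2_3, n2_4⟩, n3_4⟩ := hn2
  have ex0x1 : Y.G.Adj x0 x1 := (m.adj _ _).2 ((h.aW mx0 mx1 n0_1).2 (by rw [cx0, cx1]; decide))
  have ex0x2 : Y.G.Adj x0 x2 := (m.adj _ _).2 ((h.aW mx0 mx2 n0_2).2 (by rw [cx0, cx2]; decide))
  have ex0y0 : ¬ Y.G.Adj x0 y0 := fun e => absurd ((h.ax mx0 my0).1 ((m.adj _ _).1 e)) (by rw [cx0, cy0]; decide)
  have ex0y1 : ¬ Y.G.Adj x0 y1 := fun e => absurd ((h.ax mx0 my1).1 ((m.adj _ _).1 e)) (by rw [cx0, cy1]; decide)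
  have ex1x2 : Y.G.Adj x1 x2 := (m.adj _ _).2 ((h.aW mx1 mx2 n1_2).2 (by rw [cx1, cx2]; decide))
  have ex1y0 : Y.G.Adj x1 y0 := (m.adj _ _).2 ((h.ax mx1 my0).2 (by rw [cx1, cy0]; decide))
  have ex1y1 : Y.G.Adj x1 y1 := (m.adj _ _).2 ((h.ax mx1 my1).2 (by rw [cx1, cy1]; decide))
  have ex2y0 : ¬ Y.G.Adj x2 y0 := fun e => absurd ((h.ax mx2 my0).1 ((m.adj _ _).1 e)) (by rw [cx2, cy0]; decide)
  have ex2y1 : Y.G.Adj x2 y1 := (m.adj _ _).2 ((h.ax mx2 my1).2 (by rw [cx2, cy1]; decide))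
  have ey0y1 : Y.G.Adj y0 y1 := (m.adj _ _).2 ((h.aB my0 my1 n3_4).2 (by rw [cy0, cy1]; decide))
  exact j8 m.hq hn (m.sW _ mx0) (m.sW _ mx1) (m.sW _ mx2) (m.sB _ my0) (m.sB _ my1) ex0x1 ex0x2 ex0y0 ex0y1 ex1x2 ex1y0 ex1y1 ex2y0 ex2y1 ey0y1 (m.sub hs)

theorem j9_w [DecidableEq V] {cl : V → Fin 4} (h : RW (fc 4) (gc 4) G W B cl)
    (h1 : [1, 2].Sublist (W.map cl))
    (h2 : [3, 1, 0].Sublist (B.map cl)) : False := by
  obtain ⟨U, fn, Y, m⟩ := mdl_ex h.nd h.vl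
  obtain ⟨la, sa, ea⟩ := lift_pat m (D := W) (fun v hv => List.mem_append_left _ hv) h1
  obtain ⟨x0, la, rfl, cx0, ea⟩ := List.map_eq_cons_iff.1 ea
  obtain ⟨x1, la, rfl, cx1, ea⟩ := List.map_eq_cons_iff.1 ea
  obtain rfl := List.map_eq_nil_iff.1 ea
  have mx0 : fn x0 ∈ W := sa.subset (by simp)
  have mx1 : fn x1 ∈ W := sa.subset (by simp)
  obtain ⟨lb, sb, eb⟩ := lift_pat m (D := B) (fun v hv => List.mem_append_right _ hv) h2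
  obtain ⟨y0, lb, rfl, cy0, eb⟩ := List.map_eq_cons_iff.1 eb
  obtain ⟨y1, lb, rfl, cy1, eb⟩ := List.map_eq_cons_iff.1 eb
  obtain ⟨y2, lb, rfl, cy2, eb⟩ := List.map_eq_cons_iff.1 eb
  obtain rfl := List.map_eq_nil_iff.1 eb
  have my0 : fn y0 ∈ B := sb.subset (by simp)
  have my1 : fn y1 ∈ B := sb.subset (by simp)
  have my2 : fn y2 ∈ B := sb.subset (by simp)
  have hs : ([x0, x1, y0, y1, y2].map fn).Sublist (W ++ B) := sa.append sb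
  have hn := m.nd h.nd hs
  have hn2 := hs.nodup h.nd
  simp only [List.map_cons, List.map_nil, List.nodup_cons, List.mem_cons, List.not_mem_nil, or_false, not_or, not_false_eq_true,
    List.nodup_nil, and_true] at hn2
  obtain ⟨⟨n0_1, n0_2, n0_3, n0_4⟩, ⟨n1_2, n1_3, n1_4⟩, ⟨n2_3, n2_4⟩, n3_4⟩ := hn2
  have ex0x1 : Y.G.Adj x0 x1 := (m.adj _ _).2 ((h.aW mx0 mx1 n0_1).2 (by rw [cx0, cx1]; decide))
  have ex0y0 : Y.G.Adj x0 y0 := (m.adj _ _).2 ((h.ax mx0 my0).2 (by rw [cx0, cy0]; decide))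
  have ex0y1 : ¬ Y.G.Adj x0 y1 := fun e => absurd ((h.ax mx0 my1).1 ((m.adj _ _).1 e)) (by rw [cx0, cy1]; decide)
  have ex0y2 : ¬ Y.G.Adj x0 y2 := fun e => absurd ((h.ax mx0 my2).1 ((m.adj _ _).1 e)) (by rw [cx0, cy2]; decide)
  have ex1y0 : Y.G.Adj x1 y0 := (m.adj _ _).2 ((h.ax mx1 my0).2 (by rw [cx1, cy0]; decide))
  have ex1y1 : Y.G.Adj x1 y1 := (m.adj _ _).2 ((h.ax mx1 my1).2 (by rw [cx1, cy1]; decide))
  have ex1y2 : ¬ Y.G.Adj x1 y2 := fun e => absurd ((h.ax mx1 my2).1 ((m.adj _ _).1 e)) (by rw [cx1, cy2]; decide)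
  have ey0y1 : Y.G.Adj y0 y1 := (m.adj _ _).2 ((h.aB my0 my1 n2_3).2 (by rw [cy0, cy1]; decide))
  have ey0y2 : Y.G.Adj y0 y2 := (m.adj _ _).2 ((h.aB my0 my2 n2_4).2 (by rw [cy0, cy2]; decide))
  have ey1y2 : Y.G.Adj y1 y2 := (m.adj _ _).2 ((h.aB my1 my2 n3_4).2 (by rw [cy1, cy2]; decide))
  exact j9 m.hq hn (m.sW _ mx0) (m.sW _ mx1) (m.sB _ my0) (m.sB _ my1) (m.sB _ my2) ex0x1 ex0y0 ex0y1 ex0y2 ex1y0 ex1y1 ex1y2 ey0y1 ey0y2 ey1y2 (m.sub hs)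

theorem j10_w [DecidableEq V] {cl : V → Fin 4} (h : RW (fc 4) (gc 4) G W B cl)
    (h1 : [1].Sublist (W.map cl))
    (h2 : [3, 0, 2, 1].Sublist (B.map cl)) : False := by
  obtain ⟨U, fn, Y, m⟩ := mdl_ex h.nd h.vl
  obtain ⟨la, sa, ea⟩ := lift_pat m (D := W) (fun v hv => List.mem_append_left _ hv) h1
  obtain ⟨x0, la, rfl, cx0, ea⟩ := List.map_eq_cons_iff.1 ea
  obtain rfl := List.map_eq_nil_iff.1 ea
  have mx0 : fn x0 ∈ W := sa.subset (by simp)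
  obtain ⟨lb, sb, eb⟩ := lift_pat m (D := B) (fun v hv => List.mem_append_right _ hv) h2
  obtain ⟨y0, lb, rfl, cy0, eb⟩ := List.map_eq_cons_iff.1 eb
  obtain ⟨y1, lb, rfl, cy1, eb⟩ := List.map_eq_cons_iff.1 eb
  obtain ⟨y2, lb, rfl, cy2, eb⟩ := List.map_eq_cons_iff.1 eb
  obtain ⟨y3, lb, rfl, cy3, eb⟩ := List.map_eq_cons_iff.1 eb
  obtain rfl := List.map_eq_nil_iff.1 eb
  have my0 : fn y0 ∈ B := sb.subset (by simp)
  have my1 : fn y1 ∈ B := sb.subset (by simp)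
  have my2 : fn y2 ∈ B := sb.subset (by simp)
  have my3 : fn y3 ∈ B := sb.subset (by simp)
  have hs : ([x0, y0, y1, y2, y3].map fn).Sublist (W ++ B) := sa.append sb
  have hn := m.nd h.nd hs
  have hn2 := hs.nodup h.nd
  simp only [List.map_cons, List.map_nil, List.nodup_cons, List.mem_cons, List.not_mem_nil, or_false, not_or, not_false_eq_true,
    List.nodup_nil, and_true] at hn2
  obtain ⟨⟨n0_1, n0_2, n0_3, n0_4⟩, ⟨n1_2, n1_3, n1_4⟩, ⟨n2_3, n2_4⟩, n3_4⟩ := hn2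
  have ex0y0 : Y.G.Adj x0 y0 := (m.adj _ _).2 ((h.ax mx0 my0).2 (by rw [cx0, cy0]; decide))
  have ex0y1 : ¬ Y.G.Adj x0 y1 := fun e => absurd ((h.ax mx0 my1).1 ((m.adj _ _).1 e)) (by rw [cx0, cy1]; decide)
  have ex0y2 : Y.G.Adj x0 y2 := (m.adj _ _).2 ((h.ax mx0 my2).2 (by rw [cx0, cy2]; decide))
  have ex0y3 : ¬ Y.G.Adj x0 y3 := fun e => absurd ((h.ax mx0 my3).1 ((m.adj _ _).1 e)) (by rw [cx0, cy3]; decide)
  have ey0y1 : Y.G.Adj y0 y1 := (m.adj _ _).2 ((h.aB my0 my1 n1_2).2 (by rw [cy0, cy1]; decide))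
  have ey0y2 : Y.G.Adj y0 y2 := (m.adj _ _).2 ((h.aB my0 my2 n1_3).2 (by rw [cy0, cy2]; decide))
  have ey0y3 : Y.G.Adj y0 y3 := (m.adj _ _).2 ((h.aB my0 my3 n1_4).2 (by rw [cy0, cy3]; decide))
  have ey1y2 : Y.G.Adj y1 y2 := (m.adj _ _).2 ((h.aB my1 my2 n2_3).2 (by rw [cy1, cy2]; decide))
  have ey1y3 : Y.G.Adj y1 y3 := (m.adj _ _).2 ((h.aB my1 my3 n2_4).2 (by rw [cy1, cy3]; decide))
  have ey2y3 : Y.G.Adj y2 y3 := (m.adj _ _).2 ((h.aB my2 my3 n3_4).2 (by rw [cy2, cy3]; decide))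
  exact j10 m.hq hn (m.sW _ mx0) (m.sB _ my0) (m.sB _ my1) (m.sB _ my2) (m.sB _ my3) ex0y0 ex0y1 ex0y2 ex0y3 ey0y1 ey0y2 ey0y3 ey1y2 ey1y3 ey2y3 (m.sub hs)

theorem j11_w [DecidableEq V] {cl : V → Fin 4} (h : RW (fc 4) (gc 4) G W B cl)
    (h1 : [0].Sublist (W.map cl))
    (h2 : [1, 3, 0, 2].Sublist (B.map cl)) : False := by
  obtain ⟨U, fn, Y, m⟩ := mdl_ex h.nd h.vl
  obtain ⟨la, sa, ea⟩ := lift_pat m (D := W) (fun v hv => List.mem_append_left _ hv) h1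
  obtain ⟨x0, la, rfl, cx0, ea⟩ := List.map_eq_cons_iff.1 ea
  obtain rfl := List.map_eq_nil_iff.1 ea
  have mx0 : fn x0 ∈ W := sa.subset (by simp)
  obtain ⟨lb, sb, eb⟩ := lift_pat m (D := B) (fun v hv => List.mem_append_right _ hv) h2
  obtain ⟨y0, lb, rfl, cy0, eb⟩ := List.map_eq_cons_iff.1 eb
  obtain ⟨y1, lb, rfl, cy1, eb⟩ := List.map_eq_cons_iff.1 eb
  obtain ⟨y2, lb, rfl, cy2, eb⟩ := List.map_eq_cons_iff.1 eb
  obtain ⟨y3, lb, rfl, cy3, eb⟩ := List.map_eq_cons_iff.1 eb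
  obtain rfl := List.map_eq_nil_iff.1 eb
  have my0 : fn y0 ∈ B := sb.subset (by simp)
  have my1 : fn y1 ∈ B := sb.subset (by simp)
  have my2 : fn y2 ∈ B := sb.subset (by simp)
  have my3 : fn y3 ∈ B := sb.subset (by simp)
  have hs : ([x0, y0, y1, y2, y3].map fn).Sublist (W ++ B) := sa.append sb
  have hn := m.nd h.nd hs
  have hn2 := hs.nodup h.nd
  simp only [List.map_cons, List.map_nil, List.nodup_cons, List.mem_cons, List.not_mem_nil, or_false, not_or, not_false_eq_true,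
    List.nodup_nil, and_true] at hn2
  obtain ⟨⟨n0_1, n0_2, n0_3, n0_4⟩, ⟨n1_2, n1_3, n1_4⟩, ⟨n2_3, n2_4⟩, n3_4⟩ := hn2
  have ex0y0 : ¬ Y.G.Adj x0 y0 := fun e => absurd ((h.ax mx0 my0).1 ((m.adj _ _).1 e)) (by rw [cx0, cy0]; decide)
  have ex0y1 : Y.G.Adj x0 y1 := (m.adj _ _).2 ((h.ax mx0 my1).2 (by rw [cx0, cy1]; decide))
  have ex0y2 : ¬ Y.G.Adj x0 y2 := fun e => absurd ((h.ax mx0 my2).1 ((m.adj _ _).1 e)) (by rw [cx0, cy2]; decide)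
  have ex0y3 : ¬ Y.G.Adj x0 y3 := fun e => absurd ((h.ax mx0 my3).1 ((m.adj _ _).1 e)) (by rw [cx0, cy3]; decide)
  have ey0y1 : Y.G.Adj y0 y1 := (m.adj _ _).2 ((h.aB my0 my1 n1_2).2 (by rw [cy0, cy1]; decide))
  have ey0y2 : Y.G.Adj y0 y2 := (m.adj _ _).2 ((h.aB my0 my2 n1_3).2 (by rw [cy0, cy2]; decide))
  have ey0y3 : Y.G.Adj y0 y3 := (m.adj _ _).2 ((h.aB my0 my3 n1_4).2 (by rw [cy0, cy3]; decide))
  have ey1y2 : Y.G.Adj y1 y2 := (m.adj _ _).2 ((h.aB my1 my2 n2_3).2 (by rw [cy1, cy2]; decide))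
  have ey1y3 : Y.G.Adj y1 y3 := (m.adj _ _).2 ((h.aB my1 my3 n2_4).2 (by rw [cy1, cy3]; decide))
  have ey2y3 : Y.G.Adj y2 y3 := (m.adj _ _).2 ((h.aB my2 my3 n3_4).2 (by rw [cy2, cy3]; decide))
  exact j11 m.hq hn (m.sW _ mx0) (m.sB _ my0) (m.sB _ my1) (m.sB _ my2) (m.sB _ my3) ex0y0 ex0y1 ex0y2 ex0y3 ey0y1 ey0y2 ey0y3 ey1y2 ey1y3 ey2y3 (m.sub hs)

theorem j12_w [DecidableEq V] {cl : V → Fin 4} (h : RW (fc 4) (gc 4) G W B cl)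
    (h1 : [2, 1].Sublist (W.map cl))
    (h2 : [0, 1, 2].Sublist (B.map cl)) : False := by
  obtain ⟨U, fn, Y, m⟩ := mdl_ex h.nd h.vl
  obtain ⟨la, sa, ea⟩ := lift_pat m (D := W) (fun v hv => List.mem_append_left _ hv) h1
  obtain ⟨x0, la, rfl, cx0, ea⟩ := List.map_eq_cons_iff.1 ea
  obtain ⟨x1, la, rfl, cx1, ea⟩ := List.map_eq_cons_iff.1 ea
  obtain rfl := List.map_eq_nil_iff.1 ea
  have mx0 : fn x0 ∈ W := sa.subset (by simp)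
  have mx1 : fn x1 ∈ W := sa.subset (by simp)
  obtain ⟨lb, sb, eb⟩ := lift_pat m (D := B) (fun v hv => List.mem_append_right _ hv) h2
  obtain ⟨y0, lb, rfl, cy0, eb⟩ := List.map_eq_cons_iff.1 eb
  obtain ⟨y1, lb, rfl, cy1, eb⟩ := List.map_eq_cons_iff.1 eb
  obtain ⟨y2, lb, rfl, cy2, eb⟩ := List.map_eq_cons_iff.1 eb
  obtain rfl := List.map_eq_nil_iff.1 eb
  have my0 : fn y0 ∈ B := sb.subset (by simp)
  have my1 : fn y1 ∈ B := sb.subset (by simp)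
  have my2 : fn y2 ∈ B := sb.subset (by simp)
  have hs : ([x0, x1, y0, y1, y2].map fn).Sublist (W ++ B) := sa.append sb
  have hn := m.nd h.nd hs
  have hn2 := hs.nodup h.nd
  simp only [List.map_cons, List.map_nil, List.nodup_cons, List.mem_cons, List.not_mem_nil, or_false, not_or, not_false_eq_true,
    List.nodup_nil, and_true] at hn2
  obtain ⟨⟨n0_1, n0_2, n0_3, n0_4⟩, ⟨n1_2, n1_3, n1_4⟩, ⟨n2_3, n2_4⟩, n3_4⟩ := hn2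
  have ex0x1 : Y.G.Adj x0 x1 := (m.adj _ _).2 ((h.aW mx0 mx1 n0_1).2 (by rw [cx0, cx1]; decide))
  have ex0y0 : ¬ Y.G.Adj x0 y0 := fun e => absurd ((h.ax mx0 my0).1 ((m.adj _ _).1 e)) (by rw [cx0, cy0]; decide)
  have ex0y1 : Y.G.Adj x0 y1 := (m.adj _ _).2 ((h.ax mx0 my1).2 (by rw [cx0, cy1]; decide))
  have ex0y2 : Y.G.Adj x0 y2 := (m.adj _ _).2 ((h.ax mx0 my2).2 (by rw [cx0, cy2]; decide))
  have ex1y0 : ¬ Y.G.Adj x1 y0 := fun e => absurd ((h.ax mx1 my0).1 ((m.adj _ _).1 e)) (by rw [cx1, cy0]; decide)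
  have ex1y1 : ¬ Y.G.Adj x1 y1 := fun e => absurd ((h.ax mx1 my1).1 ((m.adj _ _).1 e)) (by rw [cx1, cy1]; decide)
  have ex1y2 : Y.G.Adj x1 y2 := (m.adj _ _).2 ((h.ax mx1 my2).2 (by rw [cx1, cy2]; decide))
  have ey0y1 : Y.G.Adj y0 y1 := (m.adj _ _).2 ((h.aB my0 my1 n2_3).2 (by rw [cy0, cy1]; decide))
  have ey0y2 : Y.G.Adj y0 y2 := (m.adj _ _).2 ((h.aB my0 my2 n2_4).2 (by rw [cy0, cy2]; decide))
  have ey1y2 : Y.G.Adj y1 y2 := (m.adj _ _).2 ((h.aB my1 my2 n3_4).2 (by rw [cy1, cy2]; decide))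
  exact j12 m.hq hn (m.sW _ mx0) (m.sW _ mx1) (m.sB _ my0) (m.sB _ my1) (m.sB _ my2) ex0x1 ex0y0 ex0y1 ex0y2 ex1y0 ex1y1 ex1y2 ey0y1 ey0y2 ey1y2 (m.sub hs)

theorem j13_w [DecidableEq V] {cl : V → Fin 4} (h : RW (fc 4) (gc 4) G W B cl)
    (h1 : [2, 0, 1].Sublist (W.map cl))
    (h2 : [3, 1, 0, 2].Sublist (B.map cl)) : False := by
  obtain ⟨U, fn, Y, m⟩ := mdl_ex h.nd h.vl
  obtain ⟨la, sa, ea⟩ := lift_pat m (D := W) (fun v hv => List.mem_append_left _ hv) h1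
  obtain ⟨x0, la, rfl, cx0, ea⟩ := List.map_eq_cons_iff.1 ea
  obtain ⟨x1, la, rfl, cx1, ea⟩ := List.map_eq_cons_iff.1 ea
  obtain ⟨x2, la, rfl, cx2, ea⟩ := List.map_eq_cons_iff.1 ea
  obtain rfl := List.map_eq_nil_iff.1 ea
  have mx0 : fn x0 ∈ W := sa.subset (by simp)
  have mx1 : fn x1 ∈ W := sa.subset (by simp)
  have mx2 : fn x2 ∈ W := sa.subset (by simp)
  obtain ⟨lb, sb, eb⟩ := lift_pat m (D := B) (fun v hv => List.mem_append_right _ hv) h2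
  obtain ⟨y0, lb, rfl, cy0, eb⟩ := List.map_eq_cons_iff.1 eb
  obtain ⟨y1, lb, rfl, cy1, eb⟩ := List.map_eq_cons_iff.1 eb
  obtain ⟨y2, lb, rfl, cy2, eb⟩ := List.map_eq_cons_iff.1 eb
  obtain ⟨y3, lb, rfl, cy3, eb⟩ := List.map_eq_cons_iff.1 eb
  obtain rfl := List.map_eq_nil_iff.1 eb
  have my0 : fn y0 ∈ B := sb.subset (by simp)
  have my1 : fn y1 ∈ B := sb.subset (by simp)
  have my2 : fn y2 ∈ B := sb.subset (by simp)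
  have my3 : fn y3 ∈ B := sb.subset (by simp)
  have hs : ([x0, x1, x2, y0, y1, y2, y3].map fn).Sublist (W ++ B) := sa.append sb
  have hn := m.nd h.nd hs
  have hn2 := hs.nodup h.nd
  simp only [List.map_cons, List.map_nil, List.nodup_cons, List.mem_cons, List.not_mem_nil, or_false, not_or, not_false_eq_true,
    List.nodup_nil, and_true] at hn2
  obtain ⟨⟨n0_1, n0_2, n0_3, n0_4, n0_5, n0_6⟩, ⟨n1_2, n1_3, n1_4, n1_5, n1_6⟩, ⟨n2_3, n2_4, n2_5, n2_6⟩, ⟨n3_4, n3_5, n3_6⟩, ⟨n4_5, n4_6⟩, n5_6⟩ := hn2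
  have ex0x1 : Y.G.Adj x0 x1 := (m.adj _ _).2 ((h.aW mx0 mx1 n0_1).2 (by rw [cx0, cx1]; decide))
  have ex0x2 : Y.G.Adj x0 x2 := (m.adj _ _).2 ((h.aW mx0 mx2 n0_2).2 (by rw [cx0, cx2]; decide))
  have ex0y0 : Y.G.Adj x0 y0 := (m.adj _ _).2 ((h.ax mx0 my0).2 (by rw [cx0, cy0]; decide))
  have ex0y1 : Y.G.Adj x0 y1 := (m.adj _ _).2 ((h.ax mx0 my1).2 (by rw [cx0, cy1]; decide))
  have ex0y2 : ¬ Y.G.Adj x0 y2 := fun e => absurd ((h.ax mx0 my2).1 ((m.adj _ _).1 e)) (by rw [cx0, cy2]; decide)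
  have ex0y3 : Y.G.Adj x0 y3 := (m.adj _ _).2 ((h.ax mx0 my3).2 (by rw [cx0, cy3]; decide))
  have ex1x2 : Y.G.Adj x1 x2 := (m.adj _ _).2 ((h.aW mx1 mx2 n1_2).2 (by rw [cx1, cx2]; decide))
  have ex1y0 : Y.G.Adj x1 y0 := (m.adj _ _).2 ((h.ax mx1 my0).2 (by rw [cx1, cy0]; decide))
  have ex1y1 : ¬ Y.G.Adj x1 y1 := fun e => absurd ((h.ax mx1 my1).1 ((m.adj _ _).1 e)) (by rw [cx1, cy1]; decide)
  have ex1y2 : ¬ Y.G.Adj x1 y2 := fun e => absurd ((h.ax mx1 my2).1 ((m.adj _ _).1 e)) (by rw [cx1, cy2]; decide)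
  have ex1y3 : ¬ Y.G.Adj x1 y3 := fun e => absurd ((h.ax mx1 my3).1 ((m.adj _ _).1 e)) (by rw [cx1, cy3]; decide)
  have ex2y0 : Y.G.Adj x2 y0 := (m.adj _ _).2 ((h.ax mx2 my0).2 (by rw [cx2, cy0]; decide))
  have ex2y1 : ¬ Y.G.Adj x2 y1 := fun e => absurd ((h.ax mx2 my1).1 ((m.adj _ _).1 e)) (by rw [cx2, cy1]; decide)
  have ex2y2 : ¬ Y.G.Adj x2 y2 := fun e => absurd ((h.ax mx2 my2).1 ((m.adj _ _).1 e)) (by rw [cx2, cy2]; decide)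
  have ex2y3 : Y.G.Adj x2 y3 := (m.adj _ _).2 ((h.ax mx2 my3).2 (by rw [cx2, cy3]; decide))
  have ey0y1 : Y.G.Adj y0 y1 := (m.adj _ _).2 ((h.aB my0 my1 n3_4).2 (by rw [cy0, cy1]; decide))
  have ey0y2 : Y.G.Adj y0 y2 := (m.adj _ _).2 ((h.aB my0 my2 n3_5).2 (by rw [cy0, cy2]; decide))
  have ey0y3 : Y.G.Adj y0 y3 := (m.adj _ _).2 ((h.aB my0 my3 n3_6).2 (by rw [cy0, cy3]; decide))
  have ey1y2 : Y.G.Adj y1 y2 := (m.adj _ _).2 ((h.aB my1 my2 n4_5).2 (by rw [cy1, cy2]; decide))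
  have ey1y3 : Y.G.Adj y1 y3 := (m.adj _ _).2 ((h.aB my1 my3 n4_6).2 (by rw [cy1, cy3]; decide))
  have ey2y3 : Y.G.Adj y2 y3 := (m.adj _ _).2 ((h.aB my2 my3 n5_6).2 (by rw [cy2, cy3]; decide))
  exact j13 m.hq hn (m.sW _ mx0) (m.sW _ mx1) (m.sW _ mx2) (m.sB _ my0) (m.sB _ my1) (m.sB _ my2) (m.sB _ my3) ex0x1 ex0x2 ex0y0 ex0y1 ex0y2 ex0y3 ex1x2 ex1y0 ex1y1 ex1y2 ex1y3 ex2y0 ex2y1 ex2y2 ex2y3 ey0y1 ey0y2 ey0y3 ey1y2 ey1y3 ey2y3 (m.sub hs)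

end Pool.Agent.SOH
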